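import Mathlib

/-!
# Angles: dihedral angles of a trihedral cone, angles around a point of the plane
-/

open scoped BigOperators Topology RealInnerProductSpace
open Finset InnerProductGeometry

noncomputable section

namespace Pool.CB

abbrev EE := EuclideanSpace ℝ (Fin 3)

/-- The cross product. -/
def cr (x y : EE) : EE :=
  WithLp.toLp 2 ![x 1 * y 2 - x 2 * y 1, x 2 * y 0 - x 0 * y 2, x 0 * y 1 - x 1 * y 0]

theorem inner_three (x y : EE) : ⟪x, y⟫ = x 0 * y 0 + x 1 * y 1 + x 2 * y 2 := by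
  rw [PiLp.inner_apply, Fin.sum_univ_three]
  simp only [RCLike.inner_apply, conj_trivial]
  ring

theorem inner_cr (a b c : EE) : ⟪cr a b, cr a c⟫ = ⟪a, a⟫ * ⟪b, c⟫ - ⟪a, b⟫ * ⟪a, c⟫ := by
  simp only [inner_three, cr, PiLp.toLp_apply, Matrix.cons_val_zero, Matrix.cons_val_one,
    Matrix.cons_val]
  ring

theorem cr_comm (a b : EE) : cr a b = - cr b a := by
  ext i
  fin_cases i <;> simp [cr] <;> ring

/-- The projection to the orthogonal complement of `a`. -/
def pj (a x : EE) : EE := x - (⟪a, x⟫ / ⟪a, a⟫) • a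

/-- The dihedral angle at `a`. -/
def dih (a b c : EE) : ℝ := angle (pj a b) (pj a c)

theorem inner_pj {a : EE} (ha : a ≠ 0) (x y : EE) :
    ⟪pj a x, pj a y⟫ = ⟪x, y⟫ - ⟪a, x⟫ * ⟪a, y⟫ / ⟪a, a⟫ := by
  have h0 : ⟪a, a⟫ ≠ 0 := inner_self_ne_zero.2 ha
  simp only [pj, inner_sub_left, inner_sub_right, real_inner_smul_left, real_inner_smul_right]
  rw [real_inner_comm a x]
  field_simp
  ring

theorem angle_eq_of_inner {x y x' y' : EE} {r : ℝ} (hr : 0 < r) (hxy : ⟪x', y'⟫ = r * ⟪x, y⟫)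
    (hx : ⟪x', x'⟫ = r * ⟪x, x⟫) (hy : ⟪y', y'⟫ = r * ⟪y, y⟫) : angle x' y' = angle x y := by
  unfold angle
  congr 1
  have h1 : ‖x'‖ = Real.sqrt r * ‖x‖ := by
    rw [norm_eq_sqrt_real_inner, norm_eq_sqrt_real_inner, hx, Real.sqrt_mul hr.le]
  have h2 : ‖y'‖ = Real.sqrt r * ‖y‖ := by
    rw [norm_eq_sqrt_real_inner, norm_eq_sqrt_real_inner, hy, Real.sqrt_mul hr.le]
  rw [hxy, h1, h2]
  have h3 : Real.sqrt r * ‖x‖ * (Real.sqrt r * ‖y‖) = r * (‖x‖ * ‖y‖) := by
    have := Real.mul_self_sqrt hr.le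
    linear_combination (‖x‖ * ‖y‖) * this
  rw [h3, mul_div_mul_left _ _ hr.ne']

theorem dih_eq_cr {a : EE} (ha : a ≠ 0) (b c : EE) : dih a b c = angle (cr a b) (cr a c) := by
  have h0 : 0 < ⟪a, a⟫ := real_inner_self_pos.2 ha
  refine (angle_eq_of_inner h0 ?_ ?_ ?_).symm <;>
  · rw [inner_cr, inner_pj ha]
    field_simp

/-- Linear independence of three vectors in the form which is used below. -/
def Ind3 (a b c : EE) : Prop := ∀ x y z : ℝ, x • a + y • b + z • c = 0 → x = 0 ∧ y = 0 ∧ z = 0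

/-- The triple product. -/
def tp (a b c : EE) : ℝ := ⟪a, cr b c⟫

theorem tp_ne {a b c : EE} (h : Ind3 a b c) : tp a b c ≠ 0 := by
  intro h0
  -- a vanishing determinant gives a relation
  have key : ∀ u : EE, ⟪u, cr b c⟫ • a + ⟪u, cr c a⟫ • b + ⟪u, cr a b⟫ • c = tp a b c • u := by
    intro u
    ext i
    fin_cases i <;> simp only [tp, inner_three, cr, PiLp.toLp_apply, PiLp.add_apply,
      PiLp.smul_apply, smul_eq_mul, Fin.zero_eta, Fin.mk_one, Fin.reduceFinMk,
      Matrix.cons_val_zero, Matrix.cons_val_one, Matrix.cons_val] <;> ring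
  have h1 : ∀ u : EE, ⟪u, cr b c⟫ = 0 ∧ ⟪u, cr c a⟫ = 0 ∧ ⟪u, cr a b⟫ = 0 := by
    intro u
    refine h _ _ _ ?_
    rw [key u, h0, zero_smul]
  have h2 : cr a b = 0 := inner_self_eq_zero.1 (h1 (cr a b)).2.2
  -- then `a`, `b` are dependent
  have h3 : ⟪a, a⟫ • b - ⟪a, b⟫ • a = 0 := by
    have e0 := congrArg (fun w : EE => w 0) h2
    have e1 := congrArg (fun w : EE => w 1) h2
    have e2 := congrArg (fun w : EE => w 2) h2
    simp only [cr, PiLp.toLp_apply, Matrix.cons_val_zero, Matrix.cons_val_one, Matrix.cons_val,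
      PiLp.zero_apply] at e0 e1 e2
    ext i
    fin_cases i <;> simp only [inner_three, PiLp.sub_apply, PiLp.smul_apply, smul_eq_mul,
      Fin.zero_eta, Fin.mk_one, Fin.reduceFinMk, PiLp.zero_apply]
    · linear_combination (-(a 1)) * e2 + (a 2) * e1
    · linear_combination (a 0) * e2 - (a 2) * e0
    · linear_combination (-(a 0)) * e1 + (a 1) * e0
  have h4 := h (-⟪a, b⟫) ⟪a, a⟫ 0 (by rw [← h3]; module)
  have h5 : a = 0 := inner_self_eq_zero.1 h4.2.1
  have h6 := h 1 0 0 (by rw [h5]; simp)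
  exact one_ne_zero h6.1

theorem ind_cr {a b c : EE} (h : Ind3 a b c) : Ind3 (cr b c) (cr c a) (cr a b) := by
  intro x y z hxyz
  have htp := tp_ne h
  have e1 := congrArg (fun w => ⟪a, w⟫) hxyz
  have e2 := congrArg (fun w => ⟪b, w⟫) hxyz
  have e3 := congrArg (fun w => ⟪c, w⟫) hxyz
  simp only [inner_add_right, real_inner_smul_right, inner_zero_right] at e1 e2 e3
  have a1 : ⟪a, cr c a⟫ = 0 := by
    simp only [inner_three, cr, PiLp.toLp_apply, Matrix.cons_val_zero, Matrix.cons_val_one,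
      Matrix.cons_val]; ring
  have a2 : ⟪a, cr a b⟫ = 0 := by
    simp only [inner_three, cr, PiLp.toLp_apply, Matrix.cons_val_zero, Matrix.cons_val_one,
      Matrix.cons_val]; ring
  have b1 : ⟪b, cr b c⟫ = 0 := by
    simp only [inner_three, cr, PiLp.toLp_apply, Matrix.cons_val_zero, Matrix.cons_val_one,
      Matrix.cons_val]; ring
  have b2 : ⟪b, cr a b⟫ = 0 := by
    simp only [inner_three, cr, PiLp.toLp_apply, Matrix.cons_val_zero, Matrix.cons_val_one,
      Matrix.cons_val]; ring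
  have c1 : ⟪c, cr b c⟫ = 0 := by
    simp only [inner_three, cr, PiLp.toLp_apply, Matrix.cons_val_zero, Matrix.cons_val_one,
      Matrix.cons_val]; ring
  have c2 : ⟪c, cr c a⟫ = 0 := by
    simp only [inner_three, cr, PiLp.toLp_apply, Matrix.cons_val_zero, Matrix.cons_val_one,
      Matrix.cons_val]; ring
  have t1 : ⟪a, cr b c⟫ = tp a b c := rfl
  have t2 : ⟪b, cr c a⟫ = tp a b c := by
    simp only [tp, inner_three, cr, PiLp.toLp_apply, Matrix.cons_val_zero, Matrix.cons_val_one,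
      Matrix.cons_val]; ring
  have t3 : ⟪c, cr a b⟫ = tp a b c := by
    simp only [tp, inner_three, cr, PiLp.toLp_apply, Matrix.cons_val_zero, Matrix.cons_val_one,
      Matrix.cons_val]; ring
  rw [a1, a2, t1] at e1
  rw [b1, b2, t2] at e2
  rw [c1, c2, t3] at e3
  refine ⟨?_, ?_, ?_⟩
  · have : x * tp a b c = 0 := by linarith
    exact (mul_eq_zero.1 this).resolve_right htp
  · have : y * tp a b c = 0 := by linarith
    exact (mul_eq_zero.1 this).resolve_right htp
  · have : z * tp a b c = 0 := by linarith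
    exact (mul_eq_zero.1 this).resolve_right htp

/-- The perimeter of a spherical triangle is less than `2π`. -/
theorem perimeter_lt {x y z : EE} (h : Ind3 x y z) :
    angle x y + angle y z + angle z x < 2 * Real.pi := by
  have hz : z ≠ 0 := by
    rintro rfl
    exact one_ne_zero (h 0 0 1 (by simp)).2.2
  have hle := angle_le_angle_add_angle x (-z) y
  have hne : angle x y ≠ angle x (-z) + angle (-z) y := by
    rw [ne_eq, angle_eq_angle_add_angle_iff (neg_ne_zero.2 hz)]
    rintro (h1 | h1)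
    · rw [angle_eq_pi_iff] at h1
      obtain ⟨_, r, _, hr⟩ := h1
      have := h r (-1) 0 (by rw [hr]; simp)
      norm_num at this
    · rw [Submodule.mem_span_pair] at h1
      obtain ⟨s, t, hst⟩ := h1
      have h2 : (s : ℝ) • x + (t : ℝ) • y + (1 : ℝ) • z = 0 := by
        have h3 : (s : ℝ) • x + (t : ℝ) • y = -z := by
          rw [← hst]; rfl
        rw [h3]; simp
      exact one_ne_zero (h _ _ _ h2).2.2
  have hlt := lt_of_le_of_ne hle hne
  rw [angle_neg_right, angle_neg_left, angle_comm x z, angle_comm z y] at hlt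
  linarith

/-- The sum of the dihedral angles of a trihedral cone is greater than `π`. -/
theorem excess {a b c : EE} (h : Ind3 a b c) : Real.pi < dih a b c + dih b c a + dih c a b := by
  have ha : a ≠ 0 := by
    rintro rfl
    exact one_ne_zero (h 1 0 0 (by simp)).1
  have hb : b ≠ 0 := by
    rintro rfl
    exact one_ne_zero (h 0 1 0 (by simp)).2.1
  have hc : c ≠ 0 := by
    rintro rfl
    exact one_ne_zero (h 0 0 1 (by simp)).2.2
  rw [dih_eq_cr ha, dih_eq_cr hb, dih_eq_cr hc, cr_comm a c, cr_comm b a, cr_comm c b]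
  have hp := perimeter_lt (ind_cr h)
  rw [angle_neg_right, angle_neg_right, angle_neg_right]
  rw [angle_comm (cr b c) (cr c a), angle_comm (cr c a) (cr a b), angle_comm (cr a b) (cr b c)] at hp
  rw [angle_comm (cr a b) (cr c a), angle_comm (cr b c) (cr a b), angle_comm (cr c a) (cr b c)]
  rw [angle_comm (cr c a) (cr b c), angle_comm (cr a b) (cr c a), angle_comm (cr b c) (cr a b)] at hp
  linarith

end Pool.CB
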