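import Mathlib

open scoped BigOperators Topology
open Finset

noncomputable section

namespace Pool.CB

variable {P : Type*}

/-- Shift of a net. -/
def shf (p : P) (c : (P →₀ ℕ) → ℝ) : (P →₀ ℕ) → ℝ := fun a => c (a + Finsupp.single p 1)

/-- The polynomial with Bernstein coefficients `c`, by the algorithm of de Casteljau. -/
def Bz (t : Finset P) : ℕ → ((P →₀ ℕ) → ℝ) → (P → ℝ) → ℝ
  | 0, c, _ => c 0
  | (k + 1), c, l => ∑ p ∈ t, l p * Bz t k (shf p c) l

theorem Bz_succ (t : Finset P) (k : ℕ) (c : (P →₀ ℕ) → ℝ) (l : P → ℝ) :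
    Bz t (k + 1) c l = ∑ p ∈ t, l p * Bz t k (shf p c) l := rfl

theorem shf_comm (p q : P) (c : (P →₀ ℕ) → ℝ) : shf p (shf q c) = shf q (shf p c) := by
  funext a
  simp only [shf]
  rw [add_right_comm]

theorem Bz_add (t : Finset P) (k : ℕ) (c c' : (P →₀ ℕ) → ℝ) (l : P → ℝ) :
    Bz t k (fun a => c a + c' a) l = Bz t k c l + Bz t k c' l := by
  induction k generalizing c c' with
  | zero => rfl
  | succ k ih =>
    rw [Bz_succ, Bz_succ, Bz_succ, ← Finset.sum_add_distrib]
    refine Finset.sum_congr rfl fun p _ => ?_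
    have := ih (shf p c) (shf p c')
    rw [← mul_add, ← this]
    rfl

theorem Bz_smul (t : Finset P) (k : ℕ) (x : ℝ) (c : (P →₀ ℕ) → ℝ) (l : P → ℝ) :
    Bz t k (fun a => x * c a) l = x * Bz t k c l := by
  induction k generalizing c with
  | zero => rfl
  | succ k ih =>
    rw [Bz_succ, Bz_succ, Finset.mul_sum]
    refine Finset.sum_congr rfl fun p _ => ?_
    have := ih (shf p c)
    have h2 : Bz t k (shf p (fun a => x * c a)) l = x * Bz t k (shf p c) l := this
    rw [h2]; ring

theorem Bz_zero (t : Finset P) (k : ℕ) (l : P → ℝ) : Bz t k (fun _ => 0) l = 0 := by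
  have := Bz_smul t k 0 (fun _ => 0) l
  simpa using this

theorem Bz_sum (t : Finset P) (k : ℕ) {ι : Type*} (u : Finset ι) (w : ι → ℝ)
    (c : ι → (P →₀ ℕ) → ℝ) (l : P → ℝ) :
    Bz t k (fun a => ∑ i ∈ u, w i * c i a) l = ∑ i ∈ u, w i * Bz t k (c i) l := by
  classical
  induction u using Finset.induction_on with
  | empty => simp [Bz_zero]
  | insert i u hi ih =>
    rw [Finset.sum_insert hi, ← ih, ← Bz_smul, ← Bz_add]
    congr 1
    funext a
    rw [Finset.sum_insert hi]

theorem Bz_congr (t : Finset P) (k : ℕ) {c c' : (P →₀ ℕ) → ℝ} (l : P → ℝ)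
    (hc : ∀ b : P →₀ ℕ, b.support ⊆ t → b.degree = k → c b = c' b) : Bz t k c l = Bz t k c' l := by
  classical
  induction k generalizing c c' with
  | zero => exact hc 0 (by simp) (by simp)
  | succ k ih =>
    rw [Bz_succ, Bz_succ]
    refine Finset.sum_congr rfl fun p hp => ?_
    rw [ih (c := shf p c) (c' := shf p c')]
    intro b hb hbk
    refine hc _ ?_ ?_
    · intro q hq
      rw [Finsupp.mem_support_iff, Finsupp.add_apply] at hq
      by_cases hqp : p = q
      · rw [← hqp]; exact hp
      · rw [Finsupp.single_apply, if_neg hqp, add_zero] at hq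
        exact hb (Finsupp.mem_support_iff.2 hq)
    · rw [map_add, hbk]; simp

theorem Bz_congr_l (t : Finset P) (k : ℕ) (c : (P →₀ ℕ) → ℝ) {l l' : P → ℝ}
    (hl : ∀ p ∈ t, l p = l' p) : Bz t k c l = Bz t k c l' := by
  induction k generalizing c with
  | zero => rfl
  | succ k ih =>
    rw [Bz_succ, Bz_succ]
    refine Finset.sum_congr rfl fun p hp => ?_
    rw [ih, hl p hp]

theorem Bz_subset {s t : Finset P} (hst : s ⊆ t) (k : ℕ) (c : (P →₀ ℕ) → ℝ) {l : P → ℝ}
    (hl : ∀ p ∈ t, p ∉ s → l p = 0) : Bz t k c l = Bz s k c l := by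
  induction k generalizing c with
  | zero => rfl
  | succ k ih =>
    rw [Bz_succ, Bz_succ, ← Finset.sum_subset hst]
    · refine Finset.sum_congr rfl fun p _ => ?_
      rw [ih]
    · intro p hp hps
      rw [hl p hp hps, zero_mul]

theorem Bz_homog (t : Finset P) (k : ℕ) (c : (P →₀ ℕ) → ℝ) (r : ℝ) (l : P → ℝ) :
    Bz t k c (fun p => r * l p) = r ^ k * Bz t k c l := by
  induction k generalizing c with
  | zero => simp [Bz]
  | succ k ih =>
    rw [Bz_succ, Bz_succ, Finset.mul_sum]
    refine Finset.sum_congr rfl fun p _ => ?_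
    rw [ih, pow_succ]; ring

theorem Bz_hasFDerivAt {X : Type*} [NormedAddCommGroup X] [NormedSpace ℝ X] (t : Finset P) (k : ℕ)
    (c : (P →₀ ℕ) → ℝ) {A : X → P → ℝ} {A' : P → X →L[ℝ] ℝ} {x : X}
    (hA : ∀ p ∈ t, HasFDerivAt (fun y => A y p) (A' p) x) :
    HasFDerivAt (fun y => Bz t (k + 1) c (A y))
      (((k : ℝ) + 1) • ∑ p ∈ t, Bz t k (shf p c) (A x) • A' p) x := by
  induction k generalizing c with
  | zero =>
    have h1 : HasFDerivAt (fun y => ∑ p ∈ t, A y p * Bz t 0 (shf p c) (A y))
        (∑ p ∈ t, Bz t 0 (shf p c) (A x) • A' p) x := by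
      refine HasFDerivAt.fun_sum fun p hp => ?_
      have := (hA p hp).mul_const (c (0 + Finsupp.single p 1))
      exact this
    have h2 : (((0 : ℕ) : ℝ) + 1) • ∑ p ∈ t, Bz t 0 (shf p c) (A x) • A' p
        = ∑ p ∈ t, Bz t 0 (shf p c) (A x) • A' p := by simp
    rw [h2]
    exact h1
  | succ k ih =>
    have h1 : HasFDerivAt (fun y => ∑ p ∈ t, A y p * Bz t (k + 1) (shf p c) (A y))
        (∑ p ∈ t, (A x p • (((k : ℝ) + 1) • ∑ q ∈ t, Bz t k (shf q (shf p c)) (A x) • A' q)
          + Bz t (k + 1) (shf p c) (A x) • A' p)) x := by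
      refine HasFDerivAt.fun_sum fun p hp => ?_
      exact (hA p hp).mul (ih (shf p c))
    have h3 : (((k + 1 : ℕ) : ℝ) + 1) • ∑ p ∈ t, Bz t (k + 1) (shf p c) (A x) • A' p
        = ∑ p ∈ t, (A x p • (((k : ℝ) + 1) • ∑ q ∈ t, Bz t k (shf q (shf p c)) (A x) • A' q)
          + Bz t (k + 1) (shf p c) (A x) • A' p) := ?_
    · rw [h3]
      exact h1
    rw [Finset.sum_add_distrib]
    have h2 : ∑ p ∈ t, A x p • (((k : ℝ) + 1) • ∑ q ∈ t, Bz t k (shf q (shf p c)) (A x) • A' q)
        = ((k : ℝ) + 1) • ∑ q ∈ t, Bz t (k + 1) (shf q c) (A x) • A' q := by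
      simp only [Finset.smul_sum]
      rw [Finset.sum_comm]
      refine Finset.sum_congr rfl fun q _ => ?_
      rw [Bz_succ, Finset.sum_smul, Finset.smul_sum]
      refine Finset.sum_congr rfl fun p _ => ?_
      rw [shf_comm p q]
      rw [smul_smul, smul_smul, smul_smul]
      congr 1
      ring
    rw [h2]
    push_cast
    module

/-- The coefficients are determined by the values on the open cone. -/
theorem Bz_unique (t : Finset P) (k : ℕ) (c : (P →₀ ℕ) → ℝ)
    (h0 : ∀ l : P → ℝ, (∀ p ∈ t, 0 < l p) → Bz t k c l = 0) (b : P →₀ ℕ) (hb : b.support ⊆ t)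
    (hbk : b.degree = k) : c b = 0 := by
  classical
  induction k generalizing c b with
  | zero =>
    have hb0 : b = 0 := by
      ext q
      by_contra hne
      have := Finsupp.le_degree q b
      simp only [Finsupp.coe_zero, Pi.zero_apply] at hne
      omega
    rw [hb0]
    exact h0 (fun _ => 1) (fun _ _ => one_pos)
  | succ k ih =>
    have hex : ∃ p, b p ≠ 0 := by
      by_contra hcon
      push Not at hcon
      have : b = 0 := Finsupp.ext hcon
      rw [this] at hbk
      simp at hbk
    obtain ⟨p, hp⟩ := hex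
    have hpt : p ∈ t := hb (Finsupp.mem_support_iff.2 hp)
    have hle : Finsupp.single p 1 ≤ b := by
      rw [Finsupp.single_le_iff]; omega
    have hb2 : b - Finsupp.single p 1 + Finsupp.single p 1 = b := tsub_add_cancel_of_le hle
    have hshift : ∀ l : P → ℝ, (∀ p ∈ t, 0 < l p) → Bz t k (shf p c) l = 0 := by
      intro l hl
      have hA : ∀ q ∈ t, HasFDerivAt (fun y : ℝ => l q + (if q = p then y else 0))
          (if q = p then ContinuousLinearMap.id ℝ ℝ else 0) (0 : ℝ) := by
        intro q _
        by_cases hqp : q = p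
        · simp only [hqp, if_true]
          exact (hasFDerivAt_id (0 : ℝ)).const_add _
        · simp only [hqp, if_false]
          exact hasFDerivAt_const _ _
      have hd := Bz_hasFDerivAt t k c (A := fun (y : ℝ) q => l q + (if q = p then y else 0)) hA
      have hev : (fun y : ℝ => Bz t (k + 1) c (fun q => l q + (if q = p then y else 0)))
          =ᶠ[𝓝 0] fun _ => (0 : ℝ) := by
        have hpos : ∀ᶠ y : ℝ in 𝓝 0, - l p < y :=
          lt_mem_nhds (by have := hl p hpt; linarith)
        filter_upwards [hpos] with y hy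
        refine h0 _ fun q hq => ?_
        split_ifs with hqp
        · rw [hqp]; linarith
        · have := hl q hq; linarith
      have hd0 : HasFDerivAt (fun y : ℝ => Bz t (k + 1) c (fun q => l q + (if q = p then y else 0)))
          (0 : ℝ →L[ℝ] ℝ) 0 := (hasFDerivAt_const (0 : ℝ) (0 : ℝ)).congr_of_eventuallyEq hev
      have heq := hd.unique hd0
      have h1 := congrArg (fun L : ℝ →L[ℝ] ℝ => L 1) heq
      simp only [ContinuousLinearMap.smul_apply, ContinuousLinearMap.sum_apply] at h1
      rw [Finset.sum_eq_single p] at h1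
      · simp only [if_true, ContinuousLinearMap.id_apply, smul_eq_mul, mul_one,
          ContinuousLinearMap.zero_apply] at h1
        rcases mul_eq_zero.1 h1 with h2 | h2
        · exfalso
          have : (0 : ℝ) ≤ k := Nat.cast_nonneg k
          linarith
        · rw [← h2]
          refine Bz_congr_l t k _ fun q _ => ?_
          simp
      · intro q _ hqp
        simp [hqp]
      · intro hn; exact absurd hpt hn
    have hsub : (b - Finsupp.single p 1).support ⊆ t := by
      intro q hq
      apply hb
      rw [Finsupp.mem_support_iff, Finsupp.tsub_apply] at hq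
      rw [Finsupp.mem_support_iff]
      omega
    have hdeg : (b - Finsupp.single p 1).degree = k := by
      have h1 : (b - Finsupp.single p 1).degree + 1 = b.degree := by
        conv_rhs => rw [← hb2]
        rw [map_add]; simp
      omega
    have := ih (shf p c) hshift (b - Finsupp.single p 1) hsub hdeg
    simp only [shf] at this
    rwa [hb2] at this

/-- Multiplication by a linear form. -/
theorem Bz_mul (t : Finset P) (k : ℕ) (c : (P →₀ ℕ) → ℝ) (m : P → ℝ) (l : P → ℝ) :
    Bz t (k + 1) (fun b => ∑ q ∈ t, (b q : ℝ) * m q * c (b - Finsupp.single q 1)) l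
      = (k + 1) * (∑ q ∈ t, l q * m q) * Bz t k c l := by
  classical
  induction k generalizing c with
  | zero =>
    rw [Bz_succ]
    simp only [Nat.cast_zero, zero_add, one_mul]
    rw [Finset.sum_mul]
    refine Finset.sum_congr rfl fun p hp => ?_
    show l p * (∑ q ∈ t, (((0 + Finsupp.single p 1 : P →₀ ℕ) q : ℕ) : ℝ) * m q
      * c (0 + Finsupp.single p 1 - Finsupp.single q 1)) = l p * m p * c 0
    rw [Finset.sum_eq_single p]
    · simp; ring
    · intro q _ hq
      simp [Finsupp.single_apply, Ne.symm hq]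
    · intro hn; exact absurd hp hn
  | succ k ih =>
    rw [Bz_succ]
    have h1 : ∀ p ∈ t, Bz t (k + 1) (shf p (fun b => ∑ q ∈ t, (b q : ℝ) * m q
        * c (b - Finsupp.single q 1))) l
        = m p * Bz t (k + 1) c l + (k + 1) * (∑ q ∈ t, l q * m q) * Bz t k (shf p c) l := by
      intro p hp
      rw [← ih (shf p c), ← Bz_smul, ← Bz_add]
      refine Bz_congr t (k + 1) l fun b _ _ => ?_
      simp only [shf]
      have h2 : ∀ q ∈ t, (((b + Finsupp.single p 1 : P →₀ ℕ) q : ℕ) : ℝ) * m q
          * c (b + Finsupp.single p 1 - Finsupp.single q 1)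
          = (if q = p then m p * c b else 0)
            + (b q : ℝ) * m q * c (b - Finsupp.single q 1 + Finsupp.single p 1) := by
        intro q _
        by_cases hqp : q = p
        · subst hqp
          rw [if_pos rfl, add_tsub_cancel_right, Finsupp.add_apply, Finsupp.single_eq_same]
          by_cases hb0 : b q = 0
          · rw [hb0]; simp
          · have : b - Finsupp.single q 1 + Finsupp.single q 1 = b := by
              apply tsub_add_cancel_of_le
              rw [Finsupp.single_le_iff]; omega
            rw [this]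
            push_cast; ring
        · rw [if_neg hqp, zero_add, Finsupp.add_apply, Finsupp.single_apply,
            if_neg (Ne.symm hqp), add_zero]
          by_cases hb0 : b q = 0
          · rw [hb0]; simp
          · have : b + Finsupp.single p 1 - Finsupp.single q 1
                = b - Finsupp.single q 1 + Finsupp.single p 1 := by
              ext z
              simp only [Finsupp.tsub_apply, Finsupp.add_apply, Finsupp.single_apply]
              by_cases hqz : q = z
              · subst hqz
                simp only [if_true, if_neg (Ne.symm hqp)]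
                omega
              · simp [hqz]
            rw [this]
      rw [Finset.sum_congr rfl h2, Finset.sum_add_distrib, Finset.sum_ite_eq' t p, if_pos hp]
    rw [Finset.sum_congr rfl (fun p hp => by rw [h1 p hp])]
    generalize hS : (∑ q ∈ t, l q * m q) = S
    simp only [mul_add, Finset.sum_add_distrib]
    have h3 : ∑ p ∈ t, l p * (m p * Bz t (k + 1) c l)
        = S * Bz t (k + 1) c l := by
      rw [← hS, Finset.sum_mul]
      exact Finset.sum_congr rfl fun p _ => by ring
    have h4 : ∑ p ∈ t, l p * ((k + 1) * S * Bz t k (shf p c) l)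
        = (k + 1) * S * Bz t (k + 1) c l := by
      rw [Bz_succ, Finset.mul_sum]
      exact Finset.sum_congr rfl fun p _ => by ring
    rw [h3, h4]
    push_cast
    ring

end Pool.CB
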