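import Pool.Agent.Work.CB.Main

/-!
# The relations of Euler and the generic dimension
-/

open scoped BigOperators Topology
open Finset

noncomputable section

namespace Pool.CB

namespace TetComplex

variable (Δ : TetComplex)

/-- The boundary triangles: those in exactly one tetrahedron. -/
def bdFaces : Set (Finset E3) := {f | f ∈ Δ.faces 3 ∧ ∃! t, t ∈ Δ.tets ∧ f ⊆ t}

/-- The boundary vertices. -/
def bdVertices : Set E3 := {v | ∃ f ∈ Δ.bdFaces, v ∈ f}

/-- The relations of Euler which hold for tetrahedral partitions of a ball: `V - E + F - T = 1`, and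
`F_b = 2 V_b - 4` for the boundary sphere. -/
def EulerBall : Prop :=
  ((Δ.faces 1).ncard : ℤ) - (Δ.faces 2).ncard + (Δ.faces 3).ncard - (Δ.faces 4).ncard = 1 ∧
    (Δ.bdFaces.ncard : ℤ) = 2 * Δ.bdVertices.ncard - 4

end TetComplex

variable {P : Type*} [DecidableEq P] {W : Type*} [AddCommGroup W] [Module ℝ W]
variable {T : Finset (Finset P)} {h : P → W}

theorem tets_le_two (hT : IsFan T h) {f : Finset P} (hf : f.card = 3) :
    (T.filter (fun t => f ⊆ t)).card ≤ 2 := by
  by_contra hcon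
  push Not at hcon
  obtain ⟨t1, t2, t3, ht1, ht2, ht3, h12, h13, h23⟩ := Finset.two_lt_card_iff.1 hcon
  rw [Finset.mem_filter] at ht1 ht2 ht3
  obtain ⟨u, v, w, huv, huw, hvw, rfl⟩ := Finset.card_eq_three.1 hf
  have key : ∀ t ∈ T, ({u, v, w} : Finset P) ⊆ t → ∃ y, y ≠ u ∧ y ≠ v ∧ y ≠ w ∧
      t = {u, v, w, y} := by
    intro t ht hsub
    have hex : ∃ z ∈ t, z ∉ ({u, v, w} : Finset P) := by
      by_contra hcon2
      push Not at hcon2
      have h7 : t.card ≤ ({u, v, w} : Finset P).card := Finset.card_le_card hcon2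
      rw [hT.card_eq t ht, hf] at h7
      omega
    obtain ⟨z, hz, hz'⟩ := hex
    simp only [Finset.mem_insert, Finset.mem_singleton, not_or] at hz'
    exact ⟨z, hz'.1, hz'.2.1, hz'.2.2, subset_eq_four hT ht huv huw (Ne.symm hz'.1) hvw
      (Ne.symm hz'.2.1) (Ne.symm hz'.2.2) (hsub (by simp)) (hsub (by simp)) (hsub (by simp)) hz⟩
  obtain ⟨y1, _, _, _, rfl⟩ := key t1 ht1.1 ht1.2
  obtain ⟨y2, _, _, _, rfl⟩ := key t2 ht2.1 ht2.2
  obtain ⟨y3, a, b, c, rfl⟩ := key t3 ht3.1 ht3.2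
  have hne : y2 ≠ y1 := by rintro rfl; exact h12 rfl
  rcases third_tet hT ht1.1 ht2.1 hne ht3.1 (by simp) (by simp) (by simp) (z := y3) (by simp) a b c
    with h7 | h7
  · subst h7; exact h13 rfl
  · subst h7; exact h23 rfl

theorem count_tets (hT : IsFan T h) :
    4 * (FF T 4).card + ((FF T 3).filter (fun f => (T.filter (fun t => f ⊆ t)).card = 1)).card
      = 2 * (FF T 3).card := by
  have hFF4 : FF T 4 = T := by
    ext t
    rw [mem_FF]
    constructor
    · rintro ⟨⟨t', ht', hsub⟩, hc⟩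
      have : t = t' := Finset.eq_of_subset_of_card_le hsub (by rw [hT.card_eq t' ht', hc])
      rw [this]; exact ht'
    · intro ht
      exact ⟨⟨t, ht, Finset.Subset.refl t⟩, hT.card_eq t ht⟩
  have h1 : ∑ f ∈ FF T 3, (T.filter (fun t => f ⊆ t)).card = 4 * T.card := by
    have h2 : ∀ f ∈ FF T 3, (T.filter (fun t => f ⊆ t)).card = ∑ t ∈ T, if f ⊆ t then 1 else 0 :=
      fun f _ => Finset.card_filter _ _
    rw [Finset.sum_congr rfl h2, Finset.sum_comm]
    have h3 : ∀ t ∈ T, ∑ f ∈ FF T 3, (if f ⊆ t then 1 else 0) = 4 := by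
      intro t ht
      rw [← Finset.card_filter]
      have h4 : (FF T 3).filter (fun f => f ⊆ t) = t.powersetCard 3 := by
        ext f
        rw [Finset.mem_filter, mem_FF, Finset.mem_powersetCard]
        exact ⟨fun hh => ⟨hh.2, hh.1.2⟩, fun hh => ⟨⟨⟨t, ht, hh.1⟩, hh.2⟩, hh.1⟩⟩
      rw [h4, Finset.card_powersetCard, hT.card_eq t ht]
      rfl
    rw [Finset.sum_congr rfl h3, Finset.sum_const, smul_eq_mul, mul_comm]
  have h5 : ∀ f ∈ FF T 3, (T.filter (fun t => f ⊆ t)).card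
      + (if (T.filter (fun t => f ⊆ t)).card = 1 then 1 else 0) = 2 := by
    intro f hf
    obtain ⟨⟨t, ht, hft⟩, hc⟩ := mem_FF.1 hf
    have h6 := tets_le_two hT hc
    have h7 : 0 < (T.filter (fun t => f ⊆ t)).card :=
      Finset.card_pos.2 ⟨t, Finset.mem_filter.2 ⟨ht, hft⟩⟩
    split_ifs with h8 <;> omega
  have h9 := Finset.sum_congr rfl h5
  rw [Finset.sum_add_distrib, h1, ← Finset.card_filter, Finset.sum_const, smul_eq_mul] at h9
  rw [hFF4, h9, mul_comm]

variable (Δ : TetComplex)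

theorem bdFaces_ncard : Δ.bdFaces.ncard
    = ((FF Δ.tets 3).filter (fun f => (Δ.tets.filter (fun t => f ⊆ t)).card = 1)).card := by
  have : Δ.bdFaces = ((FF Δ.tets 3).filter
      (fun f => (Δ.tets.filter (fun t => f ⊆ t)).card = 1) : Set (Finset E3)) := by
    ext f
    rw [Finset.mem_coe, Finset.mem_filter, Finset.card_eq_one]
    have h1 : f ∈ Δ.faces 3 ↔ f ∈ FF Δ.tets 3 := by rw [faces_eq, Finset.mem_coe]
    constructor
    · rintro ⟨hf, t, ⟨ht, hft⟩, huniq⟩
      refine ⟨h1.1 hf, t, ?_⟩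
      ext t'
      rw [Finset.mem_filter, Finset.mem_singleton]
      exact ⟨fun hh => huniq t' hh, fun hh => by rw [hh]; exact ⟨ht, hft⟩⟩
    · rintro ⟨hf, t, ht⟩
      have hmem : t ∈ Δ.tets.filter (fun t => f ⊆ t) := by rw [ht]; simp
      refine ⟨h1.2 hf, t, Finset.mem_filter.1 hmem, fun t' ht' => ?_⟩
      have : t' ∈ Δ.tets.filter (fun t => f ⊆ t) := Finset.mem_filter.2 ht'
      rw [ht, Finset.mem_singleton] at this
      exact this
  rw [this, Set.ncard_coe_finset]

/-- For a ball the count is the generic dimension. -/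
theorem count_ball (hB : Δ.EulerBall) (k : ℕ) :
    Δ.count k = 1 + 5 * k - 2 * k ^ 2 + k * (k - 1) * Δ.bdVertices.ncard
      + 3 * (k - 1) * ((Δ.faces 1).ncard - Δ.bdVertices.ncard)
      + k * (k - 1) * (k - 5) / 6 * (Δ.faces 4).ncard := by
  obtain ⟨h1, h2⟩ := hB
  have h3 := count_tets (isFan Δ)
  rw [← faces_ncard, ← faces_ncard, ← bdFaces_ncard] at h3
  have h1' := congrArg (Int.cast : ℤ → ℚ) h1
  have h2' := congrArg (Int.cast : ℤ → ℚ) h2
  have h3' := congrArg (Nat.cast : ℕ → ℚ) h3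
  push_cast at h1' h2' h3'
  have hF : ((Δ.faces 3).ncard : ℚ) = 2 * (Δ.faces 4).ncard + Δ.bdVertices.ncard - 2 := by linarith
  have hE : ((Δ.faces 2).ncard : ℚ)
      = (Δ.faces 1).ncard + (Δ.faces 4).ncard + Δ.bdVertices.ncard - 3 := by linarith
  unfold TetComplex.count
  rw [hE, hF]
  ring

/-- The local terms are nonnegative. -/
theorem count_le {k : ℕ} (hk : 2 ≤ k) : Δ.count k ≤ Module.finrank ℝ (Δ.splines k) := by
  rcases Nat.lt_or_ge k 3 with h3 | h3
  · have hk2 : k = 2 := by omega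
    subst hk2
    rw [show (2 : ℕ) = 1 + 1 from rfl, finrank_splines Δ (n := 1) le_rfl, count_eq]
    have := net_count (isFan Δ) 0
    rw [show 0 + 1 = 1 from rfl] at this
    rw [this]
    simp
  · obtain ⟨n, rfl⟩ : ∃ n, k = n + 2 := ⟨k - 2, by omega⟩
    have h1 : Module.finrank ℝ (Δ.splines (n + 2)) = Module.finrank ℝ (Net Δ.tets hc (n + 1)) :=
      finrank_splines Δ (n := n + 1) (by omega)
    rw [h1, count_eq, net_count (isFan Δ) n]
    simp

end Pool.CB
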