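import Mathlib

/-!
# A combinatorial lemma on cyclic sequences of angles
-/

open scoped BigOperators
open Finset

noncomputable section

namespace Pool.CB

theorem six_le {N : Type*} [Fintype N] [DecidableEq N] (q : N) (nx : Equiv.Perm N)
    (hcyc : ∀ q, ∀ k, 1 ≤ k → k ≤ 5 → (nx ^ k) q ≠ q) : 6 ≤ Fintype.card N := by
  have hinj : Function.Injective (fun i : Fin 6 => (nx ^ (i : ℕ)) q) := by
    have key : ∀ i j : ℕ, i < j → j < 6 → (nx ^ i) q ≠ (nx ^ j) q := by
      intro i j hij hj hh
      have h1 : (nx ^ (j - i)) ((nx ^ i) q) = (nx ^ i) q := by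
        rw [← Equiv.Perm.mul_apply, ← pow_add, Nat.sub_add_cancel hij.le, ← hh]
      exact hcyc _ (j - i) (by omega) (by omega) h1
    intro i j hij
    rcases lt_trichotomy i j with h1 | h1 | h1
    · exact absurd hij (key i j h1 j.2)
    · exact h1
    · exact absurd hij.symm (key j i h1 i.2)
  have := Fintype.card_le_of_injective _ hinj
  rwa [Fintype.card_fin] at this

theorem comb {N : Type*} [Fintype N] [DecidableEq N] [Nonempty N] (nx : Equiv.Perm N) (θ : N → ℝ)
    (hpos : ∀ q, 0 < θ q) (hsum : ∑ q, θ q = 2 * Real.pi) (B : Finset N)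
    (hB : ∀ b ∈ B, θ b + θ (nx.symm b) = Real.pi)
    (hcyc : ∀ q, ∀ k, 1 ≤ k → k ≤ 5 → (nx ^ k) q ≠ q) :
    (univ.filter (fun q => q ∉ B ∧ nx q ∉ B)).Nonempty ∧
      ∑ q ∈ univ.filter (fun q => q ∉ B ∧ nx q ∉ B), θ q
        ≤ Real.pi / 3 * (univ.filter (fun q => q ∉ B ∧ nx q ∉ B)).card := by
  obtain ⟨q0⟩ := (inferInstance : Nonempty N)
  have hcard := six_le q0 nx hcyc
  have h1 : ∀ q, nx q ≠ q := fun q => hcyc q 1 le_rfl (by norm_num)
  have h2 : ∀ q, nx (nx q) ≠ q := fun q => hcyc q 2 (by norm_num) (by norm_num)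
  have h3 : ∀ q, nx (nx (nx q)) ≠ q := fun q => hcyc q 3 (by norm_num) (by norm_num)
  have hpi := Real.pi_pos
  set F := univ.filter (fun q => q ∉ B ∧ nx q ∉ B) with hF
  rcases B.eq_empty_or_nonempty with h0 | ⟨b0, hb0⟩
  · have hFu : F = univ := by
      rw [hF, h0]; simp
    rw [hFu, hsum, Finset.card_univ]
    refine ⟨⟨q0, Finset.mem_univ _⟩, ?_⟩
    have : (6 : ℝ) ≤ Fintype.card N := by exact_mod_cast hcard
    nlinarith
  have hadj : ∀ b ∈ B, ∀ b' ∈ B, b ≠ b' → b' = nx b ∨ b = nx b' := by
    intro b hb b' hb' hbb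
    by_contra hcon
    push Not at hcon
    obtain ⟨hc1, hc2⟩ := hcon
    have s1 : nx.symm b ≠ b := by
      intro hh
      have := congrArg nx hh
      rw [Equiv.apply_symm_apply] at this
      exact h1 b this.symm
    have s2 : nx.symm b' ≠ b' := by
      intro hh
      have := congrArg nx hh
      rw [Equiv.apply_symm_apply] at this
      exact h1 b' this.symm
    have s3 : nx.symm b ≠ b' := by
      intro hh
      have := congrArg nx hh
      rw [Equiv.apply_symm_apply] at this
      exact hc2 this
    have s4 : nx.symm b' ≠ b := by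
      intro hh
      have := congrArg nx hh
      rw [Equiv.apply_symm_apply] at this
      exact hc1 this
    have s5 : nx.symm b ≠ nx.symm b' := fun hh => hbb (nx.symm.injective hh)
    have hs : ∑ q ∈ ({b, nx.symm b, b', nx.symm b'} : Finset N), θ q = 2 * Real.pi := by
      rw [Finset.sum_insert (by simp [s1.symm, hbb, s4.symm]),
        Finset.sum_insert (by simp [s3, s5]), Finset.sum_insert (by simp [s2.symm]),
        Finset.sum_singleton]
      have e1 := hB b hb
      have e2 := hB b' hb'
      linarith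
    have hne : (univ \ ({b, nx.symm b, b', nx.symm b'} : Finset N)).Nonempty := by
      rw [← Finset.card_pos, Finset.card_sdiff_of_subset (Finset.subset_univ _), Finset.card_univ]
      have : ({b, nx.symm b, b', nx.symm b'} : Finset N).card ≤ 4 := Finset.card_le_four
      omega
    have hlt : 0 < ∑ q ∈ univ \ ({b, nx.symm b, b', nx.symm b'} : Finset N), θ q :=
      Finset.sum_pos (fun q _ => hpos q) hne
    have := Finset.sum_sdiff (f := θ) (Finset.subset_univ ({b, nx.symm b, b', nx.symm b'} : Finset N))
    rw [hs, hsum] at this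
    linarith
  have hmain : ∃ b ∈ B, ∀ b' ∈ B, b' = b ∨ b' = nx b := by
    by_cases hp : nx.symm b0 ∈ B
    · refine ⟨nx.symm b0, hp, fun b' hb' => ?_⟩
      by_contra hcon
      push Not at hcon
      rw [Equiv.apply_symm_apply] at hcon
      obtain ⟨hc1, hc2⟩ := hcon
      rcases hadj _ hp _ hb' (Ne.symm hc1) with h4 | h4
      · rw [Equiv.apply_symm_apply] at h4
        exact hc2 h4
      · have h5 : b0 = nx (nx b') := by rw [← h4, Equiv.apply_symm_apply]
        rcases hadj _ hb0 _ hb' (Ne.symm hc2) with h6 | h6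
        · rw [h5] at h6
          exact h3 b' h6.symm
        · rw [h5] at h6
          exact h1 b' (nx.injective h6)
    · refine ⟨b0, hb0, fun b' hb' => ?_⟩
      by_contra hcon
      push Not at hcon
      rcases hadj _ hb0 _ hb' (Ne.symm hcon.1) with h4 | h4
      · exact hcon.2 h4
      · apply hp
        rw [h4, Equiv.symm_apply_apply]
        exact hb'
  obtain ⟨b, hb, hball⟩ := hmain
  have hsub : univ \ F ⊆ {b, nx.symm b, nx b} := by
    intro q hq
    rw [Finset.mem_sdiff, hF, Finset.mem_filter, not_and, not_and_or, not_not, not_not] at hq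
    simp only [Finset.mem_insert, Finset.mem_singleton]
    rcases hq.2 (Finset.mem_univ _) with h4 | h4
    · rcases hball q h4 with h5 | h5
      · exact Or.inl h5
      · exact Or.inr (Or.inr h5)
    · rcases hball _ h4 with h5 | h5
      · right; left
        rw [← h5, Equiv.symm_apply_apply]
      · left
        exact nx.injective h5
  have hcF : (univ \ F).card ≤ 3 := (Finset.card_le_card hsub).trans Finset.card_le_three
  have hFsub : F ⊆ univ := Finset.subset_univ _
  rw [Finset.card_sdiff_of_subset hFsub, Finset.card_univ] at hcF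
  have h3F : 3 ≤ F.card := by omega
  have hs2 : ({b, nx.symm b} : Finset N) ⊆ univ \ F := by
    intro q hq
    rw [Finset.mem_insert, Finset.mem_singleton] at hq
    rw [Finset.mem_sdiff, hF, Finset.mem_filter, not_and, not_and_or, not_not, not_not]
    refine ⟨Finset.mem_univ _, fun _ => ?_⟩
    rcases hq with rfl | rfl
    · exact Or.inl hb
    · right
      rw [Equiv.apply_symm_apply]; exact hb
  have s1 : b ≠ nx.symm b := by
    intro hh
    have := congrArg nx hh
    rw [Equiv.apply_symm_apply] at this
    exact h1 b this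
  have hge : Real.pi ≤ ∑ q ∈ univ \ F, θ q := by
    rw [← hB b hb, ← Finset.sum_pair s1]
    exact Finset.sum_le_sum_of_subset_of_nonneg hs2 fun q _ _ => (hpos q).le
  have htot := Finset.sum_sdiff (f := θ) hFsub
  rw [hsum] at htot
  refine ⟨Finset.card_pos.1 (by omega), ?_⟩
  have : (3 : ℝ) ≤ F.card := by exact_mod_cast h3F
  nlinarith

end Pool.CB
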