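import Pool.Agent.Work.CB.Fin

open scoped BigOperators
open Finset

noncomputable section

namespace Pool.CB

variable {P : Type*} [DecidableEq P] {W : Type*} [AddCommGroup W] [Module ℝ W]
variable {T : Finset (Finset P)} {h : P → W}

/-- The faces with `j` vertices. -/
def FF (T : Finset (Finset P)) (j : ℕ) : Finset (Finset P) := T.biUnion (fun t => t.powersetCard j)

theorem mem_FF {j : ℕ} {s : Finset P} : s ∈ FF T j ↔ (∃ t ∈ T, s ⊆ t) ∧ s.card = j := by
  simp only [FF, mem_biUnion, Finset.mem_powersetCard]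
  constructor
  · rintro ⟨t, ht, hst, hc⟩
    exact ⟨⟨t, ht, hst⟩, hc⟩
  · rintro ⟨⟨t, ht, hst⟩, hc⟩
    exact ⟨t, ht, hst, hc⟩

/-- The multi-index with constant value `r` on `s`. -/
def ind (s : Finset P) (r : ℕ) : P →₀ ℕ := ∑ p ∈ s, Finsupp.single p r

theorem ind_apply (s : Finset P) (r : ℕ) (p : P) : ind s r p = if p ∈ s then r else 0 := by
  rw [ind, Finsupp.finsetSum_apply]
  by_cases hp : p ∈ s
  · rw [if_pos hp, Finset.sum_eq_single p]
    · simp
    · intro b _ hb
      simp [Finsupp.single_apply, hb]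
    · intro hn; exact absurd hp hn
  · rw [if_neg hp]
    refine Finset.sum_eq_zero fun b hb => ?_
    have : b ≠ p := fun hh => hp (hh ▸ hb)
    simp [Finsupp.single_apply, this]

theorem ind_degree (s : Finset P) (r : ℕ) : (ind s r).degree = r * s.card := by
  rw [ind, map_sum]
  simp [mul_comm]

/-- Number of multi-indices with support `s` and all values at least `r`. -/
theorem card_fiber {s : Finset P} (hs : ∃ t ∈ T, s ⊆ t) {r n m : ℕ} (hr : 1 ≤ r)
    (hn : n = r * s.card + m) :
    ((DD T n).filter (fun a => a.support = s ∧ ∀ p ∈ s, r ≤ a p)).card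
      = (s.card + m - 1).choose m := by
  rw [← Finset.card_finsuppAntidiag_nat_eq_choose]
  symm
  refine Finset.card_bij (fun a _ => a + ind s r) ?_ ?_ ?_
  · intro a ha
    rw [Finset.mem_finsuppAntidiag] at ha
    have hsup : (a + ind s r).support = s := by
      ext p
      rw [Finsupp.mem_support_iff, Finsupp.add_apply, ind_apply]
      by_cases hp : p ∈ s
      · simp only [hp, if_true, iff_true]; omega
      · have : a p = 0 := by
          by_contra hne
          exact hp (ha.2 (Finsupp.mem_support_iff.2 hne))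
        simp [hp, this]
    have hdeg : a.degree = m := by
      rw [Finsupp.degree_apply, ← ha.1]
      exact Finset.sum_subset ha.2 (fun x _ hx => by simpa using hx)
    rw [Finset.mem_filter, mem_DD]
    refine ⟨⟨by rw [hsup]; exact hs, ?_⟩, hsup, ?_⟩
    · rw [map_add, ind_degree, hdeg, hn]; ring
    · intro p hp
      rw [Finsupp.add_apply, ind_apply, if_pos hp]; omega
  · intro a _ b _ hab
    exact add_right_cancel hab
  · intro b hb
    rw [Finset.mem_filter, mem_DD] at hb
    obtain ⟨⟨_, hbd⟩, hbs, hbr⟩ := hb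
    have hle : ind s r ≤ b := by
      intro p
      rw [ind_apply]
      split_ifs with hp
      · exact hbr p hp
      · exact Nat.zero_le _
    have hadd : b - ind s r + ind s r = b := tsub_add_cancel_of_le hle
    refine ⟨b - ind s r, ?_, hadd⟩
    have hsub : (b - ind s r).support ⊆ s := by
      intro p hp
      rw [Finsupp.mem_support_iff, Finsupp.tsub_apply] at hp
      rw [← hbs, Finsupp.mem_support_iff]
      omega
    rw [Finset.mem_finsuppAntidiag]
    refine ⟨?_, hsub⟩
    have h1 : (b - ind s r).degree + r * s.card = n := by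
      rw [← ind_degree, ← map_add, hadd, hbd]
    have h2 : (b - ind s r).degree = s.sum (b - ind s r) := by
      rw [Finsupp.degree_apply]
      exact Finset.sum_subset hsub (fun x _ hx => by simpa using hx)
    rw [← h2]
    omega

theorem card_fiber_zero {s : Finset P} {r n : ℕ} (hn : n < r * s.card) :
    ((DD T n).filter (fun a => a.support = s ∧ ∀ p ∈ s, r ≤ a p)).card = 0 := by
  rw [Finset.card_eq_zero, Finset.filter_eq_empty_iff]
  rintro a ha ⟨hs, hr⟩
  have h1 := (mem_DD.1 ha).2
  rw [Finsupp.degree_apply, hs] at h1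
  have h2 : s.card * r ≤ ∑ p ∈ s, a p := by
    rw [← smul_eq_mul]
    exact Finset.card_nsmul_le_sum s _ r hr
  rw [mul_comm] at h2
  omega

/-- Number of multi-indices with support `s`. -/
theorem card_fiber_one {s : Finset P} (hs : ∃ t ∈ T, s ⊆ t) {n j : ℕ} (hj : s.card = j + 1) :
    ((DD T (n + 1)).filter (fun a => a.support = s)).card = n.choose j := by
  have h0 : (DD T (n + 1)).filter (fun a => a.support = s)
      = (DD T (n + 1)).filter (fun a => a.support = s ∧ ∀ p ∈ s, 1 ≤ a p) := by
    refine Finset.filter_congr fun a _ => ?_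
    constructor
    · intro hh
      refine ⟨hh, fun p hp => ?_⟩
      rw [← hh] at hp
      exact Nat.one_le_iff_ne_zero.2 (Finsupp.mem_support_iff.1 hp)
    · exact fun hh => hh.1
  rw [h0]
  rcases lt_or_ge n j with hnj | hnj
  · rw [card_fiber_zero (by rw [hj]; omega), Nat.choose_eq_zero_of_lt hnj]
  · rw [card_fiber hs le_rfl (m := n - j) (by rw [hj]; omega), hj]
    have : j + 1 + (n - j) - 1 = n := by omega
    rw [this, Nat.choose_symm hnj]

/-- Sums over multi-indices of functions of the support. -/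
theorem sum_DD (hT : ∀ t ∈ T, t.card = 4) (n : ℕ) (f : Finset P → ℕ) :
    ∑ a ∈ DD T (n + 1), f a.support
      = n.choose 0 * ∑ s ∈ FF T 1, f s + n.choose 1 * ∑ s ∈ FF T 2, f s
        + n.choose 2 * ∑ s ∈ FF T 3, f s + n.choose 3 * ∑ s ∈ FF T 4, f s := by
  have hmaps : ∀ a ∈ DD T (n + 1), a.support ∈ FF T 1 ∪ FF T 2 ∪ FF T 3 ∪ FF T 4 := by
    intro a ha
    obtain ⟨⟨t, ht, hst⟩, hk⟩ := mem_DD.1 ha
    have h4 : a.support.card ≤ 4 := by rw [← hT t ht]; exact Finset.card_le_card hst
    have h0 : a.support.card ≠ 0 := by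
      intro h0
      rw [Finset.card_eq_zero] at h0
      rw [Finsupp.degree_apply, h0, Finset.sum_empty] at hk
      omega
    simp only [Finset.mem_union, mem_FF]
    have hex : ∃ t ∈ T, a.support ⊆ t := ⟨t, ht, hst⟩
    have : a.support.card = 1 ∨ a.support.card = 2 ∨ a.support.card = 3 ∨ a.support.card = 4 := by
      omega
    rcases this with h7 | h7 | h7 | h7
    · exact Or.inl (Or.inl (Or.inl ⟨hex, h7⟩))
    · exact Or.inl (Or.inl (Or.inr ⟨hex, h7⟩))
    · exact Or.inl (Or.inr ⟨hex, h7⟩)
    · exact Or.inr ⟨hex, h7⟩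
  rw [← Finset.sum_fiberwise_of_maps_to hmaps]
  have hfib : ∀ j, ∀ s ∈ FF T (j + 1), ∑ a ∈ (DD T (n + 1)).filter (fun a => a.support = s),
      f a.support = n.choose j * f s := by
    intro j s hs
    rw [Finset.sum_congr rfl (g := fun _ => f s)]
    · rw [Finset.sum_const, card_fiber_one (mem_FF.1 hs).1 (mem_FF.1 hs).2, smul_eq_mul]
    · intro a ha
      rw [(Finset.mem_filter.1 ha).2]
  have hdis : ∀ {i j : ℕ}, i ≠ j → Disjoint (FF T i) (FF T j) := by
    intro i j hij
    rw [Finset.disjoint_left]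
    intro s hs hs'
    exact hij ((mem_FF.1 hs).2.symm.trans (mem_FF.1 hs').2)
  rw [Finset.sum_union, Finset.sum_union, Finset.sum_union (hdis (by norm_num)),
    Finset.sum_congr rfl (hfib 0), Finset.sum_congr rfl (hfib 1), Finset.sum_congr rfl (hfib 2),
    Finset.sum_congr rfl (hfib 3), Finset.mul_sum, Finset.mul_sum, Finset.mul_sum, Finset.mul_sum]
  · rw [Finset.disjoint_union_left]
    exact ⟨hdis (by norm_num), hdis (by norm_num)⟩
  · rw [Finset.disjoint_union_left, Finset.disjoint_union_left]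
    exact ⟨⟨hdis (by norm_num), hdis (by norm_num)⟩, hdis (by norm_num)⟩

theorem card_DD (hT : ∀ t ∈ T, t.card = 4) (n : ℕ) :
    (DD T (n + 1)).card = n.choose 0 * (FF T 1).card + n.choose 1 * (FF T 2).card
        + n.choose 2 * (FF T 3).card + n.choose 3 * (FF T 4).card := by
  have := sum_DD hT n (fun _ => 1)
  simpa using this

/-- Double counting of the incidences between faces and vertices of their stars. -/
theorem sum_nb (j : ℕ) :
    ∑ s ∈ FF T j, (nb T s).card = j * (FF T j).card + (j + 1) * (FF T (j + 1)).card := by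
  have h1 : ∀ s ∈ FF T j, (nb T s).card
      = j + ((VV T).filter (fun p => p ∉ s ∧ insert p s ∈ FF T (j + 1))).card := by
    intro s hs
    obtain ⟨⟨t, ht, hst⟩, hc⟩ := mem_FF.1 hs
    have hdis : Disjoint s ((VV T).filter (fun p => p ∉ s ∧ insert p s ∈ FF T (j + 1))) := by
      rw [Finset.disjoint_left]
      intro p hp hp'
      exact (Finset.mem_filter.1 hp').2.1 hp
    have hun : nb T s = s ∪ (VV T).filter (fun p => p ∉ s ∧ insert p s ∈ FF T (j + 1)) := by
      ext p
      rw [mem_nb, Finset.mem_union, Finset.mem_filter, mem_FF, mem_VV]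
      constructor
      · rintro ⟨t', ht', hst', hp⟩
        by_cases hps : p ∈ s
        · exact Or.inl hps
        · right
          refine ⟨⟨t', ht', hp⟩, hps, ⟨t', ht', Finset.insert_subset hp hst'⟩, ?_⟩
          rw [Finset.card_insert_of_notMem hps, hc]
      · rintro (hps | ⟨_, _, ⟨t', ht', hst'⟩, _⟩)
        · exact ⟨t, ht, hst, hst hps⟩
        · rw [Finset.insert_subset_iff] at hst'
          exact ⟨t', ht', hst'.2, hst'.1⟩
    rw [hun, Finset.card_union_of_disjoint hdis, hc]
  rw [Finset.sum_congr rfl h1, Finset.sum_add_distrib, Finset.sum_const, smul_eq_mul, mul_comm]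
  congr 1
  -- count pairs
  have h2 : ∑ s ∈ FF T j, ((VV T).filter (fun p => p ∉ s ∧ insert p s ∈ FF T (j + 1))).card
      = ∑ s' ∈ FF T (j + 1), s'.card := by
    rw [← Finset.card_sigma, ← Finset.card_sigma]
    refine Finset.card_bij' (fun x _ => ⟨insert x.2 x.1, x.2⟩) (fun x _ => ⟨x.1.erase x.2, x.2⟩)
      ?_ ?_ ?_ ?_
    · rintro ⟨s, p⟩ hx
      rw [Finset.mem_sigma, Finset.mem_filter] at hx
      rw [Finset.mem_sigma]
      exact ⟨hx.2.2.2, Finset.mem_insert_self _ _⟩
    · rintro ⟨s, p⟩ hx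
      rw [Finset.mem_sigma] at hx
      obtain ⟨⟨t, ht, hst⟩, hc⟩ := mem_FF.1 hx.1
      rw [Finset.mem_sigma, Finset.mem_filter]
      have hp : p ∈ s := hx.2
      refine ⟨mem_FF.2 ⟨⟨t, ht, (Finset.erase_subset _ _).trans hst⟩, ?_⟩, mem_VV.2 ⟨t, ht, hst hp⟩,
        Finset.notMem_erase _ _, ?_⟩
      · show (s.erase p).card = j
        rw [Finset.card_erase_of_mem hp, hc]; omega
      · show insert p (s.erase p) ∈ _
        rw [Finset.insert_erase hp]
        exact hx.1
    · rintro ⟨s, p⟩ hx
      rw [Finset.mem_sigma, Finset.mem_filter] at hx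
      have hp : p ∉ s := hx.2.2.1
      simp only [Finset.erase_insert hp]
    · rintro ⟨s, p⟩ hx
      rw [Finset.mem_sigma] at hx
      have hp : p ∈ s := hx.2
      simp only [Finset.insert_erase hp]
  rw [h2, Finset.sum_congr rfl (g := fun _ => j + 1) (fun s hs => (mem_FF.1 hs).2),
    Finset.sum_const, smul_eq_mul, mul_comm]

theorem FF_five (hT : ∀ t ∈ T, t.card = 4) : FF T 5 = ∅ := by
  rw [Finset.eq_empty_iff_forall_notMem]
  intro s hs
  obtain ⟨⟨t, ht, hst⟩, hc⟩ := mem_FF.1 hs
  have := Finset.card_le_card hst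
  rw [hT t ht, hc] at this
  omega

/-- The stars of vertices, summed up. -/
theorem sum_star (j : ℕ) :
    ∑ v ∈ VV T, (FF (Tv T v) j).card = j * (FF T j).card + (j + 1) * (FF T (j + 1)).card := by
  rw [← sum_nb]
  have h1 : ∀ v ∈ VV T, (FF (Tv T v) j).card = ∑ s ∈ FF T j, if v ∈ nb T s then 1 else 0 := by
    intro v _
    rw [← Finset.card_filter]
    congr 1
    ext s
    rw [Finset.mem_filter, mem_FF, mem_FF, mem_nb]
    constructor
    · rintro ⟨⟨t, ht, hst⟩, hc⟩
      rw [Tv, Finset.mem_filter] at ht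
      exact ⟨⟨⟨t, ht.1, hst⟩, hc⟩, t, ht.1, hst, ht.2⟩
    · rintro ⟨⟨_, hc⟩, t, ht, hst, hv⟩
      exact ⟨⟨t, Finset.mem_filter.2 ⟨ht, hv⟩, hst⟩, hc⟩
  rw [Finset.sum_congr rfl h1, Finset.sum_comm]
  refine Finset.sum_congr rfl fun s _ => ?_
  rw [← Finset.card_filter]
  congr 1
  ext v
  rw [Finset.mem_filter]
  exact ⟨fun hh => hh.2, fun hh => ⟨nb_subset_VV _ hh, hh⟩⟩

/-- The dimension of the relations at a face. -/
theorem finrank_Rel (hT : IsFan T h) {s : Finset P} (hs : ∃ t ∈ T, s ⊆ t) :
    Module.finrank ℝ (Rel T h s) + 4 = (nb T s).card := by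
  obtain ⟨t, ht, hst⟩ := hs
  set S := Finsupp.supported ℝ ℝ (nb T s : Set P) with hS
  let L : S →ₗ[ℝ] W := (Finsupp.linearCombination ℝ h).comp S.subtype
  have hfW : FiniteDimensional ℝ W := FiniteDimensional.of_finrank_pos (by rw [hT.span]; norm_num)
  have h1 := LinearMap.finrank_range_add_finrank_ker (K := ℝ) (V := S) (V₂ := W) L
  have hsurj : LinearMap.range L = ⊤ := by
    rw [LinearMap.range_eq_top]
    intro x
    set B := tetBasis hT ht with hB
    have hx := B.sum_repr x
    refine ⟨⟨∑ i : t, Finsupp.single i.1 (B.repr x i), ?_⟩, ?_⟩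
    · refine Submodule.sum_mem _ fun i _ => Finsupp.single_mem_supported _ _ ?_
      exact Finset.mem_coe.2 (mem_nb.2 ⟨t, ht, hst, i.2⟩)
    · show Finsupp.linearCombination ℝ h (∑ i : t, Finsupp.single i.1 (B.repr x i)) = x
      rw [map_sum]
      conv_rhs => rw [← hx]
      refine Finset.sum_congr rfl fun i _ => ?_
      rw [Finsupp.linearCombination_single, tetBasis_apply hT ht i]
  have hker : Module.finrank ℝ (LinearMap.ker L) = Module.finrank ℝ (Rel T h s) := by
    have h2 : Rel T h s = (LinearMap.ker L).map S.subtype := by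
      ext r
      rw [Submodule.mem_map]
      constructor
      · intro hr
        obtain ⟨h3, h4⟩ := Submodule.mem_inf.1 hr
        exact ⟨⟨r, h3⟩, h4, rfl⟩
      · rintro ⟨⟨r', h3⟩, h4, rfl⟩
        exact Submodule.mem_inf.2 ⟨h3, h4⟩
    rw [h2]
    exact (LinearEquiv.finrank_eq (Submodule.equivMapOfInjective S.subtype
      (Submodule.subtype_injective S) (LinearMap.ker L)))
  rw [hsurj, finrank_top, hker, hT.span, hS, finrank_supported] at h1
  omega

end Pool.CB
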