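import Pool.Agent.Work.CB.Local

open scoped BigOperators
open Finset

noncomputable section

namespace Pool.CB

variable {P : Type*} [DecidableEq P] {W : Type*} [AddCommGroup W] [Module ℝ W]
variable {T : Finset (Finset P)} {h : P → W}

/-- The star of `v`. -/
def Tv (T : Finset (Finset P)) (v : P) : Finset (Finset P) := T.filter (fun t => v ∈ t)

theorem nb_Tv (T : Finset (Finset P)) (v : P) (s : Finset P) : nb (Tv T v) s = nb T (insert v s) := by
  ext p
  rw [mem_nb, mem_nb]
  constructor
  · rintro ⟨t, ht, hst, hp⟩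
    rw [Tv, Finset.mem_filter] at ht
    exact ⟨t, ht.1, Finset.insert_subset ht.2 hst, hp⟩
  · rintro ⟨t, ht, hst, hp⟩
    rw [Finset.insert_subset_iff] at hst
    exact ⟨t, Finset.mem_filter.2 ⟨ht, hst.1⟩, hst.2, hp⟩

theorem Rel_Tv (T : Finset (Finset P)) (h : P → W) (v : P) (s : Finset P) :
    Rel (Tv T v) h s = Rel T h (insert v s) := by
  rw [Rel, Rel, nb_Tv]

theorem insert_support_sub {a : P →₀ ℕ} {v : P} {c : ℕ} (hc : 1 ≤ c) (hv : c ≤ a v) :
    insert v (a - Finsupp.single v c).support = a.support := by
  ext x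
  simp only [Finset.mem_insert, Finsupp.mem_support_iff, Finsupp.tsub_apply, Finsupp.single_apply]
  by_cases hx : v = x
  · subst hx; simp; omega
  · simp [hx, Ne.symm hx]

theorem sub_add_single {a : P →₀ ℕ} {v : P} {c : ℕ} (hv : c ≤ a v) :
    a - Finsupp.single v c + Finsupp.single v c = a := by
  apply tsub_add_cancel_of_le
  rw [Finsupp.single_le_iff]
  exact hv

theorem degree_single' (v : P) (c : ℕ) : (Finsupp.single v c : P →₀ ℕ).degree = c := by
  simp

theorem mem_DD_Tv {v : P} {a : P →₀ ℕ} {k c : ℕ} (hc : 1 ≤ c) :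
    a ∈ DD (Tv T v) k ↔ a + Finsupp.single v c ∈ DD T (k + c) := by
  rw [mem_DD, mem_DD, map_add, degree_single', Nat.add_right_cancel_iff]
  have hs : (a + Finsupp.single v c).support = insert v a.support := by
    ext x
    simp only [Finsupp.mem_support_iff, Finsupp.add_apply, Finset.mem_insert, Finsupp.single_apply]
    by_cases hx : v = x
    · subst hx; simp; omega
    · simp [hx, Ne.symm hx]
  rw [hs]
  constructor
  · rintro ⟨⟨t, ht, hst⟩, hk⟩
    rw [Tv, Finset.mem_filter] at ht
    exact ⟨⟨t, ht.1, Finset.insert_subset ht.2 hst⟩, hk⟩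
  · rintro ⟨⟨t, ht, hst⟩, hk⟩
    rw [Finset.insert_subset_iff] at hst
    exact ⟨⟨t, Finset.mem_filter.2 ⟨ht, hst.1⟩, hst.2⟩, hk⟩

/-- Transport of a stress of the star of `v`. -/
def lamFun (c : ℕ) (v : P) (ρ : (P →₀ ℕ) → (P →₀ ℝ)) (a : P →₀ ℕ) : P →₀ ℝ :=
  if c ≤ a v then ρ (a - Finsupp.single v c) else 0

theorem lamFun_mem {c : ℕ} (hc : 1 ≤ c) {v : P} {ρ : (P →₀ ℕ) → (P →₀ ℝ)}
    (hρ : ρ ∈ StressT (Tv T v) h 3) : lamFun c v ρ ∈ StressT T h (c + 3) := by
  rw [Nat.add_comm c 3]
  obtain ⟨h1, h2, h3⟩ := mem_StressT.1 hρ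
  refine mem_StressT.2 ⟨fun a => ?_, fun a ha => ?_, fun b => ?_⟩
  · unfold lamFun
    split_ifs with hv
    · have := h1 (a - Finsupp.single v c)
      rwa [Rel_Tv, insert_support_sub hc hv] at this
    · exact Submodule.zero_mem _
  · unfold lamFun
    split_ifs with hv
    · apply h2
      intro hh
      apply ha
      rw [mem_DD_Tv hc, sub_add_single hv] at hh
      exact hh
    · rfl
  · by_cases hv : c ≤ b v
    swap
    · refine Finset.sum_eq_zero fun p _ => ?_
      unfold lamFun
      rw [if_neg]
      · rfl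
      · rw [Finsupp.tsub_apply]; omega
    rw [← h3 (b - Finsupp.single v c), ← insert_support_sub hc hv]
    by_cases hv2 : v ∈ (b - Finsupp.single v c).support
    · rw [Finset.insert_eq_of_mem hv2]
      refine Finset.sum_congr rfl fun p hp => ?_
      unfold lamFun
      rw [if_pos, tsub_right_comm]
      rw [Finsupp.mem_support_iff, Finsupp.tsub_apply, Finsupp.single_eq_same] at hv2
      rw [Finsupp.tsub_apply, Finsupp.single_apply]
      split_ifs <;> omega
    · rw [Finset.sum_insert hv2]
      have hbv : b v = c := by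
        rw [Finsupp.mem_support_iff, Finsupp.tsub_apply, Finsupp.single_eq_same] at hv2
        omega
      have : lamFun c v ρ (b - Finsupp.single v 1) = 0 := by
        unfold lamFun
        rw [if_neg]
        rw [Finsupp.tsub_apply, Finsupp.single_eq_same]; omega
      rw [this, Finsupp.zero_apply, zero_add]
      refine Finset.sum_congr rfl fun p hp => ?_
      have hpv : p ≠ v := fun hh => hv2 (hh ▸ hp)
      unfold lamFun
      rw [if_pos, tsub_right_comm]
      rw [Finsupp.tsub_apply, Finsupp.single_apply, if_neg hpv]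
      omega

/-- The sum of the transports. -/
def Lam (T : Finset (Finset P)) (h : P → W) (c : ℕ) (hc : 1 ≤ c) (V : Finset P) :
    ((v : V) → StressT (Tv T v.1) h 3) →ₗ[ℝ] StressT T h (c + 3) where
  toFun ρ := ∑ v : V, ⟨lamFun c v.1 (ρ v).1, lamFun_mem hc (ρ v).2⟩
  map_add' ρ ρ' := by
    rw [← Finset.sum_add_distrib]
    refine Finset.sum_congr rfl fun v _ => ?_
    apply Subtype.ext
    funext a
    simp only [Pi.add_apply, Submodule.coe_add, lamFun]
    split_ifs <;> simp
  map_smul' x ρ := by
    rw [Finset.smul_sum]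
    refine Finset.sum_congr rfl fun v _ => ?_
    apply Subtype.ext
    funext a
    simp only [Pi.smul_apply, RingHom.id_apply, Submodule.coe_smul, lamFun]
    split_ifs <;> simp

theorem Lam_apply {c : ℕ} {hc : 1 ≤ c} {V : Finset P} (ρ : (v : V) → StressT (Tv T v.1) h 3)
    (a : P →₀ ℕ) : (Lam T h c hc V ρ).1 a = ∑ v : V, lamFun c v.1 (ρ v).1 a := by
  simp only [Lam, LinearMap.coe_mk, AddHom.coe_mk]
  rw [AddSubmonoidClass.coe_finset_sum, Finset.sum_apply]

theorem le_degree (a : P →₀ ℕ) (v : P) : a v ≤ a.degree := Finsupp.le_degree v a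

theorem add_le_degree (a : P →₀ ℕ) {v w : P} (hvw : v ≠ w) : a v + a w ≤ a.degree := by
  rw [Finsupp.degree_apply]
  by_cases hv : v ∈ a.support
  · by_cases hw : w ∈ a.support
    · rw [← Finset.sum_pair hvw]
      exact Finset.sum_le_sum_of_subset (by
        intro x hx
        rw [Finset.mem_insert, Finset.mem_singleton] at hx
        rcases hx with rfl | rfl <;> assumption)
    · rw [Finsupp.notMem_support_iff.1 hw, add_zero]
      exact Finset.single_le_sum (f := fun x => a x) (fun _ _ => Nat.zero_le _) hv
  · rw [Finsupp.notMem_support_iff.1 hv, zero_add]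
    by_cases hw : w ∈ a.support
    · exact Finset.single_le_sum (f := fun x => a x) (fun _ _ => Nat.zero_le _) hw
    · rw [Finsupp.notMem_support_iff.1 hw]; exact Nat.zero_le _

theorem Lam_at {c : ℕ} {hc : 1 ≤ c} (hc4 : 4 ≤ c) {V : Finset P}
    (ρ : (v : V) → StressT (Tv T v.1) h 3) (a : P →₀ ℕ) (ha : a.degree = 3) (v : V) :
    (Lam T h c hc V ρ).1 (a + Finsupp.single v.1 c) = (ρ v).1 a := by
  rw [Lam_apply, Finset.sum_eq_single v]
  · unfold lamFun
    rw [if_pos, add_tsub_cancel_right]
    rw [Finsupp.add_apply, Finsupp.single_eq_same]; omega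
  · intro w _ hw
    unfold lamFun
    rw [if_neg]
    have hne : v.1 ≠ w.1 := fun hh => hw (Subtype.ext hh.symm)
    rw [Finsupp.add_apply, Finsupp.single_apply, if_neg hne]
    have := le_degree a w.1
    omega
  · intro hn
    exact absurd (Finset.mem_univ _) hn

theorem Lam_injective {c : ℕ} (hc : 1 ≤ c) (hc4 : 4 ≤ c) (V : Finset P) :
    Function.Injective (Lam T h c hc V) := by
  intro ρ ρ' he
  funext v
  apply Subtype.ext
  funext a
  by_cases ha : a ∈ DD (Tv T v.1) 3
  · have hd := (mem_DD.1 ha).2
    rw [← Lam_at (hc := hc) hc4 ρ a hd v, ← Lam_at (hc := hc) hc4 ρ' a hd v, he]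
  · rw [(mem_StressT.1 (ρ v).2).2.1 a ha, (mem_StressT.1 (ρ' v).2).2.1 a ha]

/-- The multi-indices on edges with both multiplicities at least three. -/
def MM (T : Finset (Finset P)) (k : ℕ) : Finset (P →₀ ℕ) :=
  (DD T k).filter (fun m => m.support.card = 2 ∧ ∀ p ∈ m.support, 3 ≤ m p)

/-- The map to the edge stresses. -/
def Theta (hT : IsFan T h) (k : ℕ) :
    StressT T h (k + 1) →ₗ[ℝ] ((m : MM T k) → Sig T h m.1.support) where
  toFun ρ m := ⟨fun w => if w ∈ m.1.support then 0 else ρ.1 (m.1 + Finsupp.single w 1),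
    theta_mem hT ρ.2 (Finset.mem_filter.1 m.2).2.1 (Finset.mem_filter.1 m.2).2.2⟩
  map_add' ρ ρ' := by
    funext m
    apply Subtype.ext
    funext w
    simp only [Submodule.coe_add, Pi.add_apply]
    split_ifs <;> simp
  map_smul' x ρ := by
    funext m
    apply Subtype.ext
    funext w
    simp only [Submodule.coe_smul, Pi.smul_apply, RingHom.id_apply]
    split_ifs <;> simp

theorem Theta_apply (hT : IsFan T h) {k : ℕ} (ρ : StressT T h (k + 1)) (m : MM T k) {w : P}
    (hw : w ∉ m.1.support) : (Theta hT k ρ m).1 w = ρ.1 (m.1 + Finsupp.single w 1) := by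
  simp only [Theta, LinearMap.coe_mk, AddHom.coe_mk]
  rw [if_neg hw]

theorem Theta_eq_zero (hT : IsFan T h) {k : ℕ} {ρ : StressT T h (k + 1)} (hρ : Theta hT k ρ = 0)
    {m : P →₀ ℕ} (hm : m ∈ MM T k) {w : P} (hw : w ∉ m.support) :
    ρ.1 (m + Finsupp.single w 1) = 0 := by
  rw [← Theta_apply hT ρ ⟨m, hm⟩ hw, hρ]
  rfl

theorem mem_MM {k : ℕ} {m : P →₀ ℕ} : m ∈ MM T k ↔
    m ∈ DD T k ∧ m.support.card = 2 ∧ ∀ p ∈ m.support, 3 ≤ m p := by
  rw [MM, Finset.mem_filter]

theorem DD_of_le {T : Finset (Finset P)} {k k' : ℕ} {a b : P →₀ ℕ} (ha : a ∈ DD T k)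
    (hs : b.support ⊆ a.support) (hb : b.degree = k') : b ∈ DD T k' := by
  obtain ⟨⟨t, ht, hst⟩, _⟩ := mem_DD.1 ha
  exact mem_DD.2 ⟨⟨t, ht, hs.trans hst⟩, hb⟩

/-- If `Theta ρ = 0` then `ρ` is carried by the multi-indices near the vertices. -/
theorem far_zero (hT : IsFan T h) {c : ℕ} (hc : 1 ≤ c) {ρ : StressT T h (c + 3)}
    (hρ : Theta hT (c + 2) ρ = 0) {a : P →₀ ℕ} (ha : ∀ v, a v < c) : ρ.1 a = 0 := by
  by_cases hD : a ∈ DD T (c + 3)
  swap
  · exact (mem_StressT.1 ρ.2).2.1 a hD
  obtain ⟨⟨t, ht, hst⟩, hk⟩ := mem_DD.1 hD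
  have hdeg : ∑ p ∈ a.support, a p = c + 3 := by rw [← hk, Finsupp.degree_apply]
  have hcard : a.support.card ≤ 4 := by
    rw [← hT.card_eq t ht]; exact Finset.card_le_card hst
  obtain h4 | h3 | h2 | h1 | h0 : a.support.card = 4 ∨ a.support.card = 3 ∨ a.support.card = 2 ∨
      a.support.card = 1 ∨ a.support.card = 0 := by omega
  · exact big_zero hT ρ.2 h4.ge
  · by_cases hall : ∀ p ∈ a.support, 2 ≤ a p
    · exact face_zero hT ρ.2 h3 hall
    · push Not at hall
      obtain ⟨w, hw, hw2⟩ := hall
      have hw1 : a w = 1 := by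
        have := Finsupp.mem_support_iff.1 hw
        omega
      set m := a - Finsupp.single w 1 with hm
      have ham : m + Finsupp.single w 1 = a := (sub_single_eq_iff hw).1 rfl
      have hms : m.support = a.support.erase w := by
        ext x
        simp only [hm, Finsupp.mem_support_iff, Finsupp.tsub_apply, Finsupp.single_apply,
          Finset.mem_erase]
        by_cases hx : w = x
        · subst hx; simp [hw1]
        · simp [hx, Ne.symm hx]
      have hmc : m.support.card = 2 := by rw [hms, Finset.card_erase_of_mem hw, h3]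
      have hmd : m.degree = c + 2 := by
        have := degree_sub_single hw
        rw [← hm, hk] at this
        omega
      have hmem : m ∈ MM T (c + 2) := by
        refine mem_MM.2 ⟨DD_of_le hD (by rw [hms]; exact Finset.erase_subset _ _) hmd, hmc, ?_⟩
        intro p hp
        obtain ⟨x, y, hxy, hxy'⟩ := Finset.card_eq_two.1 hmc
        have hsum : m x + m y = c + 2 := by
          rw [← hmd, Finsupp.degree_apply, hxy', Finset.sum_pair hxy]
        have hlt : ∀ q, m q < c := fun q => lt_of_le_of_lt (by rw [hm, Finsupp.tsub_apply]; omega) (ha q)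
        have hx := hlt x
        have hy := hlt y
        rw [hxy', Finset.mem_insert, Finset.mem_singleton] at hp
        rcases hp with rfl | rfl <;> omega
      have hwm : w ∉ m.support := by rw [hms]; exact Finset.notMem_erase _ _
      have := Theta_eq_zero hT hρ hmem hwm
      rwa [ham] at this
  · obtain ⟨u, v, huv, hs⟩ := Finset.card_eq_two.1 h2
    have hsum : a u + a v = c + 3 := by rw [← hdeg, hs, Finset.sum_pair huv]
    have hu := ha u
    have hv := ha v
    refine rel_eq_zero hT ((mem_StressT.1 ρ.2).1 a) ht fun w hw => ?_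
    have hwa : w ∉ a.support := fun hh => hw (hst hh)
    refine stress_at ρ.2 a w fun p hp hpw => ?_
    set m := a - Finsupp.single p 1 with hm
    have hap : 4 ≤ a p := by
      rw [hs, Finset.mem_insert, Finset.mem_singleton] at hp
      rcases hp with rfl | rfl <;> omega
    have hms : m.support = a.support := support_sub_single (by omega)
    have hmd : m.degree = c + 2 := by
      have := degree_sub_single hp
      rw [← hm, hk] at this
      omega
    have hmem : m ∈ MM T (c + 2) := by
      refine mem_MM.2 ⟨DD_of_le hD hms.le hmd, by rw [hms, h2], ?_⟩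
      intro q hq
      have h4q : 4 ≤ a q := by
        rw [hms, hs, Finset.mem_insert, Finset.mem_singleton] at hq
        rcases hq with rfl | rfl <;> omega
      rw [hm, Finsupp.tsub_apply, Finsupp.single_apply]
      split_ifs <;> omega
    have hwm : w ∉ m.support := by rw [hms]; exact hwa
    have h5 := Theta_eq_zero hT hρ hmem hwm
    have h6 : a + Finsupp.single w 1 - Finsupp.single p 1 = m + Finsupp.single w 1 := by
      rw [hm]
      ext q
      simp only [Finsupp.tsub_apply, Finsupp.add_apply, Finsupp.single_apply]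
      by_cases hpq : p = q
      · subst hpq; simp [Ne.symm hpw]
      · simp [hpq]
    rw [h6, h5]
    rfl
  · exfalso
    obtain ⟨u, hs⟩ := Finset.card_eq_one.1 h1
    rw [hs, Finset.sum_singleton] at hdeg
    have := ha u
    omega
  · exfalso
    rw [Finset.card_eq_zero] at h0
    rw [h0, Finset.sum_empty] at hdeg
    omega

theorem ker_Theta (hT : IsFan T h) {c : ℕ} (hc : 1 ≤ c) (hc5 : 5 ≤ c) {V : Finset P}
    (hV : ∀ t ∈ T, t ⊆ V) :
    LinearMap.ker (Theta hT (c + 2)) = LinearMap.range (Lam T h c hc V) := by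
  ext ρ
  rw [LinearMap.mem_ker]
  constructor
  · intro hρ
    have hfar := fun a => far_zero hT hc hρ (a := a)
    obtain ⟨r1, r2, r3⟩ := mem_StressT.1 ρ.2
    let σ : V → (P →₀ ℕ) → (P →₀ ℝ) := fun v a =>
      if a ∈ DD (Tv T v.1) 3 then ρ.1 (a + Finsupp.single v.1 c) else 0
    have hσ : ∀ v, σ v ∈ StressT (Tv T v.1) h 3 := by
      intro v
      refine mem_StressT.2 ⟨fun a => ?_, fun a ha => if_neg ha, fun b => ?_⟩
      · show (if a ∈ DD (Tv T v.1) 3 then ρ.1 (a + Finsupp.single v.1 c) else 0) ∈ _
        split_ifs with ha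
        · have := r1 (a + Finsupp.single v.1 c)
          rw [Rel_Tv]
          have hs : (a + Finsupp.single v.1 c).support = insert v.1 a.support := by
            have := insert_support_sub (a := a + Finsupp.single v.1 c) (v := v.1) hc
              (by rw [Finsupp.add_apply, Finsupp.single_eq_same]; omega)
            rw [add_tsub_cancel_right] at this
            exact this.symm
          rwa [hs] at this
        · exact Submodule.zero_mem _
      · by_cases hb : b.degree = 4
        swap
        · refine Finset.sum_eq_zero fun p hp => ?_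
          show (if b - Finsupp.single p 1 ∈ DD (Tv T v.1) 3 then _ else (0 : P →₀ ℝ)) p = 0
          rw [if_neg]
          · rfl
          · intro hh
            have h1 := (mem_DD.1 hh).2
            have h2 := degree_sub_single hp
            omega
        have hσρ : ∀ p ∈ b.support, σ v (b - Finsupp.single p 1)
            = ρ.1 (b - Finsupp.single p 1 + Finsupp.single v.1 c) := by
          intro p hp
          show (if b - Finsupp.single p 1 ∈ DD (Tv T v.1) 3 then _ else (0 : P →₀ ℝ)) = _
          split_ifs with hh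
          · rfl
          · rw [r2]
            rw [mem_DD_Tv hc, Nat.add_comm 3 c] at hh
            exact hh
        have hsum := r3 (b + Finsupp.single v.1 c)
        have hs : (b + Finsupp.single v.1 c).support = insert v.1 b.support := by
          have := insert_support_sub (a := b + Finsupp.single v.1 c) (v := v.1) hc
            (by rw [Finsupp.add_apply, Finsupp.single_eq_same]; omega)
          rw [add_tsub_cancel_right] at this
          exact this.symm
        rw [hs] at hsum
        have hterm : ∀ p ∈ b.support, b + Finsupp.single v.1 c - Finsupp.single p 1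
            = b - Finsupp.single p 1 + Finsupp.single v.1 c := by
          intro p hp
          have := Finsupp.mem_support_iff.1 hp
          ext q
          simp only [Finsupp.tsub_apply, Finsupp.add_apply, Finsupp.single_apply]
          by_cases hpq : p = q
          · subst hpq; simp; omega
          · simp [hpq]
        by_cases hv : v.1 ∈ b.support
        · rw [Finset.insert_eq_of_mem hv] at hsum
          rw [← hsum]
          refine Finset.sum_congr rfl fun p hp => ?_
          rw [hσρ p hp, hterm p hp]
        · rw [Finset.sum_insert hv] at hsum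
          have hbv : b v.1 = 0 := Finsupp.notMem_support_iff.1 hv
          have hz : ρ.1 (b + Finsupp.single v.1 c - Finsupp.single v.1 1) = 0 := by
            apply hfar
            intro w
            rw [Finsupp.tsub_apply, Finsupp.add_apply, Finsupp.single_apply, Finsupp.single_apply]
            have hw := le_degree b w
            by_cases hvw : v.1 = w
            · rw [if_pos hvw, if_pos hvw, ← hvw, hbv]; omega
            · rw [if_neg hvw, if_neg hvw]; omega
          rw [hz, Finsupp.zero_apply, zero_add] at hsum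
          rw [← hsum]
          refine Finset.sum_congr rfl fun p hp => ?_
          rw [hσρ p hp, hterm p hp]
    refine ⟨fun v => ⟨σ v, hσ v⟩, ?_⟩
    apply Subtype.ext
    funext a
    rw [Lam_apply]
    by_cases hD : a ∈ DD T (c + 3)
    swap
    · rw [r2 a hD]
      refine Finset.sum_eq_zero fun v _ => ?_
      show lamFun c v.1 (σ v) a = 0
      exact (mem_StressT.1 (lamFun_mem hc (hσ v))).2.1 a hD
    by_cases hex : ∃ v, c ≤ a v
    · obtain ⟨v, hv⟩ := hex
      have hvV : v ∈ V := by
        obtain ⟨⟨t, ht, hst⟩, _⟩ := mem_DD.1 hD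
        apply hV t ht
        apply hst
        rw [Finsupp.mem_support_iff]; omega
      rw [Finset.sum_eq_single (⟨v, hvV⟩ : V)]
      · show lamFun c v (σ ⟨v, hvV⟩) a = ρ.1 a
        unfold lamFun
        rw [if_pos hv]
        show (if a - Finsupp.single v c ∈ DD (Tv T v) 3 then _ else (0 : P →₀ ℝ)) = ρ.1 a
        rw [if_pos, sub_add_single hv]
        rw [mem_DD_Tv hc, sub_add_single hv, Nat.add_comm 3 c]
        exact hD
      · intro w _ hw
        have hne : v ≠ w.1 := fun hh => hw (Subtype.ext hh.symm)
        have := add_le_degree a hne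
        rw [(mem_DD.1 hD).2] at this
        show lamFun c w.1 (σ w) a = 0
        unfold lamFun
        rw [if_neg (by omega)]
      · intro hn
        exact absurd (Finset.mem_univ _) hn
    · push Not at hex
      rw [hfar a hex]
      refine Finset.sum_eq_zero fun v _ => ?_
      show lamFun c v.1 (σ v) a = 0
      unfold lamFun
      rw [if_neg (not_le.2 (hex v.1))]
  · rintro ⟨σ, rfl⟩
    funext m
    apply Subtype.ext
    funext w
    obtain ⟨hmD, hmc, hm3⟩ := mem_MM.1 m.2
    by_cases hw : w ∈ m.1.support
    · simp only [Theta, LinearMap.coe_mk, AddHom.coe_mk]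
      rw [if_pos hw]
      rfl
    · rw [Theta_apply hT _ m hw, Lam_apply]
      show _ = (0 : P →₀ ℝ)
      refine Finset.sum_eq_zero fun v _ => ?_
      unfold lamFun
      rw [if_neg]
      rw [not_le, Finsupp.add_apply, Finsupp.single_apply]
      have hmd := (mem_DD.1 hmD).2
      obtain ⟨x, y, hxy, hxy'⟩ := Finset.card_eq_two.1 hmc
      have hsum : m.1 x + m.1 y = c + 2 := by
        have h7 := hmd
        rw [Finsupp.degree_apply, hxy', Finset.sum_pair hxy] at h7
        exact h7
      have hx := hm3 x (by rw [hxy']; simp)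
      have hy := hm3 y (by rw [hxy']; simp)
      by_cases hvm : v.1 ∈ m.1.support
      · have hwv : w ≠ v.1 := fun hh => hw (hh ▸ hvm)
        rw [if_neg hwv, add_zero]
        rw [hxy', Finset.mem_insert, Finset.mem_singleton] at hvm
        rcases hvm with hh | hh <;> rw [hh] <;> omega
      · rw [Finsupp.notMem_support_iff.1 hvm]
        split_ifs <;> omega

end Pool.CB
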