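import Mathlib

/-!
# Continuously differentiable splines on tetrahedral complexes: definitions
-/

open scoped BigOperators

noncomputable section

namespace Pool.CB

/-- Three-space. -/
abbrev E3 := Fin 3 → ℝ

/-- A finite collection of nondegenerate tetrahedra in three-space, given by their vertex sets, any
two of which meet in the convex hull of their common vertices: in the empty set, a common vertex, a
common edge or a common triangular face (or they are equal). -/
structure TetComplex where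
  /-- the vertex sets of the tetrahedra -/
  tets : Finset (Finset E3)
  card_eq : ∀ t ∈ tets, t.card = 4
  indep : ∀ t ∈ tets, AffineIndependent ℝ (fun p : t => (p : E3))
  meet : ∀ s ∈ tets, ∀ t ∈ tets,
    convexHull ℝ (s : Set E3) ∩ convexHull ℝ (t : Set E3) = convexHull ℝ ((s : Set E3) ∩ t)

namespace TetComplex

variable (Δ : TetComplex)

/-- The union of the tetrahedra. -/
def space : Set E3 := {x | ∃ t ∈ Δ.tets, x ∈ convexHull ℝ (t : Set E3)}

/-- The faces with `j` vertices: `j = 1` vertices, `j = 2` edges, `j = 3` triangles, `j = 4`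
tetrahedra. -/
def faces (j : ℕ) : Set (Finset E3) := {s | s.card = j ∧ ∃ t ∈ Δ.tets, s ⊆ t}

/-- The vertices. -/
def vertices : Finset E3 := Δ.tets.biUnion id

/-- The star of `v`: all tetrahedra with vertex `v`. -/
def star (v : E3) : TetComplex where
  tets := Δ.tets.filter (fun t => v ∈ t)
  card_eq t ht := Δ.card_eq t (Finset.mem_filter.1 ht).1
  indep t ht := Δ.indep t (Finset.mem_filter.1 ht).1
  meet s hs t ht := Δ.meet s (Finset.mem_filter.1 hs).1 t (Finset.mem_filter.1 ht).1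

/-- The spline space `S_k^1(Δ)`: the functions on the union `Ω` of the tetrahedra which are
continuously differentiable on `Ω` and which restrict to a polynomial of total degree at most `k`
on every tetrahedron. -/
def splines (k : ℕ) : Submodule ℝ (Δ.space → ℝ) where
  carrier := {f | (∃ g : E3 → ℝ, ContDiffOn ℝ 1 g Δ.space ∧ ∀ x : Δ.space, f x = g x) ∧
    ∀ t ∈ Δ.tets, ∃ p : MvPolynomial (Fin 3) ℝ, p.totalDegree ≤ k ∧
      ∀ x : Δ.space, (x : E3) ∈ convexHull ℝ (t : Set E3) → f x = MvPolynomial.eval (x : E3) p}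
  add_mem' := by
    rintro f f' ⟨⟨g, hg, hfg⟩, hp⟩ ⟨⟨g', hg', hfg'⟩, hp'⟩
    refine ⟨⟨fun x => g x + g' x, hg.add hg', fun x => ?_⟩, fun t ht => ?_⟩
    · rw [Pi.add_apply, hfg, hfg']
    · obtain ⟨p, hpk, hpx⟩ := hp t ht
      obtain ⟨p', hpk', hpx'⟩ := hp' t ht
      refine ⟨p + p', (MvPolynomial.totalDegree_add _ _).trans (max_le hpk hpk'), fun x hx => ?_⟩
      rw [Pi.add_apply, hpx x hx, hpx' x hx, map_add]
  zero_mem' := by
    refine ⟨⟨fun _ => 0, contDiffOn_const, fun _ => rfl⟩, fun t _ => ⟨0, ?_, fun x _ => ?_⟩⟩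
    · simp
    · simp
  smul_mem' := by
    rintro c f ⟨⟨g, hg, hfg⟩, hp⟩
    refine ⟨⟨fun x => c * g x, contDiffOn_const.mul hg, fun x => ?_⟩, fun t ht => ?_⟩
    · rw [Pi.smul_apply, hfg, smul_eq_mul]
    · obtain ⟨p, hpk, hpx⟩ := hp t ht
      refine ⟨MvPolynomial.C c * p, ?_, fun x hx => ?_⟩
      · refine (MvPolynomial.totalDegree_mul _ _).trans ?_
        rw [MvPolynomial.totalDegree_C, zero_add]
        exact hpk
      · rw [Pi.smul_apply, hpx x hx, smul_eq_mul, map_mul, MvPolynomial.eval_C]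

/-- Singular edges: every triangle of `Δ` with this edge lies in two tetrahedra of `Δ`, and there
are two planes such that every such triangle lies in one of them. -/
def IsSingular (e : Finset E3) : Prop :=
  e ∈ Δ.faces 2 ∧
  (∀ f ∈ Δ.faces 3, e ⊆ f → ∃ s ∈ Δ.tets, ∃ t ∈ Δ.tets, s ≠ t ∧ f ⊆ s ∧ f ⊆ t) ∧
  ∃ (a b : E3) (α β : ℝ), a ≠ 0 ∧ b ≠ 0 ∧ ∀ f ∈ Δ.faces 3, e ⊆ f →
    (∀ x ∈ f, ∑ i, a i * x i = α) ∨ (∀ x ∈ f, ∑ i, b i * x i = β)

/-- The number `4 V + (3 k - 7) E + (k - 2)(k - 5) F + (k - 2)(k - 3)(k - 13) T / 6`. -/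
def count (k : ℕ) : ℚ :=
  4 * (Δ.faces 1).ncard + (3 * k - 7) * (Δ.faces 2).ncard + (k - 2) * (k - 5) * (Δ.faces 3).ncard
    + (k - 2) * (k - 3) * (k - 13) / 6 * (Δ.faces 4).ncard

end TetComplex

end Pool.CB
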