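import Mathlib

/-!
# Angles around a point of the plane
-/

open scoped BigOperators Topology ComplexConjugate
open Finset MeasureTheory

noncomputable section

namespace Pool.CB

/-- orientation -/
def ori (x y : ℂ) : ℝ := (conj x * y).im

theorem ori_eq (x y : ℂ) : ori x y = x.re * y.im - x.im * y.re := by
  simp [ori, Complex.mul_im]
  ring

theorem ori_div {x y : ℂ} (hx : x ≠ 0) : (y / x).im = ori x y / Complex.normSq x := by
  have h1 : y / x = (conj x * y) * ((Complex.normSq x)⁻¹ : ℝ) := by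
    rw [div_eq_mul_inv, Complex.inv_def]
    ring
  rw [h1, Complex.im_mul_ofReal, ori, div_eq_mul_inv]

theorem ori_ne_left {x y : ℂ} (h : 0 < ori x y) : x ≠ 0 := by
  rintro rfl
  simp [ori] at h

theorem ori_ne_right {x y : ℂ} (h : 0 < ori x y) : y ≠ 0 := by
  rintro rfl
  simp [ori] at h

/-- the angle from `x` to `y` -/
def th (x y : ℂ) : ℝ := (y / x).arg

theorem th_pos {x y : ℂ} (h : 0 < ori x y) : 0 < th x y := by
  have h1 : 0 < (y / x).im := by
    rw [ori_div (ori_ne_left h)]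
    exact div_pos h (Complex.normSq_pos.2 (ori_ne_left h))
  have h2 : 0 ≤ th x y := Complex.arg_nonneg_iff.2 h1.le
  rcases h2.eq_or_lt with h3 | h3
  · exfalso
    have h4 := Complex.arg_eq_zero_iff.1 h3.symm
    exact h1.ne' h4.2
  · exact h3

theorem th_lt_pi {x y : ℂ} (h : 0 < ori x y) : th x y < Real.pi := by
  have h1 : 0 < (y / x).im := by
    rw [ori_div (ori_ne_left h)]
    exact div_pos h (Complex.normSq_pos.2 (ori_ne_left h))
  rw [th, Complex.arg_lt_pi_iff]
  right
  exact h1.ne'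

theorem exp_th {x y : ℂ} (hx : x ≠ 0) (hy : y ≠ 0) :
    Complex.exp (th x y * Complex.I) = (y / x) / (‖y / x‖ : ℝ) := by
  have h1 := Complex.norm_mul_exp_arg_mul_I (y / x)
  have h2 : ((‖y / x‖ : ℝ) : ℂ) ≠ 0 := by
    rw [Complex.ofReal_ne_zero, norm_ne_zero_iff]
    exact div_ne_zero hy hx
  rw [eq_div_iff h2, mul_comm]
  exact h1

/-- The total angle of a closed chain of sectors is a positive multiple of `2π`. -/
theorem winding {N : Type*} [Fintype N] [Nonempty N] (u : N → ℂ) (nx : Equiv.Perm N)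
    (h : ∀ q, 0 < ori (u q) (u (nx q))) : 2 * Real.pi ≤ ∑ q, th (u q) (u (nx q)) := by
  have hu : ∀ q, u q ≠ 0 := fun q => ori_ne_left (h q)
  have hpos : 0 < ∑ q, th (u q) (u (nx q)) :=
    Finset.sum_pos (fun q _ => th_pos (h q)) Finset.univ_nonempty
  have h1 : Complex.exp ((∑ q, th (u q) (u (nx q)) : ℝ) * Complex.I) = 1 := by
    have e1 : ((∑ q, th (u q) (u (nx q)) : ℝ) : ℂ) * Complex.I
        = ∑ q, (th (u q) (u (nx q)) : ℂ) * Complex.I := by
      push_cast
      rw [Finset.sum_mul]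
    rw [e1, Complex.exp_sum, Finset.prod_congr rfl (fun q _ => exp_th (hu q) (hu (nx q))),
      Finset.prod_div_distrib, Finset.prod_div_distrib]
    have e2 : ∏ q, u (nx q) = ∏ q, u q := Equiv.prod_comp nx u
    have e3 : ∏ q, ((‖u (nx q) / u q‖ : ℝ) : ℂ) = 1 := by
      rw [← Complex.ofReal_prod]
      have : ∏ q, ‖u (nx q) / u q‖ = 1 := by
        rw [← norm_prod, Finset.prod_div_distrib, e2, div_self, norm_one]
        exact Finset.prod_ne_zero_iff.2 fun q _ => hu q
      rw [this]; simp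
    rw [e2, e3, div_self, div_one]
    exact Finset.prod_ne_zero_iff.2 fun q _ => hu q
  obtain ⟨n, hn⟩ := Complex.exp_eq_one_iff.1 h1
  have h2 : ((∑ q, th (u q) (u (nx q)) : ℝ) : ℂ) = ((n * (2 * Real.pi) : ℝ) : ℂ) := by
    have h3 : ((∑ q, th (u q) (u (nx q)) : ℝ) : ℂ) * Complex.I
        = ((n * (2 * Real.pi) : ℝ) : ℂ) * Complex.I := by
      rw [hn]; push_cast; ring
    exact mul_right_cancel₀ Complex.I_ne_zero h3
  have h4 : ∑ q, th (u q) (u (nx q)) = n * (2 * Real.pi) := Complex.ofReal_injective h2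
  rw [h4] at hpos ⊢
  have hn0 : (0 : ℝ) < n := by
    by_contra hcon
    push Not at hcon
    have := mul_nonpos_of_nonpos_of_nonneg hcon (by positivity : (0 : ℝ) ≤ 2 * Real.pi)
    linarith
  have hn1 : (1 : ℝ) ≤ n := by
    have : (0 : ℤ) < n := by exact_mod_cast hn0
    exact_mod_cast this
  nlinarith [Real.pi_pos]

/-- the open sector between `x` and `y` -/
def InSec (x y z : ℂ) : Prop := 0 < ori x z ∧ 0 < ori z y

theorem ori_polar (a b r s : ℝ) :
    ori (r * Complex.exp (a * Complex.I)) (s * Complex.exp (b * Complex.I))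
      = r * s * Real.sin (b - a) := by
  rw [ori_eq, Complex.exp_mul_I, Complex.exp_mul_I]
  simp only [Complex.mul_re, Complex.mul_im, Complex.add_re, Complex.add_im, Complex.ofReal_re,
    Complex.ofReal_im, Complex.I_re, Complex.I_im, Complex.cos_ofReal_re, Complex.cos_ofReal_im,
    Complex.sin_ofReal_re, Complex.sin_ofReal_im]
  rw [Real.sin_sub]
  ring

theorem inSec_iff {x y : ℂ} (h : 0 < ori x y) (ψ : ℝ) (h0 : 0 ≤ ψ) (h2 : ψ ≤ 2 * Real.pi) :
    InSec x y (Complex.exp ((x.arg + ψ : ℝ) * Complex.I)) ↔ 0 < ψ ∧ ψ < th x y := by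
  have hx0 := ori_ne_left h
  have hy0 := ori_ne_right h
  have hx : x = (‖x‖ : ℝ) * Complex.exp ((x.arg : ℝ) * Complex.I) :=
    (Complex.norm_mul_exp_arg_mul_I x).symm
  have hy : y = (‖y‖ : ℝ) * Complex.exp ((x.arg + th x y : ℝ) * Complex.I) := by
    have e1 : Complex.exp ((x.arg + th x y : ℝ) * Complex.I)
        = Complex.exp ((x.arg : ℝ) * Complex.I) * Complex.exp ((th x y : ℝ) * Complex.I) := by
      rw [← Complex.exp_add]; push_cast; ring_nf
    rw [e1, exp_th hx0 hy0, norm_div]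
    have e2 : Complex.exp ((x.arg : ℝ) * Complex.I) = x / (‖x‖ : ℝ) := by
      have : ((‖x‖ : ℝ) : ℂ) ≠ 0 := by
        rw [Complex.ofReal_ne_zero]; exact norm_ne_zero_iff.2 hx0
      rw [eq_div_iff this, mul_comm]
      exact hx.symm
    rw [e2]
    have hnx : ((‖x‖ : ℝ) : ℂ) ≠ 0 := by
      rw [Complex.ofReal_ne_zero]; exact norm_ne_zero_iff.2 hx0
    have hny : ((‖y‖ : ℝ) : ℂ) ≠ 0 := by
      rw [Complex.ofReal_ne_zero]; exact norm_ne_zero_iff.2 hy0
    push_cast
    field_simp
  have hz : Complex.exp ((x.arg + ψ : ℝ) * Complex.I)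
      = (1 : ℝ) * Complex.exp ((x.arg + ψ : ℝ) * Complex.I) := by simp
  have o1 : ori x (Complex.exp ((x.arg + ψ : ℝ) * Complex.I)) = ‖x‖ * Real.sin ψ := by
    have e1 : ori x (Complex.exp ((x.arg + ψ : ℝ) * Complex.I))
        = ori ((‖x‖ : ℝ) * Complex.exp ((x.arg : ℝ) * Complex.I))
          ((1 : ℝ) * Complex.exp ((x.arg + ψ : ℝ) * Complex.I)) := by rw [← hx, ← hz]
    rw [e1, ori_polar, mul_one, add_sub_cancel_left]
  have o2 : ori (Complex.exp ((x.arg + ψ : ℝ) * Complex.I)) y = ‖y‖ * Real.sin (th x y - ψ) := by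
    have e1 : ori (Complex.exp ((x.arg + ψ : ℝ) * Complex.I)) y
        = ori ((1 : ℝ) * Complex.exp ((x.arg + ψ : ℝ) * Complex.I))
          ((‖y‖ : ℝ) * Complex.exp ((x.arg + th x y : ℝ) * Complex.I)) := by rw [← hy, ← hz]
    rw [e1, ori_polar, one_mul]
    congr 2
    ring
  have hnx : 0 < ‖x‖ := norm_pos_iff.2 hx0
  have hny : 0 < ‖y‖ := norm_pos_iff.2 hy0
  have ht0 := th_pos h
  have htp := th_lt_pi h
  rw [InSec, o1, o2, mul_pos_iff_of_pos_left hnx, mul_pos_iff_of_pos_left hny]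
  constructor
  · rintro ⟨s1, s2⟩
    have hψ : ψ < Real.pi := by
      by_contra hcon
      push Not at hcon
      have : Real.sin ψ ≤ 0 := by
        have h5 : Real.sin (ψ - Real.pi) = - Real.sin ψ := Real.sin_sub_pi ψ
        have h6 : 0 ≤ Real.sin (ψ - Real.pi) :=
          Real.sin_nonneg_of_nonneg_of_le_pi (by linarith) (by linarith)
        linarith
      linarith
    refine ⟨?_, ?_⟩
    · rcases h0.eq_or_lt with h7 | h7
      · rw [← h7, Real.sin_zero] at s1; exact absurd s1 (lt_irrefl _)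
      · exact h7
    · by_contra hcon
      push Not at hcon
      have : Real.sin (th x y - ψ) ≤ 0 :=
        Real.sin_nonpos_of_nonpos_of_neg_pi_le (by linarith) (by linarith)
      linarith
  · rintro ⟨s1, s2⟩
    exact ⟨Real.sin_pos_of_pos_of_lt_pi s1 (by linarith),
      Real.sin_pos_of_pos_of_lt_pi (by linarith) (by linarith)⟩

theorem ori_continuous_left (y : ℂ) : Continuous fun z => ori z y := by
  unfold ori
  fun_prop

theorem ori_continuous_right (x : ℂ) : Continuous fun z => ori x z := by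
  unfold ori
  fun_prop

/-- the directions in a sector -/
def secSet (x y : ℂ) : Set ℝ := {φ | InSec x y (Complex.exp ((φ : ℝ) * Complex.I))}

theorem secSet_open (x y : ℂ) : IsOpen (secSet x y) := by
  have h1 : Continuous fun φ : ℝ => Complex.exp ((φ : ℝ) * Complex.I) := by fun_prop
  exact (isOpen_lt continuous_const ((ori_continuous_right x).comp h1)).inter
    (isOpen_lt continuous_const ((ori_continuous_left y).comp h1))

theorem secSet_periodic (x y : ℂ) :
    Function.Periodic ((secSet x y).indicator (fun _ => (1 : ℝ))) (2 * Real.pi) := by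
  intro φ
  have h1 : Complex.exp (((φ + 2 * Real.pi : ℝ) : ℂ) * Complex.I)
      = Complex.exp ((φ : ℝ) * Complex.I) := by
    have : ((φ + 2 * Real.pi : ℝ) : ℂ) * Complex.I = (φ : ℝ) * Complex.I + 2 * Real.pi * Complex.I := by
      push_cast; ring
    rw [this, Complex.exp_add, Complex.exp_two_pi_mul_I, mul_one]
  have h2 : φ + 2 * Real.pi ∈ secSet x y ↔ φ ∈ secSet x y := by
    show InSec x y _ ↔ InSec x y _
    rw [h1]
  by_cases hφ : φ ∈ secSet x y
  · rw [Set.indicator_of_mem hφ, Set.indicator_of_mem (h2.2 hφ)]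
  · rw [Set.indicator_of_notMem hφ, Set.indicator_of_notMem (fun hh => hφ (h2.1 hh))]

theorem integral_secSet {x y : ℂ} (h : 0 < ori x y) :
    ∫ φ in (0 : ℝ)..(2 * Real.pi), (secSet x y).indicator (fun _ => (1 : ℝ)) φ = th x y := by
  have h1 := (secSet_periodic x y).intervalIntegral_add_eq 0 x.arg
  rw [zero_add] at h1
  rw [h1]
  have h2 : ∫ φ in x.arg..(x.arg + 2 * Real.pi), (secSet x y).indicator (fun _ => (1 : ℝ)) φ
      = ∫ ψ in (0 : ℝ)..(2 * Real.pi), (secSet x y).indicator (fun _ => (1 : ℝ)) (x.arg + ψ) := by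
    rw [intervalIntegral.integral_comp_add_left
      (fun φ => (secSet x y).indicator (fun _ => (1 : ℝ)) φ) x.arg, add_zero]
  rw [h2]
  have h3 : ∫ ψ in (0 : ℝ)..(2 * Real.pi), (secSet x y).indicator (fun _ => (1 : ℝ)) (x.arg + ψ)
      = ∫ ψ in (0 : ℝ)..(2 * Real.pi), (Set.Ioo 0 (th x y)).indicator (fun _ => (1 : ℝ)) ψ := by
    refine intervalIntegral.integral_congr fun ψ hψ => ?_
    rw [Set.uIcc_of_le (by positivity)] at hψ
    have h4 := inSec_iff h ψ hψ.1 hψ.2
    have h5 : x.arg + ψ ∈ secSet x y ↔ ψ ∈ Set.Ioo 0 (th x y) := h4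
    by_cases hm : ψ ∈ Set.Ioo 0 (th x y)
    · simp only [Set.indicator_of_mem hm, Set.indicator_of_mem (h5.2 hm)]
    · simp only [Set.indicator_of_notMem hm, Set.indicator_of_notMem (fun hh => hm (h5.1 hh))]
  rw [h3, intervalIntegral.integral_of_le (by positivity),
    MeasureTheory.setIntegral_indicator measurableSet_Ioo]
  have h6 : Set.Ioc 0 (2 * Real.pi) ∩ Set.Ioo 0 (th x y) = Set.Ioo 0 (th x y) := by
    apply Set.inter_eq_right.2
    intro ψ hψ
    have := th_lt_pi h
    exact ⟨hψ.1, by linarith [hψ.2, Real.pi_pos]⟩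
  rw [h6]
  simp [(th_pos h).le]

/-- The angles of disjoint sectors add up to at most `2π`. -/
theorem sectors_le {ι : Type*} (s : Finset ι) (x y : ι → ℂ) (hxy : ∀ i ∈ s, 0 < ori (x i) (y i))
    (hd : ∀ i ∈ s, ∀ j ∈ s, i ≠ j → ∀ z, InSec (x i) (y i) z → ¬ InSec (x j) (y j) z) :
    ∑ i ∈ s, th (x i) (y i) ≤ 2 * Real.pi := by
  have hint : ∀ i ∈ s, IntervalIntegrable
      (fun φ => (secSet (x i) (y i)).indicator (fun _ => (1 : ℝ)) φ) volume 0 (2 * Real.pi) := by
    intro i _
    rw [intervalIntegrable_iff_integrableOn_Ioc_of_le (by positivity)]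
    exact (integrableOn_const measure_Ioc_lt_top.ne).indicator (secSet_open _ _).measurableSet
  have h1 : ∑ i ∈ s, th (x i) (y i) = ∫ φ in (0 : ℝ)..(2 * Real.pi),
      ∑ i ∈ s, (secSet (x i) (y i)).indicator (fun _ => (1 : ℝ)) φ := by
    rw [intervalIntegral.integral_finsetSum hint]
    exact Finset.sum_congr rfl fun i hi => (integral_secSet (hxy i hi)).symm
  rw [h1]
  have h2 : ∫ φ in (0 : ℝ)..(2 * Real.pi),
      ∑ i ∈ s, (secSet (x i) (y i)).indicator (fun _ => (1 : ℝ)) φ
      ≤ ∫ _φ in (0 : ℝ)..(2 * Real.pi), (1 : ℝ) := by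
    refine intervalIntegral.integral_mono_on (by positivity) ?_ (by simp) fun φ _ => ?_
    · have h3 := IntervalIntegrable.sum s hint
      have h4 : (fun φ => ∑ i ∈ s, (secSet (x i) (y i)).indicator (fun _ => (1 : ℝ)) φ)
          = ∑ i ∈ s, fun φ => (secSet (x i) (y i)).indicator (fun _ => (1 : ℝ)) φ := by
        funext φ
        rw [Finset.sum_apply]
      rw [h4]
      exact h3
    · by_cases hex : ∃ i ∈ s, φ ∈ secSet (x i) (y i)
      · obtain ⟨i, hi, hφ⟩ := hex
        rw [Finset.sum_eq_single i]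
        · rw [Set.indicator_of_mem hφ]
        · intro j hj hji
          rw [Set.indicator_of_notMem]
          intro hφj
          exact hd i hi j hj (Ne.symm hji) _ hφ hφj
        · intro hn; exact absurd hi hn
      · push Not at hex
        rw [Finset.sum_eq_zero]
        · exact zero_le_one
        · intro i hi
          rw [Set.indicator_of_notMem (hex i hi)]
  refine h2.trans ?_
  simp

end Pool.CB
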