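import Pool.Agent.Work.CB.Angle
import Pool.Agent.Work.CB.Plane

/-!
# Dihedral angles in a plane chart
-/

open scoped BigOperators Topology RealInnerProductSpace ComplexConjugate
open Finset InnerProductGeometry

noncomputable section

namespace Pool.CB

theorem inner_cr_cr (u w x y : EE) : ⟪cr u w, cr x y⟫ = ⟪u, x⟫ * ⟪w, y⟫ - ⟪u, y⟫ * ⟪w, x⟫ := by
  simp only [inner_three, cr, Matrix.cons_val_zero, Matrix.cons_val_one,
    Matrix.cons_val]
  ring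

theorem inner_left_cr (u w : EE) : ⟪u, cr u w⟫ = 0 := by
  simp only [inner_three, cr, Matrix.cons_val_zero, Matrix.cons_val_one,
    Matrix.cons_val]
  ring

theorem inner_right_cr (u w : EE) : ⟪w, cr u w⟫ = 0 := by
  simp only [inner_three, cr, Matrix.cons_val_zero, Matrix.cons_val_one,
    Matrix.cons_val]
  ring

theorem exists_chart0 {a : EE} (ha : a ≠ 0) : ∃ ζ : EE →ₗ[ℝ] ℂ,
    (∀ x, ζ x = 0 → ∃ r : ℝ, x = r • a) ∧ (∀ x y, angle (ζ x) (ζ y) = dih a x y) ∧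
    ∃ μ : ℝ, μ ≠ 0 ∧ ∀ x y, ori (ζ x) (ζ y) = μ * tp a x y := by
  have hn : ‖a‖ ≠ 0 := norm_ne_zero_iff.2 ha
  obtain ⟨b, hb⟩ := Orthonormal.exists_orthonormalBasis_extension_of_card_eq
    (𝕜 := ℝ) (E := EE) (ι := Fin 3) (by simp) (v := fun _ => (‖a‖⁻¹ : ℝ) • a) (s := {0}) (by
      constructor
      · intro i
        rw [Set.domRestrict_apply, norm_smul, norm_inv, norm_norm, inv_mul_cancel₀ hn]
      · intro i j hij
        exact absurd (Subsingleton.elim i j) hij)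
  have hb0 : b 0 = (‖a‖⁻¹ : ℝ) • a := hb 0 rfl
  have hab : a = ‖a‖ • b 0 := by
    rw [hb0, smul_smul, mul_inv_cancel₀ hn, one_smul]
  let ζ : EE →ₗ[ℝ] ℂ :=
    { toFun := fun x => ⟨⟪b 1, x⟫, ⟪b 2, x⟫⟩
      map_add' := fun x y => by
        apply Complex.ext
        · simp [inner_add_right]
        · simp [inner_add_right]
      map_smul' := fun r x => by
        apply Complex.ext
        · simp [real_inner_smul_right]
        · simp [real_inner_smul_right] }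
  have hζ : ∀ x, ζ x = ⟨⟪b 1, x⟫, ⟪b 2, x⟫⟩ := fun x => rfl
  have hexp : ∀ x : EE, x = ⟪b 0, x⟫ • b 0 + ⟪b 1, x⟫ • b 1 + ⟪b 2, x⟫ • b 2 := by
    intro x
    have := b.sum_repr' x
    rw [Fin.sum_univ_three] at this
    exact this.symm
  have hinner : ∀ x y : EE, ⟪x, y⟫ = ⟪b 0, x⟫ * ⟪b 0, y⟫ + ⟪b 1, x⟫ * ⟪b 1, y⟫
      + ⟪b 2, x⟫ * ⟪b 2, y⟫ := by
    intro x y
    have := b.sum_inner_mul_inner x y
    rw [Fin.sum_univ_three] at this
    rw [← this, real_inner_comm (b 0) x, real_inner_comm (b 1) x, real_inner_comm (b 2) x]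
  have hpj : ∀ x y : EE, ⟪ζ x, ζ y⟫ = 1 * ⟪pj a x, pj a y⟫ := by
    intro x y
    rw [inner_pj ha, hinner x y, one_mul]
    have h1 : ⟪ζ x, ζ y⟫ = ⟪b 1, x⟫ * ⟪b 1, y⟫ + ⟪b 2, x⟫ * ⟪b 2, y⟫ := by
      rw [Complex.inner, hζ, hζ]
      simp [Complex.mul_re]
      ring
    rw [h1]
    have h2 : ∀ z : EE, ⟪a, z⟫ = ‖a‖ * ⟪b 0, z⟫ := by
      intro z
      conv_lhs => rw [hab]
      rw [real_inner_smul_left]
    have h3 : ⟪a, a⟫ = ‖a‖ * ‖a‖ := real_inner_self_eq_norm_mul_norm a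
    rw [h3, h2 x, h2 y]
    field_simp
    ring
  obtain ⟨μ, hcr⟩ : ∃ μ : ℝ, cr (b 1) (b 2) = μ • a := by
    refine ⟨⟪b 0, cr (b 1) (b 2)⟫ * ‖a‖⁻¹, ?_⟩
    conv_lhs => rw [hexp (cr (b 1) (b 2)), inner_left_cr, inner_right_cr]
    rw [mul_smul, ← hb0]
    simp
  refine ⟨ζ, ?_, ?_, μ, ?_, ?_⟩
  · intro x hx
    rw [hζ] at hx
    have e1 : ⟪b 1, x⟫ = 0 := congrArg Complex.re hx
    have e2 : ⟪b 2, x⟫ = 0 := congrArg Complex.im hx
    refine ⟨⟪b 0, x⟫ * ‖a‖⁻¹, ?_⟩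
    conv_lhs => rw [hexp x, e1, e2]
    rw [mul_smul, ← hb0]
    simp
  · intro x y
    unfold dih angle
    congr 1
    have n1 : ∀ z, ‖ζ z‖ = ‖pj a z‖ := by
      intro z
      rw [norm_eq_sqrt_real_inner, norm_eq_sqrt_real_inner, hpj, one_mul]
    rw [hpj, one_mul, n1, n1]
  · intro h0
    rw [h0, zero_smul] at hcr
    have h1 := inner_cr_cr (b 1) (b 2) (b 1) (b 2)
    rw [hcr] at h1
    simp at h1
  · intro x y
    have h1 : ori (ζ x) (ζ y) = ⟪cr (b 1) (b 2), cr x y⟫ := by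
      rw [inner_cr_cr, ori_eq, hζ, hζ]
      ring
    rw [h1, hcr, real_inner_smul_left, tp]

/-- The oriented plane chart orthogonal to `a`. -/
theorem exists_chart {a : EE} (ha : a ≠ 0) : ∃ ζ : EE →ₗ[ℝ] ℂ,
    (∀ x, ζ x = 0 → ∃ r : ℝ, x = r • a) ∧ (∀ x y, angle (ζ x) (ζ y) = dih a x y) ∧
    ∃ μ : ℝ, 0 < μ ∧ ∀ x y, ori (ζ x) (ζ y) = μ * tp a x y := by
  obtain ⟨ζ, h1, h2, μ, h3, h4⟩ := exists_chart0 ha
  rcases lt_or_gt_of_ne h3 with h5 | h5
  · refine ⟨Complex.conjLIE.toLinearEquiv.toLinearMap ∘ₗ ζ, ?_, ?_, -μ, by linarith, ?_⟩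
    · intro x hx
      apply h1
      simpa using hx
    · intro x y
      rw [← h2]
      exact Complex.conjLIE.toLinearIsometry.angle_map _ _
    · intro x y
      have : ∀ z w : ℂ, ori (conj z) (conj w) = - ori z w := by
        intro z w
        rw [ori_eq, ori_eq]
        simp
        ring
      rw [neg_mul, ← h4, ← this]
      rfl
  · exact ⟨ζ, h1, h2, μ, h5, h4⟩

theorem angle_eq_th {x y : ℂ} (h : 0 < ori x y) : angle x y = th x y := by
  rw [angle_comm, Complex.angle_eq_abs_arg (ori_ne_right h) (ori_ne_left h), ← th,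
    abs_of_pos (th_pos h)]

end Pool.CB
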