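import Pool.Agent.Work.CB.Sphere

/-!
# The angle excess argument
-/

open scoped BigOperators
open Finset

noncomputable section

namespace Pool.CB

variable {P : Type*} [DecidableEq P] {W : Type*} [AddCommGroup W] [Module ℝ W]
variable {T : Finset (Finset P)} {h : P → W}
variable {v : P} {K : P → P → (P →₀ ℝ)} {π : W →ₗ[ℝ] EE}

theorem SS_empty (hT : IsFan T h) (hK : KFam T h v K) (hexc : ¬ ExcAbs T h v)
    {t : Finset P} (ht : t ∈ T) (hvt : v ∈ t) : SS T h v K = ∅ := by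
  classical
  obtain ⟨π, hπ⟩ := exists_proj hT ht hvt
  by_contra hne
  rw [← ne_eq, ← Finset.nonempty_iff_ne_empty] at hne
  obtain ⟨p0, hp0⟩ := hne
  set S := SS T h v K with hS
  set F3 : Finset (P × P × P) := (S ×ˢ S ×ˢ S).filter (fun x => Adj T h v π x.1 x.2.1 x.2.2)
    with hF3
  have hmemF : ∀ x : P × P × P, x ∈ F3 ↔ (x.1 ∈ S ∧ x.2.1 ∈ S ∧ x.2.2 ∈ S) ∧
      Adj T h v π x.1 x.2.1 x.2.2 := by
    intro x
    rw [hF3, Finset.mem_filter, Finset.mem_product, Finset.mem_product]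
  have hsum : ∀ f : P × P × P → ℝ, ∑ x ∈ F3, f x
      = ∑ p ∈ S, ∑ y ∈ (AA T h v π p).filter (fun x => x.1 ∈ S ∧ x.2 ∈ S), f (p, y) := by
    intro f
    rw [hF3, Finset.sum_filter, Finset.sum_product]
    refine Finset.sum_congr rfl fun p _ => ?_
    rw [← Finset.sum_filter]
    refine Finset.sum_congr ?_ fun _ _ => rfl
    ext ⟨a, b⟩
    simp only [Finset.mem_filter, Finset.mem_product, mem_AA]
    tauto
  set f : P × P × P → ℝ := fun x => dih (π (h x.1)) (π (h x.2.1)) (π (h x.2.2)) with hf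
  have hle : ∑ x ∈ F3, f x ≤ Real.pi / 3 * F3.card := by
    have h1 : (F3.card : ℝ) = ∑ x ∈ F3, (1 : ℝ) := by simp
    rw [h1, hsum, hsum, Finset.mul_sum]
    refine Finset.sum_le_sum fun p hp => ?_
    have h2 := (at_p hT hπ hK hexc hp).2
    rw [Finset.sum_const, nsmul_eq_mul, mul_one]
    exact h2
  have hFne : F3.Nonempty := by
    obtain ⟨⟨a, b⟩, hab⟩ := (at_p hT hπ hK hexc hp0).1
    rw [Finset.mem_filter, mem_AA] at hab
    exact ⟨(p0, a, b), (hmemF _).2 ⟨⟨hp0, hab.2.1, hab.2.2⟩, hab.1⟩⟩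
  have hrot1 : ∑ x ∈ F3, f x = ∑ x ∈ F3, f (x.2.1, x.2.2, x.1) := by
    refine Finset.sum_nbij' (fun x => (x.2.2, x.1, x.2.1)) (fun x => (x.2.1, x.2.2, x.1))
      ?_ ?_ ?_ ?_ ?_
    · intro x hx
      obtain ⟨⟨h1, h2, h3⟩, h4⟩ := (hmemF x).1 hx
      exact (hmemF _).2 ⟨⟨h3, h1, h2⟩, h4.cyc.cyc⟩
    · intro x hx
      obtain ⟨⟨h1, h2, h3⟩, h4⟩ := (hmemF x).1 hx
      exact (hmemF _).2 ⟨⟨h2, h3, h1⟩, h4.cyc⟩
    · intro x _; rfl
    · intro x _; rfl
    · intro x _; rfl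
  have hrot2 : ∑ x ∈ F3, f x = ∑ x ∈ F3, f (x.2.2, x.1, x.2.1) := by
    refine Finset.sum_nbij' (fun x => (x.2.1, x.2.2, x.1)) (fun x => (x.2.2, x.1, x.2.1))
      ?_ ?_ ?_ ?_ ?_
    · intro x hx
      obtain ⟨⟨h1, h2, h3⟩, h4⟩ := (hmemF x).1 hx
      exact (hmemF _).2 ⟨⟨h2, h3, h1⟩, h4.cyc⟩
    · intro x hx
      obtain ⟨⟨h1, h2, h3⟩, h4⟩ := (hmemF x).1 hx
      exact (hmemF _).2 ⟨⟨h3, h1, h2⟩, h4.cyc.cyc⟩
    · intro x _; rfl
    · intro x _; rfl
    · intro x _; rfl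
  have hlt : ∑ x ∈ F3, Real.pi
      < ∑ x ∈ F3, (f x + f (x.2.1, x.2.2, x.1) + f (x.2.2, x.1, x.2.1)) := by
    refine Finset.sum_lt_sum_of_nonempty hFne fun x hx => ?_
    exact excess (ind3_tet hT hπ ((hmemF x).1 hx).2.1)
  rw [Finset.sum_add_distrib, Finset.sum_add_distrib, ← hrot1, ← hrot2, Finset.sum_const,
    nsmul_eq_mul] at hlt
  linarith

/-- Without exceptional vertices the families live on singular edges and are edge stresses. -/
theorem fam_sig (hT : IsFan T h) (hK : KFam T h v K) (hexc : ¬ ExcAbs T h v)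
    {t : Finset P} (ht : t ∈ T) (hvt : v ∈ t) {p : P} (hpv : p ≠ v) : K p ∈ Sig T h {v, p} := by
  rw [mem_Sig]
  refine ⟨fun w => hK.rel p w, ?_, ?_⟩
  · intro w hw
    rw [Finset.mem_insert, Finset.mem_singleton] at hw
    rcases hw with rfl | rfl
    · exact hK.offv p
    · exact hK.offp w
  · intro w x hw hx
    simp only [Finset.mem_insert, Finset.mem_singleton, not_or] at hw hx
    by_cases hwx : w = x
    · subst hwx
      have h1 : K p w w = 0 := by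
        by_cases h0 : K p w = 0
        · rw [h0]; rfl
        · refine diag_zero hT hK hpv h0 ?_
          rw [SS_empty hT hK hexc ht hvt]
          exact Finset.notMem_empty _
      rw [h1, add_zero]
    · exact hK.anti p w x hw.1 hx.1 hw.2 hx.2 hwx

end Pool.CB
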