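import Pool.Agent.Work.CB.Sing4
import Pool.Agent.Work.CB.Dihedral

/-!
# Faces, projection from a vertex, and the angles around an edge
-/

open scoped BigOperators RealInnerProductSpace ComplexConjugate
open Finset InnerProductGeometry

noncomputable section

namespace Pool.CB

variable {P : Type*} [DecidableEq P] {W : Type*} [AddCommGroup W] [Module ℝ W]
variable {T : Finset (Finset P)} {h : P → W}

/-- A nonzero relation at a face: the face lies in two simplices. -/
theorem face_two (hT : IsFan T h) {u v w : P} (huv : u ≠ v) (huw : u ≠ w) (hvw : v ≠ w)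
    {r : P →₀ ℝ} (hr : r ∈ Rel T h (insert w {u, v})) (hne : r ≠ 0) :
    ∃ y y', y ≠ y' ∧ ({u, v, w, y} : Finset P) ∈ T ∧ ({u, v, w, y'} : Finset P) ∈ T ∧
      0 < r y * r y' ∧
      r u • h u + r v • h v + r w • h w + r y • h y + r y' • h y' = 0 := by
  have hface : ∃ t ∈ T, insert w {u, v} ⊆ t := by
    by_contra hcon
    exact hne (Rel_eq_zero_of_not_face hr hcon)
  obtain ⟨t, ht, hst⟩ := hface
  have key : ∀ t ∈ T, insert w {u, v} ⊆ t → ∃ y, y ∉ t ∧ r y ≠ 0 ∧
      ({u, v, w, y} : Finset P) ∈ T := by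
    intro t ht hst
    have hex : ∃ y, y ∉ t ∧ r y ≠ 0 := by
      by_contra hcon
      push Not at hcon
      exact hne (rel_eq_zero hT hr ht hcon)
    obtain ⟨y, hyt, hy⟩ := hex
    refine ⟨y, hyt, hy, ?_⟩
    have hyu : u ≠ y := by rintro rfl; exact hyt (hst (by simp))
    have hyv : v ≠ y := by rintro rfl; exact hyt (hst (by simp))
    have hyw : w ≠ y := by rintro rfl; exact hyt (hst (by simp))
    have hnb : y ∈ nb T (insert w {u, v}) := by
      by_contra hn
      exact hy (Rel_apply_eq_zero hr hn)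
    obtain ⟨t', ht', hst', hyt'⟩ := mem_nb.1 hnb
    have := subset_eq_four hT ht' huv huw hyu hvw hyv hyw (hst' (by simp)) (hst' (by simp))
      (hst' (by simp)) hyt'
    rwa [← this]
  obtain ⟨y, -, hy, h1⟩ := key t ht hst
  obtain ⟨y', hy't, hy', h2⟩ := key _ h1 (by intro x; simp; tauto)
  simp only [Finset.mem_insert, Finset.mem_singleton, not_or] at hy't
  obtain ⟨hy'u, hy'v, hy'w, hy'y⟩ := hy't
  obtain ⟨e1, e2, e3, e4, e5, e6⟩ := four_ne hT h1
  have hsub : (nb T (insert w {u, v})) ⊆ insert y' {u, v, w, y} := by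
    intro x hx
    obtain ⟨t, ht0, hst, hxt⟩ := mem_nb.1 hx
    by_cases hxu : x = u
    · subst hxu; simp
    by_cases hxv : x = v
    · subst hxv; simp
    by_cases hxw : x = w
    · subst hxw; simp
    rcases third_tet hT h1 h2 hy'y ht0 (hst (by simp)) (hst (by simp)) (hst (by simp)) hxt hxu hxv
      hxw with rfl | rfl <;> simp
  have hyV : ∀ x ∈ (insert y' {u, v, w, y} : Finset P), x ∈ VV T := by
    intro x hx
    rw [Finset.mem_insert] at hx
    rcases hx with rfl | hx
    · exact mem_VV.2 ⟨_, h2, by simp⟩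
    · exact mem_VV.2 ⟨_, h1, hx⟩
  have hsum := Rel_sum_eq_zero hr
  rw [← Finset.sum_subset (s₁ := insert y' {u, v, w, y}) hyV, Finset.sum_insert (by
    simp [hy'u, hy'v, hy'w, hy'y]), sum_four e1 e2 e3 e4 e5 e6] at hsum
  · refine ⟨y, y', Ne.symm hy'y, h1, h2, ?_, by rw [← hsum]; abel⟩
    have hh : h y' = (- r u / r y') • h u + (- r v / r y') • h v + (- r w / r y') • h w
        + (- (r y / r y')) • h y := by
      have h8 : h y' = (1 / r y') • (r y' • h y') := by
        rw [smul_smul, one_div, inv_mul_cancel₀ hy', one_smul]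
      have h9 : r y' • h y' = - (r u • h u + (r v • h v + (r w • h w + r y • h y))) :=
        eq_neg_of_add_eq_zero_left hsum
      rw [h8, h9]
      match_scalars <;> field_simp
    have h10 := opp_lemma hT h1 h2 hy'y hh
    have h11 : 0 < r y / r y' := by linarith
    rcases div_pos_iff.1 h11 with ⟨h12, h13⟩ | ⟨h12, h13⟩
    · exact mul_pos h12 h13
    · exact mul_pos_of_neg_of_neg h12 h13
  · intro x _ hx
    rw [Rel_apply_eq_zero hr, zero_smul]
    intro hxn
    exact hx (hsub hxn)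

/-- Projections from the vertex `v`. -/
structure IsProj (h : P → W) (v : P) (π : W →ₗ[ℝ] EE) : Prop where
  ker : ∀ x, π x = 0 → ∃ r : ℝ, x = r • h v
  v0 : π (h v) = 0

omit [DecidableEq P] in
theorem exists_proj (hT : IsFan T h) {v : P} {t : Finset P} (ht : t ∈ T) (hv : v ∈ t) :
    ∃ π : W →ₗ[ℝ] EE, IsProj h v π := by
  have hfin : FiniteDimensional ℝ W := by
    apply FiniteDimensional.of_finrank_pos
    rw [hT.span]; norm_num
  have hv0 : h v ≠ 0 := by
    intro h0
    have h1 := hT.indep t ht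
    exact h1.ne_zero (v := fun x => h x) hv h0
  have h1 : Module.finrank ℝ (W ⧸ (ℝ ∙ h v)) = Module.finrank ℝ EE := by
    have h2 := Submodule.finrank_quotient_add_finrank (ℝ ∙ h v)
    rw [finrank_span_singleton hv0, hT.span] at h2
    simp
    omega
  let e := LinearEquiv.ofFinrankEq (W ⧸ (ℝ ∙ h v)) EE h1
  refine ⟨e.toLinearMap ∘ₗ (ℝ ∙ h v).mkQ, ?_, ?_⟩
  · intro x hx
    have h3 : (ℝ ∙ h v).mkQ x = 0 := by
      apply e.injective
      rw [map_zero]
      exact hx
    rw [Submodule.mkQ_apply, Submodule.Quotient.mk_eq_zero, Submodule.mem_span_singleton] at h3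
    obtain ⟨r, hr⟩ := h3
    exact ⟨r, hr.symm⟩
  · have h3 : (ℝ ∙ h v).mkQ (h v) = 0 := by
      rw [Submodule.mkQ_apply, Submodule.Quotient.mk_eq_zero]
      exact Submodule.mem_span_singleton_self _
    rw [LinearMap.comp_apply, h3, map_zero]

variable {v : P} {π : W →ₗ[ℝ] EE}

theorem ind3_tet (hT : IsFan T h) (hπ : IsProj h v π) {p q w : P}
    (ht : ({v, p, q, w} : Finset P) ∈ T) : Ind3 (π (h p)) (π (h q)) (π (h w)) := by
  intro x y z hxyz
  have h1 : π (x • h p + y • h q + z • h w) = 0 := by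
    rw [map_add, map_add, map_smul, map_smul, map_smul]
    exact hxyz
  obtain ⟨r, hr⟩ := hπ.ker _ h1
  have h2 : (-r) • h v + x • h p + y • h q + z • h w = 0 := by
    have : (-r) • h v + x • h p + y • h q + z • h w
        = (x • h p + y • h q + z • h w) - r • h v := by module
    rw [this, hr, sub_self]
  exact (four_indep hT ht h2).2

theorem tp_cyc (a b c : EE) : tp a b c = tp b c a := by
  simp only [tp, inner_three, cr, Matrix.cons_val_zero, Matrix.cons_val_one, Matrix.cons_val]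
  ring

theorem tp_swap (a b c : EE) : tp a b c = - tp a c b := by
  simp only [tp, inner_three, cr, Matrix.cons_val_zero, Matrix.cons_val_one, Matrix.cons_val]
  ring

theorem tp_comb (a b c : EE) (β γ δ : ℝ) : tp a b (β • a + γ • b + δ • c) = δ * tp a b c := by
  simp only [tp, inner_three, cr, Matrix.cons_val_zero, Matrix.cons_val_one, Matrix.cons_val,
    PiLp.add_apply, PiLp.smul_apply, smul_eq_mul]
  ring

/-- `p`, `q`, `w` span a simplex with `v` and are positively oriented. -/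
def Adj (T : Finset (Finset P)) (h : P → W) (v : P) (π : W →ₗ[ℝ] EE) (p q w : P) : Prop :=
  ({v, p, q, w} : Finset P) ∈ T ∧ 0 < tp (π (h p)) (π (h q)) (π (h w))

theorem Adj.cyc {p q w : P} (hA : Adj T h v π p q w) : Adj T h v π q w p := by
  refine ⟨?_, ?_⟩
  · have : ({v, q, w, p} : Finset P) = {v, p, q, w} := by ext x; simp; tauto
    rw [this]; exact hA.1
  · rw [← tp_cyc]; exact hA.2

theorem Adj.asymm {p q w : P} (hA : Adj T h v π p q w) : ¬ Adj T h v π p w q := by
  intro hB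
  have h1 := hA.2
  have h2 := hB.2
  rw [tp_swap] at h1
  linarith

theorem adj_total (hT : IsFan T h) (hπ : IsProj h v π) {p q w : P}
    (ht : ({v, p, q, w} : Finset P) ∈ T) : Adj T h v π p q w ∨ Adj T h v π p w q := by
  rcases lt_or_gt_of_ne (tp_ne (ind3_tet hT hπ ht)) with h1 | h1
  · right
    refine ⟨by rw [← four_swap]; exact ht, ?_⟩
    rw [tp_swap]; linarith
  · left
    exact ⟨ht, h1⟩

theorem tp_opp (hT : IsFan T h) (hπ : IsProj h v π) {p q w w' : P}
    (h1 : ({v, p, q, w} : Finset P) ∈ T) (h2 : ({v, p, q, w'} : Finset P) ∈ T) (hne : w' ≠ w) :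
    ∃ d : ℝ, d < 0 ∧ tp (π (h p)) (π (h q)) (π (h w')) = d * tp (π (h p)) (π (h q)) (π (h w)) := by
  obtain ⟨a, b, c, d, hh⟩ := four_span hT h1 (h w')
  refine ⟨d, opp_lemma hT h1 h2 hne hh, ?_⟩
  rw [hh, map_add, map_add, map_add, map_smul, map_smul, map_smul, map_smul, hπ.v0, smul_zero,
    zero_add, tp_comb]

theorem adj_unique (hT : IsFan T h) (hπ : IsProj h v π) {p q w w' : P}
    (hA : Adj T h v π p q w) (hB : Adj T h v π p q w') : w' = w := by
  by_contra hne
  obtain ⟨d, hd, hh⟩ := tp_opp hT hπ hA.1 hB.1 hne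
  have h1 := hA.2
  have h2 := hB.2
  rw [hh] at h2
  have := mul_neg_of_neg_of_pos hd h1
  linarith

theorem adj_unique_left (hT : IsFan T h) (hπ : IsProj h v π) {p q q' w : P}
    (hA : Adj T h v π p q w) (hB : Adj T h v π p q' w) : q' = q :=
  adj_unique hT hπ hA.cyc.cyc hB.cyc.cyc

/-- The two simplices at a face have opposite orientations. -/
theorem adj_two (hT : IsFan T h) (hπ : IsProj h v π) {p q w w' : P}
    (h1 : ({v, p, q, w} : Finset P) ∈ T) (h2 : ({v, p, q, w'} : Finset P) ∈ T) (hne : w' ≠ w) :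
    (Adj T h v π p q w ∧ Adj T h v π p w' q) ∨ (Adj T h v π p q w' ∧ Adj T h v π p w q) := by
  rcases adj_total hT hπ h1 with h3 | h3 <;> rcases adj_total hT hπ h2 with h4 | h4
  · exact absurd (adj_unique hT hπ h3 h4) hne
  · exact Or.inl ⟨h3, h4⟩
  · exact Or.inr ⟨h4, h3⟩
  · exact absurd (adj_unique_left hT hπ h3 h4) hne

theorem adj_ne (hT : IsFan T h) {p q w : P} (hA : Adj T h v π p q w) :
    v ≠ p ∧ v ≠ q ∧ v ≠ w ∧ p ≠ q ∧ p ≠ w ∧ q ≠ w := four_ne hT hA.1

theorem adj_mem {p q w : P} (hA : Adj T h v π p q w) : p ∈ VV T ∧ q ∈ VV T ∧ w ∈ VV T :=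
  ⟨mem_VV.2 ⟨_, hA.1, by simp⟩, mem_VV.2 ⟨_, hA.1, by simp⟩, mem_VV.2 ⟨_, hA.1, by simp⟩⟩

theorem g_ne (hT : IsFan T h) (hπ : IsProj h v π) {p q w : P}
    (ht : ({v, p, q, w} : Finset P) ∈ T) : π (h p) ≠ 0 := by
  intro h0
  have := ind3_tet hT hπ ht 1 0 0 (by rw [h0]; simp)
  exact one_ne_zero this.1

/-- Charts at `p`. -/
structure IsChart (a : EE) (ζ : EE →ₗ[ℝ] ℂ) : Prop where
  ker : ∀ x, ζ x = 0 → ∃ r : ℝ, x = r • a
  ang : ∀ x y, angle (ζ x) (ζ y) = dih a x y
  pos : ∀ x y, 0 < ori (ζ x) (ζ y) ↔ 0 < tp a x y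

theorem exists_isChart {a : EE} (ha : a ≠ 0) : ∃ ζ : EE →ₗ[ℝ] ℂ, IsChart a ζ := by
  obtain ⟨ζ, h1, h2, μ, h3, h4⟩ := exists_chart ha
  exact ⟨ζ, h1, h2, fun x y => by rw [h4, mul_pos_iff_of_pos_left h3]⟩

theorem adj_dih {p q w : P} {ζ : EE →ₗ[ℝ] ℂ} (hζ : IsChart (π (h p)) ζ)
    (hA : Adj T h v π p q w) :
    dih (π (h p)) (π (h q)) (π (h w)) = th (ζ (π (h q))) (ζ (π (h w))) := by
  rw [← hζ.ang, angle_eq_th ((hζ.pos _ _).2 hA.2)]

theorem inSec_comb {x y z : ℂ} (hxy : 0 < ori x y) (hz : InSec x y z) :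
    ∃ α β : ℝ, 0 < α ∧ 0 < β ∧ z = α • x + β • y := by
  refine ⟨ori z y / ori x y, ori x z / ori x y, div_pos hz.2 hxy, div_pos hz.1 hxy, ?_⟩
  have h1 : ori x y ≠ 0 := hxy.ne'
  have h2 : ori x y • z = ori z y • x + ori x z • y := by
    apply Complex.ext
    · simp only [ori_eq, Complex.add_re, Complex.smul_re, smul_eq_mul]; ring
    · simp only [ori_eq, Complex.add_im, Complex.smul_im, smul_eq_mul]; ring
  have h3 : (ori x y)⁻¹ • (ori x y • z) = z := by
    rw [smul_smul, inv_mul_cancel₀ h1, one_smul]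
  conv_lhs => rw [← h3, h2]
  rw [smul_add, smul_smul, smul_smul, div_eq_inv_mul, div_eq_inv_mul]

/-- Two sectors at `p` with a common point coincide. -/
theorem sec_disj (hT : IsFan T h) (hπ : IsProj h v π) {p q w q' w' : P} {ζ : EE →ₗ[ℝ] ℂ}
    (hζ : IsChart (π (h p)) ζ) (hA : Adj T h v π p q w) (hB : Adj T h v π p q' w') {z : ℂ}
    (hz : InSec (ζ (π (h q))) (ζ (π (h w))) z) (hz' : InSec (ζ (π (h q'))) (ζ (π (h w'))) z) :
    q = q' ∧ w = w' := by
  obtain ⟨α, β, hα, hβ, h1⟩ := inSec_comb ((hζ.pos _ _).2 hA.2) hz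
  obtain ⟨α', β', hα', hβ', h2⟩ := inSec_comb ((hζ.pos _ _).2 hB.2) hz'
  have h3 : ζ (π (α • h q + β • h w - (α' • h q' + β' • h w'))) = 0 := by
    simp only [map_sub, map_add, map_smul]
    rw [← h1, ← h2, sub_self]
  obtain ⟨r, hr⟩ := hζ.ker _ h3
  have h4 : π (α • h q + β • h w - (α' • h q' + β' • h w') - r • h p) = 0 := by
    rw [map_sub, hr, map_smul, sub_self]
  obtain ⟨s, hs⟩ := hπ.ker _ h4
  obtain ⟨e1, e2, e3, e4, e5, e6⟩ := adj_ne hT hA
  obtain ⟨f1, f2, f3, f4, f5, f6⟩ := adj_ne hT hB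
  set M := |r| + |s| with hM
  have hMr : 0 ≤ M + r := by
    have := neg_abs_le r
    have := abs_nonneg s
    linarith
  have hMs : 0 ≤ M + s := by
    have := neg_abs_le s
    have := abs_nonneg r
    linarith
  have hMn : 0 ≤ M := by positivity
  have h5 := hT.meet _ hA.1 _ hB.1
    (fun x => if x = v then M else if x = p then M else if x = q then α else β)
    (fun x => if x = v then M + s else if x = p then M + r else if x = q' then α' else β')
    (by intro x; split_ifs <;> linarith)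
    (by intro x; split_ifs <;> linarith)
    (by
      rw [sum_four e1 e2 e3 e4 e5 e6, sum_four f1 f2 f3 f4 f5 f6]
      simp only [if_true, e1.symm, e2.symm, e3.symm, e4.symm, e5.symm, e6.symm, f2.symm,
        f3.symm, f4.symm, f5.symm, f6.symm, if_false]
      have h6 : α • h q + β • h w = (α' • h q' + β' • h w') + r • h p + s • h v := by
        rw [← hs]; abel
      have h7 : M • h v + (M • h p + (α • h q + β • h w))
        = M • h v + (M • h p + ((α' • h q' + β' • h w') + r • h p + s • h v)) := by rw [h6]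
      rw [h7]
      module)
  have hq : q ∈ ({v, p, q', w'} : Finset P) := by
    by_contra hn
    have := h5 q (by simp) hn
    simp only [e2.symm, e4.symm, if_false, if_true] at this
    linarith
  have hw : w ∈ ({v, p, q', w'} : Finset P) := by
    by_contra hn
    have := h5 w (by simp) hn
    simp only [e3.symm, e5.symm, e6.symm, if_false] at this
    linarith
  simp only [Finset.mem_insert, Finset.mem_singleton] at hq hw
  have hq' : q = q' ∨ q = w' := by
    rcases hq with h7 | h7 | h7 | h7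
    · exact absurd h7.symm e2
    · exact absurd h7.symm e4
    · exact Or.inl h7
    · exact Or.inr h7
  have hw' : w = q' ∨ w = w' := by
    rcases hw with h7 | h7 | h7 | h7
    · exact absurd h7.symm e3
    · exact absurd h7.symm e5
    · exact Or.inl h7
    · exact Or.inr h7
  rcases hq' with h7 | h7 <;> rcases hw' with h8 | h8
  · exact absurd (h7.trans h8.symm) e6
  · exact ⟨h7, h8⟩
  · rw [h7, h8] at hA
    exact absurd hA hB.asymm
  · exact absurd (h7.trans h8.symm) e6

open Classical in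
/-- The oriented simplices around the edge `v p`. -/
def AA (T : Finset (Finset P)) (h : P → W) (v : P) (π : W →ₗ[ℝ] EE) (p : P) : Finset (P × P) :=
  (VV T ×ˢ VV T).filter (fun x => Adj T h v π p x.1 x.2)

theorem mem_AA {p : P} {x : P × P} : x ∈ AA T h v π p ↔ Adj T h v π p x.1 x.2 := by
  classical
  unfold AA
  rw [Finset.mem_filter, Finset.mem_product]
  constructor
  · exact fun hh => hh.2
  · exact fun hh => ⟨⟨(adj_mem hh).2.1, (adj_mem hh).2.2⟩, hh⟩

theorem adj_dih_pos (hT : IsFan T h) (hπ : IsProj h v π) {p q w : P} (hA : Adj T h v π p q w) :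
    0 < dih (π (h p)) (π (h q)) (π (h w)) := by
  obtain ⟨ζ, hζ⟩ := exists_isChart (g_ne hT hπ hA.1)
  rw [adj_dih hζ hA]
  exact th_pos ((hζ.pos _ _).2 hA.2)

theorem angle_sum_le (hT : IsFan T h) (hπ : IsProj h v π) (p : P) :
    ∑ x ∈ AA T h v π p, dih (π (h p)) (π (h x.1)) (π (h x.2)) ≤ 2 * Real.pi := by
  rcases (AA T h v π p).eq_empty_or_nonempty with h0 | ⟨x0, hx0⟩
  · rw [h0, Finset.sum_empty]
    positivity
  obtain ⟨ζ, hζ⟩ := exists_isChart (g_ne hT hπ (mem_AA.1 hx0).1)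
  rw [Finset.sum_congr rfl (fun x hx => adj_dih hζ (mem_AA.1 hx))]
  refine sectors_le (AA T h v π p) (fun x => ζ (π (h x.1))) (fun x => ζ (π (h x.2)))
    (fun x hx => (hζ.pos _ _).2 (mem_AA.1 hx).2) ?_
  intro x hx y hy hxy z hz hz'
  obtain ⟨h1, h2⟩ := sec_disj hT hπ hζ (mem_AA.1 hx) (mem_AA.1 hy) hz hz'
  exact hxy (Prod.ext h1 h2)

theorem angle_sum_ge (hT : IsFan T h) (hπ : IsProj h v π) (p : P) {N : Type*} [Fintype N]
    [Nonempty N] (f : N → P) (nx : Equiv.Perm N)
    (hA : ∀ n, Adj T h v π p (f n) (f (nx n))) :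
    2 * Real.pi ≤ ∑ n, dih (π (h p)) (π (h (f n))) (π (h (f (nx n)))) := by
  obtain ⟨n0⟩ := (inferInstance : Nonempty N)
  obtain ⟨ζ, hζ⟩ := exists_isChart (g_ne hT hπ (hA n0).1)
  rw [Finset.sum_congr rfl (fun n _ => adj_dih hζ (hA n))]
  have : Nonempty N := ⟨n0⟩
  exact winding (fun n => ζ (π (h (f n)))) nx (fun n => (hζ.pos _ _).2 (hA n).2)

/-- Opposite neighbours. -/
theorem dih_add_eq_pi (hT : IsFan T h) (hπ : IsProj h v π) {p z q w : P}
    (hA : Adj T h v π p z q) {a b c : ℝ} (hc : c < 0)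
    (hh : h z = a • h v + b • h p + c • h w) :
    dih (π (h p)) (π (h z)) (π (h q)) + dih (π (h p)) (π (h q)) (π (h w)) = Real.pi := by
  obtain ⟨ζ, hζ⟩ := exists_isChart (g_ne hT hπ hA.1)
  rw [← hζ.ang, ← hζ.ang]
  have hp0 : ζ (π (h p)) = 0 := by
    by_contra hne
    have h1 := hζ.ang (π (h p)) (π (h p))
    rw [angle_self hne, dih] at h1
    have h2 : pj (π (h p)) (π (h p)) = 0 := by
      have h3 : ⟪π (h p), π (h p)⟫ ≠ 0 := inner_self_ne_zero.2 (g_ne hT hπ hA.1)
      rw [pj, div_self h3, one_smul, sub_self]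
    rw [h2, angle_zero_left] at h1
    have := Real.pi_pos
    linarith
  have h1 : ζ (π (h z)) = c • ζ (π (h w)) := by
    rw [hh]
    simp only [map_add, map_smul]
    rw [hπ.v0, hp0]
    simp
  have hw0 : ζ (π (h w)) ≠ 0 := by
    intro h0
    rw [h0, smul_zero] at h1
    have h2 := (hζ.pos _ _).2 hA.2
    rw [h1] at h2
    simp [ori] at h2
  have h2 : angle (ζ (π (h z))) (ζ (π (h w))) = Real.pi := by
    rw [h1, angle_smul_left_of_neg _ _ hc, angle_neg_left, angle_self hw0, sub_zero]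
  have h3 := angle_add_angle_eq_pi_of_angle_eq_pi (ζ (π (h q))) h2
  rw [angle_comm (ζ (π (h w))) (ζ (π (h q)))] at h3
  exact h3

end Pool.CB
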