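import Pool.Agent.Work.CB.Face

/-!
# Families of relations around a vertex, and edges with four simplices
-/

open scoped BigOperators
open Finset

noncomputable section

namespace Pool.CB

variable {P : Type*} [DecidableEq P] {W : Type*} [AddCommGroup W] [Module ℝ W]
variable {T : Finset (Finset P)} {h : P → W}

/-- Families of relations at the vertex `v`. -/
structure KFam (T : Finset (Finset P)) (h : P → W) (v : P) (K : P → P → (P →₀ ℝ)) : Prop where
  rel : ∀ p q, K p q ∈ Rel T h (insert q {v, p})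
  offv : ∀ p, K p v = 0
  offp : ∀ p, K p p = 0
  anti : ∀ p q w, q ≠ v → w ≠ v → q ≠ p → w ≠ p → q ≠ w → K p q w + K p w q = 0
  dia : ∀ p q, p ≠ v → q ≠ v → p ≠ q → K p q q + K q p p = 0
  bal : ∀ p, p ≠ v → ∃ e : ℝ, ∑ q ∈ VV T, K p q p • h q = e • h v

variable {v : P} {K : P → P → (P →₀ ℝ)}

theorem KFam.ne (hK : KFam T h v K) {p q : P} (hne : K p q ≠ 0) : q ≠ v ∧ q ≠ p := by
  constructor
  · rintro rfl; exact hne (hK.offv p)
  · rintro rfl; exact hne (hK.offp q)

theorem KFam.mem (hK : KFam T h v K) {p q : P} (hne : K p q ≠ 0) : q ∈ VV T := by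
  by_contra hn
  apply hne
  apply Rel_eq_zero_of_not_face (hK.rel p q)
  rintro ⟨t, ht, hst⟩
  exact hn (mem_VV.2 ⟨t, ht, hst (by simp)⟩)

/-- Two relations at the same face are proportional. -/
theorem rel_prop (hT : IsFan T h) {u v w : P} (huv : u ≠ v) (huw : u ≠ w) (hvw : v ≠ w)
    {r s : P →₀ ℝ} (hr : r ∈ Rel T h (insert w {u, v})) (hs : s ∈ Rel T h (insert w {u, v}))
    (hne : r ≠ 0) : ∃ l : ℝ, s = l • r := by
  obtain ⟨y, y', hyy, h1, h2, hpos, _⟩ := face_two hT huv huw hvw hr hne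
  have hy : r y ≠ 0 := by
    intro h0
    rw [h0, zero_mul] at hpos
    exact lt_irrefl _ hpos
  refine ⟨s y / r y, ?_⟩
  have h3 : s - (s y / r y) • r ∈ Rel T h (insert w {u, v}) :=
    Submodule.sub_mem _ hs (Submodule.smul_mem _ _ hr)
  have h4 : s - (s y / r y) • r = 0 := by
    refine rel_eq_zero hT h3 h2 fun x hx => ?_
    simp only [Finset.mem_insert, Finset.mem_singleton, not_or] at hx
    by_cases hxn : x ∈ nb T (insert w {u, v})
    · obtain ⟨t, ht, hst, hxt⟩ := mem_nb.1 hxn
      rcases third_tet hT h1 h2 (Ne.symm hyy) ht (hst (by simp)) (hst (by simp)) (hst (by simp))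
        hxt hx.1 hx.2.1 hx.2.2.1 with h5 | h5
      · rw [h5, Finsupp.sub_apply, Finsupp.smul_apply, smul_eq_mul, div_mul_cancel₀ _ hy, sub_self]
      · exact absurd h5 hx.2.2.2
    · exact Rel_apply_eq_zero h3 hxn
  exact sub_eq_zero.1 h4

/-- The structure at a face carrying a nonzero relation, with given opposite vertices. -/
theorem face_given (hT : IsFan T h) {u v w y y' : P} (hyy : y ≠ y')
    (h1 : ({u, v, w, y} : Finset P) ∈ T) (h2 : ({u, v, w, y'} : Finset P) ∈ T) {r : P →₀ ℝ}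
    (hr : r ∈ Rel T h (insert w {u, v})) (hne : r ≠ 0) :
    0 < r y * r y' ∧
      r u • h u + r v • h v + r w • h w + r y • h y + r y' • h y' = 0 := by
  obtain ⟨e1, e2, e3, e4, e5, e6⟩ := four_ne hT h1
  obtain ⟨f1, f2, f3, f4, f5, f6⟩ := four_ne hT h2
  obtain ⟨z, z', hzz, g1, g2, hpos, hsum⟩ := face_two hT e1 e2 e4 hr hne
  obtain ⟨_, _, k3, _, k5, k6⟩ := four_ne hT g1
  obtain ⟨_, _, l3, _, l5, l6⟩ := four_ne hT g2
  rcases third_tet hT h1 h2 (Ne.symm hyy) g1 (by simp) (by simp) (by simp) (z := z) (by simp)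
    k3.symm k5.symm k6.symm with h3 | h3 <;>
  rcases third_tet hT h1 h2 (Ne.symm hyy) g2 (by simp) (by simp) (by simp) (z := z') (by simp)
    l3.symm l5.symm l6.symm with h4 | h4
  · exact absurd (h3.trans h4.symm) hzz
  · rw [h3, h4] at hpos hsum
    exact ⟨hpos, hsum⟩
  · rw [h3, h4] at hpos hsum
    refine ⟨by rw [mul_comm]; exact hpos, ?_⟩
    rw [← hsum]; abel
  · exact absurd (h3.trans h4.symm) hzz

theorem four_cycle (hT : IsFan T h) (hK : KFam T h v K) {p q1 q2 q3 q4 : P}
    (t12 : ({v, p, q1, q2} : Finset P) ∈ T) (t23 : ({v, p, q2, q3} : Finset P) ∈ T)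
    (t34 : ({v, p, q3, q4} : Finset P) ∈ T) (t41 : ({v, p, q4, q1} : Finset P) ∈ T)
    (h13 : q1 ≠ q3) (h24 : q2 ≠ q4) (hne : K p q1 ≠ 0)
    (hall : ∀ q, K p q ≠ 0 → q = q1 ∨ q = q2 ∨ q = q3 ∨ q = q4) :
    (∃ a b c a' b' c' : ℝ, 0 < c ∧ 0 < c' ∧ h q3 = a • h v + b • h p - c • h q1 ∧
      h q4 = a' • h v + b' • h p - c' • h q2) ∨
    (K p q1 q1 ≠ 0 ∧ K p q3 q3 ≠ 0 ∧ ∃ a c : ℝ, 0 < c ∧ h q3 = a • h v - c • h q1) ∨
    (K p q2 q2 ≠ 0 ∧ K p q4 q4 ≠ 0 ∧ ∃ a c : ℝ, 0 < c ∧ h q4 = a • h v - c • h q2) := by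
  obtain ⟨nvp, nv1, nv2, np1, np2, n12⟩ := four_ne hT t12
  obtain ⟨_, _, nv3, _, np3, n23⟩ := four_ne hT t23
  obtain ⟨_, _, nv4, _, np4, n34⟩ := four_ne hT t34
  obtain ⟨_, _, _, _, _, n41⟩ := four_ne hT t41
  have t21 : ({v, p, q2, q1} : Finset P) ∈ T := by rw [four_swap]; exact t12
  have t32 : ({v, p, q3, q2} : Finset P) ∈ T := by rw [four_swap]; exact t23
  have t43 : ({v, p, q4, q3} : Finset P) ∈ T := by rw [four_swap]; exact t34
  have t14 : ({v, p, q1, q4} : Finset P) ∈ T := by rw [four_swap]; exact t41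
  have hR : ∀ q, K p q ∈ Rel T h (insert q {v, p}) := hK.rel p
  have R1 := face_given hT h24 t12 t14 (hR q1) hne
  -- all four relations are nonzero
  have m12 : K p q1 q2 ≠ 0 := fun h0 => by rw [h0, zero_mul] at R1; exact lt_irrefl _ R1.1
  have m14 : K p q1 q4 ≠ 0 := fun h0 => by rw [h0, mul_zero] at R1; exact lt_irrefl _ R1.1
  have a12 := hK.anti p q1 q2 nv1.symm nv2.symm np1.symm np2.symm n12
  have a14 := hK.anti p q1 q4 nv1.symm nv4.symm np1.symm np4.symm n41.symm
  have a23 := hK.anti p q2 q3 nv2.symm nv3.symm np2.symm np3.symm n23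
  have a34 := hK.anti p q3 q4 nv3.symm nv4.symm np3.symm np4.symm n34
  have ne2 : K p q2 ≠ 0 := by
    intro h0
    rw [h0, Finsupp.zero_apply, add_zero] at a12
    exact m12 a12
  have ne4 : K p q4 ≠ 0 := by
    intro h0
    rw [h0, Finsupp.zero_apply, add_zero] at a14
    exact m14 a14
  have R2 := face_given hT h13 t21 t23 (hR q2) ne2
  have R4 := face_given hT h13 t41 t43 (hR q4) ne4
  have m23 : K p q2 q3 ≠ 0 := fun h0 => by rw [h0, mul_zero] at R2; exact lt_irrefl _ R2.1
  have ne3 : K p q3 ≠ 0 := by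
    intro h0
    rw [h0, Finsupp.zero_apply, add_zero] at a23
    exact m23 a23
  have R3 := face_given hT h24 t32 t34 (hR q3) ne3
  obtain ⟨e, he⟩ := hK.bal p nvp.symm
  have hbal : K p q1 p • h q1 + K p q2 p • h q2 + K p q3 p • h q3 + K p q4 p • h q4
      = e • h v := by
    rw [← he]
    have hsub : ({q1, q2, q3, q4} : Finset P) ⊆ VV T := by
      intro x hx
      simp only [Finset.mem_insert, Finset.mem_singleton] at hx
      rcases hx with rfl | rfl | rfl | rfl
      · exact hK.mem hne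
      · exact hK.mem ne2
      · exact hK.mem ne3
      · exact hK.mem ne4
    rw [← Finset.sum_subset hsub, sum_four n12 h13 n41.symm n23 h24 n34]
    · abel
    · intro x _ hx
      have : K p x = 0 := by
        by_contra hxne
        apply hx
        rcases hall x hxne with h5 | h5 | h5 | h5 <;> simp [h5]
      rw [this, Finsupp.zero_apply, zero_smul]
  -- coordinates of `q3` and `q4`
  obtain ⟨e3, a, b, c, hx3⟩ := four_span hT t12 (h q3)
  obtain ⟨e4, a', b', c', hx4⟩ := four_span hT t12 (h q4)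
  obtain ⟨s1, r1⟩ := R1
  obtain ⟨s2, r2⟩ := R2
  obtain ⟨s3, r3⟩ := R3
  obtain ⟨s4, r4⟩ := R4
  -- names
  set d1 := K p q1 p with hd1
  set d2 := K p q2 p with hd2
  set d3 := K p q3 p with hd3
  set d4 := K p q4 p with hd4
  set c1 := K p q1 q1 with hc1
  set c2 := K p q2 q2 with hc2
  set c3 := K p q3 q3 with hc3
  set c4 := K p q4 q4 with hc4
  set β1 := K p q1 q2 with hβ1
  set β4 := K p q1 q4 with hβ4
  set β2 := K p q3 q2 with hβ2
  set β3 := K p q3 q4 with hβ3
  have k21 : K p q2 q1 = -β1 := by linarith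
  have k41 : K p q4 q1 = -β4 := by linarith
  have k23 : K p q2 q3 = -β2 := by linarith
  have k43 : K p q4 q3 = -β3 := by linarith
  rw [k21, k23] at s2 r2
  rw [k41, k43] at s4 r4
  rw [hx4] at r1
  rw [hx3] at r2
  rw [hx3, hx4] at r3
  rw [hx3, hx4] at r4
  rw [hx3, hx4] at hbal
  have q1' := four_indep hT t12 (a := K p q1 v + β4 * e4) (b := d1 + β4 * a')
    (c := c1 + β4 * b') (d := β1 + β4 * c') (by rw [← r1]; module)
  have q2' := four_indep hT t12 (a := K p q2 v - β2 * e3) (b := d2 - β2 * a)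
    (c := -β1 - β2 * b) (d := c2 - β2 * c) (by rw [← r2]; module)
  have q3' := four_indep hT t12 (a := K p q3 v + c3 * e3 + β3 * e4) (b := d3 + c3 * a + β3 * a')
    (c := c3 * b + β3 * b') (d := β2 + c3 * c + β3 * c') (by rw [← r3]; module)
  have q4' := four_indep hT t12 (a := K p q4 v - β3 * e3 + c4 * e4) (b := d4 - β3 * a + c4 * a')
    (c := -β4 - β3 * b + c4 * b') (d := -β3 * c + c4 * c') (by rw [← r4]; module)
  have q5' := four_indep hT t12 (a := d3 * e3 + d4 * e4 - e) (b := d3 * a + d4 * a')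
    (c := d1 + d3 * b + d4 * b') (d := d2 + d3 * c + d4 * c') (by
      have : (d3 * e3 + d4 * e4 - e) • h v + (d3 * a + d4 * a') • h p
          + (d1 + d3 * b + d4 * b') • h q1 + (d2 + d3 * c + d4 * c') • h q2
          = (d1 • h q1 + d2 • h q2 + d3 • (e3 • h v + a • h p + b • h q1 + c • h q2)
            + d4 • (e4 • h v + a' • h p + b' • h q1 + c' • h q2)) - e • h v := by module
      rw [this, hbal, sub_self])
  obtain ⟨-, A1, A2, A3⟩ := q1'
  obtain ⟨-, B1, B2, B3⟩ := q2'
  obtain ⟨-, C1, C2, C3⟩ := q3'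
  obtain ⟨-, D1, D2, D3⟩ := q4'
  obtain ⟨-, E1, E2, E3⟩ := q5'
  have nβ1 : β1 ≠ 0 := m12
  have nβ4 : β4 ≠ 0 := m14
  have nβ2 : β2 ≠ 0 := fun h0 => by rw [h0, zero_mul] at s3; exact lt_irrefl _ s3
  have nβ3 : β3 ≠ 0 := fun h0 => by rw [h0, mul_zero] at s3; exact lt_irrefl _ s3
  -- signs of `b` and `c'`
  have hb : b < 0 := by
    have h1 : 0 < β1 * β2 := by linarith
    have h2 : β1 = -(β2 * b) := by linarith
    rw [h2] at h1
    have h3 : 0 < β2 * β2 := mul_self_pos.2 nβ2
    by_contra hcon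
    push Not at hcon
    have : 0 ≤ β2 * β2 * b := mul_nonneg h3.le hcon
    nlinarith
  have hc' : c' < 0 := by
    have h2 : β1 = -(β4 * c') := by linarith
    rw [h2] at s1
    have h3 : 0 < β4 * β4 := mul_self_pos.2 nβ4
    by_contra hcon
    push Not at hcon
    have : 0 ≤ β4 * β4 * c' := mul_nonneg h3.le hcon
    nlinarith
  have key1 : b' * d4 = 0 := by
    have : 2 * (b' * d4) = 0 := by
      linear_combination E2 - A1 - b * C1 - a' * D2 + b' * D1 + a * C2
    linarith
  have key2 : c * d3 = 0 := by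
    have : 2 * (c * d3) = 0 := by
      linear_combination E3 - B1 + c * C1 - a * C3 + a' * D3 - c' * D1
    linarith
  by_cases hb' : b' = 0
  · by_cases hcz : c = 0
    · left
      refine ⟨e3, a, -b, e4, a', -c', by linarith, by linarith, ?_, ?_⟩
      · rw [hx3, hcz]; module
      · rw [hx4, hb']; module
    · right; right
      have hd3z : d3 = 0 := (mul_eq_zero.1 key2).resolve_left hcz
      have hc3z : c3 = 0 := by
        have : c3 * b = 0 := by rw [hb'] at C2; linarith
        exact (mul_eq_zero.1 this).resolve_right hb.ne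
      have ha' : a' = 0 := by
        have : β3 * a' = 0 := by rw [hd3z, hc3z] at C1; linarith
        exact (mul_eq_zero.1 this).resolve_left nβ3
      have hc2z : c2 ≠ 0 := by
        intro h0
        rw [h0] at B3
        exact (mul_ne_zero nβ2 hcz) (by linarith)
      have hc4z : c4 ≠ 0 := by
        intro h0
        rw [h0] at D3
        exact (mul_ne_zero nβ3 hcz) (by linarith)
      refine ⟨hc2z, hc4z, e4, -c', by linarith, ?_⟩
      rw [hx4, hb', ha']; module
  · have hd4z : d4 = 0 := (mul_eq_zero.1 key1).resolve_left hb'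
    by_cases hcz : c = 0
    · right; left
      have hc4z : c4 = 0 := by
        have : c4 * c' = 0 := by rw [hcz] at D3; linarith
        exact (mul_eq_zero.1 this).resolve_right hc'.ne
      have haz : a = 0 := by
        have : β3 * a = 0 := by rw [hd4z, hc4z] at D1; linarith
        exact (mul_eq_zero.1 this).resolve_left nβ3
      have hc1z : c1 ≠ 0 := by
        intro h0
        rw [h0] at A2
        exact (mul_ne_zero nβ4 hb') (by linarith)
      have hc3z : c3 ≠ 0 := by
        intro h0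
        rw [h0] at C2
        exact (mul_ne_zero nβ3 hb') (by linarith)
      refine ⟨hc1z, hc3z, e3, -b, by linarith, ?_⟩
      rw [hx3, hcz, haz]; module
    · exfalso
      have hd3z : d3 = 0 := (mul_eq_zero.1 key2).resolve_left hcz
      rw [hd3z] at C1
      rw [hd4z] at D1
      -- `c3 a = - β3 a'`, `β3 a = c4 a'`
      have f1 : (β3 * β3 + c3 * c4) * a = 0 := by
        linear_combination c4 * C1 - β3 * D1
      have f2 : β3 * β3 + c3 * c4 ≠ 0 := by
        intro h0
        have g1 : β3 * (β2 * b) = 0 := by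
          have : c' * b * (β3 * β3 + c3 * c4) = 0 := by rw [h0, mul_zero]
          linear_combination (-1) * this + β3 * b * C3 + (c4 * c' - β3 * c) * C2 + (-β3 * b') * D3
        exact (mul_ne_zero nβ3 (mul_ne_zero nβ2 hb.ne)) g1
      have haz : a = 0 := (mul_eq_zero.1 f1).resolve_left f2
      have ha'z : a' = 0 := by
        have : β3 * a' = 0 := by rw [haz] at C1; linarith
        exact (mul_eq_zero.1 this).resolve_left nβ3
      have hd1z : d1 = 0 := by rw [ha'z] at A1; linarith
      have hc1z : c1 ≠ 0 := by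
        intro h0
        have : β4 * b' = 0 := by linarith
        exact (mul_ne_zero nβ4 hb') this
      -- proportionality
      have hrel : K q1 p ∈ Rel T h (insert q1 {v, p}) := by
        have h1 := hK.rel q1 p
        have h2 : (insert p {v, q1} : Finset P) = insert q1 {v, p} := by ext x; simp; tauto
        rwa [h2] at h1
      obtain ⟨l, hl⟩ := rel_prop hT nvp nv1 np1 (hR q1) hrel hne
      have hdia := hK.dia p q1 nvp.symm nv1.symm np1
      rw [hl, Finsupp.smul_apply, smul_eq_mul, ← hd1, hd1z, mul_zero, add_zero] at hdia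
      exact hc1z hdia

end Pool.CB
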