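import Pool.Agent.Work.CB.Sing4

open scoped BigOperators
open Finset

noncomputable section

namespace Pool.CB

variable {P : Type*} [DecidableEq P] {W : Type*} [AddCommGroup W] [Module ℝ W]
variable {T : Finset (Finset P)} {h : P → W}

theorem finrank_decomp (hT : IsFan T h) {c : ℕ} (hc5 : 5 ≤ c) :
    Module.finrank ℝ (StressT T h (c + 3))
      = ∑ v ∈ VV T, Module.finrank ℝ (StressT (Tv T v) h 3)
        + ∑ m ∈ MM T (c + 2), Module.finrank ℝ (Sig T h m.support) := by
  have hc : 1 ≤ c := by omega
  have hsurj := Theta_surjective hT (k := c + 2)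
  have hfin : Module.Finite ℝ ((m : MM T (c + 2)) → Sig T h m.1.support) :=
    Module.Finite.of_surjective (Theta hT (c + 2)) hsurj
  have hfin1 : ∀ m : MM T (c + 2), Module.Finite ℝ (Sig T h m.1.support) := by
    intro m
    exact Module.Finite.of_surjective
      (LinearMap.proj (R := ℝ) (φ := fun m : MM T (c + 2) => Sig T h m.1.support) m)
      (Function.surjective_eval m)
  have hfree1 : ∀ m : MM T (c + 2), Module.Free ℝ (Sig T h m.1.support) :=
    fun m => Module.Free.of_divisionRing ℝ (Sig T h m.1.support)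
  have hfree2 : ∀ v : VV T, Module.Free ℝ (StressT (Tv T v.1) h 3) :=
    fun v => Module.Free.of_divisionRing ℝ (StressT (Tv T v.1) h 3)
  have h1 := LinearMap.finrank_range_add_finrank_ker (K := ℝ) (V := StressT T h (c + 2 + 1))
    (V₂ := (m : MM T (c + 2)) → Sig T h m.1.support) (Theta hT (c + 2))
  rw [LinearMap.range_eq_top.2 hsurj, finrank_top, ker_Theta hT hc hc5 (V := VV T)
    (fun t ht p hp => mem_VV.2 ⟨t, ht, hp⟩),
    LinearMap.finrank_range_of_inj (R := ℝ) (M := (v : VV T) → StressT (Tv T v.1) h 3)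
      (N := StressT T h (c + 3)) (Lam_injective hc (by omega) (VV T)),
    Module.finrank_pi_fintype, Module.finrank_pi_fintype] at h1
  rw [← Finset.sum_coe_sort (VV T) (fun v => Module.finrank ℝ (StressT (Tv T v) h 3)),
    ← Finset.sum_coe_sort (MM T (c + 2)) (fun m => Module.finrank ℝ (Sig T h m.support))]
  rw [← h1, add_comm]

end Pool.CB
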