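import Pool.Agent.Work.CB.Count

open scoped BigOperators
open Finset

noncomputable section

namespace Pool.CB

variable {P : Type*} [DecidableEq P] {W : Type*} [AddCommGroup W] [Module ℝ W]
variable {T : Finset (Finset P)} {h : P → W}

/-- The generic count. -/
def GG (T : Finset (Finset P)) (k : ℕ) : ℚ :=
  4 * (FF T 1).card + (3 * k - 7) * (FF T 2).card + (k - 2) * (k - 5) * (FF T 3).card
    + (k - 2) * (k - 3) * (k - 13) / 6 * (FF T 4).card

theorem cast_choose_three (n : ℕ) : ((n.choose 3 : ℕ) : ℚ) = n * (n - 1) * (n - 2) / 6 := by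
  induction n with
  | zero => simp
  | succ n ih =>
    rw [Nat.choose_succ_succ' n 2, Nat.cast_add, ih, Nat.cast_choose_two]
    push_cast
    ring

theorem net_count (hT : IsFan T h) (n : ℕ) :
    (Module.finrank ℝ (Net T h (n + 1)) : ℚ)
      = GG T (n + 2) + Module.finrank ℝ (StressT T h (n + 1)) := by
  have h1 := net_stress T h (n + 1)
  have h2 : ∑ a : DD T (n + 1), Module.finrank ℝ (Rel T h a.1.support) + 4 * (DD T (n + 1)).card
      = ∑ a ∈ DD T (n + 1), (nb T a.support).card := by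
    rw [← Finset.sum_coe_sort (DD T (n + 1)) (fun a => (nb T a.support).card)]
    have h3 : ∀ a : DD T (n + 1), (nb T a.1.support).card
        = Module.finrank ℝ (Rel T h a.1.support) + 4 :=
      fun a => (finrank_Rel hT (mem_DD.1 a.2).1).symm
    rw [Finset.sum_congr rfl (fun a _ => h3 a), Finset.sum_add_distrib]
    simp [mul_comm]
  rw [sum_DD hT.card_eq n (fun s => (nb T s).card), sum_nb, sum_nb, sum_nb, sum_nb,
    FF_five hT.card_eq, card_DD hT.card_eq] at h2
  rw [card_DD hT.card_eq (n + 1), Nat.choose_succ_succ' n 0, Nat.choose_succ_succ' n 1,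
    Nat.choose_succ_succ' n 2] at h1
  have h1' := congrArg (Nat.cast : ℕ → ℚ) h1
  have h2' := congrArg (Nat.cast : ℕ → ℚ) h2
  push_cast at h1' h2'
  simp only [Nat.choose_zero_right, Nat.choose_one_right, Nat.cast_one, Nat.cast_choose_two,
    cast_choose_three, Finset.card_empty, Nat.cast_zero] at h1' h2'
  unfold GG
  push_cast
  linarith

theorem MM_fiber {c : ℕ} {e : Finset P} (hec : e.card = 2) :
    (MM T (c + 2)).filter (fun m => m.support = e)
      = (DD T (c + 2)).filter (fun a => a.support = e ∧ ∀ p ∈ e, 3 ≤ a p) := by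
  ext a
  rw [Finset.mem_filter, mem_MM, Finset.mem_filter]
  constructor
  · rintro ⟨⟨hD, _, h3⟩, hs⟩
    refine ⟨hD, hs, ?_⟩
    rw [hs] at h3; exact h3
  · rintro ⟨hD, hs, h3⟩
    refine ⟨⟨hD, by rw [hs, hec], ?_⟩, hs⟩
    rw [hs]; exact h3

theorem card_MM_fiber {c : ℕ} (hc : 4 ≤ c) {e : Finset P} (hec : e.card = 2)
    (hs : ∃ t ∈ T, e ⊆ t) : ((MM T (c + 2)).filter (fun m => m.support = e)).card = c - 3 := by
  rw [MM_fiber hec, card_fiber hs (by norm_num) (m := c - 4) (by rw [hec]; omega), hec]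
  have : 2 + (c - 4) - 1 = (c - 4) + 1 := by omega
  rw [this, Nat.choose_succ_self_right]
  omega

open Classical in
theorem sum_Sig (hT : IsFan T h) {c : ℕ} (hc : 4 ≤ c) :
    ∑ m ∈ MM T (c + 2), Module.finrank ℝ (Sig T h m.support)
      = (c - 3) * ((FF T 2).filter (fun e => SingAbs T h e)).card := by
  have hmaps : ∀ m ∈ MM T (c + 2), m.support ∈ FF T 2 := by
    intro m hm
    obtain ⟨hD, hc, _⟩ := mem_MM.1 hm
    exact mem_FF.2 ⟨(mem_DD.1 hD).1, hc⟩
  rw [← Finset.sum_fiberwise_of_maps_to hmaps]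
  have hfib : ∀ e ∈ FF T 2, ∑ m ∈ (MM T (c + 2)).filter (fun m => m.support = e),
      Module.finrank ℝ (Sig T h m.support) = (c - 3) * (if SingAbs T h e then 1 else 0) := by
    intro e he
    obtain ⟨⟨t, ht, het⟩, hec⟩ := mem_FF.1 he
    rw [Finset.sum_congr rfl (g := fun _ => if SingAbs T h e then 1 else 0)]
    · rw [Finset.sum_const, smul_eq_mul]
      congr 1
      convert card_MM_fiber hc hec ⟨t, ht, het⟩
    · intro a ha
      rw [(Finset.mem_filter.1 ha).2]
      exact finrank_Sig hT hec ht het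
  rw [Finset.sum_congr rfl hfib, ← Finset.mul_sum, ← Finset.card_filter]

open Classical in
/-- The dimension formula in terms of nets. -/
theorem net_formula (hT : IsFan T h) {k : ℕ} (hk : 9 ≤ k) :
    (Module.finrank ℝ (Net T h (k - 1)) : ℚ)
      = GG T k + (k - 7) * ((FF T 2).filter (fun e => SingAbs T h e)).card
        + ∑ v ∈ VV T, ((Module.finrank ℝ (Net (Tv T v) h 3) : ℚ) - GG (Tv T v) 4) := by
  obtain ⟨c, rfl⟩ : ∃ c, k = c + 4 := ⟨k - 4, by omega⟩
  have h1 := net_count hT (c + 2)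
  rw [show c + 4 - 1 = c + 2 + 1 by omega]
  rw [h1, show c + 2 + 2 = c + 4 from rfl]
  have h2 := finrank_decomp hT (c := c) (by omega)
  rw [sum_Sig hT (by omega)] at h2
  rw [show c + 2 + 1 = c + 3 from rfl, h2]
  have h3 : ∀ v ∈ VV T, (Module.finrank ℝ (Net (Tv T v) h 3) : ℚ) - GG (Tv T v) 4
      = Module.finrank ℝ (StressT (Tv T v) h 3) := by
    intro v _
    have hTv : IsFan (Tv T v) h := hT.filter _
    have h5 : (Module.finrank ℝ (Net (Tv T v) h 3) : ℚ)
        = GG (Tv T v) 4 + Module.finrank ℝ (StressT (Tv T v) h 3) := net_count hTv 2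
    rw [h5]; ring
  rw [Finset.sum_congr rfl h3]
  push_cast
  rw [Nat.cast_sub (by omega)]
  push_cast
  ring

/-- The sum of the counts of the stars. -/
theorem sum_GG (hT : ∀ t ∈ T, t.card = 4) :
    ∑ v ∈ VV T, GG (Tv T v) 4
      = 4 * (FF T 1).card + 18 * (FF T 2).card + 9 * (FF T 3).card - 20 * (FF T 4).card := by
  have h1 := congrArg (Nat.cast : ℕ → ℚ) (sum_star (T := T) 1)
  have h2 := congrArg (Nat.cast : ℕ → ℚ) (sum_star (T := T) 2)
  have h3 := congrArg (Nat.cast : ℕ → ℚ) (sum_star (T := T) 3)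
  have h4 := congrArg (Nat.cast : ℕ → ℚ) (sum_star (T := T) 4)
  rw [FF_five hT] at h4
  push_cast at h1 h2 h3 h4
  simp only [Finset.card_empty, Nat.cast_zero] at h4
  unfold GG
  simp only [Finset.sum_add_distrib, ← Finset.mul_sum]
  rw [h1, h2, h3, h4]
  push_cast
  ring

end Pool.CB
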