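import Pool.Agent.Work.CB.Formula
import Pool.Agent.Work.CB.Defs
import Pool.Agent.Work.CB.BB

open scoped BigOperators Topology
open Finset

noncomputable section

namespace Pool.CB

/-! ### Coordinates with respect to a simplex -/

section lm

variable {P : Type*} [DecidableEq P] {W : Type*} [AddCommGroup W] [Module ℝ W]
variable {T : Finset (Finset P)} {h : P → W}

/-- The coordinates with respect to the simplex `t`, extended by zero. -/
def lm (hT : IsFan T h) {t : Finset P} (ht : t ∈ T) : W →ₗ[ℝ] (P → ℝ) :=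
  LinearMap.pi fun p => if hp : p ∈ t then (tetBasis hT ht).coord ⟨p, hp⟩ else 0

theorem lm_not (hT : IsFan T h) {t : Finset P} (ht : t ∈ T) (w : W) {p : P} (hp : p ∉ t) :
    lm hT ht w p = 0 := by
  simp [lm, hp]

theorem lm_sum (hT : IsFan T h) {t : Finset P} (ht : t ∈ T) (w : W) :
    ∑ p ∈ t, lm hT ht w p • h p = w := by
  have hx := (tetBasis hT ht).sum_repr w
  conv_rhs => rw [← hx]
  rw [← Finset.sum_coe_sort t (fun p => lm hT ht w p • h p)]
  refine Finset.sum_congr rfl fun i _ => ?_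
  rw [tetBasis_apply hT ht i]
  simp [lm]

theorem lm_unique (hT : IsFan T h) {t : Finset P} (ht : t ∈ T) {w : W} {f : P → ℝ}
    (hf : ∑ p ∈ t, f p • h p = w) {p : P} (hp : p ∈ t) : lm hT ht w p = f p := by
  have h1 := linearIndepOn_finset_iff.1 (hT.indep t ht) (fun p => lm hT ht w p - f p) (by
    simp only [sub_smul, Finset.sum_sub_distrib]
    rw [lm_sum, hf, sub_self]) p hp
  linarith

theorem lm_h (hT : IsFan T h) {t : Finset P} (ht : t ∈ T) {q : P} (hq : q ∈ t) (p : P) :
    lm hT ht (h q) p = if p = q then 1 else 0 := by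
  by_cases hp : p ∈ t
  · apply lm_unique hT ht _ hp
    simp only [ite_smul, one_smul, zero_smul]
    rw [Finset.sum_ite_eq' t q, if_pos hq]
  · rw [lm_not hT ht _ hp, if_neg]
    rintro rfl
    exact hp hq

/-- On the intersection of two cones the coordinates agree. -/
theorem lm_meet (hT : IsFan T h) {s t : Finset P} (hs : s ∈ T) (ht : t ∈ T) {w : W}
    (h1 : ∀ p, 0 ≤ lm hT hs w p) (h2 : ∀ p, 0 ≤ lm hT ht w p) :
    lm hT hs w = lm hT ht w ∧ ∀ p, p ∉ s ∩ t → lm hT hs w p = 0 := by
  have hst := hT.meet s hs t ht _ _ h1 h2 (by rw [lm_sum, lm_sum])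
  have hts := hT.meet t ht s hs _ _ h2 h1 (by rw [lm_sum, lm_sum])
  have hz1 : ∀ p, p ∉ s ∩ t → lm hT hs w p = 0 := by
    intro p hp
    by_cases hps : p ∈ s
    · exact hst p hps fun hpt => hp (Finset.mem_inter.2 ⟨hps, hpt⟩)
    · exact lm_not hT hs w hps
  have hz2 : ∀ p, p ∉ s ∩ t → lm hT ht w p = 0 := by
    intro p hp
    by_cases hpt : p ∈ t
    · exact hts p hpt fun hps => hp (Finset.mem_inter.2 ⟨hps, hpt⟩)
    · exact lm_not hT ht w hpt
  refine ⟨?_, hz1⟩
  funext p
  by_cases hp : p ∈ s ∩ t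
  · obtain ⟨hps, hpt⟩ := Finset.mem_inter.1 hp
    apply lm_unique hT hs _ hps
    have e1 : ∑ p ∈ s, lm hT ht w p • h p = ∑ p ∈ s ∩ t, lm hT ht w p • h p := by
      symm
      apply Finset.sum_subset Finset.inter_subset_left
      intro q _ hq
      rw [hz2 q hq, zero_smul]
    have e2 : ∑ p ∈ t, lm hT ht w p • h p = ∑ p ∈ s ∩ t, lm hT ht w p • h p := by
      symm
      apply Finset.sum_subset Finset.inter_subset_right
      intro q _ hq
      rw [hz2 q hq, zero_smul]
    rw [e1, ← e2, lm_sum]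
  · rw [hz1 p hp, hz2 p hp]

end lm

/-! ### The fan of a tetrahedral complex -/

/-- Homogeneous coordinates. -/
def hc (p : E3) : E3 × ℝ := (p, 1)

theorem isFan (Δ : TetComplex) : IsFan Δ.tets hc where
  card_eq := Δ.card_eq
  indep t ht := by
    rw [linearIndepOn_finset_iff]
    intro f hf p hp
    have h1 := congrArg Prod.fst hf
    have h2 := congrArg Prod.snd hf
    simp only [hc, Prod.fst_sum, Prod.snd_sum, Prod.smul_mk, Prod.fst_zero, Prod.snd_zero,
      smul_eq_mul, mul_one] at h1 h2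
    have h3 := affineIndependent_iff.1 (Δ.indep t ht) Finset.univ (fun i => f i.1) (by
      rw [Finset.sum_coe_sort t f]; exact h2) (by
      rw [Finset.sum_coe_sort t (fun p => f p • p)]; exact h1) ⟨p, hp⟩ (Finset.mem_univ _)
    exact h3
  span := by
    rw [Module.finrank_prod]
    simp
  meet s hs t ht α β hα hβ hsum p hp hpt := by
    have h1 := congrArg Prod.fst hsum
    have h2 := congrArg Prod.snd hsum
    simp only [hc, Prod.fst_sum, Prod.snd_sum, Prod.smul_mk, smul_eq_mul, mul_one] at h1 h2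
    set M := ∑ p ∈ s, α p with hM
    have hM0 : 0 ≤ M := Finset.sum_nonneg fun p _ => hα p
    rcases hM0.eq_or_lt with hM1 | hM1
    · exact (Finset.sum_eq_zero_iff_of_nonneg (fun p _ => hα p)).1 hM1.symm p hp
    · have hx1 : (∑ p ∈ s, (α p / M) • p) ∈ convexHull ℝ (s : Set E3) := by
        rw [Finset.mem_convexHull']
        refine ⟨fun p => α p / M, fun y _ => div_nonneg (hα y) hM0, ?_, rfl⟩
        rw [← Finset.sum_div, ← hM, div_self hM1.ne']
      have hx2 : (∑ p ∈ s, (α p / M) • p) ∈ convexHull ℝ (t : Set E3) := by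
        rw [Finset.mem_convexHull']
        refine ⟨fun p => β p / M, fun y _ => div_nonneg (hβ y) hM0, ?_, ?_⟩
        · rw [← Finset.sum_div, ← h2, div_self hM1.ne']
        · have : ∀ (u : Finset E3) (γ : E3 → ℝ), ∑ p ∈ u, (γ p / M) • p
              = (1 / M) • ∑ p ∈ u, γ p • p := by
            intro u γ
            rw [Finset.smul_sum]
            refine Finset.sum_congr rfl fun p _ => ?_
            rw [smul_smul]; congr 1; ring
          rw [this, this, h1]
      have hx3 := (Δ.meet s hs t ht).subset ⟨hx1, hx2⟩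
      rw [← Finset.coe_inter, Finset.mem_convexHull'] at hx3
      obtain ⟨γ, hγ, hγ1, hγx⟩ := hx3
      have hli := affineIndependent_iff.1 (Δ.indep s hs) Finset.univ
        (fun i => (α i.1 / M) - (if i.1 ∈ s ∩ t then γ i.1 else 0)) (by
          rw [Finset.sum_coe_sort s (fun p => (α p / M) - (if p ∈ s ∩ t then γ p else 0)),
            Finset.sum_sub_distrib, ← Finset.sum_div, ← hM, div_self hM1.ne',
            ← Finset.sum_filter, Finset.filter_mem_eq_inter, ← Finset.inter_assoc,
            Finset.inter_self, hγ1, sub_self]) (by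
          rw [Finset.sum_coe_sort s (fun p => ((α p / M) - (if p ∈ s ∩ t then γ p else 0)) • p)]
          simp only [sub_smul, Finset.sum_sub_distrib, ite_smul, zero_smul]
          rw [← Finset.sum_filter, Finset.filter_mem_eq_inter, ← Finset.inter_assoc,
            Finset.inter_self, hγx, sub_self]) ⟨p, hp⟩ (Finset.mem_univ _)
      simp only [Finset.mem_inter, hpt, and_false, if_false, sub_zero] at hli
      rcases div_eq_zero_iff.1 hli with h3 | h3
      · exact h3
      · exact absurd h3 hM1.ne'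

theorem lm_sum_one (Δ : TetComplex) {t : Finset E3} (ht : t ∈ Δ.tets) (x : E3) :
    ∑ p ∈ t, lm (isFan Δ) ht (hc x) p = 1 := by
  have := congrArg Prod.snd (lm_sum (isFan Δ) ht (hc x))
  simpa [hc, Prod.snd_sum] using this

theorem lm_sum_fst (Δ : TetComplex) {t : Finset E3} (ht : t ∈ Δ.tets) (x : E3) :
    ∑ p ∈ t, lm (isFan Δ) ht (hc x) p • p = x := by
  have := congrArg Prod.fst (lm_sum (isFan Δ) ht (hc x))
  simpa [hc, Prod.fst_sum] using this

theorem hc_comb {s : Finset E3} {f : E3 → ℝ} (hf : ∑ p ∈ s, f p = 1) :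
    ∑ p ∈ s, f p • hc p = hc (∑ p ∈ s, f p • p) := by
  refine Prod.ext ?_ ?_
  · simp [hc, Prod.fst_sum]
  · simp [hc, Prod.snd_sum, hf]

theorem mem_conv_iff (Δ : TetComplex) {t : Finset E3} (ht : t ∈ Δ.tets) {x : E3} :
    x ∈ convexHull ℝ (t : Set E3) ↔ ∀ p, 0 ≤ lm (isFan Δ) ht (hc x) p := by
  constructor
  · intro hx p
    rw [Finset.mem_convexHull'] at hx
    obtain ⟨w, hw, hw1, hwx⟩ := hx
    by_cases hp : p ∈ t
    · rw [lm_unique (isFan Δ) ht (f := w) _ hp]
      · exact hw p hp
      · rw [hc_comb hw1, hwx]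
    · rw [lm_not _ ht _ hp]
  · intro hx
    rw [Finset.mem_convexHull']
    exact ⟨fun p => lm (isFan Δ) ht (hc x) p, fun y _ => hx y, lm_sum_one Δ ht x, lm_sum_fst Δ ht x⟩

end Pool.CB
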