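import Pool.Agent.Work.CB.Stress

open scoped BigOperators
open Finset

noncomputable section

namespace Pool.CB

variable {P : Type*} [DecidableEq P] {W : Type*} [AddCommGroup W] [Module ℝ W]

/-- Simplicial fans with four-dimensional cones. -/
structure IsFan (T : Finset (Finset P)) (h : P → W) : Prop where
  card_eq : ∀ t ∈ T, t.card = 4
  indep : ∀ t ∈ T, LinearIndepOn ℝ h (t : Set P)
  span : Module.finrank ℝ W = 4
  meet : ∀ s ∈ T, ∀ t ∈ T, ∀ α β : P → ℝ, (∀ p, 0 ≤ α p) → (∀ p, 0 ≤ β p) →
    ∑ p ∈ s, α p • h p = ∑ p ∈ t, β p • h p → ∀ p ∈ s, p ∉ t → α p = 0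

variable {T : Finset (Finset P)} {h : P → W}

theorem IsFan.filter (hT : IsFan T h) (q : Finset P → Prop) [DecidablePred q] :
    IsFan (T.filter q) h where
  card_eq t ht := hT.card_eq t (Finset.mem_filter.1 ht).1
  indep t ht := hT.indep t (Finset.mem_filter.1 ht).1
  span := hT.span
  meet s hs t ht := hT.meet s (Finset.mem_filter.1 hs).1 t (Finset.mem_filter.1 ht).1

theorem rel_eq_zero (hT : IsFan T h) {s : Finset P} {r : P →₀ ℝ} (hr : r ∈ Rel T h s)
    {t : Finset P} (ht : t ∈ T) (hrt : ∀ p, p ∉ t → r p = 0) : r = 0 := by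
  have h1 := linearIndepOn_iff.1 (hT.indep t ht)
  refine h1 r ?_ ?_
  · rw [Finsupp.mem_supported]
    intro p hp
    by_contra hn
    exact (Finsupp.mem_support_iff.1 hp) (hrt p hn)
  · exact LinearMap.mem_ker.1 (Submodule.mem_inf.1 hr).2

theorem rel_eq_zero_of_card (hT : IsFan T h) {s : Finset P} (hs : 4 ≤ s.card) {r : P →₀ ℝ}
    (hr : r ∈ Rel T h s) : r = 0 := by
  by_cases hex : ∃ t ∈ T, s ⊆ t
  · obtain ⟨t, ht, hst⟩ := hex
    have hst' : s = t := Finset.eq_of_subset_of_card_le hst (by rw [hT.card_eq t ht]; exact hs)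
    subst hst'
    refine rel_eq_zero hT hr ht fun p hp => Rel_apply_eq_zero hr ?_
    intro hpn
    obtain ⟨t', ht', hst', hpt'⟩ := mem_nb.1 hpn
    have : s = t' := Finset.eq_of_subset_of_card_le hst' (by rw [hT.card_eq t' ht']; exact hs)
    rw [this] at hp
    exact hp hpt'
  · ext p
    apply Rel_apply_eq_zero hr
    intro hpn
    obtain ⟨t', ht', hst', hpt'⟩ := mem_nb.1 hpn
    exact hex ⟨t', ht', hst'⟩

theorem support_sub_single {b : P →₀ ℕ} {p : P} (hp : 2 ≤ b p) :
    (b - Finsupp.single p 1).support = b.support := by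
  ext x
  simp only [Finsupp.mem_support_iff, Finsupp.tsub_apply, Finsupp.single_apply]
  by_cases hx : p = x
  · subst hx; simp; omega
  · simp [hx]

/-- A single equation of a stress, solved for the term at `x`. -/
theorem stress_at {k : ℕ} {ρ : (P →₀ ℕ) → (P →₀ ℝ)} (hρ : ρ ∈ StressT T h k) (a : P →₀ ℕ) (x : P)
    (hz : ∀ p ∈ a.support, p ≠ x → ρ (a + Finsupp.single x 1 - Finsupp.single p 1) p = 0) :
    ρ a x = 0 := by
  have h3 := (mem_StressT.1 hρ).2.2 (a + Finsupp.single x 1)
  rw [support_add_single, Finset.sum_eq_single x] at h3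
  · rwa [add_tsub_cancel_right] at h3
  · intro p hp hpx
    rcases Finset.mem_insert.1 hp with rfl | hp
    · exact absurd rfl hpx
    · exact hz p hp hpx
  · intro hx
    exact absurd (Finset.mem_insert_self _ _) hx

/-- Faces with all multiplicities at least two carry no stress. -/
theorem face_zero (hT : IsFan T h) {k : ℕ} {ρ : (P →₀ ℕ) → (P →₀ ℝ)} (hρ : ρ ∈ StressT T h k)
    {a : P →₀ ℕ} (ha : a.support.card = 3) (ha2 : ∀ p ∈ a.support, 2 ≤ a p) : ρ a = 0 := by
  by_cases hD : a ∈ DD T k
  swap
  · exact (mem_StressT.1 hρ).2.1 a hD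
  obtain ⟨⟨t, ht, hst⟩, hk⟩ := mem_DD.1 hD
  refine rel_eq_zero hT ((mem_StressT.1 hρ).1 a) ht fun x hx => ?_
  have hxa : x ∉ a.support := fun hh => hx (hst hh)
  refine stress_at hρ a x fun p hp hpx => ?_
  have hpp : 2 ≤ (a + Finsupp.single x 1 : P →₀ ℕ) p := by
    have := ha2 p hp
    rw [Finsupp.add_apply]
    omega
  have hsupp : (a + Finsupp.single x 1 - Finsupp.single p 1).support = insert x a.support := by
    rw [support_sub_single hpp, support_add_single]
  have hcard : 4 ≤ (a + Finsupp.single x 1 - Finsupp.single p 1).support.card := by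
    rw [hsupp, Finset.card_insert_of_notMem hxa, ha]
  have hz := rel_eq_zero_of_card hT hcard
    ((mem_StressT.1 hρ).1 (a + Finsupp.single x 1 - Finsupp.single p 1))
  rw [hz]
  rfl

/-- Supports with at least four elements carry no stress. -/
theorem big_zero (hT : IsFan T h) {k : ℕ} {ρ : (P →₀ ℕ) → (P →₀ ℝ)} (hρ : ρ ∈ StressT T h k)
    {a : P →₀ ℕ} (ha : 4 ≤ a.support.card) : ρ a = 0 :=
  rel_eq_zero_of_card hT ha ((mem_StressT.1 hρ).1 a)

/-- The stresses around an edge. -/
def Sig (T : Finset (Finset P)) (h : P → W) (e : Finset P) : Submodule ℝ (P → (P →₀ ℝ)) where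
  carrier := {κ | (∀ w, κ w ∈ Rel T h (insert w e)) ∧ (∀ w ∈ e, κ w = 0) ∧
    ∀ w x, w ∉ e → x ∉ e → κ w x + κ x w = 0}
  add_mem' := by
    rintro κ κ' ⟨h1, h2, h3⟩ ⟨h1', h2', h3'⟩
    refine ⟨fun a => Submodule.add_mem _ (h1 a) (h1' a), fun a ha => ?_, fun w x hw hx => ?_⟩
    · simp [h2 a ha, h2' a ha]
    · have := h3 w x hw hx
      have := h3' w x hw hx
      simp only [Pi.add_apply, Finsupp.add_apply]
      linarith
  zero_mem' := ⟨fun a => Submodule.zero_mem _, fun a _ => rfl, fun w x _ _ => by simp⟩
  smul_mem' := by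
    rintro c κ ⟨h1, h2, h3⟩
    refine ⟨fun a => Submodule.smul_mem _ c (h1 a), fun a ha => ?_, fun w x hw hx => ?_⟩
    · simp [h2 a ha]
    · have := h3 w x hw hx
      simp only [Pi.smul_apply, Finsupp.smul_apply, smul_eq_mul, ← mul_add, this, mul_zero]

theorem mem_Sig {e : Finset P} {κ : P → (P →₀ ℝ)} :
    κ ∈ Sig T h e ↔ (∀ w, κ w ∈ Rel T h (insert w e)) ∧ (∀ w ∈ e, κ w = 0) ∧
    ∀ w x, w ∉ e → x ∉ e → κ w x + κ x w = 0 := Iff.rfl

/-- The restriction of a stress to the neighbourhood of the multi-index `m` on an edge. -/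
theorem theta_mem (hT : IsFan T h) {k : ℕ} {ρ : (P →₀ ℕ) → (P →₀ ℝ)} (hρ : ρ ∈ StressT T h k)
    {m : P →₀ ℕ} (hm : m.support.card = 2) (hm3 : ∀ p ∈ m.support, 3 ≤ m p) :
    (fun w => if w ∈ m.support then 0 else ρ (m + Finsupp.single w 1)) ∈ Sig T h m.support := by
  have hmem := mem_StressT.1 hρ
  rw [mem_Sig]
  refine ⟨fun w => ?_, fun w hw => if_pos hw, fun w x hw hx => ?_⟩
  · show (if w ∈ m.support then 0 else ρ (m + Finsupp.single w 1)) ∈ Rel T h (insert w m.support)
    split_ifs with hw
    · exact Submodule.zero_mem _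
    · have := hmem.1 (m + Finsupp.single w 1)
      rwa [support_add_single] at this
  · rw [if_neg hw, if_neg hx]
    by_cases hwx : w = x
    · subst hwx
      have : ρ (m + Finsupp.single w 1) w = 0 := by
        refine stress_at hρ _ w fun p hp hpw => ?_
        rw [support_add_single, Finset.mem_insert] at hp
        have hpm : p ∈ m.support := hp.resolve_left hpw
        have h2 : 2 ≤ (m + Finsupp.single w 1 + Finsupp.single w 1 : P →₀ ℕ) p := by
          have := hm3 p hpm
          simp only [Finsupp.add_apply]; omega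
        have hs : (m + Finsupp.single w 1 + Finsupp.single w 1 - Finsupp.single p 1).support
            = insert w m.support := by
          rw [support_sub_single h2, support_add_single, support_add_single]; simp
        rw [face_zero hT hρ]
        · rfl
        · rw [hs, Finset.card_insert_of_notMem hw, hm]
        · intro q hq
          rw [hs, Finset.mem_insert] at hq
          rw [Finsupp.tsub_apply, Finsupp.add_apply, Finsupp.add_apply]
          rcases hq with rfl | hq
          · simp [Finsupp.single_apply, hpw]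
          · have := hm3 q hq
            have hle : (Finsupp.single p 1 : P →₀ ℕ) q ≤ 1 := by
              rw [Finsupp.single_apply]; split_ifs <;> omega
            omega
      rw [this, add_zero]
    · have h3 := hmem.2.2 (m + Finsupp.single w 1 + Finsupp.single x 1)
      rw [support_add_single, support_add_single, Finset.sum_insert, Finset.sum_insert hw] at h3
      · have hx1 : m + Finsupp.single w 1 + Finsupp.single x 1 - Finsupp.single x 1
            = m + Finsupp.single w 1 := add_tsub_cancel_right _ _
        have hw1 : m + Finsupp.single w 1 + Finsupp.single x 1 - Finsupp.single w 1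
            = m + Finsupp.single x 1 := by
          rw [add_right_comm, add_tsub_cancel_right]
        rw [hx1, hw1, Finset.sum_eq_zero] at h3
        · linarith
        · intro p hp
          have h2 : 2 ≤ (m + Finsupp.single w 1 + Finsupp.single x 1 : P →₀ ℕ) p := by
            have := hm3 p hp
            simp only [Finsupp.add_apply]; omega
          rw [big_zero hT hρ]
          · rfl
          · rw [support_sub_single h2, support_add_single, support_add_single,
              Finset.card_insert_of_notMem, Finset.card_insert_of_notMem hw, hm]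
            rw [Finset.mem_insert]
            rintro (hh | hh)
            · exact hwx hh.symm
            · exact hx hh
      · rw [Finset.mem_insert]
        rintro (hh | hh)
        · exact hwx hh.symm
        · exact hx hh

end Pool.CB
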