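import Pool.Agent.Work.CB.Excess
import Pool.Agent.Work.CB.Formula

/-!
# From cubic to quadratic stresses at a vertex
-/

open scoped BigOperators
open Finset

noncomputable section

namespace Pool.CB

variable {P : Type*} [DecidableEq P] {W : Type*} [AddCommGroup W] [Module ℝ W]
variable {T : Finset (Finset P)} {h : P → W} {v : P}

theorem Tv_eq (hv : ∀ t ∈ T, v ∈ t) : Tv T v = T := Finset.filter_true_of_mem hv

theorem Rel_ins (hv : ∀ t ∈ T, v ∈ t) (s : Finset P) : Rel T h (insert v s) = Rel T h s := by
  rw [← Rel_Tv, Tv_eq hv]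

theorem lamFun_mem' {c k : ℕ} (hc : 1 ≤ c) {ρ : (P →₀ ℕ) → (P →₀ ℝ)}
    (hρ : ρ ∈ StressT (Tv T v) h k) : lamFun c v ρ ∈ StressT T h (k + c) := by
  obtain ⟨h1, h2, h3⟩ := mem_StressT.1 hρ
  refine mem_StressT.2 ⟨fun a => ?_, fun a ha => ?_, fun b => ?_⟩
  · unfold lamFun
    split_ifs with hv
    · have := h1 (a - Finsupp.single v c)
      rwa [Rel_Tv, insert_support_sub hc hv] at this
    · exact Submodule.zero_mem _
  · unfold lamFun
    split_ifs with hv
    · apply h2
      intro hh
      apply ha
      rw [mem_DD_Tv hc, sub_add_single hv] at hh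
      exact hh
    · rfl
  · by_cases hv : c ≤ b v
    swap
    · refine Finset.sum_eq_zero fun p _ => ?_
      unfold lamFun
      rw [if_neg]
      · rfl
      · rw [Finsupp.tsub_apply]; omega
    rw [← h3 (b - Finsupp.single v c), ← insert_support_sub hc hv]
    by_cases hv2 : v ∈ (b - Finsupp.single v c).support
    · rw [Finset.insert_eq_of_mem hv2]
      refine Finset.sum_congr rfl fun p hp => ?_
      unfold lamFun
      rw [if_pos, tsub_right_comm]
      rw [Finsupp.mem_support_iff, Finsupp.tsub_apply, Finsupp.single_eq_same] at hv2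
      rw [Finsupp.tsub_apply, Finsupp.single_apply]
      split_ifs <;> omega
    · rw [Finset.sum_insert hv2]
      have hbv : b v = c := by
        rw [Finsupp.mem_support_iff, Finsupp.tsub_apply, Finsupp.single_eq_same] at hv2
        omega
      have : lamFun c v ρ (b - Finsupp.single v 1) = 0 := by
        unfold lamFun
        rw [if_neg]
        rw [Finsupp.tsub_apply, Finsupp.single_eq_same]; omega
      rw [this, Finsupp.zero_apply, zero_add]
      refine Finset.sum_congr rfl fun p hp => ?_
      have hpv : p ≠ v := fun hh => hv2 (hh ▸ hp)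
      unfold lamFun
      rw [if_pos, tsub_right_comm]
      rw [Finsupp.tsub_apply, Finsupp.single_apply, if_neg hpv]
      omega

/-- The family of relations of a stress of degree three. -/
def Kof (v : P) (ρ : (P →₀ ℕ) → (P →₀ ℝ)) (p q : P) : P →₀ ℝ :=
  if p = v ∨ q = v ∨ q = p then 0 else ρ (Finsupp.single p 2 + Finsupp.single q 1)

theorem Kof_eq {ρ : (P →₀ ℕ) → (P →₀ ℝ)} {p q : P} (hp : p ≠ v) (hq : q ≠ v) (hqp : q ≠ p) :
    Kof v ρ p q = ρ (Finsupp.single p 2 + Finsupp.single q 1) := by
  unfold Kof
  rw [if_neg]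
  tauto

omit [DecidableEq P] in
theorem support_two (p : P) : (Finsupp.single p 2 : P →₀ ℕ).support = {p} :=
  Finsupp.support_single _ (by norm_num)

theorem support_two_one (p q : P) :
    (Finsupp.single p 2 + Finsupp.single q 1 : P →₀ ℕ).support = {q, p} := by
  rw [support_add_single, support_two]

theorem KFam_of (hT : IsFan T h) (hv : ∀ t ∈ T, v ∈ t) {ρ : (P →₀ ℕ) → (P →₀ ℝ)}
    (hρ : ρ ∈ StressT T h 3) : KFam T h v (Kof v ρ) := by
  obtain ⟨h1, h2, h3⟩ := mem_StressT.1 hρ
  have hrel : ∀ a : P →₀ ℕ, ρ a ∈ Rel T h (insert v a.support) := by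
    intro a
    rw [Rel_ins hv]
    exact h1 a
  have hbig : ∀ a : P →₀ ℕ, 4 ≤ (insert v a.support).card → ρ a = 0 :=
    fun a ha => rel_eq_zero_of_card hT ha (hrel a)
  refine ⟨?_, ?_, ?_, ?_, ?_, ?_⟩
  · intro p q
    unfold Kof
    split_ifs with hc
    · exact Submodule.zero_mem _
    · have h4 := hrel (Finsupp.single p 2 + Finsupp.single q 1)
      rw [support_two_one] at h4
      have h5 : (insert v {q, p} : Finset P) = insert q {v, p} := by ext x; simp; tauto
      rwa [h5] at h4
  · intro p
    unfold Kof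
    rw [if_pos (by tauto)]
  · intro p
    unfold Kof
    rw [if_pos (by tauto)]
  · intro p q w hqv hwv hqp hwp hqw
    by_cases hpv : p = v
    · subst hpv
      unfold Kof
      rw [if_pos (by tauto), if_pos (by tauto)]; simp
    rw [Kof_eq hpv hqv hqp, Kof_eq hpv hwv hwp]
    have h4 := h3 (Finsupp.single p 2 + Finsupp.single q 1 + Finsupp.single w 1)
    rw [support_add_single, support_add_single, support_two] at h4
    rw [Finset.sum_insert (by simp [hqw.symm, hwp]), Finset.sum_insert (by simp [hqp]),
      Finset.sum_singleton] at h4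
    have e1 : Finsupp.single p 2 + Finsupp.single q 1 + Finsupp.single w 1 - Finsupp.single w 1
        = Finsupp.single p 2 + Finsupp.single q 1 := add_tsub_cancel_right _ _
    have e2 : Finsupp.single p 2 + Finsupp.single q 1 + Finsupp.single w 1 - Finsupp.single q 1
        = Finsupp.single p 2 + Finsupp.single w 1 := by
      rw [add_right_comm, add_tsub_cancel_right]
    have e3 : ρ (Finsupp.single p 2 + Finsupp.single q 1 + Finsupp.single w 1
        - Finsupp.single p 1) = 0 := by
      apply hbig
      rw [support_sub_single (by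
        simp [hqp, hwp]), support_add_single, support_add_single,
        support_two]
      have : (insert v (insert w (insert q {p})) : Finset P) = {v, w, q, p} := rfl
      rw [this, Finset.card_insert_of_notMem (by simp [hwv.symm, hqv.symm, Ne.symm hpv]),
        Finset.card_insert_of_notMem (by simp [hqw.symm, hwp]),
        Finset.card_insert_of_notMem (by simp [hqp]), Finset.card_singleton]
    rw [e1, e2, e3, Finsupp.zero_apply, add_zero] at h4
    exact h4
  · intro p q hpv hqv hpq
    rw [Kof_eq hpv hqv hpq.symm, Kof_eq hqv hpv hpq]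
    have h4 := h3 (Finsupp.single p 2 + Finsupp.single q 2)
    have hs : (Finsupp.single p 2 + Finsupp.single q 2 : P →₀ ℕ).support = {p, q} := by
      have : (Finsupp.single p 2 + Finsupp.single q 2 : P →₀ ℕ)
          = Finsupp.single p 2 + Finsupp.single q 1 + Finsupp.single q 1 := by
        rw [add_assoc, ← Finsupp.single_add]
      rw [this, support_add_single, support_two_one]
      ext x; simp; tauto
    rw [hs, Finset.sum_pair hpq] at h4
    have e1 : Finsupp.single p 2 + Finsupp.single q 2 - Finsupp.single p 1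
        = Finsupp.single q 2 + Finsupp.single p 1 := by
      have : (Finsupp.single p 2 + Finsupp.single q 2 : P →₀ ℕ)
          = Finsupp.single q 2 + Finsupp.single p 1 + Finsupp.single p 1 := by
        rw [add_assoc, ← Finsupp.single_add, add_comm]
      rw [this, add_tsub_cancel_right]
    have e2 : Finsupp.single p 2 + Finsupp.single q 2 - Finsupp.single q 1
        = Finsupp.single p 2 + Finsupp.single q 1 := by
      have : (Finsupp.single p 2 + Finsupp.single q 2 : P →₀ ℕ)
          = Finsupp.single p 2 + Finsupp.single q 1 + Finsupp.single q 1 := by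
        rw [add_assoc, ← Finsupp.single_add]
      rw [this, add_tsub_cancel_right]
    rw [e1, e2] at h4
    linarith
  · intro p hpv
    refine ⟨if v ∈ VV T then ρ (Finsupp.single p 3) v else 0, ?_⟩
    have hsum : ∑ x ∈ VV T, ρ (Finsupp.single p 3) x • h x = 0 := Rel_sum_eq_zero (h1 _)
    have hterm : ∀ q ∈ VV T, Kof v ρ p q p • h q + ρ (Finsupp.single p 3) q • h q
        = if q = v then ρ (Finsupp.single p 3) v • h v else 0 := by
      intro q _
      by_cases hqv : q = v
      · subst hqv
        unfold Kof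
        rw [if_pos (by tauto), if_pos rfl]
        simp
      rw [if_neg hqv]
      by_cases hqp : q = p
      · subst hqp
        unfold Kof
        rw [if_pos (by tauto)]
        have h4 := h3 (Finsupp.single q 4)
        rw [Finsupp.support_single _ (by norm_num), Finset.sum_singleton,
          ← Finsupp.single_tsub] at h4
        have : ρ (Finsupp.single q 3) q = 0 := h4
        rw [this]
        simp
      · rw [Kof_eq hpv hqv hqp]
        have h4 := h3 (Finsupp.single p 3 + Finsupp.single q 1)
        rw [support_add_single, Finsupp.support_single _ (by norm_num),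
          Finset.sum_pair hqp, add_tsub_cancel_right] at h4
        have e1 : Finsupp.single p 3 + Finsupp.single q 1 - Finsupp.single p 1
            = Finsupp.single p 2 + Finsupp.single q 1 := by
          have : (Finsupp.single p 3 + Finsupp.single q 1 : P →₀ ℕ)
              = Finsupp.single p 2 + Finsupp.single q 1 + Finsupp.single p 1 := by
            rw [add_right_comm, ← Finsupp.single_add]
          rw [this, add_tsub_cancel_right]
        rw [e1] at h4
        rw [← add_smul, add_comm, h4, zero_smul]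
    have h5 := Finset.sum_congr rfl hterm
    rw [Finset.sum_add_distrib, hsum, add_zero, Finset.sum_ite_eq'] at h5
    rw [h5]
    split_ifs <;> simp

/-- Raising the multiplicity of `v`. -/
def Lam1 (hv : ∀ t ∈ T, v ∈ t) (k : ℕ) : StressT T h k →ₗ[ℝ] StressT T h (k + 1) where
  toFun ρ := ⟨lamFun 1 v ρ.1, lamFun_mem' le_rfl (by rw [Tv_eq hv]; exact ρ.2)⟩
  map_add' ρ ρ' := by
    apply Subtype.ext
    funext a
    simp only [Pi.add_apply, Submodule.coe_add, lamFun]
    split_ifs <;> simp
  map_smul' x ρ := by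
    apply Subtype.ext
    funext a
    simp only [Pi.smul_apply, RingHom.id_apply, Submodule.coe_smul, lamFun]
    split_ifs <;> simp

theorem Lam1_apply (hv : ∀ t ∈ T, v ∈ t) {k : ℕ} (ρ : StressT T h k) (a : P →₀ ℕ) :
    (Lam1 hv k ρ).1 a = lamFun 1 v ρ.1 a := rfl

theorem Lam1_injective (hv : ∀ t ∈ T, v ∈ t) (k : ℕ) :
    Function.Injective (Lam1 (h := h) hv k) := by
  intro ρ ρ' he
  apply Subtype.ext
  funext a
  have h1 := congrFun (congrArg Subtype.val he) (a + Finsupp.single v 1)
  rw [Lam1_apply, Lam1_apply, lamFun, lamFun, if_pos, if_pos, add_tsub_cancel_right] at h1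
  · exact h1
  · simp
  · simp

theorem Kof_Lam1 (hv : ∀ t ∈ T, v ∈ t) (σ : StressT T h 2) (p q : P) :
    Kof v (Lam1 hv 2 σ).1 p q = 0 := by
  unfold Kof
  split_ifs with hc
  · rfl
  · rw [Lam1_apply]
    unfold lamFun
    rw [if_neg]
    simp only [not_or] at hc
    rw [Finsupp.add_apply, Finsupp.single_apply, Finsupp.single_apply, if_neg hc.1,
      if_neg hc.2.1]
    omega

theorem Kof_add (ρ ρ' : (P →₀ ℕ) → (P →₀ ℝ)) (p : P) :
    Kof v (ρ + ρ') p = Kof v ρ p + Kof v ρ' p := by
  funext q
  simp only [Pi.add_apply, Kof]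
  split_ifs <;> simp

theorem Kof_smul (x : ℝ) (ρ : (P →₀ ℕ) → (P →₀ ℝ)) (p : P) :
    Kof v (x • ρ) p = x • Kof v ρ p := by
  funext q
  simp only [Pi.smul_apply, Kof]
  split_ifs <;> simp

/-- The cubic stresses whose families consist of edge stresses. -/
def MS (T : Finset (Finset P)) (h : P → W) (v : P) :
    Submodule ℝ ((P →₀ ℕ) → (P →₀ ℝ)) where
  carrier := {ρ | ρ ∈ StressT T h 3 ∧ ∀ p, p ≠ v → Kof v ρ p ∈ Sig T h {v, p}}
  add_mem' := by
    rintro ρ ρ' ⟨g1, h1⟩ ⟨g2, h2⟩
    refine ⟨Submodule.add_mem _ g1 g2, fun p hp => ?_⟩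
    rw [Kof_add]
    exact Submodule.add_mem _ (h1 p hp) (h2 p hp)
  zero_mem' := by
    refine ⟨Submodule.zero_mem _, fun p hp => ?_⟩
    have : Kof v (0 : (P →₀ ℕ) → (P →₀ ℝ)) p = 0 := by
      funext q
      unfold Kof
      split_ifs
      · rfl
      · rfl
    rw [this]
    exact Submodule.zero_mem _
  smul_mem' := by
    rintro x ρ ⟨g1, h1⟩
    refine ⟨Submodule.smul_mem _ x g1, fun p hp => ?_⟩
    rw [Kof_smul]
    exact Submodule.smul_mem _ x (h1 p hp)

theorem mem_MS {ρ : (P →₀ ℕ) → (P →₀ ℝ)} :
    ρ ∈ MS T h v ↔ ρ ∈ StressT T h 3 ∧ ∀ p, p ≠ v → Kof v ρ p ∈ Sig T h {v, p} := Iff.rfl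

theorem MS_le : MS T h v ≤ StressT T h 3 := fun _ hρ => (mem_MS.1 hρ).1

instance finite_MS : FiniteDimensional ℝ (MS T h v) :=
  Submodule.finiteDimensional_of_le (S₂ := StressT T h 3) MS_le

/-- The map to the edge stresses at `v`. -/
def Psi (T : Finset (Finset P)) (h : P → W) (v : P) :
    MS T h v →ₗ[ℝ] ((p : ((VV T).erase v : Finset P)) → Sig T h {v, p.1}) where
  toFun ρ p := ⟨Kof v ρ.1 p.1, ρ.2.2 p.1 (Finset.ne_of_mem_erase p.2)⟩
  map_add' ρ ρ' := by
    funext p
    apply Subtype.ext
    exact Kof_add _ _ _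
  map_smul' x ρ := by
    funext p
    apply Subtype.ext
    exact Kof_smul _ _ _

theorem Psi_apply (ρ : MS T h v) (p : ((VV T).erase v : Finset P)) (q : P) :
    (Psi T h v ρ p).1 q = Kof v ρ.1 p.1 q := rfl

/-- Raising the multiplicity of `v`. -/
def Lam2 (hv : ∀ t ∈ T, v ∈ t) : StressT T h 2 →ₗ[ℝ] MS T h v where
  toFun σ := ⟨(Lam1 hv 2 σ).1, (Lam1 hv 2 σ).2, fun p _ => by
    have : Kof v (Lam1 hv 2 σ).1 p = 0 := funext fun q => Kof_Lam1 hv σ p q
    rw [this]
    exact Submodule.zero_mem _⟩
  map_add' σ σ' := by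
    apply Subtype.ext
    show (Lam1 hv 2 (σ + σ')).1 = (Lam1 hv 2 σ).1 + (Lam1 hv 2 σ').1
    rw [map_add]
    rfl
  map_smul' x σ := by
    apply Subtype.ext
    show (Lam1 hv 2 (x • σ)).1 = x • (Lam1 hv 2 σ).1
    rw [map_smul]
    rfl

theorem Lam2_apply (hv : ∀ t ∈ T, v ∈ t) (σ : StressT T h 2) :
    (Lam2 hv σ).1 = (Lam1 hv 2 σ).1 := rfl

theorem Lam2_injective (hv : ∀ t ∈ T, v ∈ t) : Function.Injective (Lam2 (h := h) hv) := by
  intro σ σ' he
  apply Lam1_injective hv 2
  apply Subtype.ext
  rw [← Lam2_apply, ← Lam2_apply, he]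

theorem base_zero (hT : IsFan T h) (hv : ∀ t ∈ T, v ∈ t) {ρ : (P →₀ ℕ) → (P →₀ ℝ)}
    (hρ : ρ ∈ StressT T h 3) (hK : ∀ p q, Kof v ρ p q = 0) {a : P →₀ ℕ} (ha : a v = 0) :
    ρ a = 0 := by
  obtain ⟨h1, h2, h3⟩ := mem_StressT.1 hρ
  by_cases hD : a ∈ DD T 3
  swap
  · exact h2 a hD
  obtain ⟨⟨t, ht, hst⟩, hk⟩ := mem_DD.1 hD
  have hva : v ∉ a.support := by
    rw [Finsupp.mem_support_iff, not_not]; exact ha
  by_cases h4 : 3 ≤ a.support.card
  · refine rel_eq_zero_of_card (s := insert v a.support) hT ?_ ?_
    · rw [Finset.card_insert_of_notMem hva]; omega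
    · rw [Rel_ins hv]; exact h1 a
  rw [Finsupp.degree_apply] at hk
  obtain h5 | h5 | h5 : a.support.card = 2 ∨ a.support.card = 1 ∨ a.support.card = 0 := by omega
  · obtain ⟨p, q, hpq, hs⟩ := Finset.card_eq_two.1 h5
    have hpa : p ∈ a.support := by rw [hs]; simp
    have hqa : q ∈ a.support := by rw [hs]; simp
    have hpv : p ≠ v := fun hh => hva (hh ▸ hpa)
    have hqv : q ≠ v := fun hh => hva (hh ▸ hqa)
    rw [hs, Finset.sum_pair hpq] at hk
    have e1 := Finsupp.mem_support_iff.1 hpa
    have e2 := Finsupp.mem_support_iff.1 hqa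
    have hout : ∀ x, x ≠ p → x ≠ q → a x = 0 := by
      intro x hx1 hx2
      have : x ∉ a.support := by rw [hs]; simp [hx1, hx2]
      rwa [Finsupp.mem_support_iff, not_not] at this
    have key : ∀ p q : P, p ≠ q → p ≠ v → q ≠ v → a p = 2 → a q = 1 →
        (∀ x, x ≠ p → x ≠ q → a x = 0) → ρ a = 0 := by
      intro p q hpq hpv hqv hp hq hout
      have : a = Finsupp.single p 2 + Finsupp.single q 1 := by
        ext x
        rw [Finsupp.add_apply, Finsupp.single_apply, Finsupp.single_apply]
        by_cases hxp : p = x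
        · subst hxp
          rw [if_pos rfl, if_neg (Ne.symm hpq), hp, add_zero]
        · by_cases hxq : q = x
          · subst hxq
            rw [if_neg hxp, if_pos rfl, hq]
          · rw [if_neg hxp, if_neg hxq, hout x (Ne.symm hxp) (Ne.symm hxq), add_zero]
      rw [this, ← Kof_eq (ρ := ρ) hpv hqv hpq.symm]
      exact hK p q
    obtain h6 | h6 : a p = 2 ∧ a q = 1 ∨ a q = 2 ∧ a p = 1 := by omega
    · exact key p q hpq hpv hqv h6.1 h6.2 hout
    · exact key q p hpq.symm hqv hpv h6.1 h6.2 fun x hx1 hx2 => hout x hx2 hx1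
  · obtain ⟨p, hs⟩ := Finset.card_eq_one.1 h5
    have hpa : p ∈ a.support := by rw [hs]; simp
    have hpv : p ≠ v := fun hh => hva (hh ▸ hpa)
    rw [hs, Finset.sum_singleton] at hk
    have hae : a = Finsupp.single p 3 := by
      ext x
      rw [Finsupp.single_apply]
      by_cases hxp : p = x
      · subst hxp; rw [if_pos rfl, hk]
      · rw [if_neg hxp]
        have : x ∉ a.support := by rw [hs]; simp [Ne.symm hxp]
        rwa [Finsupp.mem_support_iff, not_not] at this
    refine rel_eq_zero hT (h1 a) ht fun x hx => ?_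
    have hxv : x ≠ v := by
      rintro rfl
      exact hx (hv t ht)
    rw [hae]
    by_cases hxp : x = p
    · subst hxp
      have h4 := h3 (Finsupp.single x 4)
      rw [Finsupp.support_single _ (by norm_num), Finset.sum_singleton,
        ← Finsupp.single_tsub] at h4
      exact h4
    · have h4 := h3 (Finsupp.single p 3 + Finsupp.single x 1)
      rw [support_add_single, Finsupp.support_single _ (by norm_num),
        Finset.sum_pair hxp, add_tsub_cancel_right] at h4
      have e1 : Finsupp.single p 3 + Finsupp.single x 1 - Finsupp.single p 1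
          = Finsupp.single p 2 + Finsupp.single x 1 := by
        have : (Finsupp.single p 3 + Finsupp.single x 1 : P →₀ ℕ)
            = Finsupp.single p 2 + Finsupp.single x 1 + Finsupp.single p 1 := by
          rw [add_right_comm, ← Finsupp.single_add]
        rw [this, add_tsub_cancel_right]
      rw [e1, ← Kof_eq (ρ := ρ) hpv hxv hxp, hK, Finsupp.zero_apply, add_zero] at h4
      exact h4
  · exfalso
    rw [Finset.card_eq_zero] at h5
    rw [h5, Finset.sum_empty] at hk
    omega

theorem ker_Psi (hT : IsFan T h) (hv : ∀ t ∈ T, v ∈ t) :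
    LinearMap.ker (Psi T h v) = LinearMap.range (Lam2 hv) := by
  ext ρ
  rw [LinearMap.mem_ker]
  obtain ⟨r1, r2, r3⟩ := mem_StressT.1 ρ.2.1
  constructor
  · intro hρ
    have hK : ∀ p q, Kof v ρ.1 p q = 0 := by
      intro p q
      by_cases hp : p ∈ (VV T).erase v
      · rw [← Psi_apply ρ ⟨p, hp⟩ q, hρ]
        rfl
      · by_cases hc : p = v ∨ q = v ∨ q = p
        · unfold Kof; rw [if_pos hc]
        · unfold Kof
          rw [if_neg hc]
          apply r2
          intro hD
          obtain ⟨⟨t', ht', hst⟩, _⟩ := mem_DD.1 hD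
          rw [support_two_one] at hst
          apply hp
          rw [Finset.mem_erase]
          exact ⟨fun hh => hc (Or.inl hh), mem_VV.2 ⟨t', ht', hst (by simp)⟩⟩
    have hbase := fun (a : P →₀ ℕ) (ha : a v = 0) => base_zero hT hv ρ.2.1 hK ha
    have hsupp : ∀ a : P →₀ ℕ, (a + Finsupp.single v 1).support = insert v a.support :=
      fun a => support_add_single a v
    refine ⟨⟨fun a => ρ.1 (a + Finsupp.single v 1), mem_StressT.2 ⟨fun a => ?_, fun a ha => ?_,
      fun b => ?_⟩⟩, ?_⟩
    · have := r1 (a + Finsupp.single v 1)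
      rwa [hsupp, Rel_ins hv] at this
    · apply r2
      intro hh
      apply ha
      have := (mem_DD_Tv (T := T) (v := v) (a := a) (k := 2) (c := 1) le_rfl).2 hh
      rwa [Tv_eq hv] at this
    · have hsum := r3 (b + Finsupp.single v 1)
      rw [hsupp] at hsum
      have hterm : ∀ p ∈ b.support, b + Finsupp.single v 1 - Finsupp.single p 1
          = b - Finsupp.single p 1 + Finsupp.single v 1 := by
        intro p hp
        have := Finsupp.mem_support_iff.1 hp
        ext q
        simp only [Finsupp.tsub_apply, Finsupp.add_apply, Finsupp.single_apply]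
        by_cases hpq : p = q
        · subst hpq; simp; omega
        · simp [hpq]
      by_cases hvb : v ∈ b.support
      · rw [Finset.insert_eq_of_mem hvb] at hsum
        rw [← hsum]
        refine Finset.sum_congr rfl fun p hp => ?_
        rw [hterm p hp]
      · rw [Finset.sum_insert hvb, add_tsub_cancel_right,
          hbase b (Finsupp.notMem_support_iff.1 hvb), Finsupp.zero_apply, zero_add] at hsum
        rw [← hsum]
        refine Finset.sum_congr rfl fun p hp => ?_
        rw [hterm p hp]
    · apply Subtype.ext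
      rw [Lam2_apply]
      funext a
      rw [Lam1_apply]
      unfold lamFun
      split_ifs with h5
      · show ρ.1 (a - Finsupp.single v 1 + Finsupp.single v 1) = ρ.1 a
        rw [sub_add_single h5]
      · exact (hbase a (by omega)).symm
  · rintro ⟨σ, rfl⟩
    funext p
    apply Subtype.ext
    funext q
    rw [Psi_apply, Lam2_apply, Kof_Lam1]
    rfl

theorem Psi_surjective (hT : IsFan T h) (hv : ∀ t ∈ T, v ∈ t) :
    Function.Surjective (Psi T h v) := by
  have hone : ∀ (p : ((VV T).erase v : Finset P)) (κ : Sig T h {v, p.1}), ∃ ρ : MS T h v,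
      Psi T h v ρ = Pi.single p κ := by
    intro p κ
    have hpv : p.1 ≠ v := Finset.ne_of_mem_erase p.2
    obtain ⟨t0, ht0, hpt0⟩ := mem_VV.1 (Finset.mem_of_mem_erase p.2)
    obtain ⟨R, hR1, hR2, hR3⟩ := sig_extend hT hpv.symm ht0 (hv t0 ht0) hpt0 κ.2
    have hRm : ∀ x, R x ∈ Rel T h (insert x (Finsupp.single p.1 2 : P →₀ ℕ).support) := by
      intro x
      rw [support_two, ← Rel_ins hv]
      have h5 : (insert v (insert x {p.1}) : Finset P) = insert x {v, p.1} := by
        ext y; simp; tauto
      rw [h5]; exact hR1 x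
    have hR0 : ∀ x, x ∉ VV T → R x = 0 := by
      intro x hx
      apply Rel_eq_zero_of_not_face (hR1 x)
      rintro ⟨t, ht, hst⟩
      rw [Finset.insert_subset_iff] at hst
      exact hx (mem_VV.2 ⟨t, ht, hst.1⟩)
    have hKof : ∀ p', p' ≠ v → ∀ q, Kof v (stressOf (VV T) (Finsupp.single p.1 2) R) p' q
        = if p' = p.1 then κ.1 q else 0 := by
      intro p' hp'v q
      obtain ⟨k1, k2, k3⟩ := mem_Sig.1 κ.2
      by_cases hc : q = v ∨ q = p'
      · have h1 : Kof v (stressOf (VV T) (Finsupp.single p.1 2) R) p' q = 0 := by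
          unfold Kof
          rw [if_pos (Or.inr hc)]
        rw [h1]
        split_ifs with hpp
        · rw [k2 q]
          rw [← hpp]
          simp [hc]
        · rfl
      · simp only [not_or] at hc
        rw [Kof_eq hp'v hc.1 hc.2]
        split_ifs with hpp
        · subst hpp
          rw [stressOf_at hR0]
          exact hR3 q hc.1 hc.2
        · unfold stressOf
          refine Finset.sum_eq_zero fun x _ => ?_
          rw [if_neg]
          intro hh
          have hw1 := DFunLike.congr_fun hh p'
          rw [Finsupp.add_apply, Finsupp.add_apply, Finsupp.single_eq_same, Finsupp.single_apply,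
            Finsupp.single_apply, Finsupp.single_apply, if_neg (Ne.symm hpp)] at hw1
          split_ifs at hw1 <;> omega
    refine ⟨⟨stressOf (VV T) (Finsupp.single p.1 2) R,
      stressOf_mem (k := 2) (by simp) hRm hR2, fun p' hp' => ?_⟩, ?_⟩
    · have h1 : Kof v (stressOf (VV T) (Finsupp.single p.1 2) R) p'
          = if p' = p.1 then κ.1 else 0 := by
        funext q
        rw [hKof p' hp' q]
        split_ifs <;> rfl
      show Kof v (stressOf (VV T) (Finsupp.single p.1 2) R) p' ∈ Sig T h {v, p'}
      rw [h1]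
      split_ifs with hpp
      · rw [hpp]; exact κ.2
      · exact Submodule.zero_mem _
    · funext p'
      apply Subtype.ext
      funext q
      rw [Psi_apply]
      show Kof v (stressOf (VV T) (Finsupp.single p.1 2) R) p'.1 q = _
      rw [hKof p'.1 (Finset.ne_of_mem_erase p'.2) q]
      by_cases hpp : p' = p
      · subst hpp
        rw [if_pos rfl, Pi.single_eq_same]
      · rw [Pi.single_eq_of_ne hpp, if_neg fun h6 => hpp (Subtype.ext h6)]
        rfl
  intro κ
  choose f hf using fun m => hone m (κ m)
  refine ⟨∑ m, f m, ?_⟩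
  rw [map_sum]
  simp only [hf]
  funext m
  rw [Finset.sum_apply, Finset.sum_eq_single m]
  · rw [Pi.single_eq_same]
  · intro m' _ hne
    rw [Pi.single_eq_of_ne hne.symm]
  · intro hn; exact absurd (Finset.mem_univ _) hn

open Classical in
theorem finrank_MS (hT : IsFan T h) (hv : ∀ t ∈ T, v ∈ t) :
    Module.finrank ℝ (MS T h v) = Module.finrank ℝ (StressT T h 2)
      + (((VV T).erase v).filter (fun p => SingAbs T h {v, p})).card := by
  have hsurj := Psi_surjective hT hv
  have hfin : Module.Finite ℝ ((p : ((VV T).erase v : Finset P)) → Sig T h {v, p.1}) :=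
    Module.Finite.of_surjective (Psi T h v) hsurj
  have hfin1 : ∀ p : ((VV T).erase v : Finset P), Module.Finite ℝ (Sig T h {v, p.1}) := by
    intro p
    exact Module.Finite.of_surjective
      (LinearMap.proj (R := ℝ) (φ := fun p : ((VV T).erase v : Finset P) => Sig T h {v, p.1}) p)
      (Function.surjective_eval p)
  have hfree1 : ∀ p : ((VV T).erase v : Finset P), Module.Free ℝ (Sig T h {v, p.1}) :=
    fun p => Module.Free.of_divisionRing ℝ (Sig T h {v, p.1})
  have h1 := LinearMap.finrank_range_add_finrank_ker (K := ℝ) (V := MS T h v)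
    (V₂ := (p : ((VV T).erase v : Finset P)) → Sig T h {v, p.1}) (Psi T h v)
  rw [LinearMap.range_eq_top.2 hsurj, finrank_top, ker_Psi hT hv,
    LinearMap.finrank_range_of_inj (Lam2_injective hv), Module.finrank_pi_fintype] at h1
  have h2 : ∀ p : ((VV T).erase v : Finset P), Module.finrank ℝ (Sig T h {v, p.1})
      = if SingAbs T h {v, p.1} then 1 else 0 := by
    intro p
    obtain ⟨t0, ht0, hpt0⟩ := mem_VV.1 (Finset.mem_of_mem_erase p.2)
    refine finrank_Sig hT (Finset.card_pair (Finset.ne_of_mem_erase p.2).symm) ht0 ?_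
    intro x hx
    rw [Finset.mem_insert, Finset.mem_singleton] at hx
    rcases hx with rfl | rfl
    · exact hv t0 ht0
    · exact hpt0
  rw [Finset.sum_congr rfl (fun p _ => h2 p),
    Finset.sum_coe_sort ((VV T).erase v) (fun p => if SingAbs T h {v, p} then 1 else 0),
    ← Finset.card_filter] at h1
  omega

open Classical in
/-- Cubic stresses at a vertex: lower bound. -/
theorem finrank_three_ge (hT : IsFan T h) (hv : ∀ t ∈ T, v ∈ t) :
    Module.finrank ℝ (StressT T h 2)
      + (((VV T).erase v).filter (fun p => SingAbs T h {v, p})).card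
      ≤ Module.finrank ℝ (StressT T h 3) := by
  rw [← finrank_MS hT hv]
  exact Submodule.finrank_mono (MS_le (T := T) (h := h) (v := v))

open Classical in
/-- Cubic stresses at a vertex which is not exceptional. -/
theorem finrank_three (hT : IsFan T h) (hv : ∀ t ∈ T, v ∈ t) (hexc : ¬ ExcAbs T h v)
    {t : Finset P} (ht : t ∈ T) :
    Module.finrank ℝ (StressT T h 3) = Module.finrank ℝ (StressT T h 2)
      + (((VV T).erase v).filter (fun p => SingAbs T h {v, p})).card := by
  have htop : MS T h v = StressT T h 3 := by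
    refine le_antisymm MS_le fun ρ hρ => ⟨hρ, fun p hp => ?_⟩
    exact fam_sig hT (KFam_of hT hv hρ) hexc ht (hv t ht) hp
  rw [← finrank_MS hT hv, htop]

end Pool.CB
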