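import Pool.Agent.Work.CB.Spline2

open scoped BigOperators Topology
open Finset

noncomputable section

namespace Pool.CB

variable (Δ : TetComplex)

theorem faces_eq (j : ℕ) : Δ.faces j = (FF Δ.tets j : Set (Finset E3)) := by
  ext s
  rw [Finset.mem_coe, mem_FF]
  exact ⟨fun hh => ⟨hh.2, hh.1⟩, fun hh => ⟨hh.2, hh.1⟩⟩

theorem faces_ncard (j : ℕ) : (Δ.faces j).ncard = (FF Δ.tets j).card := by
  rw [faces_eq, Set.ncard_coe_finset]

theorem count_eq (k : ℕ) : Δ.count k = GG Δ.tets k := by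
  simp only [TetComplex.count, GG, faces_ncard]

theorem exists_insert {e f : Finset E3} (he : e.card = 2) (hf : f.card = 3) (hef : e ⊆ f) :
    ∃ z, z ∈ f ∧ z ∉ e ∧ f = insert z e := by
  have h1 : (f \ e).card = 1 := by
    rw [Finset.card_sdiff_of_subset hef, hf, he]
  obtain ⟨z, hz⟩ := Finset.card_eq_one.1 h1
  have hz' : z ∈ f \ e := by rw [hz]; simp
  rw [Finset.mem_sdiff] at hz'
  refine ⟨z, hz'.1, hz'.2, ?_⟩
  symm
  apply Finset.eq_of_subset_of_card_le (Finset.insert_subset hz'.1 hef)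
  rw [Finset.card_insert_of_notMem hz'.2, he, hf]

/-- The functional of a plane. -/
def planeF (a : E3) (α : ℝ) : (E3 × ℝ) →ₗ[ℝ] ℝ where
  toFun w := ∑ i, a i * w.1 i - α * w.2
  map_add' w w' := by
    simp only [Prod.fst_add, Prod.snd_add, Pi.add_apply, mul_add, Finset.sum_add_distrib]
    ring
  map_smul' r w := by
    simp only [Prod.smul_fst, Prod.smul_snd, Pi.smul_apply, smul_eq_mul, RingHom.id_apply, mul_sub,
      Finset.mul_sum]
    congr 1
    · exact Finset.sum_congr rfl fun i _ => by ring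
    · ring

theorem planeF_hc (a : E3) (α : ℝ) (x : E3) : planeF a α (hc x) = 0 ↔ ∑ i, a i * x i = α := by
  show ∑ i, a i * x i - α * 1 = 0 ↔ _
  rw [mul_one, sub_eq_zero]

theorem planeF_ne {a : E3} (ha : a ≠ 0) (α : ℝ) : planeF a α ≠ 0 := by
  intro h0
  apply ha
  funext i
  have h1 := congrArg (fun L : (E3 × ℝ) →ₗ[ℝ] ℝ => L (Pi.single i 1, 0)) h0
  simp only [planeF, LinearMap.coe_mk, AddHom.coe_mk, mul_zero, sub_zero] at h1
  rw [Finset.sum_eq_single i] at h1
  · simpa using h1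
  · intro j _ hj
    simp [hj]
  · intro hn; exact absurd (Finset.mem_univ _) hn

theorem exists_plane {φ : (E3 × ℝ) →ₗ[ℝ] ℝ} (hφ : φ ≠ 0) {u : E3} (hu : φ (hc u) = 0) :
    ∃ (a : E3) (α : ℝ), a ≠ 0 ∧ ∀ x, φ (hc x) = 0 ↔ ∑ i, a i * x i = α := by
  have hexp : ∀ x : E3, ∀ r : ℝ, φ (x, r) = ∑ i, φ (Pi.single i 1, 0) * x i + r * φ (0, 1) := by
    intro x r
    have h1 : ((x, r) : E3 × ℝ) = ∑ i, x i • ((Pi.single i (1 : ℝ), (0 : ℝ)) : E3 × ℝ)
        + r • ((0 : E3), (1 : ℝ)) := by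
      refine Prod.ext ?_ ?_
      · funext j
        simp [Prod.fst_sum, Pi.single_apply]
      · simp [Prod.snd_sum]
    rw [h1, map_add, map_sum]
    simp only [map_smul, smul_eq_mul]
    congr 1
    exact Finset.sum_congr rfl fun i _ => by ring
  refine ⟨fun i => φ (Pi.single i 1, 0), - φ (0, 1), ?_, fun x => ?_⟩
  · intro h0
    apply hφ
    have h1 : ∀ i, φ (Pi.single i 1, 0) = 0 := fun i => congrFun h0 i
    have h2 : φ (0, 1) = 0 := by
      have := hexp u 1
      simp only [h1, zero_mul, Finset.sum_const_zero, zero_add, one_mul] at this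
      rw [← this]
      exact hu
    refine LinearMap.ext fun w => ?_
    have := hexp w.1 w.2
    simp only [h1, h2, zero_mul, mul_zero, Finset.sum_const_zero, zero_add] at this
    exact this
  · have h1 : φ (hc x) = ∑ i, φ (Pi.single i 1, 0) * x i + 1 * φ (0, 1) := hexp x 1
    rw [h1, one_mul]
    constructor
    · intro h2; linarith
    · intro h2; linarith

theorem isSingular_iff (e : Finset E3) :
    Δ.IsSingular e ↔ e ∈ FF Δ.tets 2 ∧ SingAbs Δ.tets hc e := by
  have hT := isFan Δ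
  constructor
  · rintro ⟨he, h2, a, b, α, β, ha, hb, hab⟩
    refine ⟨by rw [faces_eq] at he; exact he, ?_, planeF a α, planeF b β, planeF_ne ha α,
      planeF_ne hb β, ?_⟩
    · intro t ht het z hz hze
      have hf : insert z e ∈ Δ.faces 3 := ⟨by rw [Finset.card_insert_of_notMem hze, he.1],
        t, ht, Finset.insert_subset hz het⟩
      obtain ⟨s, hs, s', hs', hss, hfs, hfs'⟩ := h2 _ hf (Finset.subset_insert _ _)
      by_cases hst : s = t
      · exact ⟨s', hs', fun hh => hss (hst.trans hh.symm), hfs'⟩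
      · exact ⟨s, hs, hst, hfs⟩
    · intro t ht het z hz hze
      have hf : insert z e ∈ Δ.faces 3 := ⟨by rw [Finset.card_insert_of_notMem hze, he.1],
        t, ht, Finset.insert_subset hz het⟩
      rcases hab _ hf (Finset.subset_insert _ _) with h3 | h3
      · exact Or.inl fun x hx => (planeF_hc a α x).2 (h3 x hx)
      · exact Or.inr fun x hx => (planeF_hc b β x).2 (h3 x hx)
  · rintro ⟨he, hS⟩
    obtain ⟨⟨t0, ht0, het0⟩, hec⟩ := mem_FF.1 he
    obtain ⟨u, v, huv, rfl⟩ := Finset.card_eq_two.1 hec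
    obtain ⟨w, y, w', y', hC⟩ := singAbs_cross hT huv ht0 (het0 (by simp)) (het0 (by simp)) hS
    obtain ⟨h2, φ, ψ, hφ, hψ, ⟨hφu, hψu⟩, hk⟩ := cross_singAbs hT hC
    obtain ⟨a, α, ha, haα⟩ := exists_plane hφ hφu
    obtain ⟨b, β, hb, hbβ⟩ := exists_plane hψ hψu
    refine ⟨⟨hec, t0, ht0, het0⟩, ?_, a, b, α, β, ha, hb, ?_⟩
    · rintro f ⟨hfc, t, ht, hft⟩ hef
      obtain ⟨z, hzf, hze, rfl⟩ := exists_insert hec hfc hef
      obtain ⟨t', ht', htt, hsub⟩ := h2 t ht (hef.trans hft) z (hft hzf) hze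
      exact ⟨t, ht, t', ht', htt.symm, hft, hsub⟩
    · rintro f ⟨hfc, t, ht, hft⟩ hef
      obtain ⟨z, hzf, hze, rfl⟩ := exists_insert hec hfc hef
      rcases hk t ht (hef.trans hft) z (hft hzf) hze with h3 | h3
      · exact Or.inl fun x hx => (haα x).1 (h3 x hx)
      · exact Or.inr fun x hx => (hbβ x).1 (h3 x hx)

open Classical in
theorem singular_ncard : {e | Δ.IsSingular e}.ncard
    = ((FF Δ.tets 2).filter (fun e => SingAbs Δ.tets hc e)).card := by
  have : {e | Δ.IsSingular e}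
      = ((FF Δ.tets 2).filter (fun e => SingAbs Δ.tets hc e) : Set (Finset E3)) := by
    ext e
    rw [Set.mem_setOf_eq, isSingular_iff, Finset.mem_coe, Finset.mem_filter]
  rw [this, Set.ncard_coe_finset]

/-- The dimension formula. -/
theorem dim_splines {k : ℕ} (hk : 9 ≤ k) :
    (Module.finrank ℝ (Δ.splines k) : ℚ)
      = Δ.count k + (k - 7) * {e | Δ.IsSingular e}.ncard
        + ∑ v ∈ Δ.vertices,
          ((Module.finrank ℝ ((Δ.star v).splines 4) : ℚ) - (Δ.star v).count 4) := by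
  classical
  obtain ⟨n, rfl⟩ : ∃ n, k = n + 1 := ⟨k - 1, by omega⟩
  rw [finrank_splines Δ (by omega), count_eq, singular_ncard]
  have h1 := net_formula (isFan Δ) hk
  rw [show n + 1 - 1 = n from rfl] at h1
  rw [h1]
  congr 1
  refine Finset.sum_congr rfl fun v _ => ?_
  have h2 : Module.finrank ℝ ((Δ.star v).splines 4)
      = Module.finrank ℝ (Net (Tv Δ.tets v) hc 3) := finrank_splines (Δ.star v) (n := 3) (by norm_num)
  rw [h2, count_eq]
  rfl

/-- Finite dimension. -/
theorem finite_splines' {k : ℕ} (hk : 2 ≤ k) : FiniteDimensional ℝ (Δ.splines k) := by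
  obtain ⟨n, rfl⟩ : ∃ n, k = n + 1 := ⟨k - 1, by omega⟩
  exact finite_splines Δ (by omega)

end Pool.CB
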