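import Pool.Agent.Work.CB.Ball
import Pool.Agent.Work.CB.Local3

/-!
# The dimension formula with cubic vertex stars
-/

open scoped BigOperators Topology
open Finset

noncomputable section

namespace Pool.CB

section abs

variable {P : Type*} [DecidableEq P] {W : Type*} [AddCommGroup W] [Module ℝ W]
variable {T : Finset (Finset P)} {h : P → W} {v : P}

theorem mem_Tv {t : Finset P} : t ∈ Tv T v ↔ t ∈ T ∧ v ∈ t := Finset.mem_filter

theorem singAbs_Tv {p : P} : SingAbs (Tv T v) h {v, p} ↔ SingAbs T h {v, p} := by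
  have hv : ∀ {t : Finset P}, ({v, p} : Finset P) ⊆ t → v ∈ t := fun {t} ht => ht (by simp)
  constructor
  · rintro ⟨h1, φ, ψ, hφ, hψ, h2⟩
    refine ⟨fun t ht hst z hz hze => ?_, φ, ψ, hφ, hψ, fun t ht hst z hz hze => ?_⟩
    · obtain ⟨t', ht', hne, hsub⟩ := h1 t (mem_Tv.2 ⟨ht, hv hst⟩) hst z hz hze
      exact ⟨t', (mem_Tv.1 ht').1, hne, hsub⟩
    · exact h2 t (mem_Tv.2 ⟨ht, hv hst⟩) hst z hz hze
  · rintro ⟨h1, φ, ψ, hφ, hψ, h2⟩
    refine ⟨fun t ht hst z hz hze => ?_, φ, ψ, hφ, hψ, fun t ht hst z hz hze => ?_⟩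
    · obtain ⟨t', ht', hne, hsub⟩ := h1 t (mem_Tv.1 ht).1 hst z hz hze
      exact ⟨t', mem_Tv.2 ⟨ht', hsub (by simp)⟩, hne, hsub⟩
    · exact h2 t (mem_Tv.1 ht).1 hst z hz hze

theorem excAbs_Tv : ExcAbs (Tv T v) h v ↔ ExcAbs T h v := by
  constructor
  · rintro ⟨p, q1, q2, q3, q4, h1, h2, h3, h4, h5, h6, h7, h8⟩
    exact ⟨p, q1, q2, q3, q4, (mem_Tv.1 h1).1, (mem_Tv.1 h2).1, (mem_Tv.1 h3).1, (mem_Tv.1 h4).1,
      fun hh => h5 (singAbs_Tv.2 hh), fun hh => h6 (singAbs_Tv.2 hh),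
      fun hh => h7 (singAbs_Tv.2 hh), h8⟩
  · rintro ⟨p, q1, q2, q3, q4, h1, h2, h3, h4, h5, h6, h7, h8⟩
    exact ⟨p, q1, q2, q3, q4, mem_Tv.2 ⟨h1, by simp⟩, mem_Tv.2 ⟨h2, by simp⟩,
      mem_Tv.2 ⟨h3, by simp⟩, mem_Tv.2 ⟨h4, by simp⟩, fun hh => h5 (singAbs_Tv.1 hh),
      fun hh => h6 (singAbs_Tv.1 hh), fun hh => h7 (singAbs_Tv.1 hh), h8⟩

open Classical in
/-- The number of singular edges at `v`. -/
def sg (T : Finset (Finset P)) (h : P → W) (v : P) : ℕ :=
  ((FF T 2).filter (fun e => SingAbs T h e ∧ v ∈ e)).card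

open Classical in
theorem sg_eq : sg T h v = (((VV (Tv T v)).erase v).filter (fun p => SingAbs (Tv T v) h {v, p})).card := by
  unfold sg
  symm
  refine Finset.card_bij (fun p _ => {v, p}) ?_ ?_ ?_
  · intro p hp
    rw [Finset.mem_filter, Finset.mem_erase, mem_VV] at hp
    obtain ⟨⟨hpv, t, ht, hpt⟩, hS⟩ := hp
    rw [Finset.mem_filter, mem_FF]
    refine ⟨⟨⟨t, (mem_Tv.1 ht).1, ?_⟩, Finset.card_pair hpv.symm⟩, singAbs_Tv.1 hS, by simp⟩
    intro x hx
    rw [Finset.mem_insert, Finset.mem_singleton] at hx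
    rcases hx with rfl | rfl
    · exact (mem_Tv.1 ht).2
    · exact hpt
  · intro p hp q hq hpq
    rw [Finset.mem_filter, Finset.mem_erase] at hp
    have h1 : p ∈ ({v, q} : Finset P) := by rw [← hpq]; simp
    rw [Finset.mem_insert, Finset.mem_singleton] at h1
    exact h1.resolve_left hp.1.1
  · intro e he
    rw [Finset.mem_filter, mem_FF] at he
    obtain ⟨⟨⟨t, ht, het⟩, hc⟩, hS, hve⟩ := he
    obtain ⟨a, b, hab, rfl⟩ := Finset.card_eq_two.1 hc
    have key : ∃ p, p ≠ v ∧ ({a, b} : Finset P) = {v, p} := by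
      rw [Finset.mem_insert, Finset.mem_singleton] at hve
      rcases hve with rfl | rfl
      · exact ⟨b, hab.symm, rfl⟩
      · exact ⟨a, hab, Finset.pair_comm _ _⟩
    obtain ⟨p, hpv, hpe⟩ := key
    refine ⟨p, ?_, hpe.symm⟩
    rw [Finset.mem_filter, Finset.mem_erase, mem_VV]
    rw [hpe] at het hS
    exact ⟨⟨hpv, t, mem_Tv.2 ⟨ht, het (by simp)⟩, het (by simp)⟩, singAbs_Tv.2 hS⟩

open Classical in
theorem sum_sg : ∑ v ∈ VV T, sg T h v = 2 * ((FF T 2).filter (fun e => SingAbs T h e)).card := by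
  have h1 : ∀ v ∈ VV T, sg T h v
      = ∑ e ∈ (FF T 2).filter (fun e => SingAbs T h e), if v ∈ e then 1 else 0 := by
    intro v _
    unfold sg
    rw [← Finset.card_filter, Finset.filter_filter]
  rw [Finset.sum_congr rfl h1, Finset.sum_comm]
  have h2 : ∀ e ∈ (FF T 2).filter (fun e => SingAbs T h e),
      ∑ v ∈ VV T, (if v ∈ e then 1 else 0) = 2 := by
    intro e he
    obtain ⟨⟨⟨t, ht, het⟩, hc⟩, _⟩ := by
      rw [Finset.mem_filter, mem_FF] at he
      exact he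
    rw [← Finset.card_filter, ← hc]
    congr 1
    ext v
    rw [Finset.mem_filter]
    exact ⟨fun hh => hh.2, fun hh => ⟨mem_VV.2 ⟨t, ht, het hh⟩, hh⟩⟩
  rw [Finset.sum_congr rfl h2, Finset.sum_const, smul_eq_mul, mul_comm]

/-- The local terms. -/
theorem local_ge (hT : IsFan T h) :
    Module.finrank ℝ (StressT (Tv T v) h 2) + sg T h v
      ≤ Module.finrank ℝ (StressT (Tv T v) h 3) := by
  rw [sg_eq]
  exact finrank_three_ge (hT.filter _) (fun t ht => (mem_Tv.1 ht).2)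

theorem local_eq (hT : IsFan T h) (hv : v ∈ VV T) (hexc : ¬ ExcAbs T h v) :
    Module.finrank ℝ (StressT (Tv T v) h 3)
      = Module.finrank ℝ (StressT (Tv T v) h 2) + sg T h v := by
  obtain ⟨t, ht, hvt⟩ := mem_VV.1 hv
  rw [sg_eq]
  exact finrank_three (hT.filter _) (fun t ht => (mem_Tv.1 ht).2)
    (fun hh => hexc (excAbs_Tv.1 hh)) (mem_Tv.2 ⟨ht, hvt⟩)

end abs

namespace TetComplex

variable (Δ : TetComplex)

/-- Exceptional vertices: some edge `v p` lies in the four tetrahedra `v p q₁ q₂`, `v p q₂ q₃`,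
`v p q₃ q₄`, `v p q₄ q₁`, the vertex `v` lies on the open segment from `q₁` to `q₃`, and the edges
`v p`, `v q₁`, `v q₃` are not singular. -/
def IsExceptional (v : E3) : Prop :=
  ∃ p q₁ q₂ q₃ q₄ : E3, {v, p, q₁, q₂} ∈ Δ.tets ∧ {v, p, q₂, q₃} ∈ Δ.tets ∧
    {v, p, q₃, q₄} ∈ Δ.tets ∧ {v, p, q₄, q₁} ∈ Δ.tets ∧ v ∈ openSegment ℝ q₁ q₃ ∧
    ¬ Δ.IsSingular {v, p} ∧ ¬ Δ.IsSingular {v, q₁} ∧ ¬ Δ.IsSingular {v, q₃}

/-- The number of singular edges at `v`. -/
def singularAt (v : E3) : ℕ := {e | Δ.IsSingular e ∧ v ∈ e}.ncard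

end TetComplex

variable (Δ : TetComplex)

theorem isSingular_pair {v p : E3} {t : Finset E3} (ht : t ∈ Δ.tets) (hv : v ∈ t) (hp : p ∈ t)
    (hvp : v ≠ p) : Δ.IsSingular {v, p} ↔ SingAbs Δ.tets hc {v, p} := by
  rw [isSingular_iff]
  constructor
  · exact fun hh => hh.2
  · intro hh
    refine ⟨mem_FF.2 ⟨⟨t, ht, ?_⟩, Finset.card_pair hvp⟩, hh⟩
    intro x hx
    rw [Finset.mem_insert, Finset.mem_singleton] at hx
    rcases hx with rfl | rfl <;> assumption

theorem isExceptional_of {v : E3} (hE : ExcAbs Δ.tets hc v) : Δ.IsExceptional v := by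
  have hT := isFan Δ
  obtain ⟨p, q1, q2, q3, q4, h1, h2, h3, h4, h5, h6, h7, a, c, hc0, h8⟩ := hE
  obtain ⟨e1, e2, e3, e4, e5, e6⟩ := four_ne hT h1
  obtain ⟨f1, f2, f3, f4, f5, f6⟩ := four_ne hT h2
  refine ⟨p, q1, q2, q3, q4, h1, h2, h3, h4, ?_, ?_, ?_, ?_⟩
  · have g1 : q3 = a • v - c • q1 := by simpa [hc] using congrArg Prod.fst h8
    have g2 : (1 : ℝ) = a - c := by simpa [hc] using congrArg Prod.snd h8
    have ha : a = 1 + c := by linarith
    refine ⟨c / (1 + c), 1 / (1 + c), by positivity, by positivity, by field_simp; ring, ?_⟩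
    rw [g1, ha]
    have : (1 + c) ≠ 0 := by positivity
    rw [smul_sub, smul_smul, smul_smul]
    have e7 : 1 / (1 + c) * (1 + c) = 1 := by field_simp
    have e8 : 1 / (1 + c) * c = c / (1 + c) := by ring
    rw [e7, e8, one_smul]
    abel
  · intro hh
    exact h5 ((isSingular_pair Δ h1 (by simp) (by simp) e1).1 hh)
  · intro hh
    exact h6 ((isSingular_pair Δ h1 (by simp) (by simp) e2).1 hh)
  · intro hh
    exact h7 ((isSingular_pair Δ h2 (by simp) (by simp) f3).1 hh)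

theorem singularAt_eq (v : E3) : Δ.singularAt v = sg Δ.tets hc v := by
  classical
  have : {e | Δ.IsSingular e ∧ v ∈ e}
      = ((FF Δ.tets 2).filter (fun e => SingAbs Δ.tets hc e ∧ v ∈ e) : Set (Finset E3)) := by
    ext e
    rw [Set.mem_ofPred_eq, isSingular_iff, Finset.mem_coe, Finset.mem_filter, and_assoc]
  unfold TetComplex.singularAt sg
  rw [this, Set.ncard_coe_finset]

theorem star_four (v : E3) :
    (Module.finrank ℝ ((Δ.star v).splines 4) : ℚ) - (Δ.star v).count 4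
      = Module.finrank ℝ (StressT (Tv Δ.tets v) hc 3) := by
  have h2 : Module.finrank ℝ ((Δ.star v).splines 4)
      = Module.finrank ℝ (Net (Tv Δ.tets v) hc 3) := finrank_splines (Δ.star v) (n := 3) (by norm_num)
  have h5 : (Module.finrank ℝ (Net (Tv Δ.tets v) hc 3) : ℚ)
      = GG (Tv Δ.tets v) 4 + Module.finrank ℝ (StressT (Tv Δ.tets v) hc 3) :=
    net_count ((isFan Δ).filter _) 2
  rw [h2, count_eq, h5]
  show GG (Tv Δ.tets v) 4 + _ - GG (Tv Δ.tets v) 4 = _
  ring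

theorem star_three (v : E3) :
    (Module.finrank ℝ ((Δ.star v).splines 3) : ℚ) - (Δ.star v).count 3
      = Module.finrank ℝ (StressT (Tv Δ.tets v) hc 2) := by
  have h2 : Module.finrank ℝ ((Δ.star v).splines 3)
      = Module.finrank ℝ (Net (Tv Δ.tets v) hc 2) := finrank_splines (Δ.star v) (n := 2) (by norm_num)
  have h5 : (Module.finrank ℝ (Net (Tv Δ.tets v) hc 2) : ℚ)
      = GG (Tv Δ.tets v) 3 + Module.finrank ℝ (StressT (Tv Δ.tets v) hc 2) :=
    net_count ((isFan Δ).filter _) 1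
  rw [h2, count_eq, h5]
  show GG (Tv Δ.tets v) 3 + _ - GG (Tv Δ.tets v) 3 = _
  ring

theorem local_bounds (v : E3) :
    0 ≤ (Module.finrank ℝ ((Δ.star v).splines 3) : ℚ) - (Δ.star v).count 3 ∧
    (Module.finrank ℝ ((Δ.star v).splines 3) : ℚ) - (Δ.star v).count 3
      ≤ (Module.finrank ℝ ((Δ.star v).splines 4) : ℚ) - (Δ.star v).count 4 - Δ.singularAt v := by
  rw [star_four, star_three, singularAt_eq]
  refine ⟨by positivity, ?_⟩
  have h1 := local_ge (v := v) (isFan Δ)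
  have h2 : (Module.finrank ℝ (StressT (Tv Δ.tets v) hc 2) : ℚ) + sg Δ.tets hc v
      ≤ Module.finrank ℝ (StressT (Tv Δ.tets v) hc 3) := by exact_mod_cast h1
  linarith

theorem local_exact {v : E3} (hv : v ∈ Δ.vertices) (hE : ¬ Δ.IsExceptional v) :
    (Module.finrank ℝ ((Δ.star v).splines 3) : ℚ) - (Δ.star v).count 3
      = (Module.finrank ℝ ((Δ.star v).splines 4) : ℚ) - (Δ.star v).count 4
        - Δ.singularAt v := by
  rw [star_three, star_four, singularAt_eq,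
    local_eq (isFan Δ) hv (fun hh => hE (isExceptional_of Δ hh))]
  push_cast
  ring

open Classical in
/-- The dimension formula with cubic vertex stars. -/
theorem dim_splines2 {k : ℕ} (hk : 9 ≤ k) :
    (Module.finrank ℝ (Δ.splines k) : ℚ)
      = Δ.count k + (k - 5) * {e | Δ.IsSingular e}.ncard
        + ∑ v ∈ Δ.vertices.filter (fun v => ¬ Δ.IsExceptional v),
          ((Module.finrank ℝ ((Δ.star v).splines 3) : ℚ) - (Δ.star v).count 3)
        + ∑ v ∈ Δ.vertices.filter (fun v => Δ.IsExceptional v),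
          ((Module.finrank ℝ ((Δ.star v).splines 4) : ℚ) - (Δ.star v).count 4
            - Δ.singularAt v) := by
  have h1 := dim_splines Δ hk
  have h2 : ∑ v ∈ Δ.vertices, (Δ.singularAt v : ℚ) = 2 * {e | Δ.IsSingular e}.ncard := by
    have h3 := congrArg (Nat.cast : ℕ → ℚ) (sum_sg (T := Δ.tets) (h := hc))
    push_cast at h3
    rw [singular_ncard, ← h3]
    exact Finset.sum_congr rfl fun v _ => by rw [singularAt_eq]
  have h4 : ∑ v ∈ Δ.vertices, ((Module.finrank ℝ ((Δ.star v).splines 4) : ℚ) - (Δ.star v).count 4)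
      = ∑ v ∈ Δ.vertices, (Δ.singularAt v : ℚ)
        + (∑ v ∈ Δ.vertices.filter (fun v => ¬ Δ.IsExceptional v),
            ((Module.finrank ℝ ((Δ.star v).splines 3) : ℚ) - (Δ.star v).count 3)
          + ∑ v ∈ Δ.vertices.filter (fun v => Δ.IsExceptional v),
            ((Module.finrank ℝ ((Δ.star v).splines 4) : ℚ) - (Δ.star v).count 4
              - Δ.singularAt v)) := by
    have h5 : ∑ v ∈ Δ.vertices.filter (fun v => ¬ Δ.IsExceptional v),
            ((Module.finrank ℝ ((Δ.star v).splines 3) : ℚ) - (Δ.star v).count 3)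
        = ∑ v ∈ Δ.vertices.filter (fun v => ¬ Δ.IsExceptional v),
            ((Module.finrank ℝ ((Δ.star v).splines 4) : ℚ) - (Δ.star v).count 4
              - Δ.singularAt v) := by
      refine Finset.sum_congr rfl fun v hv => ?_
      rw [Finset.mem_filter] at hv
      exact local_exact Δ hv.1 hv.2
    rw [h5, add_comm (∑ v ∈ Δ.vertices.filter (fun v => ¬ Δ.IsExceptional v), _),
      Finset.sum_filter_add_sum_filter_not, ← Finset.sum_add_distrib]
    exact Finset.sum_congr rfl fun v _ => by ring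
  rw [h1, h4, h2]
  ring

end Pool.CB
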