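import Mathlib

open scoped BigOperators
open Finset

noncomputable section

namespace Pool.CB

variable {P : Type*} [DecidableEq P] {W : Type*} [AddCommGroup W] [Module ℝ W]

/-- The vertices of the star of the face `s`. -/
def nb (T : Finset (Finset P)) (s : Finset P) : Finset P := (T.filter (fun t => s ⊆ t)).biUnion id

theorem mem_nb {T : Finset (Finset P)} {s : Finset P} {p : P} :
    p ∈ nb T s ↔ ∃ t ∈ T, s ⊆ t ∧ p ∈ t := by
  simp [nb, and_assoc]

/-- Relations between the vectors `h p`, `p` a vertex of the star of `s`. -/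
def Rel (T : Finset (Finset P)) (h : P → W) (s : Finset P) : Submodule ℝ (P →₀ ℝ) :=
  Finsupp.supported ℝ ℝ (nb T s : Set P) ⊓ LinearMap.ker (Finsupp.linearCombination ℝ h)

/-- Multi-indices of degree `k` supported on a simplex. -/
def DD (T : Finset (Finset P)) (k : ℕ) : Finset (P →₀ ℕ) :=
  T.biUnion (fun t => t.finsuppAntidiag k)

theorem mem_DD {T : Finset (Finset P)} {k : ℕ} {a : P →₀ ℕ} :
    a ∈ DD T k ↔ (∃ t ∈ T, a.support ⊆ t) ∧ a.degree = k := by
  simp only [DD, mem_biUnion, mem_finsuppAntidiag]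
  constructor
  · rintro ⟨t, ht, hs, hst⟩
    refine ⟨⟨t, ht, hst⟩, ?_⟩
    rw [Finsupp.degree_apply, ← hs]
    exact Finset.sum_subset hst (fun x _ hx => by simpa using hx)
  · rintro ⟨⟨t, ht, hst⟩, hk⟩
    refine ⟨t, ht, ?_, hst⟩
    rw [← hk, Finsupp.degree_apply]
    exact (Finset.sum_subset hst (fun x _ hx => by simpa using hx)).symm

theorem support_add_single (a : P →₀ ℕ) (p : P) :
    (a + Finsupp.single p 1).support = insert p a.support := by
  ext x
  simp only [Finsupp.mem_support_iff, Finsupp.add_apply, Finset.mem_insert, Finsupp.single_apply]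
  by_cases hx : p = x
  · subst hx; simp
  · simp [hx, Ne.symm hx]

theorem add_single_mem_DD {T : Finset (Finset P)} {k : ℕ} {a : P →₀ ℕ} (ha : a.degree = k) {p : P}
    (hp : p ∈ nb T a.support) : a + Finsupp.single p 1 ∈ DD T (k + 1) := by
  obtain ⟨t, ht, hst, hpt⟩ := mem_nb.1 hp
  rw [mem_DD]
  refine ⟨⟨t, ht, ?_⟩, ?_⟩
  · rw [support_add_single]
    exact Finset.insert_subset hpt hst
  · rw [map_add, ha]; simp

instance finite_supported (s : Finset P) :
    FiniteDimensional ℝ (Finsupp.supported ℝ ℝ (s : Set P)) := by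
  have : Fintype (s : Set P) := inferInstance
  exact Module.Finite.equiv (Finsupp.supportedEquivFinsupp (M := ℝ) (R := ℝ) (s : Set P)).symm

instance free_sub (N : Submodule ℝ (P →₀ ℝ)) : Module.Free ℝ N := Module.Free.of_divisionRing ℝ N

instance finite_Rel (T : Finset (Finset P)) (h : P → W) (s : Finset P) :
    FiniteDimensional ℝ (Rel T h s) :=
  Submodule.finiteDimensional_of_le (S₂ := Finsupp.supported ℝ ℝ (nb T s : Set P)) inf_le_left

theorem finrank_supported (s : Finset P) :
    Module.finrank ℝ (Finsupp.supported ℝ ℝ (s : Set P)) = s.card := by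
  have : Fintype (s : Set P) := inferInstance
  rw [LinearEquiv.finrank_eq (Finsupp.supportedEquivFinsupp (M := ℝ) (R := ℝ) (s : Set P))]
  simp

/-- The boundary map. -/
def bd (T : Finset (Finset P)) (h : P → W) (k : ℕ) :
    ((a : DD T k) → Rel T h a.1.support) →ₗ[ℝ] (DD T (k + 1) → ℝ) where
  toFun ρ b := ∑ a : DD T k, ∑ p ∈ nb T a.1.support,
    if a.1 + Finsupp.single p 1 = b.1 then (ρ a : P →₀ ℝ) p else 0
  map_add' ρ ρ' := by
    ext b
    simp only [Pi.add_apply, ← Finset.sum_add_distrib]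
    refine Finset.sum_congr rfl fun a _ => Finset.sum_congr rfl fun p _ => ?_
    split_ifs <;> simp
  map_smul' c ρ := by
    ext b
    simp only [Pi.smul_apply, RingHom.id_apply, smul_eq_mul, Finset.mul_sum]
    refine Finset.sum_congr rfl fun a _ => Finset.sum_congr rfl fun p _ => ?_
    split_ifs <;> simp

/-- Extension by zero. -/
def ext0 {T : Finset (Finset P)} {k : ℕ} (c : DD T k → ℝ) (b : P →₀ ℕ) : ℝ :=
  if hb : b ∈ DD T k then c ⟨b, hb⟩ else 0

/-- The nets of degree `k + 1`. -/
def Net (T : Finset (Finset P)) (h : P → W) (k : ℕ) :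
    Submodule ℝ (DD T (k + 1) → ℝ) where
  carrier := {c | ∀ a ∈ DD T k, ∀ r ∈ Rel T h a.support,
    ∑ p ∈ nb T a.support, r p * ext0 c (a + Finsupp.single p 1) = 0}
  add_mem' := by
    intro c c' hc hc' a ha r hr
    have h1 := hc a ha r hr
    have h2 := hc' a ha r hr
    rw [← add_zero (0 : ℝ)]
    nth_rewrite 1 [← h1]
    rw [← h2, ← Finset.sum_add_distrib]
    refine Finset.sum_congr rfl fun p _ => ?_
    unfold ext0
    split_ifs <;> (try simp) <;> ring
  zero_mem' := by
    intro a ha r hr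
    refine Finset.sum_eq_zero fun p _ => ?_
    unfold ext0
    split_ifs <;> simp
  smul_mem' := by
    intro x c hc a ha r hr
    have h1 := hc a ha r hr
    have : ∑ p ∈ nb T a.support, r p * ext0 (x • c) (a + Finsupp.single p 1)
        = x * ∑ p ∈ nb T a.support, r p * ext0 c (a + Finsupp.single p 1) := by
      rw [Finset.mul_sum]
      refine Finset.sum_congr rfl fun p _ => ?_
      unfold ext0
      split_ifs <;> (try simp) <;> ring
    rw [this, h1, mul_zero]

theorem sum_mul_bd (T : Finset (Finset P)) (h : P → W) (k : ℕ)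
    (ρ : (a : DD T k) → Rel T h a.1.support) (c : DD T (k + 1) → ℝ) :
    ∑ b, c b * bd T h k ρ b
      = ∑ a : DD T k, ∑ p ∈ nb T a.1.support, (ρ a : P →₀ ℝ) p * ext0 c (a.1 + Finsupp.single p 1) := by
  simp only [bd, LinearMap.coe_mk, AddHom.coe_mk, Finset.mul_sum]
  rw [Finset.sum_comm]
  refine Finset.sum_congr rfl fun a _ => ?_
  rw [Finset.sum_comm]
  refine Finset.sum_congr rfl fun p hp => ?_
  have hmem : a.1 + Finsupp.single p 1 ∈ DD T (k + 1) :=
    add_single_mem_DD (mem_DD.1 a.2).2 hp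
  rw [Finset.sum_eq_single (⟨a.1 + Finsupp.single p 1, hmem⟩ : DD T (k + 1))]
  · simp [ext0, hmem, mul_comm]
  · intro b _ hb
    rw [if_neg, mul_zero]
    intro hab
    exact hb (Subtype.ext hab.symm)
  · intro hn
    exact absurd (Finset.mem_univ _) hn

theorem mem_Net_iff (T : Finset (Finset P)) (h : P → W) (k : ℕ) (c : DD T (k + 1) → ℝ) :
    c ∈ Net T h k ↔ ∀ ρ : (a : DD T k) → Rel T h a.1.support, ∑ b, c b * bd T h k ρ b = 0 := by
  constructor
  · intro hc ρ
    rw [sum_mul_bd]
    exact Finset.sum_eq_zero fun a _ => hc a.1 a.2 _ (ρ a).2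
  · intro hc a ha r hr
    have := hc (Pi.single (⟨a, ha⟩ : DD T k) ⟨r, hr⟩)
    rw [sum_mul_bd, Finset.sum_eq_single (⟨a, ha⟩ : DD T k)] at this
    · simpa using this
    · intro b _ hb
      refine Finset.sum_eq_zero fun p _ => ?_
      rw [Pi.single_eq_of_ne hb]
      simp
    · intro hn
      exact absurd (Finset.mem_univ _) hn

theorem ortho_finrank {U ι : Type*} [Fintype ι] [AddCommGroup U] [Module ℝ U]
    [FiniteDimensional ℝ U] (B : U →ₗ[ℝ] (ι → ℝ)) (N : Submodule ℝ (ι → ℝ))
    (hN : ∀ c, c ∈ N ↔ ∀ ρ, ∑ b, c b * B ρ b = 0) :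
    Module.finrank ℝ N + Module.finrank ℝ U
      = Fintype.card ι + Module.finrank ℝ (LinearMap.ker B) := by
  classical
  let Ψ : (ι → ℝ) →ₗ[ℝ] Module.Dual ℝ U := B.dualMap ∘ₗ (dotProductEquiv ℝ ι).toLinearMap
  have hker : N = LinearMap.ker Ψ := by
    ext c
    rw [hN, LinearMap.mem_ker]
    constructor
    · intro hc
      refine LinearMap.ext fun ρ => ?_
      have := hc ρ
      simpa [Ψ, dotProduct] using this
    · intro hc ρ
      have := congrArg (fun f => f ρ) hc
      simpa [Ψ, dotProduct] using this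
  have h1 := LinearMap.finrank_range_add_finrank_ker Ψ
  have h2 := LinearMap.finrank_range_add_finrank_ker B
  have h3 : Module.finrank ℝ (LinearMap.range Ψ) = Module.finrank ℝ (LinearMap.range B) := by
    rw [← LinearMap.finrank_range_dualMap_eq_finrank_range B]
    have : LinearMap.range Ψ = LinearMap.range B.dualMap :=
      LinearMap.range_comp_of_range_eq_top _ (LinearEquiv.range _)
    rw [this]
  rw [Module.finrank_fintype_fun_eq_card] at h1
  rw [hker]
  omega

theorem net_finrank (T : Finset (Finset P)) (h : P → W) (k : ℕ) :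
    Module.finrank ℝ (Net T h k) + ∑ a : DD T k, Module.finrank ℝ (Rel T h a.1.support)
      = (DD T (k + 1)).card + Module.finrank ℝ (LinearMap.ker (bd T h k)) := by
  have := ortho_finrank (U := (a : DD T k) → Rel T h a.1.support) (bd T h k) (Net T h k)
    (mem_Net_iff T h k)
  rw [Module.finrank_pi_fintype, Fintype.card_coe] at this
  exact this

end Pool.CB
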