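import Pool.Agent.Work.CB.Main2

/-!
The dimension of the spaces of continuously differentiable splines of degree at least nine on
arbitrary tetrahedral complexes.
-/

namespace Pool.CB.OldDimensionFormula

open Pool.CB

open Classical in
/-- For every tetrahedral complex `Δ` and every `k ≥ 9`: the space `S_k^1(Δ)` has dimension
`N_k(Δ) + (k - 5) s + ∑ c_v + ∑ (q_v - s_v)`, the first sum over the vertices which are not
exceptional, the second over the exceptional ones. Here `N_k` is `TetComplex.count`, `s` is the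
number of singular edges, `s_v` the number of those at `v`,
`c_v = dim S_3^1(star v) - N_3(star v)` and `q_v = dim S_4^1(star v) - N_4(star v)`. Moreover
`0 ≤ c_v ≤ q_v - s_v` for all vertices, with equality on the right if `v` is not exceptional. For a
ball `N_k(Δ)` is the generic dimension. -/
theorem result (Δ : TetComplex) {k : ℕ} (hk : 9 ≤ k) :
    FiniteDimensional ℝ (Δ.splines k) ∧
    (Module.finrank ℝ (Δ.splines k) : ℚ) = Δ.count k + (k - 5) * {e | Δ.IsSingular e}.ncard
      + ∑ v ∈ Δ.vertices.filter (fun v => ¬ Δ.IsExceptional v),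
          ((Module.finrank ℝ ((Δ.star v).splines 3) : ℚ) - (Δ.star v).count 3)
      + ∑ v ∈ Δ.vertices.filter (fun v => Δ.IsExceptional v),
          ((Module.finrank ℝ ((Δ.star v).splines 4) : ℚ) - (Δ.star v).count 4
            - Δ.singularAt v) ∧
    (∀ v ∈ Δ.vertices,
      0 ≤ (Module.finrank ℝ ((Δ.star v).splines 3) : ℚ) - (Δ.star v).count 3 ∧
      (Module.finrank ℝ ((Δ.star v).splines 3) : ℚ) - (Δ.star v).count 3
        ≤ (Module.finrank ℝ ((Δ.star v).splines 4) : ℚ) - (Δ.star v).count 4 - Δ.singularAt v ∧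
      (¬ Δ.IsExceptional v →
        (Module.finrank ℝ ((Δ.star v).splines 3) : ℚ) - (Δ.star v).count 3
          = (Module.finrank ℝ ((Δ.star v).splines 4) : ℚ) - (Δ.star v).count 4
            - Δ.singularAt v)) ∧
    (Δ.EulerBall → Δ.count k = 1 + 5 * k - 2 * k ^ 2 + k * (k - 1) * Δ.bdVertices.ncard
      + 3 * (k - 1) * ((Δ.faces 1).ncard - Δ.bdVertices.ncard)
      + k * (k - 1) * (k - 5) / 6 * (Δ.faces 4).ncard) :=
  ⟨finite_splines' Δ (by omega), dim_splines2 Δ hk,
    fun v hv => ⟨(local_bounds Δ v).1, (local_bounds Δ v).2, local_exact Δ hv⟩,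
    fun hB => count_ball Δ hB k⟩

end Pool.CB.OldDimensionFormula
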