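import Pool.Agent.Work.CB.Geo

open scoped BigOperators Topology
open Finset

noncomputable section

namespace Pool.CB

variable (Δ : TetComplex) {t : Finset E3} (ht : t ∈ Δ.tets)

/-- The Bernstein polynomial on the tetrahedron `t`. -/
def FB (k : ℕ) (c : (E3 →₀ ℕ) → ℝ) (x : E3) : ℝ := Bz t k c (lm (isFan Δ) ht (hc x))

/-- The functions with Bernstein coefficients. -/
def BBf (k : ℕ) : Submodule ℝ (E3 → ℝ) where
  carrier := {f | ∃ c, ∀ x, f x = FB Δ ht k c x}
  add_mem' := by
    rintro f f' ⟨c, hc1⟩ ⟨c', hc1'⟩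
    refine ⟨fun a => c a + c' a, fun x => ?_⟩
    rw [Pi.add_apply, hc1, hc1', FB, FB, FB, Bz_add]
  zero_mem' := ⟨fun _ => 0, fun x => by rw [FB, Bz_zero]; rfl⟩
  smul_mem' := by
    rintro r f ⟨c, hc1⟩
    refine ⟨fun a => r * c a, fun x => ?_⟩
    rw [Pi.smul_apply, hc1, FB, FB, Bz_smul, smul_eq_mul]

theorem BBf_mul {k : ℕ} {f : E3 → ℝ} (hf : f ∈ BBf Δ ht k) (m : E3 → ℝ) :
    (fun x => (∑ q ∈ t, lm (isFan Δ) ht (hc x) q * m q) * f x) ∈ BBf Δ ht (k + 1) := by
  obtain ⟨c, hc1⟩ := hf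
  refine ⟨fun b => (1 / ((k : ℝ) + 1)) * ∑ q ∈ t, (b q : ℝ) * m q * c (b - Finsupp.single q 1),
    fun x => ?_⟩
  have hk : (k : ℝ) + 1 ≠ 0 := by positivity
  show (∑ q ∈ t, lm (isFan Δ) ht (hc x) q * m q) * f x = _
  rw [FB, Bz_smul, Bz_mul, hc1, FB]
  field_simp

theorem BBf_one_mul {k : ℕ} {f : E3 → ℝ} (hf : f ∈ BBf Δ ht k) : f ∈ BBf Δ ht (k + 1) := by
  have h1 := BBf_mul Δ ht hf (fun _ => 1)
  have h2 : (fun x => (∑ q ∈ t, lm (isFan Δ) ht (hc x) q * (1 : ℝ)) * f x) = f := by
    funext x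
    simp only [mul_one]
    rw [lm_sum_one, one_mul]
  rwa [h2] at h1

theorem BBf_coord_mul {k : ℕ} {f : E3 → ℝ} (hf : f ∈ BBf Δ ht k) (i : Fin 3) :
    (fun x => x i * f x) ∈ BBf Δ ht (k + 1) := by
  have h1 := BBf_mul Δ ht hf (fun q => q i)
  have h2 : (fun x : E3 => (∑ q ∈ t, lm (isFan Δ) ht (hc x) q * q i) * f x)
      = fun x => x i * f x := by
    funext x
    have := congrFun (lm_sum_fst Δ ht x) i
    rw [Finset.sum_apply] at this
    simp only [Pi.smul_apply, smul_eq_mul] at this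
    rw [this]
  rwa [h2] at h1

theorem BBf_monomial (k : ℕ) (s : Fin 3 →₀ ℕ) (hs : s.degree ≤ k) :
    (fun x : E3 => MvPolynomial.eval x (MvPolynomial.monomial s (1 : ℝ))) ∈ BBf Δ ht k := by
  induction k generalizing s with
  | zero =>
    have hs0 : s = 0 := by
      ext q
      have := Finsupp.le_degree q s
      simp only [Finsupp.coe_zero, Pi.zero_apply]
      omega
    subst hs0
    exact ⟨fun _ => 1, fun x => by simp [FB, Bz]⟩
  | succ k ih =>
    by_cases hs0 : s = 0
    · exact BBf_one_mul Δ ht (ih s (by rw [hs0]; simp))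
    · have hex : ∃ i, s i ≠ 0 := by
        by_contra hcon
        push Not at hcon
        exact hs0 (Finsupp.ext hcon)
      obtain ⟨i, hi⟩ := hex
      have hle : Finsupp.single i 1 ≤ s := by
        rw [Finsupp.single_le_iff]; omega
      have hadd : s - Finsupp.single i 1 + Finsupp.single i 1 = s := tsub_add_cancel_of_le hle
      have hdeg : (s - Finsupp.single i 1).degree ≤ k := by
        have h1 : (s - Finsupp.single i 1).degree + 1 = s.degree := by
          conv_rhs => rw [← hadd]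
          rw [map_add]; simp
        omega
      have h1 := BBf_coord_mul Δ ht (ih _ hdeg) i
      convert h1 using 1
      funext x
      have h2 : MvPolynomial.monomial s (1 : ℝ)
          = MvPolynomial.X i * MvPolynomial.monomial (s - Finsupp.single i 1) (1 : ℝ) := by
        rw [MvPolynomial.X, MvPolynomial.monomial_mul, one_mul, add_comm, hadd]
      rw [h2, map_mul, MvPolynomial.eval_X]

theorem BBf_poly (k : ℕ) (p : MvPolynomial (Fin 3) ℝ) (hp : p.totalDegree ≤ k) :
    (fun x : E3 => MvPolynomial.eval x p) ∈ BBf Δ ht k := by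
  have h1 : (fun x : E3 => MvPolynomial.eval x p)
      = ∑ s ∈ p.support, (p.coeff s) •
        (fun x : E3 => MvPolynomial.eval x (MvPolynomial.monomial s (1 : ℝ))) := by
    funext x
    rw [Finset.sum_apply]
    conv_lhs => rw [p.as_sum, map_sum]
    refine Finset.sum_congr rfl fun s _ => ?_
    rw [Pi.smul_apply, smul_eq_mul, MvPolynomial.eval_monomial, MvPolynomial.eval_monomial, one_mul]
  rw [h1]
  refine Submodule.sum_mem _ fun s hs => Submodule.smul_mem _ _ (BBf_monomial Δ ht k s ?_)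
  refine le_trans ?_ hp
  have := MvPolynomial.le_totalDegree hs
  rw [Finsupp.degree_apply]
  exact this

/-- The polynomial of a barycentric coordinate. -/
def lp (p : E3) : MvPolynomial (Fin 3) ℝ :=
  ∑ i, MvPolynomial.C (lm (isFan Δ) ht (Pi.single i 1, 0) p) * MvPolynomial.X i
    + MvPolynomial.C (lm (isFan Δ) ht (0, 1) p)

theorem lp_degree (p : E3) : (lp Δ ht p).totalDegree ≤ 1 := by
  refine (MvPolynomial.totalDegree_add _ _).trans (max_le ?_ (by simp))
  refine (MvPolynomial.totalDegree_finsetSum _ _).trans (Finset.sup_le fun i _ => ?_)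
  refine (MvPolynomial.totalDegree_mul _ _).trans ?_
  simp

theorem lp_eval (p x : E3) : MvPolynomial.eval x (lp Δ ht p) = lm (isFan Δ) ht (hc x) p := by
  have h1 : hc x = ∑ i, x i • ((Pi.single i (1 : ℝ), (0 : ℝ)) : E3 × ℝ) + (0, 1) := by
    refine Prod.ext ?_ ?_
    · funext j
      simp [hc, Prod.fst_sum, Pi.single_apply]
    · simp [hc, Prod.snd_sum]
  rw [h1, map_add, map_sum]
  simp only [map_smul, Pi.add_apply, Finset.sum_apply, Pi.smul_apply, smul_eq_mul, lp, map_add,
    map_sum, map_mul, MvPolynomial.eval_C, MvPolynomial.eval_X]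
  congr 1
  refine Finset.sum_congr rfl fun i _ => by ring

theorem poly_of_FB (k : ℕ) (c : (E3 →₀ ℕ) → ℝ) :
    ∃ p : MvPolynomial (Fin 3) ℝ, p.totalDegree ≤ k ∧ ∀ x, FB Δ ht k c x = MvPolynomial.eval x p := by
  induction k generalizing c with
  | zero => exact ⟨MvPolynomial.C (c 0), by simp, fun x => by simp [FB, Bz]⟩
  | succ k ih =>
    choose q hq hqx using fun p : E3 => ih (shf p c)
    refine ⟨∑ p ∈ t, lp Δ ht p * q p, ?_, fun x => ?_⟩
    · refine (MvPolynomial.totalDegree_finsetSum _ _).trans (Finset.sup_le fun p _ => ?_)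
      refine (MvPolynomial.totalDegree_mul _ _).trans ?_
      have h1 := lp_degree Δ ht p
      have h2 := hq p
      omega
    · rw [FB, Bz_succ, map_sum]
      refine Finset.sum_congr rfl fun p _ => ?_
      rw [map_mul, lp_eval, ← hqx p x]
      rfl

/-- Coefficients of a polynomial. -/
theorem FB_of_poly (k : ℕ) (p : MvPolynomial (Fin 3) ℝ) (hp : p.totalDegree ≤ k) :
    ∃ c, ∀ x, MvPolynomial.eval x p = FB Δ ht k c x := BBf_poly Δ ht k p hp

/-- Uniqueness on the face `s`: values at the convex combinations determine the coefficients. -/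
theorem Bz_unique' {P : Type*} (s : Finset P) (k : ℕ) (c : (P →₀ ℕ) → ℝ)
    (h0 : ∀ l : P → ℝ, (∀ p, 0 ≤ l p) → (∀ p, p ∉ s → l p = 0) → ∑ p ∈ s, l p = 1 →
      Bz s k c l = 0) (b : P →₀ ℕ) (hs : s.Nonempty) (hb : b.support ⊆ s) (hbk : b.degree = k) :
    c b = 0 := by
  classical
  refine Bz_unique s k c (fun l hl => ?_) b hb hbk
  set M := ∑ p ∈ s, l p with hM
  have hM0 : 0 < M := Finset.sum_pos hl hs
  have h1 := h0 (fun p => if p ∈ s then l p / M else 0) ?_ ?_ ?_
  · have h2 : Bz s k c l = M ^ k * Bz s k c (fun p => if p ∈ s then l p / M else 0) := by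
      rw [← Bz_homog]
      refine Bz_congr_l s k c fun p hp => ?_
      rw [if_pos hp]
      field_simp
    rw [h2, h1, mul_zero]
  · intro p
    split_ifs with hp
    · exact div_nonneg (hl p hp).le hM0.le
    · exact le_rfl
  · intro p hp
    simp [hp]
  · rw [Finset.sum_congr rfl (g := fun p => l p / M) (fun p hp => if_pos hp), ← Finset.sum_div,
      ← hM, div_self hM0.ne']

end Pool.CB
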