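import Pool.Agent.Work.CB.Surj

open scoped BigOperators
open Finset

noncomputable section

namespace Pool.CB

variable {P : Type*} [DecidableEq P] {W : Type*} [AddCommGroup W] [Module ℝ W]
variable {T : Finset (Finset P)} {h : P → W}

/-- If a vertex `y` of `s` lies in the cone of `t` modulo the common face `e`, it is in `t`. -/
theorem cone_lemma (hT : IsFan T h) {s t e : Finset P} (hs : s ∈ T) (ht : t ∈ T) (hes : e ⊆ s)
    (het : e ⊆ t) {y : P} (hy : y ∈ s) {γ : P → ℝ} (hγ : ∀ p ∈ t, p ∉ e → 0 ≤ γ p)
    (hsum : h y = ∑ p ∈ t, γ p • h p) : y ∈ t := by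
  by_contra hyt
  set M := ∑ p ∈ t, |γ p| with hM
  have hMn : 0 ≤ M := Finset.sum_nonneg fun p _ => abs_nonneg _
  have hMγ : ∀ p ∈ t, 0 ≤ γ p + M := by
    intro p hp
    have h1 : |γ p| ≤ M := Finset.single_le_sum (f := fun p => |γ p|) (fun _ _ => abs_nonneg _) hp
    have h2 := neg_abs_le (γ p)
    linarith
  have h0 := hT.meet s hs t ht (fun p => (if p = y then 1 else 0) + (if p ∈ e then M else 0))
    (fun p => if p ∈ t then γ p + (if p ∈ e then M else 0) else 0) ?_ ?_ ?_ y hy hyt
  · simp only [if_true] at h0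
    split_ifs at h0 <;> linarith
  · intro p
    split_ifs <;> linarith
  · intro p
    split_ifs with h1 h2
    · exact hMγ p h1
    · rw [add_zero]; exact hγ p h1 h2
    · exact le_rfl
  · have e1 : ∑ p ∈ s, ((if p = y then (1 : ℝ) else 0) + (if p ∈ e then M else 0)) • h p
        = h y + ∑ p ∈ e, M • h p := by
      simp only [add_smul, Finset.sum_add_distrib, ite_smul, one_smul, zero_smul]
      rw [Finset.sum_ite_eq', if_pos hy, ← Finset.sum_filter]
      congr 2
      ext x
      simp only [Finset.mem_filter]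
      exact ⟨fun hh => hh.2, fun hh => ⟨hes hh, hh⟩⟩
    have e2 : ∑ p ∈ t, (if p ∈ t then γ p + (if p ∈ e then M else 0) else 0) • h p
        = h y + ∑ p ∈ e, M • h p := by
      rw [hsum]
      have : ∀ p ∈ t, (if p ∈ t then γ p + (if p ∈ e then M else 0) else 0) • h p
          = γ p • h p + (if p ∈ e then M • h p else 0) := by
        intro p hp
        rw [if_pos hp, add_smul]
        split_ifs <;> simp
      rw [Finset.sum_congr rfl this, Finset.sum_add_distrib, ← Finset.sum_filter]
      congr 2
      ext x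
      simp only [Finset.mem_filter]
      exact ⟨fun hh => hh.2, fun hh => ⟨het hh, hh⟩⟩
    rw [e1, e2]

/-- Four rays around the edge `u v` forming a cross. -/
structure Cross (T : Finset (Finset P)) (h : P → W) (u v w y w' y' : P) : Prop where
  t1 : ({u, v, w, y} : Finset P) ∈ T
  t2 : ({u, v, w', y} : Finset P) ∈ T
  t3 : ({u, v, w', y'} : Finset P) ∈ T
  t4 : ({u, v, w, y'} : Finset P) ∈ T
  hw : ∃ a b c : ℝ, 0 < c ∧ h w' = a • h u + b • h v - c • h w
  hy : ∃ a b c : ℝ, 0 < c ∧ h y' = a • h u + b • h v - c • h y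

/-- Distinctness of the four vertices of a simplex. -/
theorem four_ne (hT : IsFan T h) {u v w y : P} (ht : ({u, v, w, y} : Finset P) ∈ T) :
    u ≠ v ∧ u ≠ w ∧ u ≠ y ∧ v ≠ w ∧ v ≠ y ∧ w ≠ y := by
  have hc := hT.card_eq _ ht
  refine ⟨?_, ?_, ?_, ?_, ?_, ?_⟩
  all_goals
    intro hh
    subst hh
    have h3 : ∀ a b c : P, ({a, b, c} : Finset P).card ≤ 3 := fun a b c => Finset.card_le_three
    first
    | (have : ({u, u, w, y} : Finset P) = {u, w, y} := by ext x; simp
       rw [this] at hc; have := h3 u w y; omega)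
    | (have : ({u, v, u, y} : Finset P) = {u, v, y} := by ext x; simp; tauto
       rw [this] at hc; have := h3 u v y; omega)
    | (have : ({u, v, w, u} : Finset P) = {u, v, w} := by ext x; simp; tauto
       rw [this] at hc; have := h3 u v w; omega)
    | (have : ({u, v, v, y} : Finset P) = {u, v, y} := by ext x; simp
       rw [this] at hc; have := h3 u v y; omega)
    | (have : ({u, v, w, v} : Finset P) = {u, v, w} := by ext x; simp; tauto
       rw [this] at hc; have := h3 u v w; omega)
    | (have : ({u, v, w, w} : Finset P) = {u, v, w} := by ext x; simp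
       rw [this] at hc; have := h3 u v w; omega)

theorem sum_four {u v w y : P} (h1 : u ≠ v) (h2 : u ≠ w) (h3 : u ≠ y) (h4 : v ≠ w) (h5 : v ≠ y)
    (h6 : w ≠ y) {M : Type*} [AddCommMonoid M] (f : P → M) :
    ∑ p ∈ ({u, v, w, y} : Finset P), f p = f u + (f v + (f w + f y)) := by
  rw [Finset.sum_insert (by simp [h1, h2, h3]), Finset.sum_insert (by simp [h4, h5]),
    Finset.sum_insert (by simp [h6]), Finset.sum_singleton]

/-- Independence for a simplex given by four vertices. -/
theorem four_indep (hT : IsFan T h) {u v w y : P} (ht : ({u, v, w, y} : Finset P) ∈ T)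
    {a b c d : ℝ} (hs : a • h u + b • h v + c • h w + d • h y = 0) :
    a = 0 ∧ b = 0 ∧ c = 0 ∧ d = 0 := by
  obtain ⟨h1, h2, h3, h4, h5, h6⟩ := four_ne hT ht
  have hli := linearIndepOn_finset_iff.1 (hT.indep _ ht)
    (fun p => if p = u then a else if p = v then b else if p = w then c else d) ?_
  · have hu := hli u (by simp)
    have hv := hli v (by simp)
    have hw := hli w (by simp)
    have hy := hli y (by simp)
    simp only [if_true, h1.symm, if_false] at hu hv
    simp only [if_true, h2.symm, h4.symm, if_false] at hw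
    simp only [h3.symm, h5.symm, h6.symm, if_false] at hy
    exact ⟨hu, hv, hw, hy⟩
  · rw [sum_four h1 h2 h3 h4 h5 h6]
    simp only [if_true, h1.symm, h2.symm, h4.symm, h3.symm, h5.symm, h6.symm, if_false]
    rw [← hs]
    abel

/-- Every vector is a combination of the four vertices of a simplex. -/
theorem four_span (hT : IsFan T h) {u v w y : P} (ht : ({u, v, w, y} : Finset P) ∈ T) (x : W) :
    ∃ a b c d : ℝ, x = a • h u + b • h v + c • h w + d • h y := by
  obtain ⟨h1, h2, h3, h4, h5, h6⟩ := four_ne hT ht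
  set B := tetBasis hT ht
  have hx := B.sum_repr x
  have h7 : ∑ i : ({u, v, w, y} : Finset P), B.repr x i • B i
      = ∑ p ∈ ({u, v, w, y} : Finset P),
        (if hp : p ∈ ({u, v, w, y} : Finset P) then B.repr x ⟨p, hp⟩ else 0) • h p := by
    rw [← Finset.sum_attach ({u, v, w, y} : Finset P), ← Finset.univ_eq_attach]
    refine Finset.sum_congr rfl fun i _ => ?_
    rw [dif_pos i.2, tetBasis_apply hT ht i]
  rw [h7, sum_four h1 h2 h3 h4 h5 h6] at hx
  generalize (fun p : P => if hp : p ∈ ({u, v, w, y} : Finset P) then B.repr x ⟨p, hp⟩ else 0)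
    = g at hx
  exact ⟨_, _, _, _, by rw [← hx]; abel⟩

theorem opp_lemma (hT : IsFan T h) {u v w y y' : P} (ht : ({u, v, w, y} : Finset P) ∈ T)
    (ht' : ({u, v, w, y'} : Finset P) ∈ T) (hne : y' ≠ y) {a b c d : ℝ}
    (hs : h y' = a • h u + b • h v + c • h w + d • h y) : d < 0 := by
  by_contra hd
  push Not at hd
  obtain ⟨h1, h2, h3, h4, h5, h6⟩ := four_ne hT ht
  obtain ⟨_, _, g3, _, g5, g6⟩ := four_ne hT ht'
  have := cone_lemma hT ht' ht (e := {u, v, w}) (by intro x; simp; tauto) (by intro x; simp; tauto)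
    (y := y') (by simp)
    (γ := fun p => if p = u then a else if p = v then b else if p = w then c else d) ?_ ?_
  · simp only [Finset.mem_insert, Finset.mem_singleton] at this
    rcases this with h7 | h7 | h7 | h7
    · exact g3 h7.symm
    · exact g5 h7.symm
    · exact g6 h7.symm
    · exact hne h7
  · intro p hp hpe
    simp only [Finset.mem_insert, Finset.mem_singleton, not_or] at hp hpe
    rw [if_neg hpe.1, if_neg hpe.2.1, if_neg hpe.2.2]
    exact hd
  · rw [sum_four h1 h2 h3 h4 h5 h6]
    simp only [if_true, h1.symm, h2.symm, h4.symm, h3.symm, h5.symm, h6.symm, if_false]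
    rw [hs]
    abel

/-- The cone lemma for a simplex around the edge `u v`. -/
theorem cone_edge (hT : IsFan T h) {u v w y z : P} {s : Finset P}
    (ht : ({u, v, w, y} : Finset P) ∈ T) (hs : s ∈ T) (hus : u ∈ s) (hvs : v ∈ s) (hz : z ∈ s)
    (hzu : z ≠ u) (hzv : z ≠ v)
    {a b c d : ℝ} (hc : 0 ≤ c) (hd : 0 ≤ d)
    (hh : h z = a • h u + b • h v + c • h w + d • h y) : z = w ∨ z = y := by
  obtain ⟨h1, h2, h3, h4, h5, h6⟩ := four_ne hT ht
  have := cone_lemma hT hs ht (e := {u, v}) (by
      intro x hx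
      rw [Finset.mem_insert, Finset.mem_singleton] at hx
      rcases hx with rfl | rfl <;> assumption) (by intro x; simp; tauto)
    (y := z) hz
    (γ := fun p => if p = u then a else if p = v then b else if p = w then c else d) ?_ ?_
  · simp only [Finset.mem_insert, Finset.mem_singleton] at this
    tauto
  · intro p hp hpe
    simp only [Finset.mem_insert, Finset.mem_singleton, not_or] at hp hpe
    rw [if_neg hpe.1, if_neg hpe.2]
    split_ifs <;> assumption
  · rw [sum_four h1 h2 h3 h4 h5 h6]
    simp only [if_true, h1.symm, h2.symm, h4.symm, h3.symm, h5.symm, h6.symm, if_false]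
    rw [hh]
    abel

/-- All vertices of the link of the edge of a cross. -/
theorem cross_link (hT : IsFan T h) {u v w y w' y' z : P} (hC : Cross T h u v w y w' y')
    {s : Finset P} (hs : s ∈ T) (hus : u ∈ s) (hvs : v ∈ s) (hz : z ∈ s)
    (hzu : z ≠ u) (hzv : z ≠ v) : z = w ∨ z = y ∨ z = w' ∨ z = y' := by
  obtain ⟨a, b, c, d, hh⟩ := four_span hT hC.t1 (h z)
  obtain ⟨a1, a2, γ, hγ, hw'⟩ := hC.hw
  obtain ⟨b1, b2, δ, hδ, hy'⟩ := hC.hy
  have hw : h w = (a1 / γ) • h u + (a2 / γ) • h v + (-1 / γ) • h w' := by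
    rw [hw']
    rw [smul_sub, smul_add, smul_smul, smul_smul, smul_smul]
    have e1 : -1 / γ * a1 = -(a1 / γ) := by ring
    have e2 : -1 / γ * a2 = -(a2 / γ) := by ring
    have e3 : -1 / γ * γ = -1 := by field_simp
    rw [e1, e2, e3]
    simp only [neg_smul, one_smul]
    abel
  have hy : h y = (b1 / δ) • h u + (b2 / δ) • h v + (-1 / δ) • h y' := by
    rw [hy']
    rw [smul_sub, smul_add, smul_smul, smul_smul, smul_smul]
    have e1 : -1 / δ * b1 = -(b1 / δ) := by ring
    have e2 : -1 / δ * b2 = -(b2 / δ) := by ring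
    have e3 : -1 / δ * δ = -1 := by field_simp
    rw [e1, e2, e3]
    simp only [neg_smul, one_smul]
    abel
  rcases le_total 0 c with hc | hc
  · rcases le_total 0 d with hd | hd
    · rcases cone_edge hT hC.t1 hs hus hvs hz hzu hzv hc hd hh with h7 | h7
      · exact Or.inl h7
      · exact Or.inr (Or.inl h7)
    · have hh2 : h z = (a + d * (b1 / δ)) • h u + (b + d * (b2 / δ)) • h v + c • h w
          + (d * (-1 / δ)) • h y' := by
        rw [hh, hy]; module
      have hd2 : 0 ≤ d * (-1 / δ) := by
        have : d * (-1 / δ) = (-d) / δ := by ring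
        rw [this]
        exact div_nonneg (by linarith) hδ.le
      rcases cone_edge hT hC.t4 hs hus hvs hz hzu hzv hc hd2 hh2 with h7 | h7
      · exact Or.inl h7
      · exact Or.inr (Or.inr (Or.inr h7))
  · have hc2 : 0 ≤ c * (-1 / γ) := by
      have : c * (-1 / γ) = (-c) / γ := by ring
      rw [this]
      exact div_nonneg (by linarith) hγ.le
    rcases le_total 0 d with hd | hd
    · have hh2 : h z = (a + c * (a1 / γ)) • h u + (b + c * (a2 / γ)) • h v + (c * (-1 / γ)) • h w'
          + d • h y := by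
        rw [hh, hw]; module
      rcases cone_edge hT hC.t2 hs hus hvs hz hzu hzv hc2 hd hh2 with h7 | h7
      · exact Or.inr (Or.inr (Or.inl h7))
      · exact Or.inr (Or.inl h7)
    · have hh2 : h z = (a + c * (a1 / γ) + d * (b1 / δ)) • h u
          + (b + c * (a2 / γ) + d * (b2 / δ)) • h v + (c * (-1 / γ)) • h w'
          + (d * (-1 / δ)) • h y' := by
        rw [hh, hw, hy]; module
      have hd2 : 0 ≤ d * (-1 / δ) := by
        have : d * (-1 / δ) = (-d) / δ := by ring
        rw [this]
        exact div_nonneg (by linarith) hδ.le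
      rcases cone_edge hT hC.t3 hs hus hvs hz hzu hzv hc2 hd2 hh2 with h7 | h7
      · exact Or.inr (Or.inr (Or.inl h7))
      · exact Or.inr (Or.inr (Or.inr h7))

end Pool.CB
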