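import Pool.Agent.Work.CB.Sing

open scoped BigOperators
open Finset

noncomputable section

namespace Pool.CB

variable {P : Type*} [DecidableEq P] {W : Type*} [AddCommGroup W] [Module ℝ W]
variable {T : Finset (Finset P)} {h : P → W}

theorem subset_eq_four (hT : IsFan T h) {t : Finset P} (ht : t ∈ T) {u v w y : P}
    (h1 : u ≠ v) (h2 : u ≠ w) (h3 : u ≠ y) (h4 : v ≠ w) (h5 : v ≠ y) (h6 : w ≠ y)
    (hu : u ∈ t) (hv : v ∈ t) (hw : w ∈ t) (hy : y ∈ t) : t = {u, v, w, y} := by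
  symm
  apply Finset.eq_of_subset_of_card_le
  · intro x hx
    simp only [Finset.mem_insert, Finset.mem_singleton] at hx
    rcases hx with rfl | rfl | rfl | rfl <;> assumption
  · have : ({u, v, w, y} : Finset P).card = 4 := by
      rw [Finset.card_insert_of_notMem (by simp [h1, h2, h3]),
        Finset.card_insert_of_notMem (by simp [h4, h5]),
        Finset.card_insert_of_notMem (by simp [h6]), Finset.card_singleton]
    rw [hT.card_eq t ht, this]

/-- A face lies in at most two simplices. -/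
theorem third_tet (hT : IsFan T h) {u v w y y' : P} (ht : ({u, v, w, y} : Finset P) ∈ T)
    (ht' : ({u, v, w, y'} : Finset P) ∈ T) (hne : y' ≠ y) {s : Finset P} (hs : s ∈ T)
    (hu : u ∈ s) (hv : v ∈ s) (hw : w ∈ s) {z : P} (hz : z ∈ s) (hzu : z ≠ u) (hzv : z ≠ v)
    (hzw : z ≠ w) : z = y ∨ z = y' := by
  by_contra hcon
  push Not at hcon
  obtain ⟨h1, h2, h3, h4, h5, h6⟩ := four_ne hT ht
  have hs' : s = {u, v, w, z} :=
    subset_eq_four hT hs h1 h2 hzu.symm h4 hzv.symm hzw.symm hu hv hw hz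
  rw [hs'] at hs
  obtain ⟨a, b, c, d, hh⟩ := four_span hT ht (h y')
  obtain ⟨a', b', c', d', hh'⟩ := four_span hT ht (h z)
  have hd := opp_lemma hT ht ht' hne hh
  have hd' := opp_lemma hT ht hs hcon.1 hh'
  have hd0 : d ≠ 0 := hd.ne
  have hy : h y = (-a / d) • h u + (-b / d) • h v + (-c / d) • h w + (1 / d) • h y' := by
    rw [hh]
    match_scalars <;> field_simp <;> ring
  have hh2 : h z = (a' + d' * (-a / d)) • h u + (b' + d' * (-b / d)) • h v
      + (c' + d' * (-c / d)) • h w + (d' * (1 / d)) • h y' := by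
    rw [hh', hy]; module
  have h7 := opp_lemma hT ht' hs hcon.2 hh2
  have : 0 < d' * (1 / d) := by
    have : d' * (1 / d) = d' / d := by ring
    rw [this]
    exact div_pos_of_neg_of_neg hd' hd
  linarith

theorem sig_diag {u v : P} {κ : P → (P →₀ ℝ)} (hκ : κ ∈ Sig T h {u, v}) {w : P} (hwu : w ≠ u)
    (hwv : w ≠ v) : κ w w = 0 := by
  have := (mem_Sig.1 hκ).2.2 w w (by simp [hwu, hwv]) (by simp [hwu, hwv])
  linarith

theorem sig_anti {u v : P} {κ : P → (P →₀ ℝ)} (hκ : κ ∈ Sig T h {u, v}) {w x : P} (hwu : w ≠ u)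
    (hwv : w ≠ v) (hxu : x ≠ u) (hxv : x ≠ v) : κ x w = - κ w x := by
  have := (mem_Sig.1 hκ).2.2 w x (by simp [hwu, hwv]) (by simp [hxu, hxv])
  linarith

theorem sig_tet (hT : IsFan T h) {u v : P} (huv : u ≠ v) {κ : P → (P →₀ ℝ)}
    (hκ : κ ∈ Sig T h {u, v}) {w y : P} (hwu : w ≠ u) (hwv : w ≠ v) (hyu : y ≠ u) (hyv : y ≠ v)
    (hy : κ w y ≠ 0) : ({u, v, w, y} : Finset P) ∈ T := by
  have hyw : y ≠ w := by
    rintro rfl
    exact hy (sig_diag hκ hwu hwv)
  have hnb : y ∈ nb T (insert w {u, v}) := by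
    by_contra hn
    exact hy (Rel_apply_eq_zero ((mem_Sig.1 hκ).1 w) hn)
  obtain ⟨t, ht, hst, hyt⟩ := mem_nb.1 hnb
  have := subset_eq_four hT ht huv hwu.symm hyu.symm hwv.symm hyv.symm hyw.symm
    (hst (by simp)) (hst (by simp)) (hst (by simp)) hyt
  rwa [← this]

theorem sig_next (hT : IsFan T h) {u v : P} (huv : u ≠ v) {κ : P → (P →₀ ℝ)}
    (hκ : κ ∈ Sig T h {u, v}) {w y : P} (hwu : w ≠ u) (hwv : w ≠ v) (hyu : y ≠ u) (hyv : y ≠ v)
    (hy : κ w y ≠ 0) : ∃ y', y' ≠ y ∧ y' ≠ u ∧ y' ≠ v ∧ ({u, v, w, y'} : Finset P) ∈ T ∧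
      κ w y' ≠ 0 ∧ ∃ a b c : ℝ, 0 < c ∧ h y' = a • h u + b • h v - c • h y := by
  have ht := sig_tet hT huv hκ hwu hwv hyu hyv hy
  obtain ⟨h1, h2, h3, h4, h5, h6⟩ := four_ne hT ht
  have hrel := (mem_Sig.1 hκ).1 w
  have hex : ∃ y', y' ∉ ({u, v, w, y} : Finset P) ∧ κ w y' ≠ 0 := by
    by_contra hcon
    push Not at hcon
    have := rel_eq_zero hT hrel ht hcon
    rw [this] at hy
    exact hy rfl
  obtain ⟨y', hy't, hy'⟩ := hex
  simp only [Finset.mem_insert, Finset.mem_singleton, not_or] at hy't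
  obtain ⟨hy'u, hy'v, hy'w, hy'y⟩ := hy't
  have ht' := sig_tet hT huv hκ hwu hwv hy'u hy'v hy'
  have hsub : (nb T (insert w {u, v})) ⊆ insert y' {u, v, w, y} := by
    intro x hx
    obtain ⟨t, ht0, hst, hxt⟩ := mem_nb.1 hx
    by_cases hxu : x = u
    · subst hxu; simp
    by_cases hxv : x = v
    · subst hxv; simp
    by_cases hxw : x = w
    · subst hxw; simp
    rcases third_tet hT ht ht' hy'y ht0 (hst (by simp)) (hst (by simp)) (hst (by simp)) hxt hxu hxv
      hxw with rfl | rfl <;> simp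
  have hyV : ∀ x ∈ (insert y' {u, v, w, y} : Finset P), x ∈ VV T := by
    intro x hx
    rw [Finset.mem_insert] at hx
    rcases hx with rfl | hx
    · exact mem_VV.2 ⟨_, ht', by simp⟩
    · exact mem_VV.2 ⟨_, ht, hx⟩
  have hsum := Rel_sum_eq_zero hrel
  rw [← Finset.sum_subset (s₁ := insert y' {u, v, w, y}) hyV, Finset.sum_insert (by
    simp [hy'u, hy'v, hy'w, hy'y]), sum_four h1 h2 h3 h4 h5 h6, sig_diag hκ hwu hwv] at hsum
  · refine ⟨y', hy'y, hy'u, hy'v, ht', hy', - κ w u / κ w y', - κ w v / κ w y', κ w y / κ w y',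
      ?_, ?_⟩
    · have hh : h y' = (- κ w u / κ w y') • h u + (- κ w v / κ w y') • h v + (0 : ℝ) • h w
          + (- (κ w y / κ w y')) • h y := by
        have h8 : h y' = (1 / κ w y') • (κ w y' • h y') := by
          rw [smul_smul, one_div, inv_mul_cancel₀ hy', one_smul]
        have h9 : κ w y' • h y' = - (κ w u • h u + (κ w v • h v + (κ w y • h y))) := by
          rw [zero_smul, zero_add] at hsum
          exact eq_neg_of_add_eq_zero_left hsum
        rw [h8, h9]
        match_scalars <;> field_simp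
      have := opp_lemma hT ht ht' hy'y hh
      linarith
    · have h8 : h y' = (1 / κ w y') • (κ w y' • h y') := by
        rw [smul_smul, one_div, inv_mul_cancel₀ hy', one_smul]
      have h9 : κ w y' • h y' = - (κ w u • h u + (κ w v • h v + (κ w y • h y))) := by
        rw [zero_smul, zero_add] at hsum
        exact eq_neg_of_add_eq_zero_left hsum
      rw [h8, h9]
      match_scalars <;> field_simp
  · intro x _ hx
    rw [Rel_apply_eq_zero hrel, zero_smul]
    intro hxn
    exact hx (hsub hxn)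

theorem four_swap (u v w y : P) : ({u, v, w, y} : Finset P) = {u, v, y, w} := by
  rw [Finset.pair_comm w y]

/-- Two opposite vertices coincide. -/
theorem opp_eq (hT : IsFan T h) {u v w w' w3 y y' : P} (ht2 : ({u, v, w', y} : Finset P) ∈ T)
    (ht4 : ({u, v, w3, y'} : Finset P) ∈ T)
    (hw : ∃ a b c : ℝ, 0 < c ∧ h w' = a • h u + b • h v - c • h w)
    (hw3 : ∃ a b c : ℝ, 0 < c ∧ h w3 = a • h u + b • h v - c • h w) : w3 = w' := by
  obtain ⟨a, b, c, hc, hh⟩ := hw
  obtain ⟨a', b', c', hc', hh'⟩ := hw3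
  have h1 : h w = (a / c) • h u + (b / c) • h v + (- 1 / c) • h w' := by
    rw [hh]
    match_scalars <;> field_simp <;> ring
  have h2 : h w3 = (a' - c' * (a / c)) • h u + (b' - c' * (b / c)) • h v + (c' / c) • h w'
      + (0 : ℝ) • h y := by
    rw [hh', h1]
    match_scalars <;> field_simp <;> ring
  obtain ⟨g1, g2, g3, g4, g5, g6⟩ := four_ne hT ht4
  rcases cone_edge hT ht2 ht4 (z := w3) (by simp) (by simp) (by simp) g2.symm g4.symm
    (div_nonneg hc'.le hc.le) le_rfl h2 with h3 | h3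
  · exact h3
  · exfalso
    have h4 : (a' - c' * (a / c)) • h u + (b' - c' * (b / c)) • h v + (c' / c) • h w'
        + (-1 : ℝ) • h y = 0 := by
      have : h y = h w3 := by rw [h3]
      rw [zero_smul, add_zero] at h2
      rw [this, h2]
      module
    have := (four_indep hT ht2 h4).2.2.2
    norm_num at this

/-- A nonzero edge stress gives a cross. -/
theorem sig_cross (hT : IsFan T h) {u v : P} (huv : u ≠ v) {κ : P → (P →₀ ℝ)}
    (hκ : κ ∈ Sig T h {u, v}) (hne : κ ≠ 0) : ∃ w y w' y', Cross T h u v w y w' y' := by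
  obtain ⟨k1, k2, k3⟩ := mem_Sig.1 hκ
  have hex : ∃ w, κ w ≠ 0 := by
    by_contra hcon
    push Not at hcon
    exact hne (funext hcon)
  obtain ⟨w, hw⟩ := hex
  have hwe : w ∉ ({u, v} : Finset P) := fun hh => hw (k2 w hh)
  have hwu : w ≠ u := fun hh => hwe (by simp [hh])
  have hwv : w ≠ v := fun hh => hwe (by simp [hh])
  have hface : ∃ t ∈ T, insert w {u, v} ⊆ t := by
    by_contra hcon
    exact hw (Rel_eq_zero_of_not_face (k1 w) hcon)
  obtain ⟨t, ht, hst⟩ := hface
  have hex : ∃ y, y ∉ t ∧ κ w y ≠ 0 := by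
    by_contra hcon
    push Not at hcon
    exact hw (rel_eq_zero hT (k1 w) ht hcon)
  obtain ⟨y, hyt, hy⟩ := hex
  have hyu : y ≠ u := by rintro rfl; exact hyt (hst (by simp))
  have hyv : y ≠ v := by rintro rfl; exact hyt (hst (by simp))
  have ht1 := sig_tet hT huv hκ hwu hwv hyu hyv hy
  obtain ⟨y', hy'y, hy'u, hy'v, ht', hy', hyy⟩ := sig_next hT huv hκ hwu hwv hyu hyv hy
  have hyw : κ y w ≠ 0 := by rw [sig_anti hκ hwu hwv hyu hyv]; exact neg_ne_zero.2 hy
  have hy'w : κ y' w ≠ 0 := by rw [sig_anti hκ hwu hwv hy'u hy'v]; exact neg_ne_zero.2 hy'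
  obtain ⟨w', hw'w, hw'u, hw'v, ht2, hw', hww⟩ := sig_next hT huv hκ hyu hyv hwu hwv hyw
  obtain ⟨w3, hw3w, hw3u, hw3v, ht3, hw3, hww3⟩ := sig_next hT huv hκ hy'u hy'v hwu hwv hy'w
  rw [four_swap] at ht2 ht3
  have : w3 = w' := opp_eq hT ht2 ht3 hww hww3
  subst this
  exact ⟨w, y, w3, y', ht1, ht2, ht3, ht', hww, hyy⟩

/-- The sides of a cross. -/
theorem Cross.ne (hT : IsFan T h) {u v w y w' y' : P} (hC : Cross T h u v w y w' y') :
    w ≠ w' ∧ y ≠ y' := by
  obtain ⟨a, b, c, hc, hh⟩ := hC.hw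
  obtain ⟨a', b', c', hc', hh'⟩ := hC.hy
  constructor
  · rintro rfl
    have : a • h u + b • h v + (-c - 1) • h w + (0 : ℝ) • h y = 0 := by
      have h1 : a • h u + b • h v + (-c - 1) • h w + (0 : ℝ) • h y
        = (a • h u + b • h v - c • h w) - h w := by module
      rw [h1, ← hh, sub_self]
    have := (four_indep hT hC.t1 this).2.2.1
    linarith
  · rintro rfl
    have : a' • h u + b' • h v + (0 : ℝ) • h w + (-c' - 1) • h y = 0 := by
      have h1 : a' • h u + b' • h v + (0 : ℝ) • h w + (-c' - 1) • h y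
        = (a' • h u + b' • h v - c' • h y) - h y := by module
      rw [h1, ← hh', sub_self]
    have := (four_indep hT hC.t1 this).2.2.2
    linarith

/-- No simplex contains two opposite sides. -/
theorem no_opp (hT : IsFan T h) {u v w w' : P} (huv : u ≠ v) (hwu : w ≠ u) (hwv : w ≠ v)
    (hw'u : w' ≠ u) (hw'v : w' ≠ v) (hww' : w ≠ w') {t : Finset P} (ht : t ∈ T) (hu : u ∈ t)
    (hv : v ∈ t) (hw : w ∈ t) (hw' : w' ∈ t)
    (hh : ∃ a b c : ℝ, 0 < c ∧ h w' = a • h u + b • h v - c • h w) : False := by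
  obtain ⟨a, b, c, hc, hh⟩ := hh
  have := subset_eq_four hT ht huv hwu.symm hw'u.symm hwv.symm hw'v.symm hww' hu hv hw hw'
  rw [this] at ht
  have h1 : a • h u + b • h v + (-c) • h w + (-1 : ℝ) • h w' = 0 := by
    rw [hh]; module
  have := (four_indep hT ht h1).2.2.2
  norm_num at this

/-- The neighbourhood of a face of a cross. -/
theorem cross_nb (hT : IsFan T h) {u v w y w' y' : P} (hC : Cross T h u v w y w' y') {x : P}
    (hx : x ∈ nb T (insert w {u, v})) (hxu : x ≠ u) (hxv : x ≠ v) (hxw : x ≠ w) :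
    x = y ∨ x = y' := by
  obtain ⟨h1, h2, h3, h4, h5, h6⟩ := four_ne hT hC.t1
  obtain ⟨g1, g2, g3, g4, g5, g6⟩ := four_ne hT hC.t3
  obtain ⟨t, ht, hst, hxt⟩ := mem_nb.1 hx
  have hne := (hC.ne hT).1
  rcases cross_link hT hC ht (hst (by simp)) (hst (by simp)) hxt hxu hxv with h7 | h7 | h7 | h7
  · exact absurd h7 hxw
  · exact Or.inl h7
  · subst h7
    exact (no_opp hT h1 h2.symm h4.symm g2.symm g4.symm hne ht (hst (by simp)) (hst (by simp))
      (hst (by simp)) hxt hC.hw).elim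
  · exact Or.inr h7

/-- Symmetries of a cross. -/
theorem Cross.swap {u v w y w' y' : P} (hC : Cross T h u v w y w' y') :
    Cross T h u v y w y' w' where
  t1 := by rw [four_swap]; exact hC.t1
  t2 := by rw [four_swap]; exact hC.t4
  t3 := by rw [four_swap]; exact hC.t3
  t4 := by rw [four_swap]; exact hC.t2
  hw := hC.hy
  hy := hC.hw

theorem opp_symm {u v w w' : P} (hh : ∃ a b c : ℝ, 0 < c ∧ h w' = a • h u + b • h v - c • h w) :
    ∃ a b c : ℝ, 0 < c ∧ h w = a • h u + b • h v - c • h w' := by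
  obtain ⟨a, b, c, hc, hh⟩ := hh
  refine ⟨a / c, b / c, 1 / c, by positivity, ?_⟩
  rw [hh]
  match_scalars <;> field_simp <;> ring

theorem Cross.opp {u v w y w' y' : P} (hC : Cross T h u v w y w' y') :
    Cross T h u v w' y w y' where
  t1 := hC.t2
  t2 := hC.t1
  t3 := hC.t4
  t4 := hC.t3
  hw := opp_symm hC.hw
  hy := hC.hy

/-- The evaluation at one coefficient is injective on the edge stresses of a cross. -/
theorem cross_inj (hT : IsFan T h) {u v w y w' y' : P} (hC : Cross T h u v w y w' y')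
    {κ : P → (P →₀ ℝ)} (hκ : κ ∈ Sig T h {u, v}) (h0 : κ w y' = 0) : κ = 0 := by
  obtain ⟨k1, k2, k3⟩ := mem_Sig.1 hκ
  obtain ⟨h1, h2, h3, h4, h5, h6⟩ := four_ne hT hC.t1
  obtain ⟨g1, g2, g3, g4, g5, g6⟩ := four_ne hT hC.t3
  obtain ⟨hww, hyy⟩ := hC.ne hT
  -- general step
  have step : ∀ {w y w' y' : P}, Cross T h u v w y w' y' → κ w y' = 0 → κ w = 0 := by
    intro w y w' y' hC h0
    refine rel_eq_zero hT (k1 w) hC.t1 fun p hp => ?_
    simp only [Finset.mem_insert, Finset.mem_singleton, not_or] at hp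
    by_contra hne
    have hnb : p ∈ nb T (insert w {u, v}) := by
      by_contra hn
      exact hne (Rel_apply_eq_zero (k1 w) hn)
    rcases cross_nb hT hC hnb hp.1 hp.2.1 hp.2.2.1 with h7 | h7
    · exact hp.2.2.2 h7
    · rw [h7] at hne; exact hne h0
  have hw : κ w = 0 := step hC h0
  have hyw : κ y w = 0 := by
    rw [sig_anti hκ h2.symm h4.symm h3.symm h5.symm, hw]; simp
  have hy'w : κ y' w = 0 := by
    rw [sig_anti hκ h2.symm h4.symm g3.symm g5.symm, hw]; simp
  have hy : κ y = 0 := step (w := y) (y := w') (w' := y') (y' := w) hC.opp.swap hyw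
  have hy' : κ y' = 0 := step (w := y') (y := w') (w' := y) (y' := w) hC.opp.swap.opp hy'w
  have hw' : κ w' = 0 := by
    refine step (w := w') (y := y') (w' := w) (y' := y) hC.swap.opp.swap.opp ?_
    rw [sig_anti hκ h3.symm h5.symm g2.symm g4.symm, hy]; simp
  funext z
  by_contra hz
  have hze : z ∉ ({u, v} : Finset P) := fun hh => hz (k2 z hh)
  simp only [Finset.mem_insert, Finset.mem_singleton, not_or] at hze
  have hface : ∃ t ∈ T, insert z {u, v} ⊆ t := by
    by_contra hcon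
    exact hz (Rel_eq_zero_of_not_face (k1 z) hcon)
  obtain ⟨t, ht, hst⟩ := hface
  rcases cross_link hT hC ht (hst (by simp)) (hst (by simp)) (hst (by simp)) hze.1 hze.2
    with h7 | h7 | h7 | h7
  · rw [h7] at hz; exact hz hw
  · rw [h7] at hz; exact hz hy
  · rw [h7] at hz; exact hz hw'
  · rw [h7] at hz; exact hz hy'

end Pool.CB
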