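import Pool.Agent.Work.CB.Sing2

open scoped BigOperators
open Finset

noncomputable section

namespace Pool.CB

variable {P : Type*} [DecidableEq P] {W : Type*} [AddCommGroup W] [Module ℝ W]
variable {T : Finset (Finset P)} {h : P → W}

/-- The relation between two opposite vertices. -/
def oppRel (u v y y' : P) (a b c : ℝ) : P →₀ ℝ :=
  Finsupp.single u (-a) + Finsupp.single v (-b) + Finsupp.single y c + Finsupp.single y' 1

theorem oppRel_mem {u v y y' : P} {a b c : ℝ} (hh : h y' = a • h u + b • h v - c • h y)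
    {s : Finset P} (hu : u ∈ nb T s) (hv : v ∈ nb T s) (hy : y ∈ nb T s) (hy' : y' ∈ nb T s) :
    oppRel u v y y' a b c ∈ Rel T h s := by
  refine Submodule.mem_inf.2 ⟨?_, ?_⟩
  · refine Submodule.add_mem _ (Submodule.add_mem _ (Submodule.add_mem _ ?_ ?_) ?_) ?_ <;>
      exact Finsupp.single_mem_supported _ _ (by assumption_mod_cast)
  · rw [LinearMap.mem_ker, oppRel]
    simp only [map_add, Finsupp.linearCombination_single]
    rw [hh]; module

theorem oppRel_apply {u v y y' : P} {a b c : ℝ} {x : P} (hxu : x ≠ u) (hxv : x ≠ v) :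
    oppRel u v y y' a b c x = (if y = x then c else 0) + (if y' = x then 1 else 0) := by
  simp [oppRel, Finsupp.single_apply, hxu.symm, hxv.symm]

/-- The edge stress of a cross. -/
theorem cross_exists (hT : IsFan T h) {u v w y w' y' : P} (hC : Cross T h u v w y w' y') :
    ∃ κ ∈ Sig T h {u, v}, κ w y' = 1 := by
  obtain ⟨h1, h2, h3, h4, h5, h6⟩ := four_ne hT hC.t1
  obtain ⟨g1, g2, g3, g4, g5, g6⟩ := four_ne hT hC.t3
  obtain ⟨_, _, _, _, _, i6⟩ := four_ne hT hC.t2
  obtain ⟨_, _, _, _, _, j6⟩ := four_ne hT hC.t4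
  obtain ⟨hww, hyy⟩ := hC.ne hT
  obtain ⟨a1, a2, γ, hγ, hw'⟩ := hC.hw
  obtain ⟨b1, b2, δ, hδ, hy'⟩ := hC.hy
  have hnb : ∀ {t : Finset P}, t ∈ T → ∀ {s : Finset P}, s ⊆ t → ∀ {x : P}, x ∈ t → x ∈ nb T s :=
    fun {_} ht {_} hs {_} hx => mem_nb.2 ⟨_, ht, hs, hx⟩
  set A := oppRel u v y y' b1 b2 δ with hA
  set B := oppRel u v w w' a1 a2 γ with hB
  refine ⟨fun z => if z = w then A else if z = w' then (1 / γ) • A else if z = y then (-δ / γ) • B
    else if z = y' then (-1 / γ) • B else 0, mem_Sig.2 ⟨?_, ?_, ?_⟩, ?_⟩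
  · intro z
    by_cases hzw : z = w
    · simp only [hzw, if_true]
      exact oppRel_mem hy' (hnb hC.t1 (by intro x; simp; tauto) (by simp))
        (hnb hC.t1 (by intro x; simp; tauto) (by simp))
        (hnb hC.t1 (by intro x; simp; tauto) (by simp))
        (hnb hC.t4 (by intro x; simp; tauto) (by simp))
    by_cases hzw' : z = w'
    · simp only [hzw', if_true, hww.symm, if_false]
      refine Submodule.smul_mem _ _ (oppRel_mem hy' ?_ ?_ ?_ ?_)
      · exact (hnb hC.t2 (by intro x; simp; tauto) (by simp))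
      · exact (hnb hC.t2 (by intro x; simp; tauto) (by simp))
      · exact (hnb hC.t2 (by intro x; simp; tauto) (by simp))
      · exact (hnb hC.t3 (by intro x; simp; tauto) (by simp))
    by_cases hzy : z = y
    · simp only [hzy, if_true, h6.symm, i6.symm, if_false]
      refine Submodule.smul_mem _ _ (oppRel_mem hw' ?_ ?_ ?_ ?_)
      · exact (hnb hC.t1 (by intro x; simp; tauto) (by simp))
      · exact (hnb hC.t1 (by intro x; simp; tauto) (by simp))
      · exact (hnb hC.t1 (by intro x; simp; tauto) (by simp))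
      · exact (hnb hC.t2 (by intro x; simp; tauto) (by simp))
    by_cases hzy' : z = y'
    · simp only [hzy', if_true, g6.symm, j6.symm, hyy.symm, if_false]
      refine Submodule.smul_mem _ _ (oppRel_mem hw' ?_ ?_ ?_ ?_)
      · exact (hnb hC.t4 (by intro x; simp; tauto) (by simp))
      · exact (hnb hC.t4 (by intro x; simp; tauto) (by simp))
      · exact (hnb hC.t4 (by intro x; simp; tauto) (by simp))
      · exact (hnb hC.t3 (by intro x; simp; tauto) (by simp))
    simp only [hzw, hzw', hzy, hzy', if_false]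
    exact Submodule.zero_mem _
  · intro z hz
    rw [Finset.mem_insert, Finset.mem_singleton] at hz
    rcases hz with rfl | rfl
    · simp [h2, h3, g2, g3]
    · simp [h4, h5, g4, g5]
  · intro z x hz hx
    simp only [Finset.mem_insert, Finset.mem_singleton, not_or] at hz hx
    have key : ∀ {p q : P}, q ≠ u → q ≠ v → (if p = w then A else if p = w' then (1 / γ) • A
        else if p = y then (-δ / γ) • B else if p = y' then (-1 / γ) • B else 0) q
        = if p = w then (if y = q then δ else 0) + (if y' = q then 1 else 0) else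
          if p = w' then (1 / γ) * ((if y = q then δ else 0) + (if y' = q then 1 else 0)) else
          if p = y then (-δ / γ) * ((if w = q then γ else 0) + (if w' = q then 1 else 0)) else
          if p = y' then (-1 / γ) * ((if w = q then γ else 0) + (if w' = q then 1 else 0)) else
          0 := by
      intro p q hqu hqv
      split_ifs <;> simp [oppRel_apply hqu hqv, *]
    rw [key hx.1 hx.2, key hz.1 hz.2]
    have hγ0 := hγ.ne'
    by_cases z1 : z = w
    · subst z1
      by_cases x1 : x = z
      · subst x1; simp [h6.symm, j6.symm]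
      by_cases x2 : x = w'
      · subst x2; simp [i6.symm, g6.symm, h6.symm, j6.symm, x1]
      by_cases x3 : x = y
      · subst x3; simp [hyy.symm, x1, x2, hww.symm]; field_simp; ring
      by_cases x4 : x = y'
      · subst x4; simp [x1, x2, hyy, hyy.symm, hww.symm]; field_simp; ring
      simp [x1, x2, x3, x4, Ne.symm x3, Ne.symm x4]
    by_cases z2 : z = w'
    · subst z2
      by_cases x1 : x = w
      · subst x1; simp [z1, h6.symm, j6.symm, i6.symm, g6.symm]
      by_cases x2 : x = z
      · subst x2; simp [z1, i6.symm, g6.symm]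
      by_cases x3 : x = y
      · subst x3; simp [hyy.symm, x1, x2, Ne.symm z1, z1]; field_simp; ring
      by_cases x4 : x = y'
      · subst x4; simp [x1, x2, hyy, hyy.symm, Ne.symm z1, z1]; field_simp; ring
      simp [z1, x1, x2, x3, x4, Ne.symm x3, Ne.symm x4]
    by_cases z3 : z = y
    · subst z3
      by_cases x1 : x = w
      · subst x1; simp [z1, z2, hyy.symm, hww.symm]; field_simp; ring
      by_cases x2 : x = w'
      · subst x2; simp [z1, z2, x1, hyy.symm, Ne.symm x1]; field_simp; ring
      by_cases x3 : x = z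
      · subst x3; simp [x1, x2, Ne.symm x1, Ne.symm x2]
      by_cases x4 : x = y'
      · subst x4; simp [x1, x2, Ne.symm x1, Ne.symm x2, z1, z2, Ne.symm z1, Ne.symm z2, x3]
      simp [z1, z2, x1, x2, x3, x4, Ne.symm x1, Ne.symm x2]
    by_cases z4 : z = y'
    · subst z4
      by_cases x1 : x = w
      · subst x1; simp [z1, z2, z3, hyy, hww.symm]; field_simp; ring
      by_cases x2 : x = w'
      · subst x2; simp [z1, z2, z3, x1, hyy, Ne.symm x1]; field_simp; ring
      by_cases x3 : x = y
      · subst x3; simp [x1, x2, Ne.symm x1, Ne.symm x2, z1, z2, Ne.symm z1, Ne.symm z2, z3]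
      by_cases x4 : x = z
      · subst x4; simp [x1, x2, Ne.symm x1, Ne.symm x2, x3]
      simp [z1, z2, z3, x1, x2, x3, x4, Ne.symm x1, Ne.symm x2]
    simp [z1, z2, z3, z4, Ne.symm z1, Ne.symm z2, Ne.symm z3, Ne.symm z4]
  · simp only [if_true]
    rw [hA, oppRel_apply g3.symm g5.symm]
    simp [hyy]

/-- The edge stresses of a cross form a line. -/
theorem cross_finrank (hT : IsFan T h) {u v w y w' y' : P} (hC : Cross T h u v w y w' y') :
    Module.finrank ℝ (Sig T h {u, v}) = 1 := by
  obtain ⟨κ, hκ, hκ1⟩ := cross_exists hT hC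
  have hne : (⟨κ, hκ⟩ : Sig T h {u, v}) ≠ 0 := by
    intro h0
    have := congrArg (fun z : Sig T h {u, v} => z.1 w y') h0
    simp [hκ1] at this
  refine finrank_eq_one (⟨κ, hκ⟩ : Sig T h {u, v}) hne fun z => ⟨z.1 w y', ?_⟩
  have h0 := cross_inj hT hC (Submodule.sub_mem _ z.2 (Submodule.smul_mem _ (z.1 w y') hκ))
    (by simp [hκ1])
  apply Subtype.ext
  exact (sub_eq_zero.1 h0).symm

end Pool.CB
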