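import Pool.Agent.Work.CB.Sing3

open scoped BigOperators
open Finset

noncomputable section

namespace Pool.CB

variable {P : Type*} [DecidableEq P] {W : Type*} [AddCommGroup W] [Module ℝ W]
variable {T : Finset (Finset P)} {h : P → W}

/-- Singular edges: every face at `e` lies in two simplices, and in one of two hyperplanes. -/
def SingAbs (T : Finset (Finset P)) (h : P → W) (e : Finset P) : Prop :=
  (∀ t ∈ T, e ⊆ t → ∀ z ∈ t, z ∉ e → ∃ t' ∈ T, t' ≠ t ∧ insert z e ⊆ t') ∧
  ∃ φ ψ : W →ₗ[ℝ] ℝ, φ ≠ 0 ∧ ψ ≠ 0 ∧ ∀ t ∈ T, e ⊆ t → ∀ z ∈ t, z ∉ e →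
    (∀ x ∈ insert z e, φ (h x) = 0) ∨ (∀ x ∈ insert z e, ψ (h x) = 0)

theorem kill_eq_zero (hT : IsFan T h) {u v w y : P} (ht : ({u, v, w, y} : Finset P) ∈ T)
    {φ : W →ₗ[ℝ] ℝ} (hu : φ (h u) = 0) (hv : φ (h v) = 0) (hw : φ (h w) = 0) (hy : φ (h y) = 0) :
    φ = 0 := by
  refine LinearMap.ext fun x => ?_
  obtain ⟨a, b, c, d, hx⟩ := four_span hT ht x
  rw [hx]
  simp [hu, hv, hw, hy]

/-- The second simplex at a face. -/
theorem second_tet (hT : IsFan T h) {u v w y : P} (ht : ({u, v, w, y} : Finset P) ∈ T)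
    (hs : ∃ t' ∈ T, t' ≠ {u, v, w, y} ∧ insert w {u, v} ⊆ t') :
    ∃ y', y' ≠ y ∧ ({u, v, w, y'} : Finset P) ∈ T := by
  obtain ⟨h1, h2, h3, h4, h5, h6⟩ := four_ne hT ht
  obtain ⟨t', ht', hne, hsub⟩ := hs
  have hu : u ∈ t' := hsub (by simp)
  have hv : v ∈ t' := hsub (by simp)
  have hw : w ∈ t' := hsub (by simp)
  have hex : ∃ z ∈ t', z ∉ ({u, v, w} : Finset P) := by
    by_contra hcon
    push Not at hcon
    have h7 : t'.card ≤ ({u, v, w} : Finset P).card := Finset.card_le_card hcon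
    rw [hT.card_eq t' ht'] at h7
    have h8 : ({u, v, w} : Finset P).card ≤ 3 := Finset.card_le_three
    omega
  obtain ⟨z, hz, hz'⟩ := hex
  simp only [Finset.mem_insert, Finset.mem_singleton, not_or] at hz'
  have := subset_eq_four hT ht' h1 h2 (Ne.symm hz'.1) h4 (Ne.symm hz'.2.1) (Ne.symm hz'.2.2)
    hu hv hw hz
  refine ⟨z, ?_, ?_⟩
  · rintro rfl
    exact hne this
  · rw [← this]; exact ht'

theorem singAbs_aux (hT : IsFan T h) {u v w y : P} (ht : ({u, v, w, y} : Finset P) ∈ T)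
    (hs : ∀ t ∈ T, ({u, v} : Finset P) ⊆ t → ∀ z ∈ t, z ∉ ({u, v} : Finset P) →
      ∃ t' ∈ T, t' ≠ t ∧ insert z {u, v} ⊆ t')
    {φ ψ : W →ₗ[ℝ] ℝ} (hφ : φ ≠ 0) (hψ : ψ ≠ 0)
    (hk : ∀ t ∈ T, ({u, v} : Finset P) ⊆ t → ∀ z ∈ t, z ∉ ({u, v} : Finset P) →
      (∀ x ∈ (insert z {u, v} : Finset P), φ (h x) = 0) ∨
        (∀ x ∈ (insert z {u, v} : Finset P), ψ (h x) = 0))
    (hφu : φ (h u) = 0) (hφv : φ (h v) = 0) (hφw : φ (h w) = 0)
    (hψu : ψ (h u) = 0) (hψv : ψ (h v) = 0) (hψy : ψ (h y) = 0) :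
    ∃ w' y', Cross T h u v w y w' y' := by
  obtain ⟨h1, h2, h3, h4, h5, h6⟩ := four_ne hT ht
  have hφy : φ (h y) ≠ 0 := fun h0 => hφ (kill_eq_zero hT ht hφu hφv hφw h0)
  have hψw : ψ (h w) ≠ 0 := fun h0 => hψ (kill_eq_zero hT ht hψu hψv h0 hψy)
  have hsub : ∀ {a b : P}, ({u, v} : Finset P) ⊆ {u, v, a, b} := by
    intro a b x; simp; tauto
  -- second simplex at `u v w`
  obtain ⟨y', hy'y, ht4⟩ := second_tet hT ht
    (hs _ ht hsub w (by simp) (by simp [h2.symm, h4.symm]))
  obtain ⟨g1, g2, g3, g4, g5, g6⟩ := four_ne hT ht4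
  have hψy' : ψ (h y') = 0 := by
    rcases hk _ ht4 hsub y' (by simp) (by simp [g3.symm, g5.symm]) with h7 | h7
    · exact absurd (kill_eq_zero hT ht4 hφu hφv hφw (h7 y' (by simp))) hφ
    · exact h7 y' (by simp)
  have hy : ∃ a b c : ℝ, 0 < c ∧ h y' = a • h u + b • h v - c • h y := by
    obtain ⟨a, b, c, d, hh⟩ := four_span hT ht (h y')
    have hd := opp_lemma hT ht ht4 hy'y hh
    have hc : c = 0 := by
      have := congrArg ψ hh
      simp only [map_add, map_smul, hψu, hψv, hψy, hψy', smul_eq_mul, mul_zero, zero_add,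
        add_zero] at this
      rcases mul_eq_zero.1 this.symm with h8 | h8
      · exact h8
      · exact absurd h8 hψw
    refine ⟨a, b, -d, by linarith, ?_⟩
    rw [hh, hc]; module
  -- second simplex at `u v y`
  have ht' := ht
  rw [four_swap] at ht'
  obtain ⟨w', hw'w, ht2'⟩ := second_tet hT ht'
    (hs _ ht' hsub y (by simp) (by simp [h3.symm, h5.symm]))
  have ht2 := ht2'
  rw [four_swap] at ht2
  obtain ⟨i1, i2, i3, i4, i5, i6⟩ := four_ne hT ht2
  have hφw' : φ (h w') = 0 := by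
    rcases hk _ ht2 hsub w' (by simp) (by simp [i2.symm, i4.symm]) with h7 | h7
    · exact h7 w' (by simp)
    · exact absurd (kill_eq_zero hT ht2 hψu hψv (h7 w' (by simp)) hψy) hψ
  have hw : ∃ a b c : ℝ, 0 < c ∧ h w' = a • h u + b • h v - c • h w := by
    obtain ⟨a, b, c, d, hh⟩ := four_span hT ht' (h w')
    have hd := opp_lemma hT ht' ht2' hw'w hh
    have hc : c = 0 := by
      have := congrArg φ hh
      simp only [map_add, map_smul, hφu, hφv, hφw, hφw', smul_eq_mul, mul_zero, zero_add,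
        add_zero] at this
      rcases mul_eq_zero.1 this.symm with h8 | h8
      · exact h8
      · exact absurd h8 hφy
    refine ⟨a, b, -d, by linarith, ?_⟩
    rw [hh, hc]; module
  have hψw' : ψ (h w') ≠ 0 := fun h0 => hψ (kill_eq_zero hT ht2 hψu hψv h0 hψy)
  -- second simplex at `u v w'`
  obtain ⟨y3, hy3y, ht3⟩ := second_tet hT ht2
    (hs _ ht2 hsub w' (by simp) (by simp [i2.symm, i4.symm]))
  obtain ⟨j1, j2, j3, j4, j5, j6⟩ := four_ne hT ht3
  have hψy3 : ψ (h y3) = 0 := by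
    rcases hk _ ht3 hsub y3 (by simp) (by simp [j3.symm, j5.symm]) with h7 | h7
    · exact absurd (kill_eq_zero hT ht3 hφu hφv hφw' (h7 y3 (by simp))) hφ
    · exact h7 y3 (by simp)
  have hy3 : ∃ a b c : ℝ, 0 < c ∧ h y3 = a • h u + b • h v - c • h y := by
    obtain ⟨a, b, c, d, hh⟩ := four_span hT ht2 (h y3)
    have hd := opp_lemma hT ht2 ht3 hy3y hh
    have hc : c = 0 := by
      have := congrArg ψ hh
      simp only [map_add, map_smul, hψu, hψv, hψy, hψy3, smul_eq_mul, mul_zero, zero_add,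
        add_zero] at this
      rcases mul_eq_zero.1 this.symm with h8 | h8
      · exact h8
      · exact absurd h8 hψw'
    refine ⟨a, b, -d, by linarith, ?_⟩
    rw [hh, hc]; module
  have ht4' := ht4
  rw [four_swap] at ht4'
  have ht3' := ht3
  rw [four_swap] at ht3'
  have : y3 = y' := opp_eq hT ht4' ht3' hy hy3
  subst this
  exact ⟨w', y3, ht, ht2, ht3, ht4, hw, hy⟩

theorem singAbs_cross (hT : IsFan T h) {u v : P} (huv : u ≠ v) {t0 : Finset P} (ht0 : t0 ∈ T)
    (hu : u ∈ t0) (hv : v ∈ t0) (hS : SingAbs T h {u, v}) :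
    ∃ w y w' y', Cross T h u v w y w' y' := by
  obtain ⟨hs, φ, ψ, hφ, hψ, hk⟩ := hS
  have hc : (t0 \ {u, v}).card = 2 := by
    rw [Finset.card_sdiff_of_subset, hT.card_eq t0 ht0, Finset.card_pair huv]
    intro x hx
    rw [Finset.mem_insert, Finset.mem_singleton] at hx
    rcases hx with rfl | rfl <;> assumption
  obtain ⟨w, y, hwy, hwy'⟩ := Finset.card_eq_two.1 hc
  have hw : w ∈ t0 \ {u, v} := by rw [hwy']; simp
  have hy : y ∈ t0 \ {u, v} := by rw [hwy']; simp
  rw [Finset.mem_sdiff] at hw hy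
  have hwu : w ≠ u := fun hh => hw.2 (by simp [hh])
  have hwv : w ≠ v := fun hh => hw.2 (by simp [hh])
  have hyu : y ≠ u := fun hh => hy.2 (by simp [hh])
  have hyv : y ≠ v := fun hh => hy.2 (by simp [hh])
  have hte := subset_eq_four hT ht0 huv hwu.symm hyu.symm hwv.symm hyv.symm hwy hu hv hw.1 hy.1
  have ht := ht0
  rw [hte] at ht
  have hsub : ({u, v} : Finset P) ⊆ {u, v, w, y} := by
    intro x; simp; tauto
  have hs' : ({u, v, y, w} : Finset P) ∈ T := by rw [← four_swap]; exact ht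
  rcases hk _ ht hsub w (by simp) hw.2 with h1 | h1 <;>
    rcases hk _ ht hsub y (by simp) hy.2 with h2 | h2
  · exact absurd (kill_eq_zero hT ht (h1 u (by simp)) (h1 v (by simp)) (h1 w (by simp))
      (h2 y (by simp))) hφ
  · obtain ⟨w', y', hC⟩ := singAbs_aux hT ht hs hφ hψ hk (h1 u (by simp)) (h1 v (by simp))
      (h1 w (by simp)) (h2 u (by simp)) (h2 v (by simp)) (h2 y (by simp))
    exact ⟨_, _, _, _, hC⟩
  · obtain ⟨w', y', hC⟩ := singAbs_aux hT hs' hs hφ hψ hk (h2 u (by simp)) (h2 v (by simp))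
      (h2 y (by simp)) (h1 u (by simp)) (h1 v (by simp)) (h1 w (by simp))
    exact ⟨_, _, _, _, hC⟩
  · exact absurd (kill_eq_zero hT ht (h1 u (by simp)) (h1 v (by simp)) (h1 w (by simp))
      (h2 y (by simp))) hψ

theorem cross_singAbs (hT : IsFan T h) {u v w y w' y' : P} (hC : Cross T h u v w y w' y') :
    (∀ t ∈ T, ({u, v} : Finset P) ⊆ t → ∀ z ∈ t, z ∉ ({u, v} : Finset P) →
      ∃ t' ∈ T, t' ≠ t ∧ insert z {u, v} ⊆ t') ∧
    ∃ φ ψ : W →ₗ[ℝ] ℝ, φ ≠ 0 ∧ ψ ≠ 0 ∧ (φ (h u) = 0 ∧ ψ (h u) = 0) ∧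
      ∀ t ∈ T, ({u, v} : Finset P) ⊆ t → ∀ z ∈ t, z ∉ ({u, v} : Finset P) →
      (∀ x ∈ (insert z {u, v} : Finset P), φ (h x) = 0) ∨
        (∀ x ∈ (insert z {u, v} : Finset P), ψ (h x) = 0) := by
  obtain ⟨h1, h2, h3, h4, h5, h6⟩ := four_ne hT hC.t1
  obtain ⟨g1, g2, g3, g4, g5, g6⟩ := four_ne hT hC.t3
  obtain ⟨_, _, _, _, _, i6⟩ := four_ne hT hC.t2
  obtain ⟨_, _, _, _, _, j6⟩ := four_ne hT hC.t4
  obtain ⟨hww, hyy⟩ := hC.ne hT
  refine ⟨?_, ?_⟩
  · intro t ht hsub z hz hze
    have hze' := hze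
    rw [Finset.mem_insert, Finset.mem_singleton, not_or] at hze
    have hu : u ∈ t := hsub (by simp)
    have hv : v ∈ t := hsub (by simp)
    have key : ∀ {a b c : P}, ({u, v, a, b} : Finset P) ∈ T → ({u, v, a, c} : Finset P) ∈ T →
        b ≠ c → c ≠ u → c ≠ v → c ≠ a → z = a → ∃ t' ∈ T, t' ≠ t ∧ insert z {u, v} ⊆ t' := by
      intro a b c hab hac hbc hcu hcv hca hza
      by_cases htt : t = {u, v, a, b}
      · refine ⟨_, hac, ?_, ?_⟩
        · intro hh
          rw [htt] at hh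
          have hc : c ∈ ({u, v, a, c} : Finset P) := by simp
          rw [hh] at hc
          simp only [Finset.mem_insert, Finset.mem_singleton] at hc
          rcases hc with h7 | h7 | h7 | h7
          · exact hcu h7
          · exact hcv h7
          · exact hca h7
          · exact hbc h7.symm
        · subst hza
          intro x; simp; tauto
      · refine ⟨_, hab, fun hh => htt hh.symm, ?_⟩
        subst hza
        intro x; simp; tauto
    rcases cross_link hT hC ht hu hv hz hze.1 hze.2 with h7 | h7 | h7 | h7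
    · exact key hC.t1 hC.t4 hyy g3.symm g5.symm j6.symm h7
    · exact key (by rw [← four_swap]; exact hC.t1) (by rw [← four_swap]; exact hC.t2) hww g2.symm
        g4.symm i6 h7
    · exact key hC.t2 hC.t3 hyy g3.symm g5.symm g6.symm h7
    · exact key (by rw [← four_swap]; exact hC.t4) (by rw [← four_swap]; exact hC.t3) hww g2.symm
        g4.symm g6 h7
  · set B := tetBasis hT hC.t1 with hB
    have hBa : ∀ i, B i = h i.1 := fun i => tetBasis_apply hT hC.t1 i
    have hco : ∀ i j : ({u, v, w, y} : Finset P), B.coord i (h j.1) = if j = i then 1 else 0 := by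
      intro i j
      rw [← hBa j, Module.Basis.coord_apply, Module.Basis.repr_self, Finsupp.single_apply]
    let iu : ({u, v, w, y} : Finset P) := ⟨u, by simp⟩
    let iv : ({u, v, w, y} : Finset P) := ⟨v, by simp⟩
    let iw : ({u, v, w, y} : Finset P) := ⟨w, by simp⟩
    let iy : ({u, v, w, y} : Finset P) := ⟨y, by simp⟩
    have nyu : iu ≠ iy := fun hh => h3 (congrArg Subtype.val hh)
    have nyv : iv ≠ iy := fun hh => h5 (congrArg Subtype.val hh)
    have nyw : iw ≠ iy := fun hh => h6 (congrArg Subtype.val hh)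
    have nwu : iu ≠ iw := fun hh => h2 (congrArg Subtype.val hh)
    have nwv : iv ≠ iw := fun hh => h4 (congrArg Subtype.val hh)
    have fu : B.coord iy (h u) = 0 := by rw [show h u = h iu.1 from rfl, hco, if_neg nyu]
    have fv : B.coord iy (h v) = 0 := by rw [show h v = h iv.1 from rfl, hco, if_neg nyv]
    have fw : B.coord iy (h w) = 0 := by rw [show h w = h iw.1 from rfl, hco, if_neg nyw]
    have fy : B.coord iy (h y) = 1 := by rw [show h y = h iy.1 from rfl, hco, if_pos rfl]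
    have gu : B.coord iw (h u) = 0 := by rw [show h u = h iu.1 from rfl, hco, if_neg nwu]
    have gv : B.coord iw (h v) = 0 := by rw [show h v = h iv.1 from rfl, hco, if_neg nwv]
    have gw : B.coord iw (h w) = 1 := by rw [show h w = h iw.1 from rfl, hco, if_pos rfl]
    have gy : B.coord iw (h y) = 0 := by rw [show h y = h iy.1 from rfl, hco, if_neg nyw.symm]
    obtain ⟨a1, a2, γ, hγ, hw'⟩ := hC.hw
    obtain ⟨b1, b2, δ, hδ, hy'⟩ := hC.hy
    have fw' : B.coord iy (h w') = 0 := by rw [hw']; simp only [map_sub, map_add, map_smul, fu, fv, fw]; simp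
    have gy' : B.coord iw (h y') = 0 := by rw [hy']; simp only [map_sub, map_add, map_smul, gu, gv, gy]; simp
    refine ⟨B.coord iy, B.coord iw, ?_, ?_, ⟨fu, gu⟩, ?_⟩
    · intro h0
      rw [h0] at fy
      simp at fy
    · intro h0
      rw [h0] at gw
      simp at gw
    · intro t ht hsub z hz hze
      rw [Finset.mem_insert, Finset.mem_singleton, not_or] at hze
      rcases cross_link hT hC ht (hsub (by simp)) (hsub (by simp)) hz hze.1 hze.2
        with h7 | h7 | h7 | h7
      · left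
        intro x hx
        simp only [Finset.mem_insert, Finset.mem_singleton] at hx
        rcases hx with rfl | rfl | rfl
        · rw [h7]; exact fw
        · exact fu
        · exact fv
      · right
        intro x hx
        simp only [Finset.mem_insert, Finset.mem_singleton] at hx
        rcases hx with rfl | rfl | rfl
        · rw [h7]; exact gy
        · exact gu
        · exact gv
      · left
        intro x hx
        simp only [Finset.mem_insert, Finset.mem_singleton] at hx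
        rcases hx with rfl | rfl | rfl
        · rw [h7]; exact fw'
        · exact fu
        · exact fv
      · right
        intro x hx
        simp only [Finset.mem_insert, Finset.mem_singleton] at hx
        rcases hx with rfl | rfl | rfl
        · rw [h7]; exact gy'
        · exact gu
        · exact gv

open Classical in
/-- The dimension of the edge stresses. -/
theorem finrank_Sig (hT : IsFan T h) {e : Finset P} (he : e.card = 2) {t0 : Finset P}
    (ht0 : t0 ∈ T) (het : e ⊆ t0) :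
    Module.finrank ℝ (Sig T h e) = if SingAbs T h e then 1 else 0 := by
  obtain ⟨u, v, huv, rfl⟩ := Finset.card_eq_two.1 he
  have hu : u ∈ t0 := het (by simp)
  have hv : v ∈ t0 := het (by simp)
  by_cases hS : SingAbs T h {u, v}
  · rw [if_pos hS]
    obtain ⟨w, y, w', y', hC⟩ := singAbs_cross hT huv ht0 hu hv hS
    exact cross_finrank hT hC
  · rw [if_neg hS]
    have hbot : Sig T h {u, v} = ⊥ := by
      rw [Submodule.eq_bot_iff]
      intro κ hκ
      by_contra hne
      obtain ⟨w, y, w', y', hC⟩ := sig_cross hT huv hκ hne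
      obtain ⟨hs, φ, ψ, hφ, hψ, _, hk⟩ := cross_singAbs hT hC
      exact hS ⟨hs, φ, ψ, hφ, hψ, hk⟩
    rw [hbot, finrank_bot]

end Pool.CB
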