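import Pool.Agent.Work.CB.Fam
import Pool.Agent.Work.CB.Comb

/-!
# Families of relations around a vertex live on singular edges
-/

open scoped BigOperators
open Finset

noncomputable section

namespace Pool.CB

variable {P : Type*} [DecidableEq P] {W : Type*} [AddCommGroup W] [Module ℝ W]
variable {T : Finset (Finset P)} {h : P → W}
variable {v : P} {K : P → P → (P →₀ ℝ)} {π : W →ₗ[ℝ] EE}

/-- A closed chain of sectors around `v p` contains all simplices around `v p`. -/
theorem full (hT : IsFan T h) (hπ : IsProj h v π) (p : P) {N : Type*} [Fintype N]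
    [Nonempty N] (f : N → P) (hf : Function.Injective f) (nx : Equiv.Perm N)
    (hA : ∀ n, Adj T h v π p (f n) (f (nx n))) :
    (∑ n, dih (π (h p)) (π (h (f n))) (π (h (f (nx n)))) = 2 * Real.pi) ∧
      ∀ q w, Adj T h v π p q w → ∃ n, f n = q ∧ f (nx n) = w := by
  classical
  have hge := angle_sum_ge hT hπ p f nx hA
  have hle := angle_sum_le hT hπ p
  set I : Finset (P × P) := univ.image (fun n => (f n, f (nx n))) with hI
  have hIA : I ⊆ AA T h v π p := by
    intro x hx
    rw [hI, Finset.mem_image] at hx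
    obtain ⟨n, _, rfl⟩ := hx
    exact mem_AA.2 (hA n)
  have hsI : ∑ x ∈ I, dih (π (h p)) (π (h x.1)) (π (h x.2))
      = ∑ n, dih (π (h p)) (π (h (f n))) (π (h (f (nx n)))) := by
    rw [hI, Finset.sum_image]
    intro n _ m _ hnm
    exact hf (congrArg Prod.fst hnm)
  have hpos : ∀ x ∈ AA T h v π p, 0 < dih (π (h p)) (π (h x.1)) (π (h x.2)) :=
    fun x hx => adj_dih_pos hT hπ (mem_AA.1 hx)
  have hIle : ∑ x ∈ I, dih (π (h p)) (π (h x.1)) (π (h x.2))
      ≤ ∑ x ∈ AA T h v π p, dih (π (h p)) (π (h x.1)) (π (h x.2)) :=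
    Finset.sum_le_sum_of_subset_of_nonneg hIA fun x hx _ => (hpos x hx).le
  refine ⟨by linarith, fun q w hqw => ?_⟩
  have hmem : (q, w) ∈ I := by
    by_contra hn
    have hlt : ∑ x ∈ I, dih (π (h p)) (π (h x.1)) (π (h x.2))
        < ∑ x ∈ AA T h v π p, dih (π (h p)) (π (h x.1)) (π (h x.2)) :=
      Finset.sum_lt_sum_of_subset hIA (mem_AA.2 hqw) hn (hpos _ (mem_AA.2 hqw))
        fun x hx _ => (hpos x hx).le
    linarith
  rw [hI, Finset.mem_image] at hmem
  obtain ⟨n, _, hn⟩ := hmem
  exact ⟨n, congrArg Prod.fst hn, congrArg Prod.snd hn⟩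

/-- The two neighbours of a vertex carrying a nonzero relation. -/
theorem next (hT : IsFan T h) (hπ : IsProj h v π) (hK : KFam T h v K) {p q : P} (hpv : p ≠ v)
    (hne : K p q ≠ 0) : ∃ w w', Adj T h v π p q w ∧ Adj T h v π p w' q ∧
      0 < K p q w * K p q w' ∧
      K p q v • h v + K p q p • h p + K p q q • h q + K p q w • h w + K p q w' • h w' = 0 := by
  obtain ⟨hqv, hqp⟩ := hK.ne hne
  obtain ⟨y, y', hyy, h1, h2, h3, h4⟩ := face_two hT hpv.symm hqv.symm hqp.symm (hK.rel p q) hne
  rcases adj_two hT hπ h1 h2 hyy.symm with ⟨h5, h6⟩ | ⟨h5, h6⟩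
  · exact ⟨y, y', h5, h6, h3, h4⟩
  · refine ⟨y', y, h5, h6, by rw [mul_comm]; exact h3, ?_⟩
    rw [← h4]; abel

/-- Diagonal entries at singular edges vanish. -/
theorem sing_diag (hT : IsFan T h) {u v q : P} (huv : u ≠ v) (huq : u ≠ q) (hvq : v ≠ q)
    {r : P →₀ ℝ} (hr : r ∈ Rel T h (insert q {u, v})) (hS : SingAbs T h {u, v}) : r q = 0 := by
  by_cases hne : r = 0
  · rw [hne]; rfl
  obtain ⟨y, y', hyy, h1, h2, h3, h4⟩ := face_two hT huv huq hvq hr hne
  obtain ⟨_, φ, ψ, hφ, hψ, hk⟩ := hS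
  have hsub : ∀ {a b : P}, ({u, v} : Finset P) ⊆ {u, v, a, b} := by
    intro a b x; simp; tauto
  obtain ⟨e1, e2, e3, e4, e5, e6⟩ := four_ne hT h1
  obtain ⟨f1, f2, f3, f4, f5, f6⟩ := four_ne hT h2
  have key : ∀ {φ ψ : W →ₗ[ℝ] ℝ}, φ ≠ 0 → ψ ≠ 0 →
      (∀ t ∈ T, ({u, v} : Finset P) ⊆ t → ∀ z ∈ t, z ∉ ({u, v} : Finset P) →
        (∀ x ∈ (insert z {u, v} : Finset P), φ (h x) = 0) ∨
          (∀ x ∈ (insert z {u, v} : Finset P), ψ (h x) = 0)) →
      (∀ x ∈ (insert q {u, v} : Finset P), φ (h x) = 0) → r q = 0 := by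
    intro φ ψ hφ hψ hk hφ0
    have hu := hφ0 u (by simp)
    have hv := hφ0 v (by simp)
    have hq := hφ0 q (by simp)
    have hy : ∀ x ∈ (insert y {u, v} : Finset P), ψ (h x) = 0 := by
      rcases hk _ h1 hsub y (by simp) (by simp [e3.symm, e5.symm]) with h5 | h5
      · exact absurd (kill_eq_zero hT h1 hu hv hq (h5 y (by simp))) hφ
      · exact h5
    have hy' : ∀ x ∈ (insert y' {u, v} : Finset P), ψ (h x) = 0 := by
      rcases hk _ h2 hsub y' (by simp) (by simp [f3.symm, f5.symm]) with h5 | h5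
      · exact absurd (kill_eq_zero hT h2 hu hv hq (h5 y' (by simp))) hφ
      · exact h5
    have hq' : ψ (h q) ≠ 0 := fun h5 =>
      hψ (kill_eq_zero hT h1 (hy u (by simp)) (hy v (by simp)) h5 (hy y (by simp)))
    have h6 := congrArg ψ h4
    simp only [map_add, map_smul, map_zero, hy u (by simp), hy v (by simp), hy y (by simp),
      hy' y' (by simp), smul_eq_mul, mul_zero, zero_add, add_zero] at h6
    exact (mul_eq_zero.1 h6).resolve_right hq'
  rcases hk _ h1 hsub q (by simp) (by simp [e2.symm, e4.symm]) with h5 | h5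
  · exact key hφ hψ hk h5
  · exact key hψ hφ (fun t ht hst z hz hze => (hk t ht hst z hz hze).symm) h5

/-- Exceptional vertices: an edge `v p` lies in four simplices in cyclic order, `v` lies between
two opposite neighbours `q1` and `q3`, and the edges `v p`, `v q1`, `v q3` are not singular. -/
def ExcAbs (T : Finset (Finset P)) (h : P → W) (v : P) : Prop :=
  ∃ p q1 q2 q3 q4 : P, ({v, p, q1, q2} : Finset P) ∈ T ∧ ({v, p, q2, q3} : Finset P) ∈ T ∧
    ({v, p, q3, q4} : Finset P) ∈ T ∧ ({v, p, q4, q1} : Finset P) ∈ T ∧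
    ¬ SingAbs T h {v, p} ∧ ¬ SingAbs T h {v, q1} ∧ ¬ SingAbs T h {v, q3} ∧
    ∃ a c : ℝ, 0 < c ∧ h q3 = a • h v - c • h q1

open Classical in
/-- The vertices of the cycle around `v p`. -/
def NN (T : Finset (Finset P)) (K : P → P → (P →₀ ℝ)) (p : P) : Finset P :=
  (VV T).filter (fun q => K p q ≠ 0)

theorem mem_NN (hK : KFam T h v K) {p q : P} : q ∈ NN T K p ↔ K p q ≠ 0 := by
  classical
  unfold NN
  rw [Finset.mem_filter]
  exact ⟨fun hh => hh.2, fun hh => ⟨hK.mem hh, hh⟩⟩

open Classical in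
/-- The nonsingular neighbours of `v` with a nonzero entry. -/
def SS (T : Finset (Finset P)) (h : P → W) (v : P) (K : P → P → (P →₀ ℝ)) : Finset P :=
  (VV T).filter (fun p => p ≠ v ∧ (∃ q, K p q ≠ 0) ∧ ¬ SingAbs T h {v, p})

theorem mem_SS {p : P} : p ∈ SS T h v K ↔ p ∈ VV T ∧ p ≠ v ∧ (∃ q, K p q ≠ 0) ∧
    ¬ SingAbs T h {v, p} := by
  classical
  unfold SS
  rw [Finset.mem_filter]

theorem diag_zero (hT : IsFan T h) (hK : KFam T h v K) {p b : P} (hpv : p ≠ v) (hne : K p b ≠ 0)
    (hb : b ∉ SS T h v K) : K p b b = 0 := by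
  obtain ⟨hbv, hbp⟩ := hK.ne hne
  have hdia := hK.dia p b hpv hbv hbp.symm
  have h1 : K b p p = 0 := by
    by_cases h0 : K b p = 0
    · rw [h0]; rfl
    by_cases hS : SingAbs T h {v, b}
    · exact sing_diag hT hbv.symm hpv.symm hbp (hK.rel b p) hS
    · exact absurd (mem_SS.2 ⟨hK.mem hne, hbv, ⟨p, h0⟩, hS⟩) hb
  linarith

theorem at_p (hT : IsFan T h) (hπ : IsProj h v π) (hK : KFam T h v K) (hexc : ¬ ExcAbs T h v)
    {p : P} (hp : p ∈ SS T h v K) :
    ((AA T h v π p).filter (fun x => x.1 ∈ SS T h v K ∧ x.2 ∈ SS T h v K)).Nonempty ∧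
      ∑ x ∈ (AA T h v π p).filter (fun x => x.1 ∈ SS T h v K ∧ x.2 ∈ SS T h v K),
        dih (π (h p)) (π (h x.1)) (π (h x.2))
        ≤ Real.pi / 3 *
          ((AA T h v π p).filter (fun x => x.1 ∈ SS T h v K ∧ x.2 ∈ SS T h v K)).card := by
  classical
  obtain ⟨hpV, hpv, ⟨q0, hq0⟩, hns⟩ := mem_SS.1 hp
  have hq0N : q0 ∈ NN T K p := (mem_NN hK).2 hq0
  have : Nonempty (NN T K p) := ⟨⟨q0, hq0N⟩⟩
  have hnext : ∀ q : NN T K p, ∃ w : NN T K p, Adj T h v π p q.1 w.1 := by
    rintro ⟨q, hq⟩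
    have hq' := (mem_NN hK).1 hq
    obtain ⟨w, w', h1, h2, h3, h4⟩ := next hT hπ hK hpv hq'
    obtain ⟨e1, e2, e3, e4, e5, e6⟩ := adj_ne hT h1
    refine ⟨⟨w, (mem_NN hK).2 ?_⟩, h1⟩
    intro h0
    have := hK.anti p q w e2.symm e3.symm e4.symm e5.symm e6
    rw [h0, Finsupp.zero_apply, add_zero] at this
    rw [this, zero_mul] at h3
    exact lt_irrefl _ h3
  choose nx0 hnx0 using hnext
  have hinj : Function.Injective nx0 := by
    intro q q' hqq
    have h1 := hnx0 q
    have h2 := hnx0 q'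
    rw [← hqq] at h2
    exact Subtype.ext (adj_unique_left hT hπ h1 h2).symm
  let nx : Equiv.Perm (NN T K p) := Equiv.ofBijective nx0 (Finite.injective_iff_bijective.1 hinj)
  have hA : ∀ q : NN T K p, Adj T h v π p q.1 (nx q).1 := hnx0
  obtain ⟨htot, hall⟩ := full hT hπ p (fun q : NN T K p => q.1) Subtype.val_injective nx hA
  -- colours
  have hcol : ∀ q : NN T K p, K p q.1 (nx q).1 * K p (nx q).1 (nx (nx q)).1 < 0 := by
    intro q
    obtain ⟨w, w', h1, h2, h3, h4⟩ := next hT hπ hK hpv ((mem_NN hK).1 (nx q).2)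
    have hw : w = (nx (nx q)).1 := adj_unique hT hπ (hA (nx q)) h1
    have hw' : w' = q.1 := adj_unique_left hT hπ (hA q) h2
    obtain ⟨e1, e2, e3, e4, e5, e6⟩ := adj_ne hT (hA q)
    have h5 := hK.anti p q.1 (nx q).1 e2.symm e3.symm e4.symm e5.symm e6
    rw [hw, hw'] at h3
    have h6 : K p q.1 (nx q).1 = - K p (nx q).1 q.1 := by linarith
    rw [h6]
    have : K p (nx q).1 (nx (nx q)).1 * K p (nx q).1 q.1
      = K p (nx q).1 q.1 * K p (nx q).1 (nx (nx q)).1 := mul_comm _ _
    linarith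
  have nx_ne : ∀ q : NN T K p, K p q.1 ≠ 0 := fun q => (mem_NN hK).1 q.2
  have hnonsing : ∀ x, K p x ≠ 0 → K p x x ≠ 0 → ¬ SingAbs T h {v, x} := by
    intro x hx hxx hS
    apply hxx
    refine diag_zero hT hK hpv hx fun hxS => ?_
    exact (mem_SS.1 hxS).2.2.2 hS
  set col : NN T K p → ℝ := fun q => K p q.1 (nx q).1 with hcoldef
  have hcol' : ∀ q, col q * col (nx q) < 0 := hcol
  have hcyc : ∀ q, ∀ k, 1 ≤ k → k ≤ 5 → (nx ^ k) q ≠ q := by
    intro q k hk1 hk5 hh
    have n2 : nx (nx q) ≠ q := by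
      intro h0
      have h1 := hA q
      have h2 := hA (nx q)
      rw [h0] at h2
      exact h1.asymm h2
    obtain rfl | rfl | rfl | rfl | rfl : k = 1 ∨ k = 2 ∨ k = 3 ∨ k = 4 ∨ k = 5 := by omega
    · have h1 := hA q
      rw [pow_one] at hh
      rw [hh] at h1
      exact (adj_ne hT h1).2.2.2.2.2 rfl
    · exact n2 hh
    · have h0 : nx (nx (nx q)) = q := hh
      have c1 := hcol' q
      have c2 := hcol' (nx q)
      have c3 := hcol' (nx (nx q))
      rw [h0] at c3
      have c12 := mul_pos_of_neg_of_neg c1 c2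
      have c123 := mul_neg_of_pos_of_neg c12 c3
      have : col q * col (nx q) * (col (nx q) * col (nx (nx q))) * (col (nx (nx q)) * col q)
        = (col q * col (nx q) * col (nx (nx q))) ^ 2 := by ring
      rw [this] at c123
      exact absurd (sq_nonneg _) (not_le.2 c123)
    · have h0 : nx (nx (nx (nx q))) = q := hh
      set q1 := q.1 with hq1
      set q2 := (nx q).1 with hq2
      set q3 := (nx (nx q)).1 with hq3
      set q4 := (nx (nx (nx q))).1 with hq4
      have A1 : Adj T h v π p q1 q2 := hA q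
      have A2 : Adj T h v π p q2 q3 := hA (nx q)
      have A3 : Adj T h v π p q3 q4 := hA (nx (nx q))
      have A4 : Adj T h v π p q4 q1 := by
        have := hA (nx (nx (nx q)))
        rw [h0] at this
        exact this
      have n13 : q1 ≠ q3 := fun h5 => n2 (Subtype.ext h5.symm)
      have n24 : q2 ≠ q4 := by
        intro h5
        have h6 : nx q = nx (nx (nx q)) := Subtype.ext h5
        exact n2 (nx.injective h6).symm
      -- all vertices of the cycle
      have hfull : ∀ x, K p x ≠ 0 → x = q1 ∨ x = q2 ∨ x = q3 ∨ x = q4 := by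
        intro x hx
        have hxN : x ∈ NN T K p := (mem_NN hK).2 hx
        obtain ⟨e1, e2, e3, e4, e5, e6⟩ := adj_ne hT A1
        obtain ⟨_, _, _, _, _, f6⟩ := adj_ne hT A2
        obtain ⟨_, _, _, _, _, g6⟩ := adj_ne hT A3
        obtain ⟨_, _, _, _, _, i6⟩ := adj_ne hT A4
        have hfi : Function.Injective (![q1, q2, q3, q4] : Fin 4 → P) := by
          intro i j hij
          fin_cases i <;> fin_cases j <;>
            first
            | rfl
            | exact absurd hij e6
            | exact absurd hij e6.symm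
            | exact absurd hij n13
            | exact absurd hij n13.symm
            | exact absurd hij i6
            | exact absurd hij i6.symm
            | exact absurd hij f6
            | exact absurd hij f6.symm
            | exact absurd hij n24
            | exact absurd hij n24.symm
            | exact absurd hij g6
            | exact absurd hij g6.symm
        obtain ⟨_, h7⟩ := full hT hπ p (![q1, q2, q3, q4] : Fin 4 → P) hfi (finRotate 4) (by
          intro n
          fin_cases n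
          · exact A1
          · exact A2
          · exact A3
          · exact A4)
        obtain ⟨n, hn, _⟩ := h7 x _ (hA ⟨x, hxN⟩)
        rw [← hn]
        fin_cases n <;> simp
      rcases four_cycle hT hK A1.1 A2.1 A3.1 A4.1 n13 n24 ((mem_NN hK).1 q.2) hfull with
        ⟨a, b, c, a', b', c', hc, hc', h5, h6⟩ | ⟨k1, k3, a, c, hc, h5⟩ | ⟨k2, k4, a, c, hc, h5⟩
      · apply hns
        have hC : Cross T h v p q1 q2 q3 q4 :=
          { t1 := A1.1
            t2 := by rw [four_swap]; exact A2.1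
            t3 := A3.1
            t4 := by rw [four_swap]; exact A4.1
            hw := ⟨a, b, c, hc, h5⟩
            hy := ⟨a', b', c', hc', h6⟩ }
        obtain ⟨g1, φ, ψ, hφ, hψ, _, hk⟩ := cross_singAbs hT hC
        exact ⟨g1, φ, ψ, hφ, hψ, hk⟩
      · exact hexc ⟨p, q1, q2, q3, q4, A1.1, A2.1, A3.1, A4.1, hns, hnonsing _ (nx_ne q) k1,
          hnonsing _ (nx_ne _) k3, a, c, hc, h5⟩
      · exact hexc ⟨p, q2, q3, q4, q1, A2.1, A3.1, A4.1, A1.1, hns, hnonsing _ (nx_ne _) k2,
          hnonsing _ (nx_ne _) k4, a, c, hc, h5⟩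
    · have h0 : nx (nx (nx (nx (nx q)))) = q := hh
      have c1 := hcol' q
      have c2 := hcol' (nx q)
      have c3 := hcol' (nx (nx q))
      have c4 := hcol' (nx (nx (nx q)))
      have c5 := hcol' (nx (nx (nx (nx q))))
      rw [h0] at c5
      have c12 := mul_pos_of_neg_of_neg c1 c2
      have c34 := mul_pos_of_neg_of_neg c3 c4
      have c1234 := mul_pos c12 c34
      have c12345 := mul_neg_of_pos_of_neg c1234 c5
      have : col q * col (nx q) * (col (nx q) * col (nx (nx q))) *
          (col (nx (nx q)) * col (nx (nx (nx q))) *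
            (col (nx (nx (nx q))) * col (nx (nx (nx (nx q)))))) *
          (col (nx (nx (nx (nx q)))) * col q)
        = (col q * col (nx q) * col (nx (nx q)) * col (nx (nx (nx q))) *
            col (nx (nx (nx (nx q))))) ^ 2 := by ring
      rw [this] at c12345
      exact absurd (sq_nonneg _) (not_le.2 c12345)
  -- the combinatorial lemma
  have hcomb := comb nx (fun q => dih (π (h p)) (π (h q.1)) (π (h (nx q).1)))
    (fun q => adj_dih_pos hT hπ (hA q)) htot (univ.filter (fun q : NN T K p => q.1 ∉ SS T h v K)) (by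
      intro b hb
      have hbS : b.1 ∉ SS T h v K := (Finset.mem_filter.1 hb).2
      have hd := diag_zero hT hK hpv ((mem_NN hK).1 b.2) hbS
      obtain ⟨w, w', h1, h2, h3, h4⟩ := next hT hπ hK hpv ((mem_NN hK).1 b.2)
      have hw : w = (nx b).1 := adj_unique hT hπ (hA b) h1
      have hA' : Adj T h v π p (nx.symm b).1 b.1 := by
        have := hA (nx.symm b)
        rwa [Equiv.apply_symm_apply] at this
      have hw' : w' = (nx.symm b).1 := adj_unique_left hT hπ hA' h2
      rw [hd, zero_smul, add_zero] at h4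
      have hKw' : K p b.1 w' ≠ 0 := fun h0 => by rw [h0, mul_zero] at h3; exact lt_irrefl _ h3
      have h5 : h w' = (-K p b.1 v / K p b.1 w') • h v + (-K p b.1 p / K p b.1 w') • h p
          + (-(K p b.1 w / K p b.1 w')) • h w := by
        have h8 : h w' = (1 / K p b.1 w') • (K p b.1 w' • h w') := by
          rw [smul_smul, one_div, inv_mul_cancel₀ hKw', one_smul]
        have h9 : K p b.1 w' • h w' = - (K p b.1 v • h v + K p b.1 p • h p + K p b.1 w • h w) :=
          eq_neg_of_add_eq_zero_right h4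
        rw [h8, h9]
        match_scalars <;> field_simp
      have h10 : -(K p b.1 w / K p b.1 w') < 0 := by
        have : 0 < K p b.1 w / K p b.1 w' := by
          rcases mul_pos_iff.1 h3 with ⟨g1, g2⟩ | ⟨g1, g2⟩
          · exact div_pos g1 g2
          · exact div_pos_of_neg_of_neg g1 g2
        linarith
      rw [hw'] at h5 h10
      rw [hw] at h5 h10
      have := dih_add_eq_pi hT hπ hA' h10 h5
      show dih (π (h p)) (π (h b.1)) (π (h (nx b).1))
        + dih (π (h p)) (π (h (nx.symm b).1)) (π (h (nx (nx.symm b)).1)) = Real.pi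
      rw [Equiv.apply_symm_apply]
      linarith) hcyc
  -- transfer to the pairs
  have himg : (AA T h v π p).filter (fun x => x.1 ∈ SS T h v K ∧ x.2 ∈ SS T h v K)
      = (univ.filter (fun q : NN T K p => q ∉ univ.filter (fun q : NN T K p => q.1 ∉ SS T h v K) ∧
          nx q ∉ univ.filter (fun q : NN T K p => q.1 ∉ SS T h v K))).image
          (fun q => (q.1, (nx q).1)) := by
    ext ⟨a, b⟩
    simp only [Finset.mem_filter, Finset.mem_image, mem_AA, Finset.mem_univ, true_and, not_not,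
      Prod.mk.injEq]
    constructor
    · rintro ⟨h1, h2, h3⟩
      obtain ⟨n, hn1, hn2⟩ := hall a b h1
      refine ⟨n, ⟨?_, ?_⟩, hn1, hn2⟩
      · rw [hn1]; exact h2
      · rw [hn2]; exact h3
    · rintro ⟨n, ⟨h1, h2⟩, rfl, rfl⟩
      exact ⟨hA n, h1, h2⟩
  have hinj2 : Function.Injective (fun q : NN T K p => ((q.1, (nx q).1) : P × P)) := by
    intro q q' hqq
    exact Subtype.ext (congrArg Prod.fst hqq)
  rw [himg]
  refine ⟨hcomb.1.image _, ?_⟩
  rw [Finset.sum_image (fun x _ y _ hxy => hinj2 hxy), Finset.card_image_of_injective _ hinj2]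
  exact hcomb.2

end Pool.CB
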