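import Pool.Agent.Work.CB.Poly

open scoped BigOperators Topology
open Finset

noncomputable section

namespace Pool.CB

variable (Δ : TetComplex)

/-- The functional with given values at the neighbours. -/
def LL {t : Finset E3} (ht : t ∈ Δ.tets) (c : (E3 →₀ ℕ) → ℝ) (a : E3 →₀ ℕ) (w : E3 × ℝ) : ℝ :=
  ∑ p ∈ t, lm (isFan Δ) ht w p * c (a + Finsupp.single p 1)

/-- The derivative of a barycentric coordinate. -/
def dl {t : Finset E3} (ht : t ∈ Δ.tets) (p : E3) : E3 →L[ℝ] ℝ :=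
  LinearMap.toContinuousLinearMap
    ((LinearMap.proj p).comp ((lm (isFan Δ) ht).comp (LinearMap.inl ℝ E3 ℝ)))

theorem dl_apply {t : Finset E3} (ht : t ∈ Δ.tets) (p v : E3) :
    dl Δ ht p v = lm (isFan Δ) ht (v, 0) p := rfl

theorem lm_hasFDerivAt {t : Finset E3} (ht : t ∈ Δ.tets) (p x : E3) :
    HasFDerivAt (fun y => lm (isFan Δ) ht (hc y) p) (dl Δ ht p) x := by
  have h1 : (fun y => lm (isFan Δ) ht (hc y) p)
      = fun y => dl Δ ht p y + lm (isFan Δ) ht (0, 1) p := by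
    funext y
    rw [dl_apply, ← Pi.add_apply, ← map_add]
    congr 2
    simp [hc]
  rw [h1]
  exact (dl Δ ht p).hasFDerivAt.add_const _

/-- The derivative of a Bernstein polynomial. -/
def dFB {t : Finset E3} (ht : t ∈ Δ.tets) (n : ℕ) (c : (E3 →₀ ℕ) → ℝ) (x : E3) : E3 →L[ℝ] ℝ :=
  ((n : ℝ) + 1) • ∑ p ∈ t, FB Δ ht n (shf p c) x • dl Δ ht p

theorem FB_hasFDerivAt {t : Finset E3} (ht : t ∈ Δ.tets) (n : ℕ) (c : (E3 →₀ ℕ) → ℝ) (x : E3) :
    HasFDerivAt (FB Δ ht (n + 1) c) (dFB Δ ht n c x) x :=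
  Bz_hasFDerivAt t n c (A := fun y => lm (isFan Δ) ht (hc y)) (A' := dl Δ ht)
    (fun p _ => lm_hasFDerivAt Δ ht p x)

theorem dFB_apply {t : Finset E3} (ht : t ∈ Δ.tets) (n : ℕ) (c : (E3 →₀ ℕ) → ℝ) (x v : E3) :
    dFB Δ ht n c x v = ((n : ℝ) + 1) * Bz t n (fun a => LL Δ ht c a (v, 0))
      (lm (isFan Δ) ht (hc x)) := by
  unfold dFB LL
  rw [Bz_sum t n t (fun p => lm (isFan Δ) ht (v, 0) p) (fun p a => c (a + Finsupp.single p 1))]
  simp only [ContinuousLinearMap.smul_apply, ContinuousLinearMap.sum_apply, smul_eq_mul,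
    dl_apply]
  congr 1
  refine Finset.sum_congr rfl fun p _ => ?_
  rw [mul_comm]
  rfl

theorem FB_continuous {t : Finset E3} (ht : t ∈ Δ.tets) (n : ℕ) (c : (E3 →₀ ℕ) → ℝ) :
    Continuous (FB Δ ht n c) := by
  cases n with
  | zero => exact continuous_const
  | succ n =>
    rw [continuous_iff_continuousAt]
    exact fun x => (FB_hasFDerivAt Δ ht n c x).continuousAt

theorem dFB_continuous {t : Finset E3} (ht : t ∈ Δ.tets) (n : ℕ) (c : (E3 →₀ ℕ) → ℝ) :
    Continuous (dFB Δ ht n c) := by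
  have h1 : Continuous (fun x => ∑ p ∈ t, FB Δ ht n (shf p c) x • dl Δ ht p) := by
    refine continuous_finset_sum t fun p _ => ?_
    exact (FB_continuous Δ ht n (shf p c)).smul (continuous_const (y := dl Δ ht p))
  exact h1.const_smul ((n : ℝ) + 1)

/-- On a common face the values only depend on the net. -/
theorem Bz_meet {s t : Finset E3} (hs : s ∈ Δ.tets) (ht : t ∈ Δ.tets) {x : E3}
    (hxs : x ∈ convexHull ℝ (s : Set E3)) (hxt : x ∈ convexHull ℝ (t : Set E3)) (k : ℕ)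
    (c : (E3 →₀ ℕ) → ℝ) : Bz s k c (lm (isFan Δ) hs (hc x))
      = Bz (s ∩ t) k c (lm (isFan Δ) hs (hc x)) := by
  obtain ⟨_, h2⟩ := lm_meet (isFan Δ) hs ht ((mem_conv_iff Δ hs).1 hxs) ((mem_conv_iff Δ ht).1 hxt)
  exact Bz_subset Finset.inter_subset_left k c fun p _ hp => h2 p hp

theorem FB_eq {s t : Finset E3} (hs : s ∈ Δ.tets) (ht : t ∈ Δ.tets) {x : E3}
    (hxs : x ∈ convexHull ℝ (s : Set E3)) (hxt : x ∈ convexHull ℝ (t : Set E3)) (k : ℕ)
    (c : (E3 →₀ ℕ) → ℝ) : FB Δ hs k c x = FB Δ ht k c x := by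
  obtain ⟨h1, _⟩ := lm_meet (isFan Δ) hs ht ((mem_conv_iff Δ hs).1 hxs) ((mem_conv_iff Δ ht).1 hxt)
  rw [FB, FB, Bz_meet Δ hs ht hxs hxt, Bz_meet Δ ht hs hxt hxs, h1, Finset.inter_comm]

/-- The spline function of a net. -/
def PhiF (k : ℕ) (c : (E3 →₀ ℕ) → ℝ) (x : Δ.space) : ℝ := FB Δ x.2.choose_spec.1 k c x.1

theorem PhiF_eq {t : Finset E3} (ht : t ∈ Δ.tets) (k : ℕ) (c : (E3 →₀ ℕ) → ℝ) (x : Δ.space)
    (hx : (x : E3) ∈ convexHull ℝ (t : Set E3)) : PhiF Δ k c x = FB Δ ht k c x :=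
  FB_eq Δ _ ht x.2.choose_spec.2 hx k c

theorem ext0_add {T : Finset (Finset E3)} {k : ℕ} (c c' : DD T k → ℝ) :
    ext0 (c + c') = fun b => ext0 c b + ext0 c' b := by
  funext b
  unfold ext0
  split_ifs <;> simp

theorem ext0_smul {T : Finset (Finset E3)} {k : ℕ} (r : ℝ) (c : DD T k → ℝ) :
    ext0 (r • c) = fun b => r * ext0 c b := by
  funext b
  unfold ext0
  split_ifs <;> simp

/-- The linear map from nets to functions. -/
def Phi (k : ℕ) : (DD Δ.tets k → ℝ) →ₗ[ℝ] (Δ.space → ℝ) where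
  toFun c := PhiF Δ k (ext0 c)
  map_add' c c' := by
    funext x
    rw [ext0_add, Pi.add_apply]
    exact Bz_add _ _ _ _ _
  map_smul' r c := by
    funext x
    rw [ext0_smul, Pi.smul_apply]
    exact Bz_smul _ _ _ _ _

/-- Points with given barycentric coordinates on a face. -/
theorem exists_point {s t : Finset E3} (ht : t ∈ Δ.tets) (hst : s ⊆ t) {l : E3 → ℝ}
    (hl : ∀ p, 0 ≤ l p) (hls : ∀ p, p ∉ s → l p = 0) (hl1 : ∑ p ∈ s, l p = 1) :
    (∑ p ∈ s, l p • p) ∈ convexHull ℝ (s : Set E3) ∧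
      lm (isFan Δ) ht (hc (∑ p ∈ s, l p • p)) = l := by
  constructor
  · rw [Finset.mem_convexHull']
    exact ⟨l, fun y _ => hl y, hl1, rfl⟩
  · funext p
    by_cases hp : p ∈ t
    · apply lm_unique _ ht _ hp
      rw [← hc_comb hl1]
      symm
      apply Finset.sum_subset hst
      intro q _ hq
      rw [hls q hq, zero_smul]
    · rw [lm_not _ ht _ hp, hls p fun hh => hp (hst hh)]

/-- If two Bernstein polynomials agree on a common face, so do the coefficients. -/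
theorem coeff_eq {s t : Finset E3} (ht : t ∈ Δ.tets) (hst : s ⊆ t) (hs : s.Nonempty) (k : ℕ)
    (c : (E3 →₀ ℕ) → ℝ)
    (h0 : ∀ x ∈ convexHull ℝ (s : Set E3), Bz s k c (lm (isFan Δ) ht (hc x)) = 0)
    {b : E3 →₀ ℕ} (hb : b.support ⊆ s) (hbk : b.degree = k) : c b = 0 := by
  refine Bz_unique' s k c (fun l hl hls hl1 => ?_) b hs hb hbk
  obtain ⟨h1, h2⟩ := exists_point Δ ht hst hl hls hl1
  rw [← h2]
  exact h0 _ h1

theorem tet_nonempty {t : Finset E3} (ht : t ∈ Δ.tets) : t.Nonempty := by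
  rw [← Finset.card_pos, Δ.card_eq t ht]; norm_num

theorem Phi_injective (k : ℕ) : Function.Injective (Phi Δ k) := by
  rw [← LinearMap.ker_eq_bot, Submodule.eq_bot_iff]
  intro c hc0
  rw [LinearMap.mem_ker] at hc0
  funext b
  obtain ⟨⟨t, ht, hbt⟩, hbk⟩ := mem_DD.1 b.2
  have h1 : ext0 c b.1 = 0 := by
    refine coeff_eq Δ ht (Finset.Subset.refl t) (tet_nonempty Δ ht) k (ext0 c) (fun x hx => ?_)
      hbt hbk
    have h2 := PhiF_eq Δ ht k (ext0 c) ⟨x, t, ht, hx⟩ hx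
    have h3 : PhiF Δ k (ext0 c) ⟨x, t, ht, hx⟩ = 0 := congrFun hc0 _
    rw [h3] at h2
    exact h2.symm
  rw [ext0, dif_pos b.2] at h1
  exact h1

/-- Gradient agreement for nets. -/
theorem LL_eq {n : ℕ} {c : DD Δ.tets (n + 1) → ℝ} (hcN : c ∈ Net Δ.tets hc n) {s t : Finset E3}
    (hs : s ∈ Δ.tets) (ht : t ∈ Δ.tets) {a : E3 →₀ ℕ} (has : a.support ⊆ s) (hat : a.support ⊆ t)
    (ha : a.degree = n) (w : E3 × ℝ) : LL Δ hs (ext0 c) a w = LL Δ ht (ext0 c) a w := by
  have haD : a ∈ DD Δ.tets n := mem_DD.2 ⟨⟨s, hs, has⟩, ha⟩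
  have hsn : s ⊆ nb Δ.tets a.support := fun p hp => mem_nb.2 ⟨s, hs, has, hp⟩
  have htn : t ⊆ nb Δ.tets a.support := fun p hp => mem_nb.2 ⟨t, ht, hat, hp⟩
  set r : E3 →₀ ℝ := Finsupp.onFinset (nb Δ.tets a.support)
    (fun p => lm (isFan Δ) hs w p - lm (isFan Δ) ht w p) (by
      intro p hp
      by_contra hn
      apply hp
      rw [lm_not _ hs _ (fun hh => hn (hsn hh)), lm_not _ ht _ (fun hh => hn (htn hh)), sub_zero])
    with hr
  have hrp : ∀ p, r p = lm (isFan Δ) hs w p - lm (isFan Δ) ht w p := fun p => rfl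
  have hext : ∀ {u : Finset E3} (hu : u ∈ Δ.tets) (N : Finset E3) (_ : u ⊆ N),
      ∑ p ∈ N, lm (isFan Δ) hu w p • hc p = w := by
    intro u hu N huN
    rw [← Finset.sum_subset huN, lm_sum]
    intro p _ hp
    rw [lm_not _ hu _ hp, zero_smul]
  have hmem : r ∈ Rel Δ.tets hc a.support := by
    rw [mem_Rel_iff]
    constructor
    · intro p hp
      rw [hrp, lm_not _ hs _ (fun hh => hp (hsn hh)), lm_not _ ht _ (fun hh => hp (htn hh)),
        sub_zero]
    · simp only [hrp, sub_smul, Finset.sum_sub_distrib]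
      rw [hext hs _ (fun p hp => mem_VV.2 ⟨s, hs, hp⟩), hext ht _ (fun p hp => mem_VV.2 ⟨t, ht, hp⟩),
        sub_self]
  have h1 := hcN a haD r hmem
  simp only [hrp, sub_mul, Finset.sum_sub_distrib] at h1
  have hext2 : ∀ {u : Finset E3} (hu : u ∈ Δ.tets) (_ : u ⊆ nb Δ.tets a.support),
      ∑ p ∈ nb Δ.tets a.support, lm (isFan Δ) hu w p * ext0 c (a + Finsupp.single p 1)
        = LL Δ hu (ext0 c) a w := by
    intro u hu huN
    rw [LL, ← Finset.sum_subset huN]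
    intro p _ hp
    rw [lm_not _ hu _ hp, zero_mul]
  rw [hext2 hs hsn, hext2 ht htn] at h1
  linarith

theorem dFB_eq {n : ℕ} {c : DD Δ.tets (n + 1) → ℝ} (hcN : c ∈ Net Δ.tets hc n) {s t : Finset E3}
    (hs : s ∈ Δ.tets) (ht : t ∈ Δ.tets) {x : E3} (hxs : x ∈ convexHull ℝ (s : Set E3))
    (hxt : x ∈ convexHull ℝ (t : Set E3)) : dFB Δ hs n (ext0 c) x = dFB Δ ht n (ext0 c) x := by
  obtain ⟨h1, _⟩ := lm_meet (isFan Δ) hs ht ((mem_conv_iff Δ hs).1 hxs) ((mem_conv_iff Δ ht).1 hxt)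
  ext v
  rw [dFB_apply, dFB_apply, Bz_meet Δ hs ht hxs hxt, Bz_meet Δ ht hs hxt hxs, h1,
    Finset.inter_comm t s]
  congr 1
  refine Bz_congr _ _ _ fun a ha han => ?_
  exact LL_eq Δ hcN hs ht (ha.trans Finset.inter_subset_left) (ha.trans Finset.inter_subset_right)
    han (v, 0)

theorem conv_closed (t : Finset E3) : IsClosed (convexHull ℝ (t : Set E3)) :=
  (Finset.finite_toSet t).isClosed_convexHull ℝ

theorem space_eq : Δ.space = ⋃ t ∈ Δ.tets, convexHull ℝ (t : Set E3) := by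
  ext x
  simp [TetComplex.space]

/-- Derivatives within finite unions. -/
theorem hasFDerivWithinAt_union {u : Finset (Finset E3)} {g : E3 → ℝ} {L : E3 →L[ℝ] ℝ} {x : E3}
    (hu : ∀ t ∈ u, HasFDerivWithinAt g L (convexHull ℝ (t : Set E3)) x) :
    HasFDerivWithinAt g L (⋃ t ∈ u, convexHull ℝ (t : Set E3)) x := by
  classical
  induction u using Finset.induction_on with
  | empty => simp [HasFDerivWithinAt.of_notMem_closure]
  | insert t u ht ih =>
    rw [Finset.set_biUnion_insert]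
    exact (hu t (Finset.mem_insert_self _ _)).union
      (ih fun t ht => hu t (Finset.mem_insert_of_mem ht))

theorem continuousOn_union {u : Finset (Finset E3)} {g : E3 → (E3 →L[ℝ] ℝ)}
    (hu : ∀ t ∈ u, ContinuousOn g (convexHull ℝ (t : Set E3))) :
    ContinuousOn g (⋃ t ∈ u, convexHull ℝ (t : Set E3)) := by
  classical
  induction u using Finset.induction_on with
  | empty => simp
  | insert t u ht ih =>
    rw [Finset.set_biUnion_insert]
    refine (hu t (Finset.mem_insert_self _ _)).union_of_isClosed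
      (ih fun t ht => hu t (Finset.mem_insert_of_mem ht)) (conv_closed t) ?_
    exact isClosed_biUnion_finset fun t _ => conv_closed t

theorem Phi_mem {n : ℕ} {c : DD Δ.tets (n + 1) → ℝ} (hcN : c ∈ Net Δ.tets hc n) :
    Phi Δ (n + 1) c ∈ Δ.splines (n + 1) := by
  classical
  refine ⟨?_, ?_⟩
  · set g : E3 → ℝ := fun x => if hx : x ∈ Δ.space then PhiF Δ (n + 1) (ext0 c) ⟨x, hx⟩ else 0
      with hg
    set g' : E3 → (E3 →L[ℝ] ℝ) := fun x =>
      if hx : x ∈ Δ.space then dFB Δ hx.choose_spec.1 n (ext0 c) x else 0 with hg'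
    have hgt : ∀ {t : Finset E3} (ht : t ∈ Δ.tets) {x : E3}, x ∈ convexHull ℝ (t : Set E3) →
        g x = FB Δ ht (n + 1) (ext0 c) x := by
      intro t ht x hx
      have hxs : x ∈ Δ.space := ⟨t, ht, hx⟩
      simp only [hg, hxs, dif_pos]
      exact PhiF_eq Δ ht (n + 1) (ext0 c) ⟨x, hxs⟩ hx
    have hgt' : ∀ {t : Finset E3} (ht : t ∈ Δ.tets) {x : E3}, x ∈ convexHull ℝ (t : Set E3) →
        g' x = dFB Δ ht n (ext0 c) x := by
      intro t ht x hx
      have hxs : x ∈ Δ.space := ⟨t, ht, hx⟩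
      simp only [hg', hxs, dif_pos]
      exact dFB_eq Δ hcN _ ht hxs.choose_spec.2 hx
    refine ⟨g, ?_, fun x => ?_⟩
    · have h1 : ContDiffOn ℝ (0 + 1) g Δ.space := by
        rw [contDiffOn_succ_iff_hasFDerivWithinAt (𝕜 := ℝ) (n := 0) (by norm_num)]
        intro x hx
        refine ⟨Δ.space, ?_, by norm_num, g', ?_, ?_⟩
        · rw [Set.insert_eq_of_mem hx]; exact self_mem_nhdsWithin
        · intro y hy
          rw [space_eq]
          refine hasFDerivWithinAt_union fun t ht => ?_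
          by_cases hyt : y ∈ convexHull ℝ (t : Set E3)
          · rw [hgt' ht hyt]
            exact ((FB_hasFDerivAt Δ ht n (ext0 c) y).hasFDerivWithinAt).congr
              (fun z hz => hgt ht hz) (hgt ht hyt)
          · apply HasFDerivWithinAt.of_notMem_closure
            rwa [(conv_closed t).closure_eq]
        · rw [contDiffOn_zero, space_eq]
          refine continuousOn_union fun t ht => ?_
          exact (dFB_continuous Δ ht n (ext0 c)).continuousOn.congr fun z hz => hgt' ht hz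
      rwa [zero_add] at h1
    · have hx := x.2
      simp only [hg, hx, dif_pos]
      rfl
  · intro t ht
    obtain ⟨p, hp, hpx⟩ := poly_of_FB Δ ht (n + 1) (ext0 c)
    refine ⟨p, hp, fun x hx => ?_⟩
    rw [← hpx]
    exact PhiF_eq Δ ht (n + 1) (ext0 c) x hx

end Pool.CB
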