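import Pool.Agent.Work.CB.Spline

open scoped BigOperators Topology
open Finset

noncomputable section

namespace Pool.CB

variable (Δ : TetComplex)

/-- The functional as a linear map. -/
def LLm {t : Finset E3} (ht : t ∈ Δ.tets) (c : (E3 →₀ ℕ) → ℝ) (a : E3 →₀ ℕ) :
    (E3 × ℝ) →ₗ[ℝ] ℝ where
  toFun w := LL Δ ht c a w
  map_add' w w' := by
    simp only [LL, map_add, Pi.add_apply, add_mul, Finset.sum_add_distrib]
  map_smul' r w := by
    simp only [LL, map_smul, Pi.smul_apply, smul_eq_mul, RingHom.id_apply, Finset.mul_sum,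
      mul_assoc]

theorem LLm_apply {t : Finset E3} (ht : t ∈ Δ.tets) (c : (E3 →₀ ℕ) → ℝ) (a : E3 →₀ ℕ)
    (w : E3 × ℝ) : LLm Δ ht c a w = LL Δ ht c a w := rfl

theorem LL_h {t : Finset E3} (ht : t ∈ Δ.tets) (c : (E3 →₀ ℕ) → ℝ) (a : E3 →₀ ℕ) {q : E3}
    (hq : q ∈ t) : LL Δ ht c a (hc q) = c (a + Finsupp.single q 1) := by
  unfold LL
  rw [Finset.sum_eq_single q]
  · rw [lm_h _ ht hq, if_pos rfl, one_mul]
  · intro p _ hp
    rw [lm_h _ ht hq, if_neg hp, zero_mul]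
  · intro hn; exact absurd hq hn

theorem conv_interior {t : Finset E3} (ht : t ∈ Δ.tets) :
    (interior (convexHull ℝ (t : Set E3))).Nonempty := by
  have hopen : IsOpen {x : E3 | ∀ p ∈ t, 0 < lm (isFan Δ) ht (hc x) p} := by
    have h1 : {x : E3 | ∀ p ∈ t, 0 < lm (isFan Δ) ht (hc x) p}
        = ⋂ p ∈ t, {x : E3 | 0 < lm (isFan Δ) ht (hc x) p} := by
      ext x; simp
    rw [h1]
    refine isOpen_biInter_finset fun p _ => ?_
    refine isOpen_lt continuous_const ?_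
    rw [continuous_iff_continuousAt]
    exact fun x => (lm_hasFDerivAt Δ ht p x).continuousAt
  have hsub : {x : E3 | ∀ p ∈ t, 0 < lm (isFan Δ) ht (hc x) p} ⊆ convexHull ℝ (t : Set E3) := by
    intro x hx
    rw [mem_conv_iff Δ ht]
    intro p
    by_cases hp : p ∈ t
    · exact (hx p hp).le
    · rw [lm_not _ ht _ hp]
  obtain ⟨h1, h2⟩ := exists_point Δ ht (Finset.Subset.refl t)
    (l := fun p => if p ∈ t then (1 : ℝ) / 4 else 0)
    (fun p => by split_ifs <;> norm_num) (fun p hp => by simp [hp]) (by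
      rw [Finset.sum_congr rfl (g := fun _ => (1 : ℝ) / 4) (fun p hp => if_pos hp),
        Finset.sum_const, Δ.card_eq t ht]; norm_num)
  have hmem : (∑ p ∈ t, (if p ∈ t then (1 : ℝ) / 4 else 0) • p)
      ∈ {x : E3 | ∀ p ∈ t, 0 < lm (isFan Δ) ht (hc x) p} := by
    intro p hp
    rw [h2]
    show (0 : ℝ) < if p ∈ t then (1 : ℝ) / 4 else 0
    rw [if_pos hp]; norm_num
  exact ⟨_, mem_interior.2 ⟨_, hsub, hopen, hmem⟩⟩

theorem fderiv_eq {n : ℕ} {g : E3 → ℝ} (hg : ContDiffOn ℝ 1 g Δ.space) {t : Finset E3}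
    (ht : t ∈ Δ.tets) {c : (E3 →₀ ℕ) → ℝ}
    (hgt : ∀ x ∈ convexHull ℝ (t : Set E3), g x = FB Δ ht (n + 1) c x) {x : E3}
    (hx : x ∈ convexHull ℝ (t : Set E3)) : fderivWithin ℝ g Δ.space x = dFB Δ ht n c x := by
  have hsub : convexHull ℝ (t : Set E3) ⊆ Δ.space := fun y hy => ⟨t, ht, hy⟩
  have hd : DifferentiableWithinAt ℝ g Δ.space x :=
    (hg.differentiableOn (by norm_num)) x (hsub hx)
  have h1 := (hd.hasFDerivWithinAt).mono hsub
  have h2 : HasFDerivWithinAt g (dFB Δ ht n c x) (convexHull ℝ (t : Set E3)) x :=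
    ((FB_hasFDerivAt Δ ht n c x).hasFDerivWithinAt).congr hgt (hgt x hx)
  have hu : UniqueDiffWithinAt ℝ (convexHull ℝ (t : Set E3)) x :=
    uniqueDiffWithinAt_convex (convex_convexHull ℝ _) (conv_interior Δ ht) (subset_closure hx)
  exact hu.eq h1 h2

theorem splines_le {n : ℕ} (hn : 1 ≤ n) {f : Δ.space → ℝ} (hf : f ∈ Δ.splines (n + 1)) :
    ∃ c ∈ Net Δ.tets hc n, Phi Δ (n + 1) c = f := by
  classical
  obtain ⟨⟨g, hg, hfg⟩, hp⟩ := hf
  have hct0 : ∀ t : Δ.tets, ∃ c : (E3 →₀ ℕ) → ℝ, ∀ x : Δ.space,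
      (x : E3) ∈ convexHull ℝ (t.1 : Set E3) → f x = FB Δ t.2 (n + 1) c x := by
    intro t
    obtain ⟨p, hp1, hpx⟩ := hp t.1 t.2
    obtain ⟨c, hc1⟩ := FB_of_poly Δ t.2 (n + 1) p hp1
    exact ⟨c, fun x hx => by rw [hpx x hx, hc1]⟩
  choose ct hct using hct0
  -- agreement of coefficients
  have hagree : ∀ (s t : Δ.tets) (b : E3 →₀ ℕ), b.support ⊆ s.1 → b.support ⊆ t.1 →
      b.degree = n + 1 → ct s b = ct t b := by
    intro s t b hbs hbt hbn
    have hne : (s.1 ∩ t.1).Nonempty := by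
      have hex : ∃ p, b p ≠ 0 := by
        by_contra hcon
        push Not at hcon
        have : b = 0 := Finsupp.ext hcon
        rw [this] at hbn
        simp at hbn
      obtain ⟨p, hp⟩ := hex
      have hpb := Finsupp.mem_support_iff.2 hp
      exact ⟨p, Finset.mem_inter.2 ⟨hbs hpb, hbt hpb⟩⟩
    have h0 := coeff_eq Δ s.2 Finset.inter_subset_left hne (n + 1)
      (fun b => ct s b + (-1) * ct t b) (fun x hx => ?_)
      (b := b) (Finset.subset_inter hbs hbt) hbn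
    · linarith
    · have hxs : x ∈ convexHull ℝ (s.1 : Set E3) :=
        convexHull_mono (by exact_mod_cast Finset.inter_subset_left) hx
      have hxt : x ∈ convexHull ℝ (t.1 : Set E3) :=
        convexHull_mono (by exact_mod_cast Finset.inter_subset_right) hx
      obtain ⟨h1, _⟩ := lm_meet (isFan Δ) s.2 t.2 ((mem_conv_iff Δ s.2).1 hxs)
        ((mem_conv_iff Δ t.2).1 hxt)
      rw [Bz_add, Bz_smul, ← Bz_meet Δ s.2 t.2 hxs hxt]
      have h2 : Bz (s.1 ∩ t.1) (n + 1) (ct t) (lm (isFan Δ) s.2 (hc x))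
          = Bz t.1 (n + 1) (ct t) (lm (isFan Δ) t.2 (hc x)) := by
        rw [h1, Finset.inter_comm, ← Bz_meet Δ t.2 s.2 hxt hxs]
      rw [h2]
      have h3 := hct s ⟨x, s.1, s.2, hxs⟩ hxs
      have h4 := hct t ⟨x, s.1, s.2, hxs⟩ hxt
      rw [h3] at h4
      unfold FB at h4
      rw [h4]
      ring
  -- the net
  let c : DD Δ.tets (n + 1) → ℝ := fun b =>
    ct ⟨_, ((mem_DD.1 b.2).1).choose_spec.1⟩ b.1
  have hcb : ∀ (t : Δ.tets) (b : E3 →₀ ℕ), b.support ⊆ t.1 → b.degree = n + 1 →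
      ext0 c b = ct t b := by
    intro t b hbt hbn
    have hD : b ∈ DD Δ.tets (n + 1) := mem_DD.2 ⟨⟨t.1, t.2, hbt⟩, hbn⟩
    rw [ext0, dif_pos hD]
    exact hagree _ t b (((mem_DD.1 hD).1).choose_spec.2) hbt hbn
  have hFB : ∀ (t : Δ.tets) (x : E3), FB Δ t.2 (n + 1) (ext0 c) x = FB Δ t.2 (n + 1) (ct t) x :=
    fun t x => Bz_congr _ _ _ fun b hb hbn => hcb t b hb hbn
  have hgt : ∀ (t : Δ.tets), ∀ x ∈ convexHull ℝ (t.1 : Set E3),
      g x = FB Δ t.2 (n + 1) (ext0 c) x := by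
    intro t x hx
    rw [hFB, ← hct t ⟨x, t.1, t.2, hx⟩ hx, hfg]
  refine ⟨c, ?_, ?_⟩
  · intro a ha r hr
    obtain ⟨⟨s0, hs0, has0⟩, han⟩ := mem_DD.1 ha
    have hane : ∃ q, q ∈ a.support := by
      by_contra hcon
      push Not at hcon
      have : a = 0 := Finsupp.ext fun q => by simpa using hcon q
      rw [this] at han
      simp at han
      omega
    obtain ⟨q, hq⟩ := hane
    -- equality of the functionals
    have hLL : ∀ (t : Δ.tets), a.support ⊆ t.1 → ∀ w, LL Δ hs0 (ext0 c) a w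
        = LL Δ t.2 (ext0 c) a w := by
      intro t hat
      have hne : (s0 ∩ t.1).Nonempty := ⟨q, Finset.mem_inter.2 ⟨has0 hq, hat hq⟩⟩
      have hv : ∀ v, LL Δ hs0 (ext0 c) a (v, 0) = LL Δ t.2 (ext0 c) a (v, 0) := by
        intro v
        have h0 := coeff_eq Δ hs0 Finset.inter_subset_left hne n
          (fun a => LL Δ hs0 (ext0 c) a (v, 0) + (-1) * LL Δ t.2 (ext0 c) a (v, 0)) (fun x hx => ?_)
          (b := a) (Finset.subset_inter has0 hat) han
        · linarith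
        · have hxs : x ∈ convexHull ℝ (s0 : Set E3) :=
            convexHull_mono (by exact_mod_cast Finset.inter_subset_left) hx
          have hxt : x ∈ convexHull ℝ (t.1 : Set E3) :=
            convexHull_mono (by exact_mod_cast Finset.inter_subset_right) hx
          obtain ⟨h1, _⟩ := lm_meet (isFan Δ) hs0 t.2 ((mem_conv_iff Δ hs0).1 hxs)
            ((mem_conv_iff Δ t.2).1 hxt)
          rw [Bz_add, Bz_smul, ← Bz_meet Δ hs0 t.2 hxs hxt]
          have h2 : Bz (s0 ∩ t.1) n (fun a => LL Δ t.2 (ext0 c) a (v, 0))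
              (lm (isFan Δ) hs0 (hc x))
              = Bz t.1 n (fun a => LL Δ t.2 (ext0 c) a (v, 0)) (lm (isFan Δ) t.2 (hc x)) := by
            rw [h1, Finset.inter_comm, ← Bz_meet Δ t.2 hs0 hxt hxs]
          rw [h2]
          have h3 := fderiv_eq Δ hg hs0 (hgt ⟨s0, hs0⟩) hxs
          have h4 := fderiv_eq Δ hg t.2 (hgt t) hxt
          rw [h3] at h4
          have h5 : dFB Δ hs0 n (ext0 c) x v = dFB Δ t.2 n (ext0 c) x v := by rw [h4]
          rw [dFB_apply, dFB_apply] at h5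
          have hn0 : (n : ℝ) + 1 ≠ 0 := by positivity
          have h6 := mul_left_cancel₀ hn0 h5
          rw [h6]
          ring
      intro w
      have hw : w = (w.1 - w.2 • q, (0 : ℝ)) + w.2 • hc q := by
        refine Prod.ext ?_ ?_
        · simp [hc]
        · simp [hc]
      rw [← LLm_apply, ← LLm_apply, hw, map_add, map_add, map_smul, map_smul, LLm_apply, LLm_apply,
        LLm_apply, LLm_apply, hv, LL_h Δ hs0 _ _ (has0 hq), LL_h Δ t.2 _ _ (hat hq)]
    -- the relation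
    have h1 : ∀ p ∈ nb Δ.tets a.support, ext0 c (a + Finsupp.single p 1)
        = LLm Δ hs0 (ext0 c) a (hc p) := by
      intro p hp
      obtain ⟨t, ht, hat, hpt⟩ := mem_nb.1 hp
      rw [LLm_apply, hLL ⟨t, ht⟩ hat, LL_h Δ ht _ _ hpt]
    rw [Finset.sum_congr rfl (g := fun p => LLm Δ hs0 (ext0 c) a (r p • hc p)) (fun p hp => by
      rw [h1 p hp, map_smul, smul_eq_mul]), ← map_sum]
    have h2 : ∑ p ∈ nb Δ.tets a.support, r p • hc p = 0 := by
      rw [← Rel_sum_eq_zero hr]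
      refine Finset.sum_subset (nb_subset_VV _) fun p _ hp => ?_
      rw [Rel_apply_eq_zero hr hp, zero_smul]
    rw [h2, map_zero]
  · funext x
    obtain ⟨t, ht, hxt⟩ := x.2
    have h1 : Phi Δ (n + 1) c x = FB Δ ht (n + 1) (ext0 c) x := PhiF_eq Δ ht (n + 1) (ext0 c) x hxt
    rw [h1, hFB ⟨t, ht⟩, ← hct ⟨t, ht⟩ x hxt]

/-- The splines are the functions of nets. -/
theorem splines_eq {n : ℕ} (hn : 1 ≤ n) :
    Δ.splines (n + 1) = (Net Δ.tets hc n).map (Phi Δ (n + 1)) := by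
  ext f
  rw [Submodule.mem_map]
  constructor
  · intro hf
    exact splines_le Δ hn hf
  · rintro ⟨c, hcN, rfl⟩
    exact Phi_mem Δ hcN

theorem finrank_splines {n : ℕ} (hn : 1 ≤ n) :
    Module.finrank ℝ (Δ.splines (n + 1)) = Module.finrank ℝ (Net Δ.tets hc n) := by
  rw [splines_eq Δ hn]
  exact (LinearEquiv.finrank_eq (Submodule.equivMapOfInjective (Phi Δ (n + 1))
    (Phi_injective Δ (n + 1)) (Net Δ.tets hc n))).symm

theorem finite_splines {n : ℕ} (hn : 1 ≤ n) : FiniteDimensional ℝ (Δ.splines (n + 1)) := by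
  rw [splines_eq Δ hn]
  infer_instance

end Pool.CB
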