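import Pool.Agent.Work.CB.Net

open scoped BigOperators
open Finset

noncomputable section

namespace Pool.CB

variable {P : Type*} [DecidableEq P] {W : Type*} [AddCommGroup W] [Module ℝ W]

/-- Stresses: families of relations with vanishing boundary. -/
def StressT (T : Finset (Finset P)) (h : P → W) (k : ℕ) :
    Submodule ℝ ((P →₀ ℕ) → (P →₀ ℝ)) where
  carrier := {ρ | (∀ a, ρ a ∈ Rel T h a.support) ∧ (∀ a, a ∉ DD T k → ρ a = 0) ∧
    ∀ b : P →₀ ℕ, ∑ p ∈ b.support, ρ (b - Finsupp.single p 1) p = 0}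
  add_mem' := by
    rintro ρ ρ' ⟨h1, h2, h3⟩ ⟨h1', h2', h3'⟩
    refine ⟨fun a => Submodule.add_mem _ (h1 a) (h1' a), fun a ha => ?_, fun b => ?_⟩
    · simp [h2 a ha, h2' a ha]
    · simp only [Pi.add_apply, Finsupp.add_apply, Finset.sum_add_distrib, h3 b, h3' b, add_zero]
  zero_mem' := ⟨fun a => Submodule.zero_mem _, fun a _ => rfl, fun b => by simp⟩
  smul_mem' := by
    rintro c ρ ⟨h1, h2, h3⟩
    refine ⟨fun a => Submodule.smul_mem _ c (h1 a), fun a ha => ?_, fun b => ?_⟩
    · simp [h2 a ha]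
    · simp only [Pi.smul_apply, Finsupp.smul_apply, smul_eq_mul, ← Finset.mul_sum, h3 b, mul_zero]

theorem mem_StressT {T : Finset (Finset P)} {h : P → W} {k : ℕ} {ρ : (P →₀ ℕ) → (P →₀ ℝ)} :
    ρ ∈ StressT T h k ↔ (∀ a, ρ a ∈ Rel T h a.support) ∧ (∀ a, a ∉ DD T k → ρ a = 0) ∧
    ∀ b : P →₀ ℕ, ∑ p ∈ b.support, ρ (b - Finsupp.single p 1) p = 0 := Iff.rfl

theorem Rel_apply_eq_zero {T : Finset (Finset P)} {h : P → W} {s : Finset P} {r : P →₀ ℝ}
    (hr : r ∈ Rel T h s) {p : P} (hp : p ∉ nb T s) : r p = 0 := by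
  have h1 : r ∈ Finsupp.supported ℝ ℝ (nb T s : Set P) := (Submodule.mem_inf.1 hr).1
  rw [Finsupp.mem_supported] at h1
  by_contra hne
  exact hp (h1 (Finset.mem_coe.2 (Finsupp.mem_support_iff.2 hne)))

theorem sub_single_eq_iff {a b : P →₀ ℕ} {p : P} (hp : p ∈ b.support) :
    b - Finsupp.single p 1 = a ↔ a + Finsupp.single p 1 = b := by
  have hle : Finsupp.single p 1 ≤ b := by
    rw [Finsupp.single_le_iff]
    exact Nat.one_le_iff_ne_zero.2 (Finsupp.mem_support_iff.1 hp)
  constructor
  · rintro rfl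
    exact tsub_add_cancel_of_le hle
  · rintro rfl
    exact add_tsub_cancel_right _ _

/-- Extension by zero of families of relations. -/
def extR {T : Finset (Finset P)} {h : P → W} {k : ℕ}
    (ρ : (a : DD T k) → Rel T h a.1.support) (a : P →₀ ℕ) : P →₀ ℝ :=
  if ha : a ∈ DD T k then (ρ ⟨a, ha⟩ : P →₀ ℝ) else 0

theorem bd_eq (T : Finset (Finset P)) (h : P → W) (k : ℕ)
    (ρ : (a : DD T k) → Rel T h a.1.support) (b : DD T (k + 1)) :
    bd T h k ρ b = ∑ p ∈ b.1.support, extR ρ (b.1 - Finsupp.single p 1) p := by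
  have h1 : bd T h k ρ b = ∑ a : DD T k, ∑ p ∈ b.1.support,
      if a.1 + Finsupp.single p 1 = b.1 then (ρ a : P →₀ ℝ) p else 0 := by
    simp only [bd, LinearMap.coe_mk, AddHom.coe_mk]
    refine Finset.sum_congr rfl fun a _ => ?_
    rw [← Finset.sum_subset (Finset.inter_subset_left (s₁ := nb T a.1.support)
      (s₂ := b.1.support)), ← Finset.sum_subset (Finset.inter_subset_right
      (s₁ := nb T a.1.support) (s₂ := b.1.support))]
    · intro p hp hpn
      have : p ∉ nb T a.1.support := fun hh => hpn (Finset.mem_inter.2 ⟨hh, hp⟩)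
      rw [Rel_apply_eq_zero (ρ a).2 this, ite_self]
    · intro p hp hpn
      rw [if_neg]
      intro hab
      apply hpn
      rw [Finset.mem_inter]
      refine ⟨hp, ?_⟩
      rw [← hab, support_add_single]
      exact Finset.mem_insert_self _ _
  rw [h1, Finset.sum_comm]
  refine Finset.sum_congr rfl fun p hp => ?_
  by_cases ha : b.1 - Finsupp.single p 1 ∈ DD T k
  · rw [Finset.sum_eq_single (⟨b.1 - Finsupp.single p 1, ha⟩ : DD T k)]
    · rw [if_pos ((sub_single_eq_iff hp).1 rfl)]
      simp [extR, ha]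
    · intro a _ hne
      rw [if_neg]
      intro hab
      exact hne (Subtype.ext ((sub_single_eq_iff hp).2 hab).symm)
    · intro hn
      exact absurd (Finset.mem_univ _) hn
  · rw [Finset.sum_eq_zero]
    · simp [extR, ha]
    · intro a _
      rw [if_neg]
      intro hab
      apply ha
      rw [(sub_single_eq_iff hp).2 hab]
      exact a.2

theorem degree_sub_single {b : P →₀ ℕ} {p : P} (hp : p ∈ b.support) :
    (b - Finsupp.single p 1).degree + 1 = b.degree := by
  have := (sub_single_eq_iff hp).1 (rfl : b - Finsupp.single p 1 = b - Finsupp.single p 1)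
  conv_rhs => rw [← this]
  rw [map_add]
  simp

theorem extR_sum_eq_zero {T : Finset (Finset P)} {h : P → W} {k : ℕ}
    (ρ : (a : DD T k) → Rel T h a.1.support) {b : P →₀ ℕ} (hb : b ∉ DD T (k + 1)) :
    ∑ p ∈ b.support, extR ρ (b - Finsupp.single p 1) p = 0 := by
  refine Finset.sum_eq_zero fun p hp => ?_
  unfold extR
  split_ifs with ha
  · apply Rel_apply_eq_zero (ρ ⟨_, ha⟩).2
    intro hpn
    apply hb
    have h1 := add_single_mem_DD (mem_DD.1 ha).2 hpn
    rwa [(sub_single_eq_iff hp).1 rfl] at h1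
  · simp

/-- Restriction of a stress to the finite index set. -/
def restr (T : Finset (Finset P)) (h : P → W) (k : ℕ) :
    StressT T h k →ₗ[ℝ] ((a : DD T k) → Rel T h a.1.support) where
  toFun ρ a := ⟨ρ.1 a.1, ρ.2.1 a.1⟩
  map_add' _ _ := rfl
  map_smul' _ _ := rfl

theorem extR_restr {T : Finset (Finset P)} {h : P → W} {k : ℕ} (ρ : StressT T h k) :
    extR (restr T h k ρ) = ρ.1 := by
  funext a
  unfold extR
  split_ifs with ha
  · rfl
  · exact (ρ.2.2.1 a ha).symm

theorem restr_injective (T : Finset (Finset P)) (h : P → W) (k : ℕ) :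
    Function.Injective (restr T h k) := by
  intro ρ ρ' he
  apply Subtype.ext
  rw [← extR_restr ρ, ← extR_restr ρ', he]

theorem range_restr (T : Finset (Finset P)) (h : P → W) (k : ℕ) :
    LinearMap.range (restr T h k) = LinearMap.ker (bd T h k) := by
  ext ρ
  rw [LinearMap.mem_ker]
  constructor
  · rintro ⟨σ, rfl⟩
    funext b
    rw [bd_eq, extR_restr]
    exact σ.2.2.2 b.1
  · intro hρ
    refine ⟨⟨extR ρ, ?_, ?_, ?_⟩, ?_⟩
    · intro a
      unfold extR
      split_ifs with ha
      · exact (ρ ⟨a, ha⟩).2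
      · exact Submodule.zero_mem _
    · intro a ha
      simp [extR, ha]
    · intro b
      by_cases hb : b ∈ DD T (k + 1)
      · have := congrFun hρ ⟨b, hb⟩
        rw [bd_eq] at this
        exact this
      · exact extR_sum_eq_zero ρ hb
    · funext a
      apply Subtype.ext
      simp [restr, extR]

theorem fd_of_inj {U Y : Type*} [AddCommGroup U] [Module ℝ U] [AddCommGroup Y] [Module ℝ Y]
    [FiniteDimensional ℝ Y] (f : U →ₗ[ℝ] Y) (hf : Function.Injective f) : FiniteDimensional ℝ U :=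
  Module.Finite.of_injective f hf

instance finite_StressT (T : Finset (Finset P)) (h : P → W) (k : ℕ) :
    FiniteDimensional ℝ (StressT T h k) :=
  fd_of_inj (Y := (a : DD T k) → Rel T h a.1.support) (restr T h k) (restr_injective T h k)

theorem finrank_StressT (T : Finset (Finset P)) (h : P → W) (k : ℕ) :
    Module.finrank ℝ (StressT T h k) = Module.finrank ℝ (LinearMap.ker (bd T h k)) := by
  rw [← range_restr]
  exact (LinearMap.finrank_range_of_inj (restr_injective T h k)).symm

theorem net_stress (T : Finset (Finset P)) (h : P → W) (k : ℕ) :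
    Module.finrank ℝ (Net T h k) + ∑ a : DD T k, Module.finrank ℝ (Rel T h a.1.support)
      = (DD T (k + 1)).card + Module.finrank ℝ (StressT T h k) := by
  rw [net_finrank, finrank_StressT]

end Pool.CB
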