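import Pool.Agent.Work.CB.Decomp

open scoped BigOperators
open Finset

noncomputable section

namespace Pool.CB

variable {P : Type*} [DecidableEq P] {W : Type*} [AddCommGroup W] [Module ℝ W]
variable {T : Finset (Finset P)} {h : P → W}

/-- All vertices. -/
def VV (T : Finset (Finset P)) : Finset P := T.biUnion id

theorem mem_VV {p : P} : p ∈ VV T ↔ ∃ t ∈ T, p ∈ t := by simp [VV]

theorem nb_subset_VV (s : Finset P) : nb T s ⊆ VV T := by
  intro p hp
  obtain ⟨t, ht, _, hpt⟩ := mem_nb.1 hp
  exact mem_VV.2 ⟨t, ht, hpt⟩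

theorem Rel_sum_eq_zero {s : Finset P} {r : P →₀ ℝ} (hr : r ∈ Rel T h s) :
    ∑ x ∈ VV T, r x • h x = 0 := by
  have h1 := LinearMap.mem_ker.1 (Submodule.mem_inf.1 hr).2
  rw [Finsupp.linearCombination_apply, Finsupp.sum_of_support_subset r (s := VV T)] at h1
  · exact h1
  · intro p hp
    by_contra hn
    exact (Finsupp.mem_support_iff.1 hp) (Rel_apply_eq_zero hr fun hh => hn (nb_subset_VV _ hh))
  · intro i _
    exact zero_smul _ _

theorem Rel_eq_zero_of_not_face {s : Finset P} {r : P →₀ ℝ} (hr : r ∈ Rel T h s)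
    (hs : ¬ ∃ t ∈ T, s ⊆ t) : r = 0 := by
  ext p
  apply Rel_apply_eq_zero hr
  intro hpn
  obtain ⟨t', ht', hst', _⟩ := mem_nb.1 hpn
  exact hs ⟨t', ht', hst'⟩

theorem mem_Rel_iff {s : Finset P} {r : P →₀ ℝ} :
    r ∈ Rel T h s ↔ (∀ p, p ∉ nb T s → r p = 0) ∧ ∑ x ∈ VV T, r x • h x = 0 := by
  constructor
  · intro hr
    exact ⟨fun p hp => Rel_apply_eq_zero hr hp, Rel_sum_eq_zero hr⟩
  · rintro ⟨h1, h2⟩
    have hsub : r.support ⊆ nb T s := by
      intro p hp
      by_contra hn
      exact (Finsupp.mem_support_iff.1 hp) (h1 p hn)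
    refine Submodule.mem_inf.2 ⟨?_, ?_⟩
    · rw [Finsupp.mem_supported]
      exact_mod_cast hsub
    · rw [LinearMap.mem_ker, Finsupp.linearCombination_apply,
        Finsupp.sum_of_support_subset r (s := VV T) (hsub.trans (nb_subset_VV _))]
      · exact h2
      · intro i _
        exact zero_smul _ _

/-- The basis of `W` given by a simplex. -/
def tetBasis (hT : IsFan T h) {t : Finset P} (ht : t ∈ T) : Module.Basis t ℝ W :=
  haveI : Nonempty t := by
    have h1 : 0 < t.card := by rw [hT.card_eq t ht]; norm_num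
    obtain ⟨x, hx⟩ := Finset.card_pos.1 h1
    exact ⟨⟨x, hx⟩⟩
  basisOfLinearIndependentOfCardEqFinrank (b := fun x : t => h x.1) (hT.indep t ht)
    (by rw [Fintype.card_coe, hT.card_eq t ht, hT.span])

theorem tetBasis_apply (hT : IsFan T h) {t : Finset P} (ht : t ∈ T) (x : t) :
    tetBasis hT ht x = h x.1 := by
  simp [tetBasis]

/-- The double sum identity. -/
theorem sig_double {e : Finset P} {κ : P → (P →₀ ℝ)} (hκ : κ ∈ Sig T h e) (he : e ⊆ VV T)
    (φ ψ : W →ₗ[ℝ] ℝ) :
    ∑ p ∈ e, (φ (h p) * ψ (∑ w ∈ VV T \ e, κ w p • h w)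
      + ψ (h p) * φ (∑ w ∈ VV T \ e, κ w p • h w)) = 0 := by
  obtain ⟨k1, k2, k3⟩ := mem_Sig.1 hκ
  have key : ∀ φ ψ : W →ₗ[ℝ] ℝ,
      ∑ w ∈ VV T \ e, ∑ x ∈ VV T \ e, κ w x * ψ (h w) * φ (h x)
        + ∑ p ∈ e, φ (h p) * ψ (∑ w ∈ VV T \ e, κ w p • h w) = 0 := by
    intro φ ψ
    have h1 : ∀ w, ∑ x ∈ VV T, κ w x * φ (h x) = 0 := by
      intro w
      have := congrArg φ (Rel_sum_eq_zero (k1 w))
      simpa [map_sum] using this
    have h2 : ∑ w ∈ VV T \ e, ψ (h w) * ∑ x ∈ VV T, κ w x * φ (h x) = 0 :=
      Finset.sum_eq_zero fun w _ => by rw [h1 w, mul_zero]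
    rw [← h2]
    have h3 : ∑ p ∈ e, φ (h p) * ψ (∑ w ∈ VV T \ e, κ w p • h w)
        = ∑ w ∈ VV T \ e, ∑ p ∈ e, ψ (h w) * (κ w p * φ (h p)) := by
      rw [Finset.sum_comm]
      refine Finset.sum_congr rfl fun p _ => ?_
      rw [map_sum, Finset.mul_sum]
      refine Finset.sum_congr rfl fun w _ => ?_
      rw [map_smul, smul_eq_mul]; ring
    rw [h3, ← Finset.sum_add_distrib]
    refine Finset.sum_congr rfl fun w _ => ?_
    rw [← Finset.sum_sdiff he, mul_add, Finset.mul_sum, Finset.mul_sum]
    congr 1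
    refine Finset.sum_congr rfl fun x _ => ?_
    ring
  have k4 : ∑ w ∈ VV T \ e, ∑ x ∈ VV T \ e, κ w x * ψ (h w) * φ (h x)
      + ∑ w ∈ VV T \ e, ∑ x ∈ VV T \ e, κ w x * φ (h w) * ψ (h x) = 0 := by
    conv_lhs => arg 2; rw [Finset.sum_comm]
    rw [← Finset.sum_add_distrib]
    refine Finset.sum_eq_zero fun w hw => ?_
    rw [← Finset.sum_add_distrib]
    refine Finset.sum_eq_zero fun x hx => ?_
    have := k3 w x (Finset.mem_sdiff.1 hw).2 (Finset.mem_sdiff.1 hx).2
    linear_combination (ψ (h w) * φ (h x)) * this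
  have h5 := key φ ψ
  have h6 := key ψ φ
  rw [Finset.sum_add_distrib]
  linarith

theorem sig_extend (hT : IsFan T h) {u v : P} (huv : u ≠ v) {t0 : Finset P} (ht0 : t0 ∈ T)
    (hu : u ∈ t0) (hv : v ∈ t0) {κ : P → (P →₀ ℝ)} (hκ : κ ∈ Sig T h {u, v}) :
    ∃ R : P → (P →₀ ℝ), (∀ p, R p ∈ Rel T h (insert p {u, v})) ∧ (∀ p q, R p q + R q p = 0) ∧
      ∀ w, w ≠ u → w ≠ v → R w = κ w := by
  obtain ⟨k1, k2, k3⟩ := mem_Sig.1 hκ
  have huV : u ∈ VV T := mem_VV.2 ⟨t0, ht0, hu⟩
  have hvV : v ∈ VV T := mem_VV.2 ⟨t0, ht0, hv⟩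
  have he : ({u, v} : Finset P) ⊆ VV T := by
    intro x hx
    rw [Finset.mem_insert, Finset.mem_singleton] at hx
    rcases hx with rfl | rfl <;> assumption
  set b := tetBasis hT ht0 with hb
  have hbu : ∀ i : t0, b i = h i.1 := fun i => tetBasis_apply hT ht0 i
  have hco : ∀ i j : t0, b.coord i (h j.1) = if j = i then 1 else 0 := by
    intro i j
    rw [← hbu j, Module.Basis.coord_apply, Module.Basis.repr_self, Finsupp.single_apply]
  let u' : t0 := ⟨u, hu⟩
  let v' : t0 := ⟨v, hv⟩
  have huv' : u' ≠ v' := fun hh => huv (congrArg Subtype.val hh)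
  set Xu := ∑ w ∈ VV T \ {u, v}, κ w u • h w with hXu
  set Xv := ∑ w ∈ VV T \ {u, v}, κ w v • h w with hXv
  have hI : ∀ φ ψ : W →ₗ[ℝ] ℝ, (φ (h u) * ψ Xu + ψ (h u) * φ Xu)
      + (φ (h v) * ψ Xv + ψ (h v) * φ Xv) = 0 := by
    intro φ ψ
    have := sig_double hκ he φ ψ
    rwa [Finset.sum_pair huv] at this
  have huu : b.coord u' (h u) = 1 := by have := hco u' u'; simpa using this
  have huv2 : b.coord u' (h v) = 0 := by have := hco u' v'; simpa [huv'.symm] using this
  have hvu : b.coord v' (h u) = 0 := by have := hco v' u'; simpa [huv'] using this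
  have hvv : b.coord v' (h v) = 1 := by have := hco v' v'; simpa using this
  have e1 : b.coord u' Xu = 0 := by
    have := hI (b.coord u') (b.coord u')
    rw [huu, huv2] at this; linarith
  have e2 : b.coord v' Xv = 0 := by
    have := hI (b.coord v') (b.coord v')
    rw [hvu, hvv] at this; linarith
  have e3 : b.coord v' Xu + b.coord u' Xv = 0 := by
    have := hI (b.coord u') (b.coord v')
    rw [huu, huv2, hvu, hvv] at this; linarith
  have e4 : ∀ i : t0, i ≠ u' → i ≠ v' → b.coord i Xu = 0 ∧ b.coord i Xv = 0 := by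
    intro i hiu hiv
    have h1 : b.coord i (h u) = 0 := by have := hco i u'; simpa [hiu.symm] using this
    have h2 : b.coord i (h v) = 0 := by have := hco i v'; simpa [hiv.symm] using this
    constructor
    · have := hI (b.coord u') (b.coord i)
      rw [huu, huv2, h1, h2] at this; linarith
    · have := hI (b.coord v') (b.coord i)
      rw [hvu, hvv, h1, h2] at this; linarith
  set lam := b.coord v' Xu with hlam
  have hXu' : Xu = lam • h v := by
    apply b.ext_elem
    intro i
    rw [← Module.Basis.coord_apply, ← Module.Basis.coord_apply, map_smul, smul_eq_mul]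
    by_cases hiu : i = u'
    · subst hiu; rw [e1, huv2, mul_zero]
    · by_cases hiv : i = v'
      · subst hiv; rw [hvv, mul_one]
      · have h2 : b.coord i (h v) = 0 := by
          have := hco i v'; simpa [Ne.symm hiv] using this
        rw [(e4 i hiu hiv).1, h2, mul_zero]
  have hXv' : Xv = (-lam) • h u := by
    apply b.ext_elem
    intro i
    rw [← Module.Basis.coord_apply, ← Module.Basis.coord_apply, map_smul, smul_eq_mul]
    by_cases hiu : i = u'
    · subst hiu; rw [huu, mul_one]; linarith
    · by_cases hiv : i = v'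
      · subst hiv; rw [e2, hvu, mul_zero]
      · have h2 : b.coord i (h u) = 0 := by
          have := hco i u'; simpa [Ne.symm hiu] using this
        rw [(e4 i hiu hiv).2, h2, mul_zero]
  let Ru : P →₀ ℝ := Finsupp.single v lam - ∑ w ∈ VV T \ {u, v}, Finsupp.single w (κ w u)
  let Rv : P →₀ ℝ := Finsupp.single u (-lam) - ∑ w ∈ VV T \ {u, v}, Finsupp.single w (κ w v)
  have hsumapp : ∀ (f : P → ℝ) (x : P), (∑ w ∈ VV T \ {u, v}, Finsupp.single w (f w)) x
      = if x ∈ VV T \ {u, v} then f x else 0 := by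
    intro f x
    rw [Finsupp.finset_sum_apply]
    simp only [Finsupp.single_apply]
    rw [Finset.sum_ite_eq']
  have hRu : ∀ x, Ru x = (if v = x then lam else 0) - (if x ∈ VV T \ {u, v} then κ x u else 0) := by
    intro x
    show (Finsupp.single v lam - ∑ w ∈ VV T \ {u, v}, Finsupp.single w (κ w u)) x = _
    rw [Finsupp.sub_apply, hsumapp (fun w => κ w u), Finsupp.single_apply]
  have hRv : ∀ x, Rv x = (if u = x then -lam else 0) - (if x ∈ VV T \ {u, v} then κ x v else 0) := by
    intro x
    show (Finsupp.single u (-lam) - ∑ w ∈ VV T \ {u, v}, Finsupp.single w (κ w v)) x = _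
    rw [Finsupp.sub_apply, hsumapp (fun w => κ w v), Finsupp.single_apply]
  have hnbe : ∀ x, x ∈ VV T \ {u, v} → κ x ≠ 0 → x ∈ nb T {u, v} := by
    intro x hx hne
    by_contra hn
    apply hne
    apply Rel_eq_zero_of_not_face (k1 x)
    rintro ⟨t, ht, hst⟩
    rw [Finset.insert_subset_iff] at hst
    exact hn (mem_nb.2 ⟨t, ht, hst.2, hst.1⟩)
  have hune : u ∈ nb T {u, v} := mem_nb.2 ⟨t0, ht0, by
    intro x hx
    rw [Finset.mem_insert, Finset.mem_singleton] at hx
    rcases hx with rfl | rfl <;> assumption, hu⟩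
  have hvne : v ∈ nb T {u, v} := mem_nb.2 ⟨t0, ht0, by
    intro x hx
    rw [Finset.mem_insert, Finset.mem_singleton] at hx
    rcases hx with rfl | rfl <;> assumption, hv⟩
  have hRuRel : Ru ∈ Rel T h {u, v} := by
    rw [mem_Rel_iff]
    constructor
    · intro p hp
      rw [hRu]
      have hpv : v ≠ p := fun hh => hp (hh ▸ hvne)
      rw [if_neg hpv]
      split_ifs with hpp
      · have : κ p = 0 := by
          by_contra hne
          exact hp (hnbe p hpp hne)
        rw [this]; simp
      · simp
    · have : ∑ x ∈ VV T, Ru x • h x = lam • h v - Xu := by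
        simp only [hRu, sub_smul, Finset.sum_sub_distrib, ite_smul, zero_smul]
        rw [Finset.sum_ite_eq, if_pos hvV]
        congr 1
        rw [hXu, ← Finset.sum_filter]
        congr 1
        ext x
        simp only [Finset.mem_filter, Finset.mem_sdiff]
        tauto
      rw [this, hXu', sub_self]
  have hRvRel : Rv ∈ Rel T h {u, v} := by
    rw [mem_Rel_iff]
    constructor
    · intro p hp
      rw [hRv]
      have hpv : u ≠ p := fun hh => hp (hh ▸ hune)
      rw [if_neg hpv]
      split_ifs with hpp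
      · have : κ p = 0 := by
          by_contra hne
          exact hp (hnbe p hpp hne)
        rw [this]; simp
      · simp
    · have : ∑ x ∈ VV T, Rv x • h x = (-lam) • h u - Xv := by
        simp only [hRv, sub_smul, Finset.sum_sub_distrib, ite_smul, zero_smul]
        rw [Finset.sum_ite_eq, if_pos huV]
        congr 1
        rw [hXv, ← Finset.sum_filter]
        congr 1
        ext x
        simp only [Finset.mem_filter, Finset.mem_sdiff]
        tauto
      rw [this, hXv', sub_self]
  refine ⟨fun p => if p = u then Ru else if p = v then Rv else κ p, ?_, ?_, ?_⟩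
  · intro p
    show (if p = u then Ru else if p = v then Rv else κ p) ∈ Rel T h (insert p {u, v})
    by_cases hpu : p = u
    · rw [if_pos hpu, hpu, Finset.insert_eq_of_mem (by simp)]; exact hRuRel
    · rw [if_neg hpu]
      by_cases hpv : p = v
      · rw [if_pos hpv, hpv, Finset.insert_eq_of_mem (by simp)]; exact hRvRel
      · rw [if_neg hpv]; exact k1 p
  · have hκV : ∀ w, w ∉ VV T → κ w = 0 := by
      intro w hw
      apply Rel_eq_zero_of_not_face (k1 w)
      rintro ⟨t, ht, hst⟩
      rw [Finset.insert_subset_iff] at hst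
      exact hw (mem_VV.2 ⟨t, ht, hst.1⟩)
    have hA : ∀ w, w ≠ u → w ≠ v → Ru w + κ w u = 0 ∧ Rv w + κ w v = 0 := by
      intro w hwu hwv
      rw [hRu, hRv, if_neg (Ne.symm hwv), if_neg (Ne.symm hwu)]
      by_cases hw : w ∈ VV T
      · have : w ∈ VV T \ {u, v} := by
          rw [Finset.mem_sdiff]; exact ⟨hw, by simp [hwu, hwv]⟩
        rw [if_pos this, if_pos this]
        constructor <;> ring
      · rw [hκV w hw]
        simp
    intro p q
    show (if p = u then Ru else if p = v then Rv else κ p) q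
      + (if q = u then Ru else if q = v then Rv else κ q) p = 0
    by_cases hpu : p = u
    · by_cases hqu : q = u
      · rw [if_pos hpu, if_pos hqu, hqu, hpu, hRu]
        simp [huv.symm]
      · by_cases hqv : q = v
        · rw [if_pos hpu, if_neg hqu, if_pos hqv, hpu, hqv, hRu, hRv]
          simp
        · rw [if_pos hpu, if_neg hqu, if_neg hqv, hpu]
          exact (hA q hqu hqv).1
    · by_cases hpv : p = v
      · by_cases hqu : q = u
        · rw [if_neg hpu, if_pos hpv, if_pos hqu, hpv, hqu, hRu, hRv]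
          simp
        · by_cases hqv : q = v
          · rw [if_neg hpu, if_pos hpv, if_neg hqu, if_pos hqv, hpv, hqv, hRv]
            simp [huv]
          · rw [if_neg hpu, if_pos hpv, if_neg hqu, if_neg hqv, hpv]
            exact (hA q hqu hqv).2
      · rw [if_neg hpu, if_neg hpv]
        by_cases hqu : q = u
        · rw [if_pos hqu, hqu]
          have := (hA p hpu hpv).1
          linarith
        · by_cases hqv : q = v
          · rw [if_neg hqu, if_pos hqv, hqv]
            have := (hA p hpu hpv).2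
            linarith
          · rw [if_neg hqu, if_neg hqv]
            exact k3 p q (by simp [hpu, hpv]) (by simp [hqu, hqv])
  · intro w hwu hwv
    show (if w = u then Ru else if w = v then Rv else κ w) = κ w
    rw [if_neg hwu, if_neg hwv]

/-- The stress around a multi-index built from an antisymmetric family. -/
def stressOf (V : Finset P) (m : P →₀ ℕ) (R : P → (P →₀ ℝ)) (a : P →₀ ℕ) : P →₀ ℝ :=
  ∑ p ∈ V, if m + Finsupp.single p 1 = a then R p else 0

theorem add_single_inj {m : P →₀ ℕ} {p q : P}
    (hh : m + Finsupp.single p 1 = m + Finsupp.single q 1) : p = q := by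
  have h1 := add_left_cancel hh
  have h2 := DFunLike.congr_fun h1 p
  rw [Finsupp.single_eq_same, Finsupp.single_apply] at h2
  by_contra hne
  rw [if_neg (Ne.symm hne)] at h2
  exact one_ne_zero h2

theorem stressOf_at {V : Finset P} {m : P →₀ ℕ} {R : P → (P →₀ ℝ)} (hR : ∀ p, p ∉ V → R p = 0)
    (q : P) : stressOf V m R (m + Finsupp.single q 1) = R q := by
  unfold stressOf
  by_cases hq : q ∈ V
  · rw [Finset.sum_eq_single q]
    · rw [if_pos rfl]
    · intro p _ hpq
      rw [if_neg]
      intro hh
      exact hpq (add_single_inj hh)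
    · intro hn; exact absurd hq hn
  · rw [hR q hq]
    refine Finset.sum_eq_zero fun p hp => ?_
    rw [if_neg]
    intro hh
    exact hq (add_single_inj hh ▸ hp)

theorem stressOf_mem {m : P →₀ ℕ} {k : ℕ} (hmk : m.degree = k) {R : P → (P →₀ ℝ)}
    (hR : ∀ p, R p ∈ Rel T h (insert p m.support)) (hanti : ∀ p q, R p q + R q p = 0) :
    stressOf (VV T) m R ∈ StressT T h (k + 1) := by
  refine mem_StressT.2 ⟨fun a => ?_, fun a ha => ?_, fun b => ?_⟩
  · unfold stressOf
    refine Submodule.sum_mem _ fun p _ => ?_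
    split_ifs with hh
    · rw [← hh, support_add_single]; exact hR p
    · exact Submodule.zero_mem _
  · unfold stressOf
    refine Finset.sum_eq_zero fun p _ => ?_
    split_ifs with hh
    · apply Rel_eq_zero_of_not_face (hR p)
      intro hex
      apply ha
      rw [mem_DD, ← hh, support_add_single, map_add, hmk]
      exact ⟨hex, by simp⟩
    · rfl
  · have hRV : ∀ q p, p ∉ VV T → R q p = 0 := fun q p hp =>
      Rel_apply_eq_zero (hR q) fun hh => hp (nb_subset_VV _ hh)
    have h1 : ∑ p ∈ b.support, stressOf (VV T) m R (b - Finsupp.single p 1) p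
        = ∑ p ∈ VV T, ∑ q ∈ VV T, if m + Finsupp.single q 1 + Finsupp.single p 1 = b
          then R q p else 0 := by
      have h2 : ∀ p ∈ b.support, stressOf (VV T) m R (b - Finsupp.single p 1) p
          = ∑ q ∈ VV T, if m + Finsupp.single q 1 + Finsupp.single p 1 = b then R q p else 0 := by
        intro p hp
        unfold stressOf
        rw [Finsupp.finset_sum_apply]
        refine Finset.sum_congr rfl fun q _ => ?_
        by_cases hh : m + Finsupp.single q 1 + Finsupp.single p 1 = b
        · rw [if_pos hh, if_pos ((sub_single_eq_iff hp).2 hh).symm]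
        · rw [if_neg hh, if_neg]
          · rfl
          · intro h3
            exact hh ((sub_single_eq_iff hp).1 h3.symm)
      rw [Finset.sum_congr rfl h2]
      rw [← Finset.sum_subset (Finset.inter_subset_left (s₁ := b.support) (s₂ := VV T)),
        ← Finset.sum_subset (Finset.inter_subset_right (s₁ := b.support) (s₂ := VV T))]
      · intro p hp hpn
        refine Finset.sum_eq_zero fun q _ => ?_
        rw [if_neg]
        intro hh
        apply hpn
        rw [Finset.mem_inter]
        refine ⟨?_, hp⟩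
        rw [← hh, support_add_single]
        exact Finset.mem_insert_self _ _
      · intro p hp hpn
        have hpV : p ∉ VV T := fun hh => hpn (Finset.mem_inter.2 ⟨hp, hh⟩)
        refine Finset.sum_eq_zero fun q _ => ?_
        rw [hRV q p hpV, ite_self]
    rw [h1]
    have h4 : ∑ p ∈ VV T, ∑ q ∈ VV T, (if m + Finsupp.single q 1 + Finsupp.single p 1 = b
          then R q p else 0)
        + ∑ p ∈ VV T, ∑ q ∈ VV T, (if m + Finsupp.single q 1 + Finsupp.single p 1 = b
          then R q p else 0) = 0 := by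
      conv_lhs => arg 2; rw [Finset.sum_comm]
      rw [← Finset.sum_add_distrib]
      refine Finset.sum_eq_zero fun p _ => ?_
      rw [← Finset.sum_add_distrib]
      refine Finset.sum_eq_zero fun q _ => ?_
      rw [add_right_comm m (Finsupp.single p 1) (Finsupp.single q 1)]
      split_ifs
      · have := hanti p q
        linarith
      · simp
    linarith

theorem Theta_surjective (hT : IsFan T h) (k : ℕ) : Function.Surjective (Theta hT k) := by
  have hone : ∀ (m : MM T k) (κ : Sig T h m.1.support), ∃ ρ : StressT T h (k + 1),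
      Theta hT k ρ = Pi.single m κ := by
    intro m κ
    obtain ⟨hmD, hmc, hm3⟩ := mem_MM.1 m.2
    obtain ⟨⟨t0, ht0, hst0⟩, hmk⟩ := mem_DD.1 hmD
    obtain ⟨u, v, huv, hs⟩ := Finset.card_eq_two.1 hmc
    obtain ⟨κ, hκ0⟩ := κ
    have hκ := hκ0
    rw [hs] at hκ hst0
    obtain ⟨R, hR1, hR2, hR3⟩ := sig_extend hT huv ht0 (hst0 (by simp)) (hst0 (by simp)) hκ
    have hRm : ∀ p, R p ∈ Rel T h (insert p m.1.support) := by rw [hs]; exact hR1
    have hR0 : ∀ p, p ∉ VV T → R p = 0 := by
      intro p hp
      apply Rel_eq_zero_of_not_face (hR1 p)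
      rintro ⟨t, ht, hst⟩
      rw [Finset.insert_subset_iff] at hst
      exact hp (mem_VV.2 ⟨t, ht, hst.1⟩)
    refine ⟨⟨stressOf (VV T) m.1 R, stressOf_mem hmk hRm hR2⟩, ?_⟩
    funext m'
    apply Subtype.ext
    funext w
    obtain ⟨hmD', hmc', hm3'⟩ := mem_MM.1 m'.2
    by_cases hw : w ∈ m'.1.support
    · have h1 := (mem_Sig.1 (Theta hT k (⟨stressOf (VV T) m.1 R, stressOf_mem hmk hRm hR2⟩) m').2).2.1 w hw
      have h2 := (mem_Sig.1 ((Pi.single m ⟨κ, hκ0⟩ : (m : MM T k) → Sig T h m.1.support) m').2).2.1 w hw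
      rw [h1, h2]
    · rw [Theta_apply hT _ m' hw]
      show stressOf (VV T) m.1 R (m'.1 + Finsupp.single w 1) = _
      by_cases hmm : m' = m
      · subst hmm
        rw [stressOf_at hR0, Pi.single_eq_same]
        apply hR3
        · intro hh; apply hw; rw [hs, hh]; simp
        · intro hh; apply hw; rw [hs, hh]; simp
      · rw [Pi.single_eq_of_ne hmm]
        show _ = (0 : P →₀ ℝ)
        unfold stressOf
        refine Finset.sum_eq_zero fun q _ => ?_
        rw [if_neg]
        intro hh
        apply hmm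
        apply Subtype.ext
        have hw1 := DFunLike.congr_fun hh w
        rw [Finsupp.add_apply, Finsupp.add_apply, Finsupp.single_eq_same,
          Finsupp.notMem_support_iff.1 hw, Finsupp.single_apply] at hw1
        have hwm : w ∉ m.1.support := by
          intro hwm
          have := hm3 w hwm
          omega
        rw [Finsupp.notMem_support_iff.1 hwm] at hw1
        have hqw : q = w := by
          by_contra hne
          rw [if_neg hne] at hw1
          omega
        rw [hqw] at hh
        exact (add_right_cancel hh).symm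
  intro κ
  choose f hf using fun m => hone m (κ m)
  refine ⟨∑ m, f m, ?_⟩
  rw [map_sum]
  simp only [hf]
  funext m
  rw [Finset.sum_apply, Finset.sum_eq_single m]
  · rw [Pi.single_eq_same]
  · intro m' _ hne
    rw [Pi.single_eq_of_ne hne.symm]
  · intro hn; exact absurd (Finset.mem_univ _) hn

end Pool.CB
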